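import Mathlib
set_option autoImplicit false

/-! Jacobi polynomials: coefficients, recurrence, structure relations, differential equation. -/

namespace Pool.Agent.H72.Is

open Polynomial

/-- the parameter is admissible: `s = (a + b) / 2`, `c = (b - a) / 2` with `a, b ≥ 1` -/
structure Adm (s c : ℝ) : Prop where
  one : 1 ≤ s
  le : |c| ≤ s - 1

noncomputable def uu (s c : ℝ) (k : ℕ) : ℝ := -(c * k) / (2 * k + s - 1)

noncomputable def bb (s c : ℝ) (k : ℕ) : ℝ := uu s c k - uu s c (k + 1)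

noncomputable def AA (s c : ℝ) (k : ℕ) : ℝ :=
  k * (k + s - 1) * ((2 * k + s - 1) ^ 2 - c ^ 2) / ((2 * k + s - 1) ^ 2 * (2 * k + s) * (2 * k + s - 2))

variable {s c : ℝ}

theorem uu_eq (h : Adm s c) (k : ℕ) : (2 * k + s - 1) * uu s c k = -(c * k) := by
  unfold uu
  rcases Nat.eq_zero_or_pos k with rfl | hk
  · simp
  · have h1 : (1 : ℝ) ≤ k := by exact_mod_cast hk
    have h2 := h.one
    have h3 : (2 * (k : ℝ) + s - 1) ≠ 0 := by
      have : 0 < 2 * (k : ℝ) + s - 1 := by linarith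
      exact this.ne'
    field_simp

theorem bb_rec (h : Adm s c) (k : ℕ) :
    (2 * k + 3 + s) * bb s c (k + 1) = (2 * k - 1 + s) * bb s c k := by
  have h0 := uu_eq h k
  have h1 := uu_eq h (k + 1)
  have h2 := uu_eq h (k + 2)
  unfold bb
  push_cast at h0 h1 h2 ⊢
  linear_combination 2 * h1 - h2 - h0

/-- `u' = -c - u_{k+1}` -/
theorem uu_sum (h : Adm s c) (k : ℕ) :
    uu s c k - (2 * k + s) * bb s c k = -c - uu s c (k + 1) := by
  have h0 := uu_eq h k
  have h1 := uu_eq h (k + 1)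
  unfold bb
  push_cast at h0 h1 ⊢
  linear_combination -h0 + h1

theorem uu_cross (h : Adm s c) (k : ℕ) :
    (k + 1) * (-c - uu s c (k + 1)) = (k + s) * uu s c (k + 1) := by
  have h1 := uu_eq h (k + 1)
  push_cast at h1
  linear_combination -h1

theorem den_pos (h : Adm s c) (k : ℕ) : 0 < 2 * ((k : ℝ) + 1) + s - 1 := by
  have := h.one
  have : (0 : ℝ) ≤ k := Nat.cast_nonneg k
  linarith

theorem uu_succ (h : Adm s c) (k : ℕ) : uu s c (k + 1) = -(c * (k + 1)) / (2 * (k + 1) + s - 1) := by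
  have h1 := uu_eq h (k + 1)
  have h2 := den_pos h k
  push_cast at h1
  rw [eq_div_iff h2.ne']
  linarith

theorem AA_zero : AA s c 0 = 0 := by
  unfold AA
  simp

theorem AA_succ (k : ℕ) : AA s c (k + 1) =
    (k + 1) * (k + s) * ((2 * (k + 1) + s - 1) ^ 2 - c ^ 2) /
      ((2 * (k + 1) + s - 1) ^ 2 * (2 * (k + 1) + s) * (2 * k + s)) := by
  unfold AA
  push_cast
  congr 1
  · ring
  · ring

/-- `(2k+s)(2k+2+s) A_{k+1} = (k+1)(k+s) - u_{k+1} u'_k` -/
theorem AA_id (h : Adm s c) (k : ℕ) : (2 * k + s) * (2 * k + 2 + s) * AA s c (k + 1) =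
    (k + 1) * (k + s) - uu s c (k + 1) * (-c - uu s c (k + 1)) := by
  have h1 := den_pos h k
  have h2 := h.one
  have h3 : (0 : ℝ) ≤ k := Nat.cast_nonneg k
  have h4 : 2 * (k : ℝ) + s ≠ 0 := by
    have : 0 < 2 * (k : ℝ) + s := by linarith
    exact this.ne'
  have h5 : 2 * ((k : ℝ) + 1) + s ≠ 0 := by
    have : 0 < 2 * ((k : ℝ) + 1) + s := by linarith
    exact this.ne'
  rw [AA_succ, uu_succ h]
  have h6 := h1.ne'
  field_simp
  ring

theorem AA_rec (h : Adm s c) (k : ℕ) : (2 * k + 2 + s) * AA s c (k + 1) -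
    (2 * k - 2 + s) * AA s c k = 1 - bb s c k ^ 2 := by
  have h1 := den_pos h k
  have h2 := h.one
  have h3 : (0 : ℝ) ≤ k := Nat.cast_nonneg k
  have h4 : 0 < 2 * (k : ℝ) + s := by linarith
  have h5 : 0 < 2 * ((k : ℝ) + 1) + s := by linarith
  rcases Nat.eq_zero_or_pos k with rfl | hk
  · rw [AA_zero, AA_succ]
    unfold bb
    rw [uu_succ h]
    unfold uu
    have h6 : s ≠ 0 := by linarith
    have h7 : 2 + s ≠ 0 := by linarith
    have h8 : 1 + s ≠ 0 := by linarith
    push_cast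
    simp only [mul_zero, zero_add, neg_zero, zero_div, mul_one, zero_sub]
    have e1 : 2 + s - 1 = 1 + s := by ring
    rw [e1]
    field_simp
    ring
  · obtain ⟨j, rfl⟩ : ∃ j, k = j + 1 := ⟨k - 1, by omega⟩
    have g1 := AA_id h j
    have g2 := AA_id h (j + 1)
    have g3 := uu_eq h (j + 1)
    have g4 := uu_eq h (j + 2)
    have h9 : (0 : ℝ) ≤ j := Nat.cast_nonneg j
    have k1 : 2 * (j : ℝ) + s ≠ 0 := by
      have : 0 < 2 * (j : ℝ) + s := by linarith
      exact this.ne'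
    have k2 : 2 * (j : ℝ) + 2 + s ≠ 0 := by
      have : 0 < 2 * (j : ℝ) + 2 + s := by linarith
      exact this.ne'
    unfold bb
    push_cast at g1 g2 g3 g4 ⊢
    have k3 : (2 * ((j : ℝ) + 1) + s) *
        (((2 * ((j : ℝ) + 1) + 2 + s) * AA s c (j + 1 + 1) - (2 * ((j : ℝ) + 1) - 2 + s) *
          AA s c (j + 1)) - (1 - (uu s c (j + 1) - uu s c (j + 1 + 1)) ^ 2)) = 0 := by
      linear_combination g2 - g1 + (uu s c (j + 1) - uu s c (j + 2)) * g3 -
        (uu s c (j + 1) - uu s c (j + 2)) * g4 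
    have k4 : (2 * ((j : ℝ) + 1) + s) ≠ 0 := by
      intro h
      apply k2
      linarith
    rcases mul_eq_zero.1 k3 with h | h
    · exact absurd h k4
    · linarith

theorem AA_pos (h : Adm s c) (k : ℕ) : 0 < AA s c (k + 1) := by
  have h1 := den_pos h k
  have h2 := h.one
  have h3 : (0 : ℝ) ≤ k := Nat.cast_nonneg k
  rw [AA_succ]
  have h4 : c ^ 2 < (2 * ((k : ℝ) + 1) + s - 1) ^ 2 := by
    rw [← sq_abs c]
    have h5 := h.le
    have h6 := abs_nonneg c
    exact pow_lt_pow_left₀ (by linarith) h6 (by norm_num)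
  have h7 : 0 < (k : ℝ) + s := by linarith
  have h8 : 0 < 2 * ((k : ℝ) + 1) + s := by linarith
  have h9 : 0 < 2 * (k : ℝ) + s := by linarith
  have h10 : 0 < (2 * ((k : ℝ) + 1) + s - 1) ^ 2 - c ^ 2 := by linarith
  positivity

/-- the monic orthogonal polynomials -/
noncomputable def pk (s c : ℝ) : ℕ → ℝ[X]
  | 0 => 1
  | 1 => X - C (bb s c 0)
  | (k + 2) => (X - C (bb s c (k + 1))) * pk s c (k + 1) - C (AA s c (k + 1)) * pk s c k

theorem pk_rec (k : ℕ) : pk s c (k + 2) =
    (X - C (bb s c (k + 1))) * pk s c (k + 1) - C (AA s c (k + 1)) * pk s c k := by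
  rw [pk]

/-- values and derivatives -/
noncomputable def hh (s c : ℝ) (k : ℕ) (t : ℝ) : ℝ := (pk s c k).eval t

noncomputable def dd (s c : ℝ) (k : ℕ) (t : ℝ) : ℝ := (derivative (pk s c k)).eval t

theorem hh_zero (t : ℝ) : hh s c 0 t = 1 := by simp [hh, pk]

theorem hh_one (t : ℝ) : hh s c 1 t = t - bb s c 0 := by simp [hh, pk]

theorem hh_rec (k : ℕ) (t : ℝ) : hh s c (k + 2) t =
    (t - bb s c (k + 1)) * hh s c (k + 1) t - AA s c (k + 1) * hh s c k t := by
  unfold hh
  rw [pk_rec]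
  simp

/-- uniform form of the recurrence -/
theorem hh_rec' (k : ℕ) (t : ℝ) : t * hh s c k t = hh s c (k + 1) t + bb s c k * hh s c k t +
    AA s c k * hh s c (k - 1) t := by
  rcases k with _ | k
  · rw [AA_zero, hh_one, hh_zero]
    ring
  · rw [hh_rec, Nat.add_sub_cancel]
    ring

theorem dd_zero (t : ℝ) : dd s c 0 t = 0 := by simp [dd, pk]

theorem dd_one (t : ℝ) : dd s c 1 t = 1 := by simp [dd, pk]

theorem dd_rec (k : ℕ) (t : ℝ) : dd s c (k + 2) t = hh s c (k + 1) t +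
    (t - bb s c (k + 1)) * dd s c (k + 1) t - AA s c (k + 1) * dd s c k t := by
  unfold hh dd
  rw [pk_rec]
  simp

/-- structure relations -/
theorem struct (h : Adm s c) (t : ℝ) : ∀ k : ℕ,
    ((1 - t ^ 2) * dd s c (k + 1) t = (-((k : ℝ) + 1) * t + uu s c (k + 1)) * hh s c (k + 1) t +
      (2 * (k : ℝ) + 2 + s) * AA s c (k + 1) * hh s c k t) ∧
    ((1 - t ^ 2) * dd s c k t = (((k : ℝ) + s) * t - c - uu s c (k + 1)) * hh s c k t -
      (2 * (k : ℝ) + s) * hh s c (k + 1) t) := by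
  intro k
  induction k with
  | zero =>
    have h1 := AA_rec h 0
    have h2 := uu_sum h 0
    have h3 : uu s c 0 = 0 := by simp [uu]
    have h4 : bb s c 0 = -uu s c 1 := by
      unfold bb
      rw [h3]
      ring
    rw [AA_zero] at h1
    rw [h4] at h1
    rw [h4, h3] at h2
    constructor
    · rw [dd_one, hh_one, hh_zero, h4]
      push_cast at h1 ⊢
      linear_combination -h1
    · rw [dd_zero, hh_one, hh_zero, h4]
      push_cast at h2 ⊢
      linear_combination h2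
  | succ k ih =>
    obtain ⟨i1, i2⟩ := ih
    have e1 := AA_rec h (k + 1)
    have e2 := bb_rec h k
    have e3 := uu_sum h (k + 1)
    have e4 := uu_sum h k
    have e5 : bb s c (k + 1) = uu s c (k + 1) - uu s c (k + 2) := rfl
    have e6 : bb s c k = uu s c k - uu s c (k + 1) := rfl
    constructor
    · rw [dd_rec, hh_rec]
      push_cast at e1 e2 e3 e4 ⊢
      linear_combination (t - bb s c (k + 1)) * i1 - AA s c (k + 1) * i2 -
        hh s c (k + 1) t * e1 + AA s c (k + 1) * hh s c k t * e3 +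
        hh s c (k + 1) t * (bb s c (k + 1) - t) * e5
    · rw [hh_rec, i1]
      push_cast at e3 ⊢
      linear_combination (hh s c (k + 1) t) * e3

end Pool.Agent.H72.Is
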