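import Mathlib
import Pool.Agent.H72.Is.I1
set_option autoImplicit false

/-! The differential equation, expansion of polynomials, and the functions `h_k(cos x)`. -/

namespace Pool.Agent.H72.Is

open Polynomial

variable {s c : ℝ}

noncomputable def d2 (s c : ℝ) (k : ℕ) (t : ℝ) : ℝ := (derivative (derivative (pk s c k))).eval t

theorem struct_poly (h : Adm s c) (k : ℕ) : (1 - X ^ 2) * derivative (pk s c k) =
    (C ((k : ℝ) + s) * X - C (c + uu s c (k + 1))) * pk s c k - C (2 * (k : ℝ) + s) * pk s c (k + 1) := by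
  apply Polynomial.funext
  intro t
  have h1 := (struct h t k).2
  unfold dd hh at h1
  simp only [eval_mul, eval_sub, eval_one, eval_pow, eval_X, eval_C]
  rw [h1]
  ring

theorem d2_eq (h : Adm s c) (k : ℕ) (t : ℝ) : (1 - t ^ 2) * d2 s c k t = 2 * t * dd s c k t +
    ((k : ℝ) + s) * hh s c k t + (((k : ℝ) + s) * t - c - uu s c (k + 1)) * dd s c k t -
    (2 * (k : ℝ) + s) * dd s c (k + 1) t := by
  have h1 := congrArg (fun p => (derivative p).eval t) (struct_poly h k)
  simp only [derivative_mul, derivative_sub, derivative_one, derivative_X_pow, derivative_C,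
    derivative_X, eval_add, eval_sub, eval_mul, eval_zero, eval_one, eval_pow, eval_X, eval_C] at h1
  unfold d2 dd hh
  push_cast at h1
  linear_combination h1

/-- **the differential equation** -/
theorem ode (h : Adm s c) (k : ℕ) (t : ℝ) (ht : t ^ 2 ≠ 1) :
    (1 - t ^ 2) * d2 s c k t + (c - (1 + s) * t) * dd s c k t + k * (k + s) * hh s c k t = 0 := by
  have h1 := d2_eq h k t
  obtain ⟨i1, i2⟩ := struct h t k
  have h2 := AA_id h k
  have h3 := uu_cross h k
  have hne : (1 - t ^ 2) ≠ 0 := by
    intro h0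
    apply ht
    linarith
  have key : (1 - t ^ 2) * ((1 - t ^ 2) * d2 s c k t + (c - (1 + s) * t) * dd s c k t +
      k * (k + s) * hh s c k t) = 0 := by
    linear_combination (1 - t ^ 2) * h1 - (2 * (k : ℝ) + s) * i1 -
      (-((k : ℝ) + 1) * t + uu s c (k + 1)) * i2 - hh s c k t * h2 + t * hh s c k t * h3
  rcases mul_eq_zero.1 key with h4 | h4
  · exact absurd h4 hne
  · exact h4

theorem pk_monic (k : ℕ) : (pk s c k).Monic ∧ (pk s c k).natDegree = k := by
  induction k using Nat.strong_induction_on with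
  | _ k ih =>
    match k, ih with
    | 0, _ => exact ⟨by simp [pk], by simp [pk]⟩
    | 1, _ => exact ⟨by simpa [pk] using monic_X_sub_C _, by simp [pk]⟩
    | (k + 2), ih =>
      obtain ⟨m1, d1⟩ := ih (k + 1) (by omega)
      obtain ⟨m0, d0⟩ := ih k (by omega)
      have hm : ((X - C (bb s c (k + 1))) * pk s c (k + 1)).Monic := (monic_X_sub_C _).mul m1
      have hd : ((X - C (bb s c (k + 1))) * pk s c (k + 1)).natDegree = k + 2 := by
        rw [(monic_X_sub_C _).natDegree_mul m1, natDegree_X_sub_C, d1]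
        ring
      have hlt : (C (AA s c (k + 1)) * pk s c k).degree <
          ((X - C (bb s c (k + 1))) * pk s c (k + 1)).degree := by
        rw [degree_eq_natDegree hm.ne_zero, hd]
        refine lt_of_le_of_lt degree_le_natDegree ?_
        have h1 := natDegree_C_mul_le (AA s c (k + 1)) (pk s c k)
        rw [d0] at h1
        exact_mod_cast (by omega : (C (AA s c (k + 1)) * pk s c k).natDegree < k + 2)
      rw [pk_rec]
      refine ⟨hm.sub_of_left hlt, ?_⟩
      rw [natDegree_sub_eq_left_of_natDegree_lt, hd]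
      refine lt_of_le_of_lt (natDegree_C_mul_le _ _) ?_
      rw [d0, hd]
      omega

/-- the complex version -/
noncomputable def pc (s c : ℝ) (k : ℕ) : ℂ[X] := (pk s c k).map (algebraMap ℝ ℂ)

theorem expand (K : ℕ) : ∀ F : ℂ[X], F.natDegree ≤ K →
    ∃ γ : ℕ → ℂ, F = ∑ k ∈ Finset.range (K + 1), C (γ k) * pc s c k := by
  induction K with
  | zero =>
    intro F hF
    refine ⟨fun _ => F.coeff 0, ?_⟩
    rw [eq_C_of_natDegree_le_zero hF]
    simp [pc, pk]
  | succ K ih =>
    intro F hF
    have hm := (pk_monic (s := s) (c := c) (K + 1)).1.map (algebraMap ℝ ℂ)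
    have hd : (pc s c (K + 1)).natDegree = K + 1 := by
      unfold pc
      rw [(pk_monic (s := s) (c := c) (K + 1)).1.natDegree_map]
      exact (pk_monic (K + 1)).2
    set G : ℂ[X] := F - C (F.coeff (K + 1)) * pc s c (K + 1) with hG
    have hGd : G.natDegree ≤ K := by
      rw [natDegree_le_iff_coeff_eq_zero]
      intro N hN
      rw [hG, coeff_sub, coeff_C_mul]
      rcases Nat.lt_or_ge (K + 1) N with h | h
      · have q1 : F.coeff N = 0 := coeff_eq_zero_of_natDegree_lt (lt_of_le_of_lt hF h)
        have q2 : (pc s c (K + 1)).coeff N = 0 := coeff_eq_zero_of_natDegree_lt (by rw [hd]; exact h)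
        rw [q1, q2]
        ring
      · have : N = K + 1 := by omega
        subst this
        have h2 : (pc s c (K + 1)).coeff (K + 1) = 1 := by
          have := hm.coeff_natDegree
          unfold pc at hd ⊢
          rwa [hd] at this
        rw [h2]
        ring
    obtain ⟨γ, hγ⟩ := ih G hGd
    refine ⟨fun k => if k = K + 1 then F.coeff (K + 1) else γ k, ?_⟩
    rw [Finset.sum_range_succ]
    simp only [if_true]
    have h3 : ∑ k ∈ Finset.range (K + 1), C (if k = K + 1 then F.coeff (K + 1) else γ k) * pc s c k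
        = G := by
      rw [hγ]
      refine Finset.sum_congr rfl fun k hk => ?_
      have : k ≠ K + 1 := by
        have := Finset.mem_range.1 hk
        omega
      rw [if_neg this]
    rw [h3, hG]
    ring

/-! ### trigonometric form -/

/-- the weight is `om ^ 2` -/
noncomputable def om (s c : ℝ) (x : ℝ) : ℝ :=
  Real.sin (x / 2) ^ ((s - c) / 2) * Real.cos (x / 2) ^ ((s + c) / 2)

/-- half the logarithmic derivative of the weight -/
noncomputable def g1 (s c : ℝ) (x : ℝ) : ℝ := (s * Real.cos x - c) / (2 * Real.sin x)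

theorem half_pos {x : ℝ} (h0 : 0 < x) (hπ : x < Real.pi) : 0 < Real.sin (x / 2) ∧
    0 < Real.cos (x / 2) := by
  constructor
  · exact Real.sin_pos_of_pos_of_lt_pi (by linarith) (by linarith)
  · exact Real.cos_pos_of_mem_Ioo ⟨by linarith, by linarith⟩

theorem om_pos (s c : ℝ) {x : ℝ} (h0 : 0 < x) (hπ : x < Real.pi) : 0 < om s c x := by
  obtain ⟨h1, h2⟩ := half_pos h0 hπ
  unfold om
  positivity

theorem om_deriv (s c : ℝ) {x : ℝ} (h0 : 0 < x) (hπ : x < Real.pi) :
    HasDerivAt (om s c) (om s c x * g1 s c x) x := by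
  obtain ⟨h1, h2⟩ := half_pos h0 hπ
  have e1 : HasDerivAt (fun x : ℝ => x / 2) (1 / 2) x := (hasDerivAt_id x).div_const 2
  have e2 := e1.sin.rpow_const (p := (s - c) / 2) (Or.inl h1.ne')
  have e3 := e1.cos.rpow_const (p := (s + c) / 2) (Or.inl h2.ne')
  refine (e2.mul e3).congr_deriv ?_
  unfold om g1
  have hs : Real.sin x = 2 * Real.sin (x / 2) * Real.cos (x / 2) := by
    rw [← Real.sin_two_mul]; ring_nf
  have hc : Real.cos x = Real.cos (x / 2) ^ 2 - Real.sin (x / 2) ^ 2 := by
    rw [← Real.cos_two_mul']; ring_nf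
  have hp := Real.sin_sq_add_cos_sq (x / 2)
  rw [Real.rpow_sub_one h1.ne', Real.rpow_sub_one h2.ne', hs, hc]
  set S := Real.sin (x / 2)
  set K := Real.cos (x / 2)
  have hS := h1.ne'
  have hK := h2.ne'
  field_simp
  linear_combination (-c) * hp

/-- the functions `h_k` -/
noncomputable def hx (s c : ℝ) (k : ℕ) (x : ℝ) : ℝ := hh s c k (Real.cos x)

noncomputable def hx' (s c : ℝ) (k : ℕ) (x : ℝ) : ℝ := -(Real.sin x * dd s c k (Real.cos x))

theorem hh_deriv (k : ℕ) (t : ℝ) : HasDerivAt (hh s c k) (dd s c k t) t :=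
  (pk s c k).hasDerivAt t

theorem dd_deriv (k : ℕ) (t : ℝ) : HasDerivAt (dd s c k) (d2 s c k t) t :=
  (derivative (pk s c k)).hasDerivAt t

theorem hx_deriv (k : ℕ) (x : ℝ) : HasDerivAt (hx s c k) (hx' s c k x) x := by
  have h := (hh_deriv (s := s) (c := c) k (Real.cos x)).comp x (Real.hasDerivAt_cos x)
  refine h.congr_deriv ?_
  unfold hx'
  ring

theorem hx'_deriv (h : Adm s c) (k : ℕ) {x : ℝ} (h0 : 0 < x) (hπ : x < Real.pi) :
    HasDerivAt (hx' s c k) (-(2 * g1 s c x * hx' s c k x) - k * (k + s) * hx s c k x) x := by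
  have e1 := (dd_deriv (s := s) (c := c) k (Real.cos x)).comp x (Real.hasDerivAt_cos x)
  have e2 := ((Real.hasDerivAt_sin x).mul e1).neg
  refine e2.congr_deriv ?_
  have hs : 0 < Real.sin x := Real.sin_pos_of_pos_of_lt_pi h0 hπ
  have hp := Real.sin_sq_add_cos_sq x
  have ht : Real.cos x ^ 2 ≠ 1 := by
    intro h1
    have : Real.sin x ^ 2 = 0 := by linarith
    have := pow_pos hs 2
    linarith
  have h1 := ode h k (Real.cos x) ht
  unfold hx' hx g1
  simp only [Function.comp_apply]
  have h2 : 1 - Real.cos x ^ 2 = Real.sin x ^ 2 := by linarith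
  rw [h2] at h1
  field_simp
  linear_combination h1

end Pool.Agent.H72.Is
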