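import Mathlib
import Pool.Agent.H72.Is.I2
set_option autoImplicit false

/-! Orthogonality and the normalised functions. -/

namespace Pool.Agent.H72.Is

open MeasureTheory intervalIntegral Set

variable {s c : ℝ}

theorem Adm.e1 (h : Adm s c) : 0 < (s - c) / 2 := by
  have h1 := h.le
  have h2 := le_abs_self c
  linarith

theorem Adm.e2 (h : Adm s c) : 0 < (s + c) / 2 := by
  have h1 := h.le
  have h2 := neg_abs_le c
  linarith

theorem om_cont (h : Adm s c) : Continuous (om s c) := by
  unfold om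
  refine Continuous.mul ?_ ?_
  · exact (Real.continuous_sin.comp (continuous_id.div_const 2)).rpow_const fun x => Or.inr h.e1.le
  · exact (Real.continuous_cos.comp (continuous_id.div_const 2)).rpow_const fun x => Or.inr h.e2.le

theorem om_zero (h : Adm s c) : om s c 0 = 0 := by
  unfold om
  rw [zero_div, Real.sin_zero, Real.zero_rpow h.e1.ne', zero_mul]

theorem om_pi (h : Adm s c) : om s c Real.pi = 0 := by
  unfold om
  rw [Real.cos_pi_div_two, Real.zero_rpow h.e2.ne', mul_zero]

theorem om_nonneg {x : ℝ} (h0 : 0 ≤ x) (hπ : x ≤ Real.pi) : 0 ≤ om s c x := by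
  unfold om
  have h1 : 0 ≤ Real.sin (x / 2) := Real.sin_nonneg_of_nonneg_of_le_pi (by linarith) (by
    have := Real.pi_pos
    linarith)
  have h2 : 0 ≤ Real.cos (x / 2) := Real.cos_nonneg_of_mem_Icc ⟨by linarith, by linarith⟩
  positivity

theorem om_le_one (h : Adm s c) {x : ℝ} (h0 : 0 ≤ x) (hπ : x ≤ Real.pi) : om s c x ≤ 1 := by
  unfold om
  have h1 : 0 ≤ Real.sin (x / 2) := Real.sin_nonneg_of_nonneg_of_le_pi (by linarith) (by
    have := Real.pi_pos
    linarith)
  have h2 : 0 ≤ Real.cos (x / 2) := Real.cos_nonneg_of_mem_Icc ⟨by linarith, by linarith⟩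
  have h3 := Real.rpow_le_one h1 (Real.sin_le_one _) h.e1.le
  have h4 := Real.rpow_le_one h2 (Real.cos_le_one _) h.e2.le
  have h5 : 0 ≤ Real.cos (x / 2) ^ ((s + c) / 2) := by positivity
  calc _ ≤ 1 * 1 := mul_le_mul h3 h4 h5 zero_le_one
    _ = 1 := mul_one _

theorem hx_cont (k : ℕ) : Continuous (hx s c k) :=
  continuous_iff_continuousAt.2 fun x => (hx_deriv k x).continuousAt

theorem hx'_cont (k : ℕ) : Continuous (hx' s c k) := by
  unfold hx'
  have h1 : Continuous (dd s c k) := continuous_iff_continuousAt.2 fun x => (dd_deriv k x).continuousAt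
  exact (Real.continuous_sin.mul (h1.comp Real.continuous_cos)).neg

noncomputable def ip (s c : ℝ) (j k : ℕ) : ℝ :=
  ∫ x in (0 : ℝ)..Real.pi, om s c x ^ 2 * (hx s c j x * hx s c k x)

theorem ip_symm (j k : ℕ) : ip s c j k = ip s c k j := by
  unfold ip
  congr 1
  funext x
  ring

theorem ip_orth (h : Adm s c) {j k : ℕ} (hjk : j ≠ k) : ip s c j k = 0 := by
  have hG : ContinuousOn (fun x => om s c x ^ 2 * (hx' s c j x * hx s c k x -
      hx' s c k x * hx s c j x)) (Icc 0 Real.pi) := by
    have := om_cont h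
    have := hx_cont (s := s) (c := c) j
    have := hx_cont (s := s) (c := c) k
    have := hx'_cont (s := s) (c := c) j
    have := hx'_cont (s := s) (c := c) k
    fun_prop
  have hI : IntervalIntegrable (fun x => ((k : ℝ) * (k + s) - j * (j + s)) *
      (om s c x ^ 2 * (hx s c j x * hx s c k x))) volume 0 Real.pi := by
    apply Continuous.intervalIntegrable
    have := om_cont h
    have := hx_cont (s := s) (c := c) j
    have := hx_cont (s := s) (c := c) k
    fun_prop
  have h1 := integral_eq_sub_of_hasDerivAt_of_le Real.pi_pos.le hG (fun x hx0 => ?_) hI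
  · rw [intervalIntegral.integral_const_mul, om_zero h, om_pi h] at h1
    have h2 : ((k : ℝ) * (k + s) - j * (j + s)) ≠ 0 := by
      have e : ((k : ℝ) * (k + s) - j * (j + s)) = ((k : ℝ) - j) * (k + j + s) := by ring
      rw [e]
      refine mul_ne_zero ?_ ?_
      · rw [sub_ne_zero]
        exact_mod_cast hjk.symm
      · have := h.one
        have : (0 : ℝ) ≤ k := Nat.cast_nonneg k
        have : (0 : ℝ) ≤ j := Nat.cast_nonneg j
        have : 0 < (k : ℝ) + j + s := by linarith
        exact this.ne'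
    unfold ip
    have h3 : ((k : ℝ) * (k + s) - j * (j + s)) *
        ∫ x in (0 : ℝ)..Real.pi, om s c x ^ 2 * (hx s c j x * hx s c k x) = 0 := by
      rw [h1]
      ring
    rcases mul_eq_zero.1 h3 with h4 | h4
    · exact absurd h4 h2
    · exact h4
  · have e0 := om_deriv s c hx0.1 hx0.2
    have e1 := hx_deriv (s := s) (c := c) j x
    have e2 := hx_deriv (s := s) (c := c) k x
    have e3 := hx'_deriv h j hx0.1 hx0.2
    have e4 := hx'_deriv h k hx0.1 hx0.2
    refine ((e0.pow 2).mul ((e3.mul e2).sub (e4.mul e1))).congr_deriv ?_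
    simp only [Pi.pow_apply, Nat.cast_ofNat, Nat.add_one_sub_one, pow_one, Pi.mul_apply,
      Pi.sub_apply]
    ring

theorem ip_rec (h : Adm s c) (k : ℕ) : ip s c (k + 1) (k + 1) = AA s c (k + 1) * ip s c k k := by
  have hint : ∀ i j : ℕ, IntervalIntegrable (fun x => om s c x ^ 2 * (hx s c i x * hx s c j x))
      volume 0 Real.pi := by
    intro i j
    apply Continuous.intervalIntegrable
    have := om_cont h
    have := hx_cont (s := s) (c := c) i
    have := hx_cont (s := s) (c := c) j
    fun_prop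
  have hcos : ∀ (i : ℕ) (x : ℝ), Real.cos x * hx s c i x = hx s c (i + 1) x +
      bb s c i * hx s c i x + AA s c i * hx s c (i - 1) x := fun i x => hh_rec' i (Real.cos x)
  have hexp : ∀ i j : ℕ, ∫ x in (0 : ℝ)..Real.pi, om s c x ^ 2 * (Real.cos x * hx s c i x * hx s c j x)
      = ip s c (i + 1) j + bb s c i * ip s c i j + AA s c i * ip s c (i - 1) j := by
    intro i j
    unfold ip
    rw [← intervalIntegral.integral_const_mul, ← intervalIntegral.integral_const_mul,
      ← intervalIntegral.integral_add (hint _ _) ((hint _ _).const_mul _),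
      ← intervalIntegral.integral_add ((hint _ _).add ((hint _ _).const_mul _))
        ((hint _ _).const_mul _)]
    congr 1
    funext x
    rw [hcos]
    ring
  have h1 := hexp k (k + 1)
  have h2 := hexp (k + 1) k
  have h3 : ∫ x in (0 : ℝ)..Real.pi, om s c x ^ 2 * (Real.cos x * hx s c k x * hx s c (k + 1) x) =
      ∫ x in (0 : ℝ)..Real.pi, om s c x ^ 2 * (Real.cos x * hx s c (k + 1) x * hx s c k x) := by
    congr 1
    funext x
    ring
  rw [h1, h2, Nat.add_sub_cancel, ip_orth h (show k + 1 + 1 ≠ k by omega),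
    ip_orth h (show k + 1 ≠ k by omega), ip_orth h (show k ≠ k + 1 by omega)] at h3
  rcases k with _ | k
  · rw [AA_zero] at h3
    linarith
  · rw [Nat.add_sub_cancel, ip_orth h (show k ≠ k + 1 + 1 by omega)] at h3
    linarith

theorem ip_pos (h : Adm s c) (k : ℕ) : 0 < ip s c k k := by
  induction k with
  | zero =>
    unfold ip
    refine intervalIntegral_pos_of_pos_on ?_ (fun x hx0 => ?_) Real.pi_pos
    · apply Continuous.intervalIntegrable
      have := om_cont h
      have := hx_cont (s := s) (c := c) 0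
      fun_prop
    · have := om_pos s c hx0.1 hx0.2
      have e : hx s c 0 x = 1 := hh_zero _
      rw [e]
      positivity
  | succ k ih =>
    rw [ip_rec h]
    exact mul_pos (AA_pos h k) ih

noncomputable def nk (s c : ℝ) (k : ℕ) : ℝ := (Real.sqrt (ip s c k k))⁻¹

noncomputable def ak (s c : ℝ) (k : ℕ) : ℝ := Real.sqrt (AA s c k)

theorem nk_pos (h : Adm s c) (k : ℕ) : 0 < nk s c k := by
  unfold nk
  have := Real.sqrt_pos.2 (ip_pos h k)
  positivity

theorem ak_pos (h : Adm s c) (k : ℕ) : 0 < ak s c (k + 1) := Real.sqrt_pos.2 (AA_pos h k)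

theorem ak_sq (h : Adm s c) (k : ℕ) : ak s c (k + 1) ^ 2 = AA s c (k + 1) :=
  Real.sq_sqrt (AA_pos h k).le

theorem nk_rec (h : Adm s c) (k : ℕ) : nk s c k = nk s c (k + 1) * ak s c (k + 1) := by
  unfold nk ak
  rw [ip_rec h, Real.sqrt_mul (AA_pos h k).le]
  have h1 := (Real.sqrt_pos.2 (AA_pos h k)).ne'
  have h2 := (Real.sqrt_pos.2 (ip_pos h k)).ne'
  field_simp

/-- the orthonormal functions -/
noncomputable def ph (s c : ℝ) (k : ℕ) (x : ℝ) : ℝ := nk s c k * om s c x * hx s c k x

noncomputable def phd (s c : ℝ) (k : ℕ) (x : ℝ) : ℝ :=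
  nk s c k * om s c x * (g1 s c x * hx s c k x + hx' s c k x)

noncomputable def kp (s : ℝ) (k : ℕ) : ℝ := k + s / 2

noncomputable def Vp (s c : ℝ) (x : ℝ) : ℝ :=
  ((s * Real.cos x - c) ^ 2 - 2 * (s - c * Real.cos x)) / (4 * Real.sin x ^ 2) + s ^ 2 / 4

noncomputable def ee (s c : ℝ) (k : ℕ) : ℝ := c / 2 + uu s c (k + 1)

theorem ph_cont (h : Adm s c) (k : ℕ) : Continuous (ph s c k) :=
  (continuous_const.mul (om_cont h)).mul (hx_cont k)

theorem ph_orth (h : Adm s c) {j k : ℕ} (hjk : j ≠ k) :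
    ∫ x in (0 : ℝ)..Real.pi, ph s c j x * ph s c k x = 0 := by
  have e : ∀ x, ph s c j x * ph s c k x = (nk s c j * nk s c k) *
      (om s c x ^ 2 * (hx s c j x * hx s c k x)) := by
    intro x
    unfold ph
    ring
  simp only [e]
  rw [intervalIntegral.integral_const_mul]
  have := ip_orth h hjk
  unfold ip at this
  rw [this, mul_zero]

theorem ph_norm (h : Adm s c) (k : ℕ) : ∫ x in (0 : ℝ)..Real.pi, ph s c k x * ph s c k x = 1 := by
  have e : ∀ x, ph s c k x * ph s c k x = (nk s c k * nk s c k) *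
      (om s c x ^ 2 * (hx s c k x * hx s c k x)) := by
    intro x
    unfold ph
    ring
  simp only [e]
  rw [intervalIntegral.integral_const_mul]
  have h1 := ip_pos h k
  have h2 : nk s c k * nk s c k = (ip s c k k)⁻¹ := by
    unfold nk
    rw [← mul_inv, Real.mul_self_sqrt h1.le]
  have h3 : ∫ x in (0 : ℝ)..Real.pi, om s c x ^ 2 * (hx s c k x * hx s c k x) = ip s c k k := rfl
  rw [h2, h3, inv_mul_cancel₀ h1.ne']

theorem ph_deriv (k : ℕ) {x : ℝ} (h0 : 0 < x) (hπ : x < Real.pi) :
    HasDerivAt (ph s c k) (phd s c k x) x := by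
  have e0 := om_deriv s c h0 hπ
  have e1 := hx_deriv (s := s) (c := c) k x
  refine ((e0.const_mul (nk s c k)).mul e1).congr_deriv ?_
  unfold phd
  ring

theorem g1_deriv {x : ℝ} (h0 : 0 < x) (hπ : x < Real.pi) :
    HasDerivAt (g1 s c) (-(s - c * Real.cos x) / (2 * Real.sin x ^ 2)) x := by
  have hs : 0 < Real.sin x := Real.sin_pos_of_pos_of_lt_pi h0 hπ
  have e1 := ((Real.hasDerivAt_cos x).const_mul s).sub_const c
  have e2 := (Real.hasDerivAt_sin x).const_mul 2
  have e3 := e1.div e2 (by positivity)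
  refine e3.congr_deriv ?_
  have hp := Real.sin_sq_add_cos_sq x
  have := hs.ne'
  field_simp
  linear_combination (-s) * hp

theorem phd_deriv (h : Adm s c) (k : ℕ) {x : ℝ} (h0 : 0 < x) (hπ : x < Real.pi) :
    HasDerivAt (phd s c k) ((Vp s c x - kp s k ^ 2) * ph s c k x) x := by
  have e0 := om_deriv s c h0 hπ
  have e1 := hx_deriv (s := s) (c := c) k x
  have e2 := hx'_deriv h k h0 hπ
  have e3 := g1_deriv (s := s) (c := c) h0 hπ
  refine ((e0.const_mul (nk s c k)).mul ((e3.mul e1).add e2)).congr_deriv ?_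
  have hs : 0 < Real.sin x := Real.sin_pos_of_pos_of_lt_pi h0 hπ
  have hs' := hs.ne'
  have hV : Vp s c x = g1 s c x ^ 2 + -(s - c * Real.cos x) / (2 * Real.sin x ^ 2) + s ^ 2 / 4 := by
    unfold Vp g1
    field_simp
    ring
  rw [hV]
  unfold ph kp
  simp only [Pi.mul_apply, Pi.add_apply]
  ring

/-- forward relation -/
theorem fwd (h : Adm s c) (k : ℕ) {x : ℝ} (h0 : 0 < x) (hπ : x < Real.pi) :
    2 * kp s k * ak s c (k + 1) * ph s c (k + 1) x =
      Real.sin x * phd s c k x + (kp s k * Real.cos x - ee s c k) * ph s c k x := by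
  have hs : 0 < Real.sin x := Real.sin_pos_of_pos_of_lt_pi h0 hπ
  have hg : Real.sin x * g1 s c x = (s * Real.cos x - c) / 2 := by
    unfold g1
    have := hs.ne'
    field_simp
  have hp := Real.sin_sq_add_cos_sq x
  have h2 := (struct h (Real.cos x) k).2
  have h3 : (1 - Real.cos x ^ 2) = Real.sin x ^ 2 := by linarith
  rw [h3] at h2
  unfold ph phd kp ee hx' hx
  rw [nk_rec h k]
  linear_combination (-(nk s c (k + 1) * ak s c (k + 1) * om s c x * hh s c k (Real.cos x))) * hg +
    (nk s c (k + 1) * ak s c (k + 1) * om s c x) * h2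

/-- backward relation -/
theorem bwd (h : Adm s c) (k : ℕ) {x : ℝ} (h0 : 0 < x) (hπ : x < Real.pi) :
    2 * kp s (k + 1) * ak s c (k + 1) * ph s c k x =
      -(Real.sin x * phd s c (k + 1) x) +
        (kp s (k + 1) * Real.cos x - ee s c k) * ph s c (k + 1) x := by
  have hs : 0 < Real.sin x := Real.sin_pos_of_pos_of_lt_pi h0 hπ
  have hg : Real.sin x * g1 s c x = (s * Real.cos x - c) / 2 := by
    unfold g1
    have := hs.ne'
    field_simp
  have hp := Real.sin_sq_add_cos_sq x
  have h2 := (struct h (Real.cos x) k).1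
  have h3 : (1 - Real.cos x ^ 2) = Real.sin x ^ 2 := by linarith
  rw [h3] at h2
  have h4 := ak_sq h k
  unfold ph phd kp ee hx' hx
  rw [nk_rec h k]
  push_cast
  linear_combination (nk s c (k + 1) * om s c x * hh s c (k + 1) (Real.cos x)) * hg -
    (nk s c (k + 1) * om s c x) * h2 +
    (2 * (k : ℝ) + 2 + s) * nk s c (k + 1) * om s c x * hh s c k (Real.cos x) * h4

end Pool.Agent.H72.Is
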