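import Mathlib
import Pool.Agent.H72.Is.I3
set_option autoImplicit false

/-! The amplitude: coefficients and the value at `π / 2`. -/

namespace Pool.Agent.H72.Is

open MeasureTheory intervalIntegral Set

variable {s c : ℝ}

theorem kp_ge (h : Adm s c) (k : ℕ) : ((k : ℝ) + 1) / 2 ≤ kp s k := by
  unfold kp
  have := h.one
  have : (0 : ℝ) ≤ k := Nat.cast_nonneg k
  linarith

theorem kp_pos (h : Adm s c) (k : ℕ) : 0 < kp s k := by
  have h1 := kp_ge h k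
  have : (0 : ℝ) ≤ k := Nat.cast_nonneg k
  linarith

theorem kp_succ (k : ℕ) : kp s (k + 1) = kp s k + 1 := by
  unfold kp
  push_cast
  ring

theorem c_sq_le (h : Adm s c) : c ^ 2 ≤ (s - 1) ^ 2 := by
  rw [← sq_abs c]
  exact pow_le_pow_left₀ (abs_nonneg c) h.le 2

theorem AA_form (h : Adm s c) (k : ℕ) : 4 * AA s c (k + 1) =
    ((2 * k + 1 + s) ^ 2 - (s - 1) ^ 2) * ((2 * k + 1 + s) ^ 2 - c ^ 2) /
      ((2 * k + 1 + s) ^ 2 * ((2 * k + 1 + s) ^ 2 - 1)) := by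
  have h2 := h.one
  have h3 : (0 : ℝ) ≤ k := Nat.cast_nonneg k
  have h4 : 2 * (k : ℝ) + s ≠ 0 := by
    have : 0 < 2 * (k : ℝ) + s := by linarith
    exact this.ne'
  have h5 : 2 * ((k : ℝ) + 1) + s ≠ 0 := by
    have : 0 < 2 * ((k : ℝ) + 1) + s := by linarith
    exact this.ne'
  have h6 : 2 * (k : ℝ) + 1 + s ≠ 0 := by
    have : 0 < 2 * (k : ℝ) + 1 + s := by linarith
    exact this.ne'
  have e1 : (2 * (k : ℝ) + 1 + s) ^ 2 - 1 = (2 * k + s) * (2 * (k + 1) + s) := by ring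
  have e2 : 2 * ((k : ℝ) + 1) + s - 1 = 2 * k + 1 + s := by ring
  rw [AA_succ, e1, e2]
  field_simp
  ring

theorem AA_lower (h : Adm s c) (k : ℕ) : (4 * s / (s + 1) ^ 2) ^ 2 ≤ 4 * AA s c (k + 1) := by
  have h2 := h.one
  have h3 : (0 : ℝ) ≤ k := Nat.cast_nonneg k
  have hc := c_sq_le h
  obtain ⟨m, hm⟩ : ∃ m, m = 2 * (k : ℝ) + 1 + s := ⟨_, rfl⟩
  have hm1 : s + 1 ≤ m := by rw [hm]; linarith
  have hm2 : 0 < m ^ 2 - 1 := by nlinarith
  have hm0 : 0 < m := by linarith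
  have g1 : 4 * s / (s + 1) ^ 2 ≤ (m ^ 2 - (s - 1) ^ 2) / m ^ 2 := by
    rw [div_le_div_iff₀ (by positivity) (by positivity)]
    nlinarith [mul_nonneg (sub_nonneg.2 hm1) hm0.le, sq_nonneg (s - 1),
      mul_nonneg (sq_nonneg (s - 1)) (mul_nonneg (sub_nonneg.2 hm1) (by linarith : 0 ≤ m + (s + 1)))]
  have g0 : 0 ≤ 4 * s / (s + 1) ^ 2 := by positivity
  have g2 : (4 * s / (s + 1) ^ 2) ^ 2 ≤ ((m ^ 2 - (s - 1) ^ 2) / m ^ 2) ^ 2 :=
    pow_le_pow_left₀ g0 g1 2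
  refine g2.trans ?_
  rw [AA_form h, ← hm, div_pow, div_le_div_iff₀ (by positivity) (by positivity)]
  have g3 : 0 ≤ m ^ 2 - (s - 1) ^ 2 := by nlinarith
  have g4 : m ^ 2 - (s - 1) ^ 2 ≤ m ^ 2 - c ^ 2 := by linarith
  have g5 : 0 ≤ m ^ 2 - c ^ 2 := by linarith
  calc (m ^ 2 - (s - 1) ^ 2) ^ 2 * (m ^ 2 * (m ^ 2 - 1))
      = (m ^ 2 - (s - 1) ^ 2) * (m ^ 2 - (s - 1) ^ 2) * (m ^ 2 * (m ^ 2 - 1)) := by ring
    _ ≤ (m ^ 2 - (s - 1) ^ 2) * (m ^ 2 - c ^ 2) * (m ^ 2 * (m ^ 2)) := by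
        have : m ^ 2 * (m ^ 2 - 1) ≤ m ^ 2 * m ^ 2 := by nlinarith
        have : 0 ≤ m ^ 2 * (m ^ 2 - 1) := by positivity
        gcongr
    _ = (m ^ 2 - (s - 1) ^ 2) * (m ^ 2 - c ^ 2) * (m ^ 2) ^ 2 := by ring

theorem ak_lower (h : Adm s c) (k : ℕ) : 4 * s / (s + 1) ^ 2 ≤ 2 * ak s c (k + 1) := by
  have h1 := AA_lower h k
  have h2 := ak_sq h k
  have h3 := ak_pos h k
  have h4 := h.one
  have h5 : 0 ≤ 4 * s / (s + 1) ^ 2 := by positivity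
  have h6 : (4 * s / (s + 1) ^ 2) ^ 2 ≤ (2 * ak s c (k + 1)) ^ 2 := by
    rw [mul_pow, h2]
    linarith
  exact (pow_le_pow_iff_left₀ h5 (by positivity) two_ne_zero).1 h6

theorem ak_near (h : Adm s c) (k : ℕ) :
    |2 * ak s c (k + 1) - 1| ≤ (1 + (s - 1) ^ 2) ^ 2 / ((k : ℝ) + 1) ^ 2 := by
  have h2 := h.one
  have h3 : (0 : ℝ) ≤ k := Nat.cast_nonneg k
  have hc := c_sq_le h
  have hc0 := sq_nonneg c
  have hd0 := sq_nonneg (s - 1)
  obtain ⟨m, hm⟩ : ∃ m, m = 2 * (k : ℝ) + 1 + s := ⟨_, rfl⟩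
  have hm1 : (k : ℝ) + 2 ≤ m := by rw [hm]; linarith
  have hm2 : ((k : ℝ) + 1) ^ 2 ≤ m ^ 2 - 1 := by nlinarith
  have hm3 : 0 < m ^ 2 - 1 := by nlinarith
  have hm0 : 0 < m := by linarith
  have g1 : |4 * AA s c (k + 1) - 1| ≤ (1 + (s - 1) ^ 2) ^ 2 / ((k : ℝ) + 1) ^ 2 := by
    have e1 : 4 * AA s c (k + 1) - 1 = ((1 - (s - 1) ^ 2 - c ^ 2) * m ^ 2 + (s - 1) ^ 2 * c ^ 2) /
        (m ^ 2 * (m ^ 2 - 1)) := by
      rw [AA_form h, ← hm]
      have := hm3.ne'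
      field_simp
      ring
    rw [e1, abs_div, abs_of_pos (show 0 < m ^ 2 * (m ^ 2 - 1) by positivity)]
    have e2 : |(1 - (s - 1) ^ 2 - c ^ 2) * m ^ 2 + (s - 1) ^ 2 * c ^ 2| ≤
        (1 + (s - 1) ^ 2) ^ 2 * m ^ 2 := by
      have m1 : 1 ≤ m ^ 2 := by nlinarith
      have p1 : (s - 1) ^ 2 * c ^ 2 ≤ ((s - 1) ^ 2) ^ 2 * m ^ 2 := by
        calc (s - 1) ^ 2 * c ^ 2 ≤ (s - 1) ^ 2 * (s - 1) ^ 2 := by gcongr
          _ = ((s - 1) ^ 2) ^ 2 * 1 := by ring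
          _ ≤ _ := by gcongr
      have p2 : 0 ≤ (s - 1) ^ 2 * c ^ 2 := by positivity
      rw [abs_le]
      constructor
      · nlinarith [mul_nonneg hd0 (sq_nonneg m), mul_nonneg hc0 (sq_nonneg m),
          mul_le_mul_of_nonneg_right hc (sq_nonneg m), mul_nonneg (sq_nonneg ((s-1)^2)) (sq_nonneg m)]
      · nlinarith [mul_nonneg hd0 (sq_nonneg m), mul_nonneg hc0 (sq_nonneg m)]
    calc |(1 - (s - 1) ^ 2 - c ^ 2) * m ^ 2 + (s - 1) ^ 2 * c ^ 2| / (m ^ 2 * (m ^ 2 - 1))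
        ≤ ((1 + (s - 1) ^ 2) ^ 2 * m ^ 2) / (m ^ 2 * ((k : ℝ) + 1) ^ 2) := by gcongr
      _ = _ := by field_simp
  refine le_trans ?_ g1
  have h5 := ak_pos h k
  have h6 := ak_sq h k
  have e3 : 4 * AA s c (k + 1) - 1 = (2 * ak s c (k + 1) - 1) * (2 * ak s c (k + 1) + 1) := by
    rw [← h6]; ring
  rw [e3, abs_mul, abs_of_pos (show 0 < 2 * ak s c (k + 1) + 1 by linarith)]
  have h7 := abs_nonneg (2 * ak s c (k + 1) - 1)
  nlinarith

theorem ee_bound (h : Adm s c) (k : ℕ) : |ee s c k| ≤ (s - 1) ^ 2 / ((k : ℝ) + 1) := by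
  have h2 := h.one
  have h3 : (0 : ℝ) ≤ k := Nat.cast_nonneg k
  have h4 : 0 < 2 * ((k : ℝ) + 1) + s - 1 := den_pos h k
  have e1 : ee s c k = c * (s - 1) / (2 * (2 * ((k : ℝ) + 1) + s - 1)) := by
    unfold ee
    rw [uu_succ h]
    have := h4.ne'
    field_simp
    ring
  rw [e1, abs_div, abs_of_pos (show 0 < 2 * (2 * ((k : ℝ) + 1) + s - 1) by positivity), abs_mul,
    abs_of_nonneg (show 0 ≤ s - 1 by linarith)]
  have h5 := h.le
  calc |c| * (s - 1) / (2 * (2 * ((k : ℝ) + 1) + s - 1))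
      ≤ (s - 1) * (s - 1) / ((k : ℝ) + 1) := by
        have : 0 ≤ s - 1 := by linarith
        gcongr
        linarith
    _ = _ := by ring

theorem ee_kp (h : Adm s c) (k : ℕ) (j : ℕ) (hj : k ≤ j) :
    |ee s c k| / kp s j ≤ 2 * (s - 1) ^ 2 / ((k : ℝ) + 1) ^ 2 := by
  have h1 := ee_bound h k
  have h2 := kp_ge h j
  have h3 : (0 : ℝ) ≤ k := Nat.cast_nonneg k
  have h4 : (k : ℝ) ≤ j := by exact_mod_cast hj
  have h5 : ((k : ℝ) + 1) / 2 ≤ kp s j := by linarith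
  calc |ee s c k| / kp s j ≤ ((s - 1) ^ 2 / ((k : ℝ) + 1)) / (((k : ℝ) + 1) / 2) := by gcongr
    _ = _ := by field_simp

/-- the value and the scaled derivative at `π / 2` -/
noncomputable def Xk (s c : ℝ) (k : ℕ) : ℝ := ph s c k (Real.pi / 2)

noncomputable def Yk (s c : ℝ) (k : ℕ) : ℝ := phd s c k (Real.pi / 2) / kp s k

/-- the complex amplitude -/
noncomputable def ze (s c : ℝ) (k : ℕ) (x : ℝ) : ℂ :=
  Complex.exp (((-(kp s k * x) : ℝ) : ℂ) * Complex.I) *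
    ((ph s c k x : ℂ) - ((phd s c k x / kp s k : ℝ) : ℂ) * Complex.I)

noncomputable def Zk (s c : ℝ) (k : ℕ) : ℂ := ze s c k (Real.pi / 2)

theorem XY (h : Adm s c) (k : ℕ) :
    Yk s c k - Xk s c (k + 1) = (2 * ak s c (k + 1) - 1) * Xk s c (k + 1) +
      ee s c k / kp s k * Xk s c k ∧
    Yk s c (k + 1) + Xk s c k = (1 - 2 * ak s c (k + 1)) * Xk s c k -
      ee s c k / kp s (k + 1) * Xk s c (k + 1) := by
  have hπ := Real.pi_pos
  have h1 := fwd h k (x := Real.pi / 2) (by linarith) (by linarith)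
  have h2 := bwd h k (x := Real.pi / 2) (by linarith) (by linarith)
  rw [Real.sin_pi_div_two, Real.cos_pi_div_two] at h1 h2
  have k1 := (kp_pos h k).ne'
  have k2 := (kp_pos h (k + 1)).ne'
  unfold Yk Xk
  constructor
  · field_simp
    linear_combination -h1
  · field_simp
    linear_combination h2

theorem norm_Zk (k : ℕ) : ‖Zk s c k‖ ^ 2 = Xk s c k ^ 2 + Yk s c k ^ 2 := by
  unfold Zk ze
  rw [norm_mul, Complex.norm_exp_ofReal_mul_I, one_mul, ← Complex.normSq_eq_norm_sq,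
    Complex.normSq_apply]
  simp [Xk, Yk]
  ring

theorem Xk_le (k : ℕ) : |Xk s c k| ≤ ‖Zk s c k‖ := by
  have h1 := norm_Zk (s := s) (c := c) k
  have h2 := norm_nonneg (Zk s c k)
  rw [← abs_of_nonneg h2]
  exact sq_le_sq.1 (by nlinarith [sq_nonneg (Yk s c k)])

theorem Yk_le (k : ℕ) : |Yk s c k| ≤ ‖Zk s c k‖ := by
  have h1 := norm_Zk (s := s) (c := c) k
  have h2 := norm_nonneg (Zk s c k)
  rw [← abs_of_nonneg h2]
  exact sq_le_sq.1 (by nlinarith [sq_nonneg (Xk s c k)])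

theorem Zk_diff (k : ℕ) : ‖Zk s c (k + 1) - Zk s c k‖ ≤
    |Yk s c k - Xk s c (k + 1)| + |Yk s c (k + 1) + Xk s c k| := by
  have e1 : Zk s c (k + 1) - Zk s c k = Complex.exp (((-(kp s k * (Real.pi / 2)) : ℝ) : ℂ) * Complex.I) *
      ((((Yk s c k - Xk s c (k + 1) : ℝ)) : ℂ) * Complex.I -
        (((Yk s c (k + 1) + Xk s c k : ℝ)) : ℂ)) := by
    unfold Zk ze
    have e2 : Complex.exp (((-(kp s (k + 1) * (Real.pi / 2)) : ℝ) : ℂ) * Complex.I) =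
        Complex.exp (((-(kp s k * (Real.pi / 2)) : ℝ) : ℂ) * Complex.I) * (-Complex.I) := by
      have e3 : (-Complex.I) = Complex.exp (((-(Real.pi / 2) : ℝ) : ℂ) * Complex.I) := by
        rw [Complex.exp_mul_I, ← Complex.ofReal_cos, ← Complex.ofReal_sin, Real.cos_neg,
          Real.sin_neg, Real.cos_pi_div_two, Real.sin_pi_div_two]
        push_cast
        ring
      rw [e3, ← Complex.exp_add, kp_succ]
      congr 1
      push_cast
      ring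
    rw [e2]
    unfold Yk Xk
    have hI := Complex.I_sq
    push_cast
    linear_combination (Complex.exp (-(↑(kp s k) * (↑Real.pi / 2)) * Complex.I)) *
      ((phd s c (k + 1) (Real.pi / 2) : ℂ) / (kp s (k + 1) : ℂ)) * hI
  rw [e1, norm_mul, Complex.norm_exp_ofReal_mul_I, one_mul]
  refine (norm_sub_le _ _).trans ?_
  rw [norm_mul, Complex.norm_I, mul_one, Complex.norm_real, Complex.norm_real, Real.norm_eq_abs,
    Real.norm_eq_abs]

/-- constants -/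
noncomputable def Ca (s : ℝ) : ℝ := (s + 1) ^ 2 / (4 * s) * (1 + 2 * (s - 1) ^ 2)

noncomputable def Cb (s : ℝ) : ℝ := (1 + (s - 1) ^ 2) ^ 2 + 2 * (s - 1) ^ 2

noncomputable def C2 (s : ℝ) : ℝ := Cb s * (1 + Ca s)

theorem Ca_pos (h : Adm s c) : 0 < Ca s := by
  have := h.one
  unfold Ca
  positivity

theorem Cb_pos (s : ℝ) : 0 < Cb s := by
  unfold Cb
  positivity

theorem C2_pos (h : Adm s c) : 0 < C2 s := by
  have := Ca_pos h
  have := Cb_pos s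
  unfold C2
  positivity

theorem Xk_succ (h : Adm s c) (k : ℕ) : |Xk s c (k + 1)| ≤ Ca s * ‖Zk s c k‖ := by
  have h1 := (XY h k).1
  have h2 := ak_lower h k
  have h3 := h.one
  have h4 := ee_kp h k k le_rfl
  have h5 := Xk_le (s := s) (c := c) k
  have h6 := Yk_le (s := s) (c := c) k
  have hk : (0 : ℝ) ≤ k := Nat.cast_nonneg k
  have h7 : 2 * ak s c (k + 1) * Xk s c (k + 1) = Yk s c k - ee s c k / kp s k * Xk s c k := by
    linarith
  have h8 : |2 * ak s c (k + 1) * Xk s c (k + 1)| ≤ (1 + 2 * (s - 1) ^ 2) * ‖Zk s c k‖ := by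
    rw [h7]
    have e1 : |ee s c k / kp s k * Xk s c k| ≤ 2 * (s - 1) ^ 2 * ‖Zk s c k‖ := by
      rw [abs_mul, abs_div, abs_of_pos (kp_pos h k)]
      have e2 : |ee s c k| / kp s k ≤ 2 * (s - 1) ^ 2 := by
        refine h4.trans ?_
        apply div_le_self (by positivity)
        nlinarith
      gcongr
    have e3 := abs_sub (Yk s c k) (ee s c k / kp s k * Xk s c k)
    nlinarith
  rw [abs_mul, abs_of_pos (show 0 < 2 * ak s c (k + 1) by
    have := ak_pos h k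
    linarith)] at h8
  have h9 : 4 * s / (s + 1) ^ 2 * |Xk s c (k + 1)| ≤ (1 + 2 * (s - 1) ^ 2) * ‖Zk s c k‖ :=
    le_trans (mul_le_mul_of_nonneg_right h2 (abs_nonneg _)) h8
  unfold Ca
  have h10 : |Xk s c (k + 1)| = (s + 1) ^ 2 / (4 * s) * (4 * s / (s + 1) ^ 2 * |Xk s c (k + 1)|) := by
    field_simp
  rw [h10]
  calc (s + 1) ^ 2 / (4 * s) * (4 * s / (s + 1) ^ 2 * |Xk s c (k + 1)|)
      ≤ (s + 1) ^ 2 / (4 * s) * ((1 + 2 * (s - 1) ^ 2) * ‖Zk s c k‖) := by gcongr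
    _ = _ := by ring

theorem Zk_step (h : Adm s c) (k : ℕ) :
    ‖Zk s c (k + 1) - Zk s c k‖ ≤ C2 s / ((k : ℝ) + 1) ^ 2 * ‖Zk s c k‖ := by
  have h1 := Zk_diff (s := s) (c := c) k
  obtain ⟨h2, h3⟩ := XY h k
  rw [h2, h3] at h1
  have h4 := ee_kp h k k le_rfl
  have h5 := ee_kp h k (k + 1) (by omega)
  have h6 := ak_near h k
  have h7 := Xk_le (s := s) (c := c) k
  have h8 := Xk_succ h k
  have hk : (0 : ℝ) ≤ k := Nat.cast_nonneg k
  have hp1 := kp_pos h k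
  have hp2 := kp_pos h (k + 1)
  have hCa := Ca_pos h
  obtain ⟨D, hD⟩ : ∃ D, D = ((k : ℝ) + 1) ^ 2 := ⟨_, rfl⟩
  rw [← hD] at h4 h5 h6 ⊢
  have hD0 : 0 < D := by rw [hD]; positivity
  have hZ := norm_nonneg (Zk s c k)
  refine h1.trans ?_
  have a1 : |(2 * ak s c (k + 1) - 1) * Xk s c (k + 1) + ee s c k / kp s k * Xk s c k| ≤
      (1 + (s - 1) ^ 2) ^ 2 / D * (Ca s * ‖Zk s c k‖) + 2 * (s - 1) ^ 2 / D * ‖Zk s c k‖ := by
    refine (abs_add_le _ _).trans ?_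
    rw [abs_mul, abs_mul, abs_div, abs_of_pos hp1]
    gcongr
  have a2 : |(1 - 2 * ak s c (k + 1)) * Xk s c k - ee s c k / kp s (k + 1) * Xk s c (k + 1)| ≤
      (1 + (s - 1) ^ 2) ^ 2 / D * ‖Zk s c k‖ + 2 * (s - 1) ^ 2 / D * (Ca s * ‖Zk s c k‖) := by
    refine (abs_sub _ _).trans ?_
    rw [abs_mul, abs_mul, abs_div, abs_of_pos hp2, abs_sub_comm 1]
    gcongr
  refine (add_le_add a1 a2).trans (le_of_eq ?_)
  unfold C2 Cb
  field_simp
  ring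

theorem Zk_bound (h : Adm s c) (k : ℕ) :
    ‖Zk s c k‖ ≤ ‖Zk s c 0‖ * Real.exp (2 * C2 s * (1 - 1 / ((k : ℝ) + 1))) := by
  induction k with
  | zero => simp
  | succ k ih =>
    have h1 := Zk_step h k
    have hC := C2_pos h
    have hk : (0 : ℝ) ≤ k := Nat.cast_nonneg k
    have h2 : ‖Zk s c (k + 1)‖ ≤ ‖Zk s c k‖ * (1 + C2 s / ((k : ℝ) + 1) ^ 2) := by
      have e1 : Zk s c (k + 1) = Zk s c k + (Zk s c (k + 1) - Zk s c k) := by ring
      rw [e1]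
      refine (norm_add_le _ _).trans ?_
      linarith
    have h3 : 1 + C2 s / ((k : ℝ) + 1) ^ 2 ≤ Real.exp (C2 s / ((k : ℝ) + 1) ^ 2) := by
      rw [add_comm]
      exact Real.add_one_le_exp _
    calc ‖Zk s c (k + 1)‖ ≤ ‖Zk s c k‖ * (1 + C2 s / ((k : ℝ) + 1) ^ 2) := h2
      _ ≤ (‖Zk s c 0‖ * Real.exp (2 * C2 s * (1 - 1 / ((k : ℝ) + 1)))) *
          Real.exp (C2 s / ((k : ℝ) + 1) ^ 2) := by gcongr
      _ = ‖Zk s c 0‖ * Real.exp (2 * C2 s * (1 - 1 / ((k : ℝ) + 1)) + C2 s / ((k : ℝ) + 1) ^ 2) := by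
          rw [Real.exp_add]
          ring
      _ ≤ _ := by
          gcongr
          have e2 : 1 / ((k : ℝ) + 1) ^ 2 ≤ 2 * (1 / ((k : ℝ) + 1) - 1 / ((k : ℝ) + 1 + 1)) := by
            rw [div_sub_div _ _ (by positivity) (by positivity), mul_div_assoc',
              div_le_div_iff₀ (by positivity) (by positivity)]
            nlinarith
          push_cast
          have e3 : C2 s / ((k : ℝ) + 1) ^ 2 = C2 s * (1 / ((k : ℝ) + 1) ^ 2) := by ring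
          rw [e3]
          nlinarith

theorem Zk_all (h : Adm s c) : ∃ C : ℝ, 0 < C ∧ ∀ k, ‖Zk s c k‖ ≤ C ∧
    ‖Zk s c (k + 1) - Zk s c k‖ ≤ C / ((k : ℝ) + 1) ^ 2 := by
  have hC := C2_pos h
  set M := ‖Zk s c 0‖ * Real.exp (2 * C2 s) + 1 with hM
  have hM0 : 0 < M := by positivity
  have hb : ∀ k, ‖Zk s c k‖ ≤ M := by
    intro k
    refine (Zk_bound h k).trans ?_
    have h1 : Real.exp (2 * C2 s * (1 - 1 / ((k : ℝ) + 1))) ≤ Real.exp (2 * C2 s) := by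
      apply Real.exp_le_exp.2
      have : 0 ≤ 1 / ((k : ℝ) + 1) := by positivity
      nlinarith
    have h2 := norm_nonneg (Zk s c 0)
    nlinarith
  refine ⟨M * (1 + C2 s), by positivity, fun k => ⟨?_, ?_⟩⟩
  · have := hb k
    nlinarith
  · refine (Zk_step h k).trans ?_
    have := hb k
    have e : C2 s / ((k : ℝ) + 1) ^ 2 * ‖Zk s c k‖ ≤ C2 s / ((k : ℝ) + 1) ^ 2 * M := by gcongr
    refine e.trans ?_
    rw [div_mul_eq_mul_div]
    apply div_le_div_of_nonneg_right _ (by positivity)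
    nlinarith

end Pool.Agent.H72.Is
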