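import Mathlib
import Pool.Agent.H72.Is.I4
set_option autoImplicit false

/-! Bounds for the amplitude on `(0, π / 2]`. -/

namespace Pool.Agent.H72.Is

open MeasureTheory intervalIntegral Set

variable {s c : ℝ}

noncomputable def CV (s c : ℝ) : ℝ := ((s + |c|) ^ 2 + 2 * (s + |c|) + s ^ 2) / 4

theorem CV_nonneg (h : Adm s c) : 0 ≤ CV s c := by
  unfold CV
  have := h.one
  have := abs_nonneg c
  positivity

theorem Vp_le (h : Adm s c) {x : ℝ} (h0 : 0 < x) (hπ : x < Real.pi) :
    |Vp s c x| ≤ CV s c / Real.sin x ^ 2 := by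
  have hs : 0 < Real.sin x := Real.sin_pos_of_pos_of_lt_pi h0 hπ
  have h1 := h.one
  have ha := abs_nonneg c
  have hc1 : |Real.cos x| ≤ 1 := Real.abs_cos_le_one x
  have e1 : |s * Real.cos x - c| ≤ s + |c| := by
    refine (abs_sub _ _).trans ?_
    rw [abs_mul, abs_of_pos (by linarith : 0 < s)]
    nlinarith
  have e2 : |s - c * Real.cos x| ≤ s + |c| := by
    refine (abs_sub _ _).trans ?_
    rw [abs_mul, abs_of_pos (by linarith : 0 < s)]
    nlinarith
  have e3 : |(s * Real.cos x - c) ^ 2 - 2 * (s - c * Real.cos x)| ≤ (s + |c|) ^ 2 + 2 * (s + |c|) := by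
    refine (abs_sub _ _).trans ?_
    rw [abs_pow, abs_mul, abs_of_pos (by norm_num : (0 : ℝ) < 2)]
    gcongr
  have e4 : Real.sin x ^ 2 ≤ 1 := by
    have := Real.sin_sq_add_cos_sq x
    nlinarith [sq_nonneg (Real.cos x)]
  unfold Vp CV
  refine (abs_add_le _ _).trans ?_
  rw [abs_div, abs_of_pos (show 0 < 4 * Real.sin x ^ 2 by positivity),
    abs_of_nonneg (show 0 ≤ s ^ 2 / 4 by positivity)]
  have e5 : s ^ 2 / 4 ≤ s ^ 2 / (4 * Real.sin x ^ 2) := by
    apply div_le_div_of_nonneg_left (by positivity) (by positivity)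
    linarith
  calc _ ≤ ((s + |c|) ^ 2 + 2 * (s + |c|)) / (4 * Real.sin x ^ 2) + s ^ 2 / (4 * Real.sin x ^ 2) := by
        gcongr
    _ = _ := by
        field_simp

theorem ze_norm (k : ℕ) (x : ℝ) : ‖ze s c k x‖ ^ 2 = ph s c k x ^ 2 + (phd s c k x / kp s k) ^ 2 := by
  unfold ze
  rw [norm_mul, Complex.norm_exp_ofReal_mul_I, one_mul, ← Complex.normSq_eq_norm_sq,
    Complex.normSq_apply]
  simp
  ring

theorem ph_le_ze (k : ℕ) (x : ℝ) : |ph s c k x| ≤ ‖ze s c k x‖ := by
  have h1 := ze_norm (s := s) (c := c) k x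
  have h2 := norm_nonneg (ze s c k x)
  rw [← abs_of_nonneg h2]
  exact sq_le_sq.1 (by nlinarith [sq_nonneg (phd s c k x / kp s k)])

theorem phd_le_ze (k : ℕ) (x : ℝ) : |phd s c k x / kp s k| ≤ ‖ze s c k x‖ := by
  have h1 := ze_norm (s := s) (c := c) k x
  have h2 := norm_nonneg (ze s c k x)
  rw [← abs_of_nonneg h2]
  exact sq_le_sq.1 (by nlinarith [sq_nonneg (ph s c k x)])

theorem ze_le (k : ℕ) (x : ℝ) : ‖ze s c k x‖ ≤ |ph s c k x| + |phd s c k x / kp s k| := by
  unfold ze
  rw [norm_mul, Complex.norm_exp_ofReal_mul_I, one_mul]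
  refine (norm_sub_le _ _).trans ?_
  rw [norm_mul, Complex.norm_I, mul_one, Complex.norm_real, Complex.norm_real, Real.norm_eq_abs,
    Real.norm_eq_abs]

theorem ph_re (k : ℕ) (x : ℝ) : ph s c k x =
    (ze s c k x * Complex.exp (((kp s k * x : ℝ) : ℂ) * Complex.I)).re := by
  unfold ze
  have e : Complex.exp (((-(kp s k * x) : ℝ) : ℂ) * Complex.I) *
    ((ph s c k x : ℂ) - ((phd s c k x / kp s k : ℝ) : ℂ) * Complex.I) *
      Complex.exp (((kp s k * x : ℝ) : ℂ) * Complex.I) =
      (ph s c k x : ℂ) - ((phd s c k x / kp s k : ℝ) : ℂ) * Complex.I := by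
    have e1 : Complex.exp (((-(kp s k * x) : ℝ) : ℂ) * Complex.I) *
        Complex.exp (((kp s k * x : ℝ) : ℂ) * Complex.I) = 1 := by
      rw [← Complex.exp_add]
      push_cast
      rw [show -(↑(kp s k) * (x : ℂ)) * Complex.I + ↑(kp s k) * ↑x * Complex.I = 0 by ring,
        Complex.exp_zero]
    linear_combination ((ph s c k x : ℂ) - ((phd s c k x / kp s k : ℝ) : ℂ) * Complex.I) * e1
  rw [e]
  simp

theorem cot_deriv {x : ℝ} (hs : Real.sin x ≠ 0) :
    HasDerivAt (fun x => Real.cos x / Real.sin x) (-1 / Real.sin x ^ 2) x := by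
  refine ((Real.hasDerivAt_cos x).div (Real.hasDerivAt_sin x) hs).congr_deriv ?_
  have := Real.sin_sq_add_cos_sq x
  rw [div_left_inj' (by positivity)]
  linear_combination (-1) * this

theorem N_mono (h : Adm s c) (k : ℕ) {x : ℝ} (h0 : 0 < x) (hx2 : x ≤ Real.pi / 2) :
    ‖ze s c k x‖ ^ 2 ≤ ‖Zk s c k‖ ^ 2 *
      Real.exp (CV s c / kp s k * (Real.cos x / Real.sin x)) := by
  have hπ := Real.pi_pos
  have hk := kp_pos h k
  have hsin : ∀ y ∈ Icc x (Real.pi / 2), 0 < Real.sin y := fun y hy =>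
    Real.sin_pos_of_pos_of_lt_pi (by linarith [hy.1]) (by linarith [hy.2])
  obtain ⟨G, hG⟩ : ∃ G : ℝ → ℝ, G = fun y => (ph s c k y ^ 2 + (phd s c k y / kp s k) ^ 2) *
    Real.exp (-(CV s c / kp s k * (Real.cos y / Real.sin y))) := ⟨_, rfl⟩
  have hd : ∀ y ∈ Icc x (Real.pi / 2), HasDerivAt G
      ((2 * ph s c k y * phd s c k y * (Vp s c y / kp s k ^ 2) +
        CV s c / kp s k / Real.sin y ^ 2 * (ph s c k y ^ 2 + (phd s c k y / kp s k) ^ 2)) *
        Real.exp (-(CV s c / kp s k * (Real.cos y / Real.sin y)))) y := by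
    intro y hy
    have hs := hsin y hy
    have e1 := ph_deriv (s := s) (c := c) k (show 0 < y by linarith [hy.1])
      (show y < Real.pi by linarith [hy.2])
    have e2 := phd_deriv h k (show 0 < y by linarith [hy.1]) (show y < Real.pi by linarith [hy.2])
    have e3 := ((cot_deriv hs.ne').const_mul (CV s c / kp s k)).neg.exp
    rw [hG]
    refine (((e1.pow 2).add ((e2.div_const (kp s k)).pow 2)).mul e3).congr_deriv ?_
    simp only [Pi.add_apply, Pi.pow_apply, Nat.cast_ofNat, Nat.add_one_sub_one, pow_one,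
      Pi.neg_apply]
    have := hs.ne'
    field_simp
    ring
  have hmono : MonotoneOn G (Icc x (Real.pi / 2)) := by
    apply monotoneOn_of_deriv_nonneg (convex_Icc _ _)
    · exact fun y hy => (hd y hy).continuousAt.continuousWithinAt
    · exact fun y hy => (hd y (interior_subset hy)).differentiableAt.differentiableWithinAt
    · intro y hy
      rw [(hd y (interior_subset hy)).deriv]
      have hy' := interior_subset hy
      have hs := hsin y hy'
      have hV := Vp_le h (show 0 < y by linarith [hy'.1]) (show y < Real.pi by linarith [hy'.2])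
      refine mul_nonneg ?_ (Real.exp_nonneg _)
      obtain ⟨p, hp⟩ : ∃ p, p = phd s c k y / kp s k := ⟨_, rfl⟩
      have e4 : phd s c k y = p * kp s k := by rw [hp]; field_simp
      rw [← hp, e4]
      have e5 : 2 * ph s c k y * (p * kp s k) * (Vp s c y / kp s k ^ 2) =
          (2 * ph s c k y * p) * Vp s c y / kp s k := by field_simp
      have e6 : CV s c / kp s k / Real.sin y ^ 2 * (ph s c k y ^ 2 + p ^ 2) =
        (CV s c / Real.sin y ^ 2 * (ph s c k y ^ 2 + p ^ 2)) / kp s k := by field_simp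
      rw [e5, e6, ← add_div]
      apply div_nonneg _ hk.le
      have e7 : |(2 * ph s c k y * p) * Vp s c y| ≤ (ph s c k y ^ 2 + p ^ 2) * (CV s c / Real.sin y ^ 2) := by
        rw [abs_mul]
        apply mul_le_mul _ hV (abs_nonneg _) (by positivity)
        rw [abs_le]
        constructor <;> nlinarith [sq_nonneg (ph s c k y + p), sq_nonneg (ph s c k y - p)]
      have e8 := (abs_le.1 e7).1
      linarith
  have h1 := hmono (left_mem_Icc.2 hx2) (right_mem_Icc.2 hx2) hx2
  rw [hG] at h1
  simp only [Real.cos_pi_div_two, zero_div, mul_zero, neg_zero, Real.exp_zero, mul_one] at h1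
  rw [← ze_norm, ← ze_norm] at h1
  have h2 : ‖ze s c k x‖ ^ 2 = (‖ze s c k x‖ ^ 2 *
    Real.exp (-(CV s c / kp s k * (Real.cos x / Real.sin x)))) *
      Real.exp (CV s c / kp s k * (Real.cos x / Real.sin x)) := by
    rw [mul_assoc, ← Real.exp_add]
    simp
  rw [h2]
  unfold Zk
  gcongr

theorem inv_sin {x : ℝ} (h0 : 0 < x) (hx2 : x ≤ Real.pi / 2) : 1 / Real.sin x ≤ 2 / x := by
  have h1 := Real.mul_le_sin h0.le hx2
  have hπ := Real.pi_pos
  have hs : 0 < Real.sin x := Real.sin_pos_of_pos_of_lt_pi h0 (by linarith)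
  rw [div_le_div_iff₀ hs h0]
  have h4 : Real.pi ≤ 4 := Real.pi_le_four
  have h2 : x / 2 ≤ 2 / Real.pi * x := by
    rw [div_mul_eq_mul_div, div_le_div_iff₀ (by norm_num) hπ]
    nlinarith
  linarith

theorem cot_le {x : ℝ} (h0 : 0 < x) (hx2 : x ≤ Real.pi / 2) :
    Real.cos x / Real.sin x ≤ 2 / x := by
  have hπ := Real.pi_pos
  have hs : 0 < Real.sin x := Real.sin_pos_of_pos_of_lt_pi h0 (by linarith)
  refine le_trans ?_ (inv_sin h0 hx2)
  have := Real.cos_le_one x
  gcongr

theorem cot_nonneg {x : ℝ} (h0 : 0 < x) (hx2 : x ≤ Real.pi / 2) :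
    0 ≤ Real.cos x / Real.sin x := by
  have hπ := Real.pi_pos
  have hs : 0 < Real.sin x := Real.sin_pos_of_pos_of_lt_pi h0 (by linarith)
  have : 0 ≤ Real.cos x := Real.cos_nonneg_of_mem_Icc ⟨by linarith, hx2⟩
  positivity

/-- the amplitude away from the wall -/
theorem ze_far (h : Adm s c) (k : ℕ) {x : ℝ} (hx1 : 1 / (2 * kp s k) ≤ x) (hx2 : x ≤ Real.pi / 2) :
    ‖ze s c k x‖ ≤ ‖Zk s c k‖ * Real.exp (2 * CV s c) := by
  have hk := kp_pos h k
  have h0 : 0 < x := lt_of_lt_of_le (by positivity) hx1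
  have h1 := N_mono h k h0 hx2
  have hC := CV_nonneg h
  have h2 : CV s c / kp s k * (Real.cos x / Real.sin x) ≤ 2 * (2 * CV s c) := by
    have e1 := cot_le h0 hx2
    have e2 : 2 / x ≤ 4 * kp s k := by
      rw [div_le_iff₀ h0]
      have : 1 ≤ x * (2 * kp s k) := (div_le_iff₀ (by positivity)).1 hx1
      linarith
    calc CV s c / kp s k * (Real.cos x / Real.sin x) ≤ CV s c / kp s k * (4 * kp s k) := by
          gcongr
          linarith
      _ = _ := by field_simp; ring
  have h3 : ‖ze s c k x‖ ^ 2 ≤ (‖Zk s c k‖ * Real.exp (2 * CV s c)) ^ 2 := by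
    refine h1.trans ?_
    rw [mul_pow, ← Real.exp_nat_mul]
    apply mul_le_mul_of_nonneg_left (Real.exp_le_exp.2 _) (by positivity)
    push_cast
    linarith
  exact (pow_le_pow_iff_left₀ (norm_nonneg _) (by positivity) two_ne_zero).1 h3

theorem ze_deriv (h : Adm s c) (k : ℕ) {x : ℝ} (h0 : 0 < x) (hπ : x < Real.pi) :
    HasDerivAt (ze s c k) (Complex.exp (((-(kp s k * x) : ℝ) : ℂ) * Complex.I) *
      (-(((Vp s c x / kp s k * ph s c k x : ℝ) : ℂ)) * Complex.I)) x := by
  have hk := kp_pos h k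
  have e1 := (ph_deriv (s := s) (c := c) k h0 hπ).ofReal_comp
  have e2 := ((phd_deriv h k h0 hπ).div_const (kp s k)).ofReal_comp
  have e3 : HasDerivAt (fun x : ℝ => (((-(kp s k * x) : ℝ) : ℂ) * Complex.I))
      (((-(kp s k) : ℝ) : ℂ) * Complex.I) x := by
    have : HasDerivAt (fun x : ℝ => -(kp s k * x)) (-(kp s k)) x := by
      exact ((hasDerivAt_id' x).const_mul (kp s k)).fun_neg.congr_deriv (by ring)
    exact this.ofReal_comp.mul_const Complex.I
  refine (e3.cexp.mul (e1.sub (e2.mul_const Complex.I))).congr_deriv ?_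
  simp only [Pi.mul_apply, Pi.sub_apply]
  have hk' : (kp s k : ℂ) ≠ 0 := by exact_mod_cast hk.ne'
  have hI := Complex.I_sq
  push_cast
  field_simp
  linear_combination (kp s k : ℂ) * (phd s c k x : ℂ) * hI

/-- the amplitude converges -/
theorem ze_diff (h : Adm s c) (k : ℕ) {x : ℝ} (hx1 : 1 / (2 * kp s k) ≤ x) (hx2 : x ≤ Real.pi / 2) :
    ‖ze s c k x - Zk s c k‖ ≤ ‖Zk s c k‖ * Real.exp (2 * CV s c) * (2 * CV s c) / (kp s k * x) := by
  have hk := kp_pos h k
  have h0 : 0 < x := lt_of_lt_of_le (by positivity) hx1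
  have hC := CV_nonneg h
  have hπ := Real.pi_pos
  obtain ⟨M, hM⟩ : ∃ M, M = ‖Zk s c k‖ * Real.exp (2 * CV s c) := ⟨_, rfl⟩
  have hM0 : 0 ≤ M := by rw [hM]; positivity
  rw [← hM]
  have hy0 : ∀ y ∈ Icc x (Real.pi / 2), 0 < y ∧ y < Real.pi := fun y hy =>
    ⟨by linarith [hy.1], by linarith [hy.2]⟩
  have key := image_norm_le_of_norm_deriv_right_le_deriv_boundary' (a := x) (b := Real.pi / 2)
    (f := fun y => ze s c k y - ze s c k x)
    (f' := fun y => Complex.exp (((-(kp s k * y) : ℝ) : ℂ) * Complex.I) *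
      (-(((Vp s c y / kp s k * ph s c k y : ℝ) : ℂ)) * Complex.I))
    (B := fun y => M * (CV s c / kp s k) * (Real.cos x / Real.sin x - Real.cos y / Real.sin y))
    (B' := fun y => M * (CV s c / kp s k) * (1 / Real.sin y ^ 2))
    ?_ ?_ ?_ ?_ ?_ ?_ (x := Real.pi / 2) (right_mem_Icc.2 hx2)
  · rw [Real.cos_pi_div_two, zero_div, sub_zero] at key
    rw [norm_sub_rev]
    unfold Zk
    refine key.trans ?_
    have e1 := cot_le h0 hx2
    calc M * (CV s c / kp s k) * (Real.cos x / Real.sin x) ≤ M * (CV s c / kp s k) * (2 / x) := by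
          gcongr
      _ = _ := by field_simp
  · exact fun y hy => ((ze_deriv h k (hy0 y hy).1 (hy0 y hy).2).continuousAt.sub
      continuousAt_const).continuousWithinAt
  · intro y hy
    have hy' := Ico_subset_Icc_self hy
    exact ((ze_deriv h k (hy0 y hy').1 (hy0 y hy').2).sub_const _).hasDerivWithinAt
  · simp
  · intro y hy
    have hs : Real.sin y ≠ 0 :=
      (Real.sin_pos_of_pos_of_lt_pi (hy0 y hy).1 (hy0 y hy).2).ne'
    exact ((continuousAt_const.sub (cot_deriv hs).continuousAt).const_mul _).continuousWithinAt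
  · intro y hy
    have hy' := Ico_subset_Icc_self hy
    have hs : Real.sin y ≠ 0 :=
      (Real.sin_pos_of_pos_of_lt_pi (hy0 y hy').1 (hy0 y hy').2).ne'
    refine (((cot_deriv hs).const_sub _).const_mul _).hasDerivWithinAt.congr_deriv ?_
    ring
  · intro y hy
    have hy' := Ico_subset_Icc_self hy
    have h1 := Vp_le h (hy0 y hy').1 (hy0 y hy').2
    have h2 : |ph s c k y| ≤ M := by
      rw [hM]
      exact (ph_le_ze k y).trans (ze_far h k (hx1.trans hy'.1) hy'.2)
    rw [norm_mul, Complex.norm_exp_ofReal_mul_I, one_mul, norm_mul, norm_neg, Complex.norm_I,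
      mul_one, Complex.norm_real, Real.norm_eq_abs, abs_mul, abs_div, abs_of_pos hk]
    calc |Vp s c y| / kp s k * |ph s c k y| ≤ (CV s c / Real.sin y ^ 2) / kp s k * M := by gcongr
      _ = _ := by ring

/-- near the wall -/
theorem wall (h : Adm s c) (k : ℕ) {x : ℝ} (h0 : 0 < x) (hx1 : x ≤ 1 / (2 * kp s k)) :
    |ph s c k x| ≤ 3 * (‖Zk s c k‖ * Real.exp (2 * CV s c)) ∧
    |x * phd s c k x| ≤ (3 * (s + |c|) + 1) * (‖Zk s c k‖ * Real.exp (2 * CV s c)) := by
  have hk := kp_pos h k
  have hs1 := h.one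
  have hkn : (0 : ℝ) ≤ k := Nat.cast_nonneg k
  obtain ⟨X, hX⟩ : ∃ X, X = 1 / (2 * kp s k) := ⟨_, rfl⟩
  rw [← hX] at hx1
  have hks : s / 2 ≤ kp s k := by unfold kp; linarith
  have hXs : X ≤ 1 / s := by
    rw [hX]
    apply one_div_le_one_div_of_le (by linarith)
    linarith
  have hX1 : X ≤ 1 := hXs.trans (by rw [div_le_one (by linarith)]; exact hs1)
  have hX0 : 0 < X := by rw [hX]; positivity
  have hπ3 := Real.pi_gt_three
  have hX2 : X ≤ Real.pi / 2 := by linarith
  have hXk : kp s k * X = 1 / 2 := by rw [hX]; field_simp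
  have hca := h.le
  have hg : ∀ y ∈ Ioc 0 X, 0 ≤ g1 s c y := by
    intro y hy
    have h1 : 0 < Real.sin y := Real.sin_pos_of_pos_of_lt_pi hy.1 (by linarith [hy.2])
    unfold g1
    apply div_nonneg _ (by positivity)
    have h2 := Real.one_sub_sq_div_two_le_cos (x := y)
    have h3 : y ≤ 1 / s := hy.2.trans hXs
    have h4 : s * y ≤ 1 := by rwa [le_div_iff₀ (by linarith), mul_comm] at h3
    have h5 : s * y ^ 2 ≤ 1 := by
      have : y ≤ 1 := hy.2.trans hX1
      nlinarith [hy.1]
    have h6 := le_abs_self c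
    nlinarith
  -- the Sonin function
  have hson : ∀ y ∈ Icc 0 X, hx' s c k y ^ 2 ≤ (kp s k * |hx s c k 0|) ^ 2 := by
    intro y hy
    have hanti : AntitoneOn (fun y => k * (k + s) * hx s c k y ^ 2 + hx' s c k y ^ 2)
        (Icc 0 X) := by
      apply antitoneOn_of_deriv_nonpos (convex_Icc _ _)
      · have := hx_cont (s := s) (c := c) k
        have := hx'_cont (s := s) (c := c) k
        fun_prop
      · intro z hz
        rw [interior_Icc] at hz
        have e1 := hx_deriv (s := s) (c := c) k z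
        have e2 := hx'_deriv h k hz.1 (show z < Real.pi by linarith [hz.2])
        exact (((e1.pow 2).const_mul _).add (e2.pow 2)).differentiableAt.differentiableWithinAt
      · intro z hz
        rw [interior_Icc] at hz
        have e1 := hx_deriv (s := s) (c := c) k z
        have e2 := hx'_deriv h k hz.1 (show z < Real.pi by linarith [hz.2])
        have e3 : HasDerivAt (fun y => k * (k + s) * hx s c k y ^ 2 + hx' s c k y ^ 2)
            (-(4 * g1 s c z * hx' s c k z ^ 2)) z := by
          refine (((e1.pow 2).const_mul ((k : ℝ) * (k + s))).add (e2.pow 2)).congr_deriv ?_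
          simp only [Nat.cast_ofNat, Nat.add_one_sub_one, pow_one]
          ring
        rw [e3.deriv]
        have := hg z ⟨hz.1, hz.2.le⟩
        have : 0 ≤ 4 * g1 s c z * hx' s c k z ^ 2 := by positivity
        linarith
    have h1 := hanti (left_mem_Icc.2 hX0.le) hy hy.1
    have h2 : hx' s c k 0 = 0 := by
      unfold hx'
      simp
    simp only [h2] at h1
    have h3 : (kp s k * |hx s c k 0|) ^ 2 = kp s k ^ 2 * hx s c k 0 ^ 2 := by
      rw [mul_pow, sq_abs]
    rw [h3]
    have h4 : (k : ℝ) * (k + s) ≤ kp s k ^ 2 := by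
      unfold kp
      nlinarith
    have h5 : 0 ≤ (k : ℝ) * (k + s) * hx s c k y ^ 2 := by positivity
    nlinarith [sq_nonneg (hx s c k 0)]
  have hd : ∀ y ∈ Icc 0 X, |hx' s c k y| ≤ kp s k * |hx s c k 0| := by
    intro y hy
    have h1 := sq_le_sq.1 (hson y hy)
    rwa [abs_of_nonneg (by positivity : 0 ≤ kp s k * |hx s c k 0|)] at h1
  have hdiff : ∀ y ∈ Icc 0 X, |hx s c k y - hx s c k 0| ≤ |hx s c k 0| / 2 := by
    intro y hy
    have h1 := (convex_Icc (0 : ℝ) X).norm_image_sub_le_of_norm_hasDerivWithin_le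
      (f := hx s c k) (f' := hx' s c k) (C := kp s k * |hx s c k 0|)
      (fun z hz => (hx_deriv k z).hasDerivWithinAt) (fun z hz => hd z hz)
      (left_mem_Icc.2 hX0.le) hy
    rw [Real.norm_eq_abs, Real.norm_eq_abs, sub_zero, abs_of_nonneg hy.1] at h1
    refine h1.trans ?_
    have h2 : kp s k * y ≤ 1 / 2 := by
      rw [← hXk]
      have := hy.2
      gcongr
    nlinarith [abs_nonneg (hx s c k 0)]
  have hup : ∀ y ∈ Icc 0 X, |hx s c k y| ≤ 3 / 2 * |hx s c k 0| := by
    intro y hy
    have h1 := hdiff y hy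
    have h2 : |hx s c k y| ≤ |hx s c k y - hx s c k 0| + |hx s c k 0| := by
      calc |hx s c k y| = |(hx s c k y - hx s c k 0) + hx s c k 0| := by ring_nf
        _ ≤ _ := abs_add_le _ _
    linarith
  have hlow : |hx s c k 0| ≤ 2 * |hx s c k X| := by
    have h1 := hdiff X (right_mem_Icc.2 hX0.le)
    have h2 : |hx s c k 0| ≤ |hx s c k X - hx s c k 0| + |hx s c k X| := by
      calc |hx s c k 0| = |(hx s c k X) - (hx s c k X - hx s c k 0)| := by ring_nf
        _ ≤ |hx s c k X| + |hx s c k X - hx s c k 0| := abs_sub _ _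
        _ = _ := by ring
    linarith
  -- the weight
  have hom : om s c x ≤ om s c X := by
    have hmono : MonotoneOn (om s c) (Icc 0 X) := by
      apply monotoneOn_of_deriv_nonneg (convex_Icc _ _)
      · exact (om_cont h).continuousOn
      · intro z hz
        rw [interior_Icc] at hz
        exact (om_deriv s c hz.1
          (show z < Real.pi by linarith [hz.2])).differentiableAt.differentiableWithinAt
      · intro z hz
        rw [interior_Icc] at hz
        rw [(om_deriv s c hz.1 (show z < Real.pi by linarith [hz.2])).deriv]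
        have h1 := hg z ⟨hz.1, hz.2.le⟩
        have h2 := om_pos s c hz.1 (show z < Real.pi by linarith [hz.2])
        positivity
    exact hmono ⟨h0.le, hx1⟩ (right_mem_Icc.2 hX0.le) hx1
  have hom0 := om_pos s c h0 (show x < Real.pi by linarith)
  have homX := om_pos s c hX0 (show X < Real.pi by linarith)
  have hnk := nk_pos h k
  have hphX : nk s c k * om s c X * |hx s c k X| ≤ ‖Zk s c k‖ * Real.exp (2 * CV s c) := by
    have h1 := (ph_le_ze (s := s) (c := c) k X).trans (ze_far h k (le_of_eq hX.symm) hX2)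
    unfold ph at h1
    rwa [abs_mul, abs_of_pos (mul_pos hnk homX)] at h1
  obtain ⟨B, hB⟩ : ∃ B, B = ‖Zk s c k‖ * Real.exp (2 * CV s c) := ⟨_, rfl⟩
  rw [← hB] at hphX ⊢
  have hx0I : x ∈ Icc 0 X := ⟨h0.le, hx1⟩
  have hxa : |hx s c k x| ≤ 3 * |hx s c k X| := by
    have := hup x hx0I
    linarith
  have hwa : nk s c k * om s c x * |hx s c k x| ≤ 3 * B := by
    calc nk s c k * om s c x * |hx s c k x| ≤ nk s c k * om s c X * (3 * |hx s c k X|) := by
          gcongr
      _ = 3 * (nk s c k * om s c X * |hx s c k X|) := by ring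
      _ ≤ _ := by gcongr
  refine ⟨?_, ?_⟩
  · unfold ph
    rw [abs_mul, abs_of_pos (mul_pos hnk hom0)]
    exact hwa
  · unfold phd
    have e1 : x * (nk s c k * om s c x * (g1 s c x * hx s c k x + hx' s c k x)) =
        (x * g1 s c x) * (nk s c k * om s c x * hx s c k x) +
          nk s c k * om s c x * (x * hx' s c k x) := by ring
    rw [e1]
    refine (abs_add_le _ _).trans ?_
    have e2 : |x * g1 s c x| ≤ s + |c| := by
      have hs : 0 < Real.sin x := Real.sin_pos_of_pos_of_lt_pi h0 (by linarith)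
      have e3 : |s * Real.cos x - c| ≤ s + |c| := by
        refine (abs_sub _ _).trans ?_
        have hc1 : |Real.cos x| ≤ 1 := Real.abs_cos_le_one x
        rw [abs_mul, abs_of_pos (by linarith : 0 < s)]
        nlinarith
      unfold g1
      rw [abs_mul, abs_div, abs_of_pos h0, abs_of_pos (show 0 < 2 * Real.sin x by positivity)]
      have e4 := inv_sin h0 (show x ≤ Real.pi / 2 by linarith)
      have e5 : x / (2 * Real.sin x) ≤ 1 := by
        rw [div_le_one (by positivity)]
        rw [div_le_div_iff₀ hs h0] at e4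
        linarith
      calc x * (|s * Real.cos x - c| / (2 * Real.sin x)) =
            x / (2 * Real.sin x) * |s * Real.cos x - c| := by ring
        _ ≤ 1 * (s + |c|) := by gcongr
        _ = _ := one_mul _
    have e3 : |(x * g1 s c x) * (nk s c k * om s c x * hx s c k x)| ≤ (s + |c|) * (3 * B) := by
      rw [abs_mul]
      have : |nk s c k * om s c x * hx s c k x| ≤ 3 * B := by
        rw [abs_mul, abs_of_pos (mul_pos hnk hom0)]
        exact hwa
      have := abs_nonneg c
      gcongr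
    have e4 : |nk s c k * om s c x * (x * hx' s c k x)| ≤ B := by
      rw [abs_mul, abs_of_pos (mul_pos hnk hom0), abs_mul, abs_of_pos h0]
      have h1 := hd x hx0I
      have h2 : kp s k * x ≤ 1 / 2 := by
        rw [← hXk]
        gcongr
      have h3 : x * |hx' s c k x| ≤ |hx s c k X| := by
        calc x * |hx' s c k x| ≤ x * (kp s k * |hx s c k 0|) := by gcongr
          _ = (kp s k * x) * |hx s c k 0| := by ring
          _ ≤ 1 / 2 * (2 * |hx s c k X|) := by gcongr
          _ = _ := by ring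
      calc nk s c k * om s c x * (x * |hx' s c k x|) ≤ nk s c k * om s c X * |hx s c k X| := by
            gcongr
        _ ≤ B := hphX
    linarith

end Pool.Agent.H72.Is
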