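import Mathlib
import Pool.Agent.H72.Is.I5
set_option autoImplicit false

/-! Uniform approximation of the orthonormal functions by plane waves. -/

namespace Pool.Agent.H72.Is

open MeasureTheory intervalIntegral Set

variable {s c : ℝ}

/-- the remainder -/
noncomputable def eta (s c : ℝ) (k : ℕ) (x : ℝ) : ℝ :=
  ph s c k x - (Zk s c k * Complex.exp (((kp s k * x : ℝ) : ℂ) * Complex.I)).re

theorem eta_eq (k : ℕ) (x : ℝ) : eta s c k x =
    ((ze s c k x - Zk s c k) * Complex.exp (((kp s k * x : ℝ) : ℂ) * Complex.I)).re := by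
  unfold eta
  rw [ph_re, sub_mul, Complex.sub_re]

theorem inv_kp (h : Adm s c) (k : ℕ) : 1 / kp s k ≤ 2 / ((k : ℝ) + 1) := by
  have h1 := kp_ge h k
  have h2 := kp_pos h k
  have hk : (0 : ℝ) ≤ k := Nat.cast_nonneg k
  rw [div_le_div_iff₀ h2 (by positivity)]
  linarith

theorem ze_all (h : Adm s c) : ∃ C : ℝ, 0 < C ∧ ∀ k x, 0 < x → x ≤ Real.pi / 2 →
    |ph s c k x| ≤ C ∧ x * ‖ze s c k x - Zk s c k‖ ≤ C / ((k : ℝ) + 1) ∧
    (1 / (2 * kp s k) ≤ x → ‖ze s c k x - Zk s c k‖ ≤ C / (((k : ℝ) + 1) * x)) := by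
  obtain ⟨D, hD, hZ⟩ := Zk_all h
  have hCV := CV_nonneg h
  have hs1 := h.one
  have hca := abs_nonneg c
  obtain ⟨E, hE⟩ : ∃ E, E = Real.exp (2 * CV s c) := ⟨_, rfl⟩
  have hE0 : 0 < E := by rw [hE]; positivity
  obtain ⟨C, hC⟩ : ∃ C, C = 4 * (D * E) * (CV s c) + 4 * D * E * (3 * (s + |c|) + 3) + 4 * D :=
    ⟨_, rfl⟩
  have hC0 : 0 < C := by rw [hC]; positivity
  have hDE : D * E ≤ C := by
    rw [hC]
    have h1 : 0 ≤ 4 * (D * E) * CV s c := by positivity
    have h2 : D * E ≤ 4 * D * E * (3 * (s + |c|) + 3) := by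
      have : 1 ≤ 4 * (3 * (s + |c|) + 3) := by linarith
      nlinarith [mul_pos hD hE0]
    linarith
  have h3DE : 3 * (D * E) ≤ C := by
    rw [hC]
    have h1 : 0 ≤ 4 * (D * E) * CV s c := by positivity
    have h2 : 3 * (D * E) ≤ 4 * D * E * (3 * (s + |c|) + 3) := by
      have : 3 ≤ 4 * (3 * (s + |c|) + 3) := by linarith
      nlinarith [mul_pos hD hE0]
    linarith
  refine ⟨C, hC0, fun k x h0 hx2 => ?_⟩
  have hk := kp_pos h k
  have hkn : (0 : ℝ) ≤ k := Nat.cast_nonneg k
  have hZk := (hZ k).1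
  have hfar : 1 / (2 * kp s k) ≤ x → ‖ze s c k x - Zk s c k‖ ≤ C / (((k : ℝ) + 1) * x) := by
    intro hx1
    have h1 := ze_diff h k hx1 hx2
    rw [← hE] at h1
    refine h1.trans ?_
    have h2 := inv_kp h k
    calc ‖Zk s c k‖ * E * (2 * CV s c) / (kp s k * x)
        = ‖Zk s c k‖ * E * (2 * CV s c) * (1 / kp s k) / x := by field_simp
      _ ≤ D * E * (2 * CV s c) * (2 / ((k : ℝ) + 1)) / x := by gcongr
      _ = (4 * (D * E) * (CV s c)) / (((k : ℝ) + 1) * x) := by field_simp; ring
      _ ≤ _ := by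
          apply div_le_div_of_nonneg_right _ (by positivity)
          rw [hC]
          have : 0 ≤ 4 * D * E * (3 * (s + |c|) + 3) + 4 * D := by positivity
          linarith
  refine ⟨?_, ?_, hfar⟩
  · rcases le_total (1 / (2 * kp s k)) x with hx1 | hx1
    · have h1 := (ph_le_ze k x).trans (ze_far h k hx1 hx2)
      rw [← hE] at h1
      refine h1.trans (le_trans ?_ hDE)
      gcongr
    · have h1 := (wall h k h0 hx1).1
      rw [← hE] at h1
      refine h1.trans (le_trans ?_ h3DE)
      gcongr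
  · rcases le_total (1 / (2 * kp s k)) x with hx1 | hx1
    · have h1 := hfar hx1
      calc x * ‖ze s c k x - Zk s c k‖ ≤ x * (C / (((k : ℝ) + 1) * x)) := by gcongr
        _ = _ := by field_simp
    · obtain ⟨h1, h2⟩ := wall h k h0 hx1
      rw [← hE] at h1 h2
      have h3 := ze_le (s := s) (c := c) k x
      have h4 := inv_kp h k
      have h5 : ‖ze s c k x - Zk s c k‖ ≤ |ph s c k x| + |phd s c k x / kp s k| + D := by
        refine (norm_sub_le _ _).trans ?_
        linarith
      have h6 : x ≤ 1 / ((k : ℝ) + 1) := by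
        refine hx1.trans ?_
        have : 1 / (2 * kp s k) = 1 / kp s k / 2 := by field_simp
        rw [this]
        calc 1 / kp s k / 2 ≤ 2 / ((k : ℝ) + 1) / 2 := by gcongr
          _ = _ := by field_simp
      have h7 : x * |phd s c k x / kp s k| ≤
          2 / ((k : ℝ) + 1) * ((3 * (s + |c|) + 1) * (D * E)) := by
        calc x * |phd s c k x / kp s k| = 1 / kp s k * |x * phd s c k x| := by
              rw [abs_div, abs_of_pos hk, abs_mul, abs_of_pos h0]
              field_simp
          _ ≤ 2 / ((k : ℝ) + 1) * ((3 * (s + |c|) + 1) * (‖Zk s c k‖ * E)) := by gcongr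
          _ ≤ _ := by gcongr
      calc x * ‖ze s c k x - Zk s c k‖ ≤ x * (|ph s c k x| + |phd s c k x / kp s k| + D) := by
            gcongr
        _ = x * (|ph s c k x| + D) + x * |phd s c k x / kp s k| := by ring
        _ ≤ 1 / ((k : ℝ) + 1) * (3 * (D * E) + D) +
            2 / ((k : ℝ) + 1) * ((3 * (s + |c|) + 1) * (D * E)) := by
            gcongr
            exact h1.trans (by gcongr)
        _ = (3 * (D * E) + D + 2 * ((3 * (s + |c|) + 1) * (D * E))) / ((k : ℝ) + 1) := by
            field_simp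
        _ ≤ _ := by
            apply div_le_div_of_nonneg_right _ (by positivity)
            rw [hC]
            have h1 : 0 ≤ 4 * (D * E) * CV s c := by positivity
            have h2 : 0 ≤ D * E * (s + |c|) := by positivity
            have h3 : 0 < D * E := by positivity
            nlinarith

theorem exp_step (h : Adm s c) (k : ℕ) {x : ℝ} (h0 : 0 < x) :
    ‖Complex.exp (((kp s (k + 1) * x : ℝ) : ℂ) * Complex.I) -
      Complex.exp (((kp s k * x : ℝ) : ℂ) * Complex.I)‖ ≤ x := by
  have e : Complex.exp (((kp s (k + 1) * x : ℝ) : ℂ) * Complex.I) =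
      Complex.exp (((kp s k * x : ℝ) : ℂ) * Complex.I) * Complex.exp (Complex.I * (x : ℝ)) := by
    rw [← Complex.exp_add, kp_succ]
    congr 1
    push_cast
    ring
  have e2 : Complex.exp (((kp s k * x : ℝ) : ℂ) * Complex.I) * Complex.exp (Complex.I * (x : ℝ)) -
      Complex.exp (((kp s k * x : ℝ) : ℂ) * Complex.I) =
      Complex.exp (((kp s k * x : ℝ) : ℂ) * Complex.I) * (Complex.exp (Complex.I * (x : ℝ)) - 1) := by
    ring
  rw [e, e2, norm_mul, Complex.norm_exp_ofReal_mul_I, one_mul]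
  have := Real.norm_exp_I_mul_ofReal_sub_one_le (x := x)
  rwa [Real.norm_eq_abs, abs_of_pos h0] at this

/-- everything that is needed about the orthonormal functions -/
theorem pkg (h : Adm s c) : ∃ C : ℝ, 0 < C ∧ (∀ k, ‖Zk s c k‖ ≤ C ∧
    ‖Zk s c (k + 1) - Zk s c k‖ ≤ C / ((k : ℝ) + 1) ^ 2) ∧
    ∀ k x, 0 < x → x ≤ Real.pi / 2 →
      |ph s c k x| ≤ C ∧ |eta s c k x| ≤ C ∧ |eta s c k x| ≤ C / (((k : ℝ) + 1) * x) ∧
      |eta s c (k + 1) x - eta s c k x| ≤ C / ((k : ℝ) + 1) := by
  obtain ⟨D, hD, hZ⟩ := Zk_all h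
  obtain ⟨B, hB, hze⟩ := ze_all h
  have hs1 := h.one
  obtain ⟨L, hL⟩ : ∃ L, L = (1 + (s - 1) ^ 2) ^ 2 + 2 * (s - 1) ^ 2 := ⟨_, rfl⟩
  have hL0 : 0 ≤ L := by rw [hL]; positivity
  obtain ⟨C, hC⟩ : ∃ C, C = 2 * (B + D) * (1 + L) := ⟨_, rfl⟩
  have hBD : 0 ≤ (B + D) * L := by positivity
  have hC0 : 0 < C := by rw [hC]; positivity
  have hDC : D ≤ C := by rw [hC]; nlinarith
  have hBC : B ≤ C := by rw [hC]; nlinarith
  have hBDC : B + D ≤ C := by rw [hC]; nlinarith
  refine ⟨C, hC0, fun k => ⟨(hZ k).1.trans hDC, (hZ k).2.trans ?_⟩, fun k x h0 hx2 => ?_⟩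
  · apply div_le_div_of_nonneg_right hDC (by positivity)
  have hkn : (0 : ℝ) ≤ k := Nat.cast_nonneg k
  obtain ⟨h1, h2, h3⟩ := hze k x h0 hx2
  have hk := kp_pos h k
  have heta : |eta s c k x| ≤ B + D := by
    unfold eta
    refine (abs_sub _ _).trans ?_
    have : |(Zk s c k * Complex.exp (((kp s k * x : ℝ) : ℂ) * Complex.I)).re| ≤ D := by
      refine (Complex.abs_re_le_norm _).trans ?_
      rw [norm_mul, Complex.norm_exp_ofReal_mul_I, mul_one]
      exact (hZ k).1
    linarith
  refine ⟨h1.trans hBC, heta.trans hBDC, ?_, ?_⟩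
  · rcases le_total (1 / (2 * kp s k)) x with hx1 | hx1
    · have h4 := h3 hx1
      rw [eta_eq]
      refine (Complex.abs_re_le_norm _).trans ?_
      rw [norm_mul, Complex.norm_exp_ofReal_mul_I, mul_one]
      refine h4.trans ?_
      apply div_le_div_of_nonneg_right hBC (by positivity)
    · refine heta.trans (hBDC.trans ?_)
      rw [le_div_iff₀ (by positivity)]
      have h6 : x ≤ 1 / ((k : ℝ) + 1) := by
        refine hx1.trans ?_
        have : 1 / (2 * kp s k) = 1 / kp s k / 2 := by field_simp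
        rw [this]
        have h4 := inv_kp h k
        calc 1 / kp s k / 2 ≤ 2 / ((k : ℝ) + 1) / 2 := by gcongr
          _ = _ := by field_simp
      have h7 : ((k : ℝ) + 1) * x ≤ 1 := by
        rw [le_div_iff₀ (by positivity)] at h6
        linarith
      nlinarith
  · -- the difference
    have hfw := fwd h k h0 (show x < Real.pi by linarith [Real.pi_pos])
    obtain ⟨W, hW⟩ : ∃ W, W = Complex.exp (((kp s (k + 1) * x : ℝ) : ℂ) * Complex.I) := ⟨_, rfl⟩
    obtain ⟨U, hU⟩ : ∃ U, U = Complex.exp (((kp s k * x : ℝ) : ℂ) * Complex.I) := ⟨_, rfl⟩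
    have hzeW : (ze s c k x * W).re = Real.cos x * ph s c k x + Real.sin x * (phd s c k x / kp s k) := by
      rw [hW]
      unfold ze
      have e1 : Complex.exp (((-(kp s k * x) : ℝ) : ℂ) * Complex.I) *
          ((ph s c k x : ℂ) - ((phd s c k x / kp s k : ℝ) : ℂ) * Complex.I) *
          Complex.exp (((kp s (k + 1) * x : ℝ) : ℂ) * Complex.I) =
          ((ph s c k x : ℂ) - ((phd s c k x / kp s k : ℝ) : ℂ) * Complex.I) *
            (((Real.cos x : ℝ) : ℂ) + ((Real.sin x : ℝ) : ℂ) * Complex.I) := by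
        have e2 : Complex.exp (((-(kp s k * x) : ℝ) : ℂ) * Complex.I) *
            Complex.exp (((kp s (k + 1) * x : ℝ) : ℂ) * Complex.I) =
            ((Real.cos x : ℝ) : ℂ) + ((Real.sin x : ℝ) : ℂ) * Complex.I := by
          rw [← Complex.exp_add, Complex.ofReal_cos, Complex.ofReal_sin, ← Complex.exp_mul_I,
            kp_succ]
          congr 1
          push_cast
          ring
        linear_combination ((ph s c k x : ℂ) - ((phd s c k x / kp s k : ℝ) : ℂ) * Complex.I) * e2
      rw [e1]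
      simp only [Complex.mul_re, Complex.sub_re, Complex.ofReal_re, Complex.ofReal_im,
        Complex.I_re, Complex.I_im, Complex.add_re, Complex.sub_im, Complex.add_im, Complex.mul_im]
      ring
    have hph : 2 * ak s c (k + 1) * ph s c (k + 1) x =
        (ze s c k x * W).re - ee s c k / kp s k * ph s c k x := by
      rw [hzeW]
      field_simp
      linear_combination hfw
    have hpU : ph s c k x = (ze s c k x * U).re := by rw [hU]; exact ph_re k x
    have hmain : eta s c (k + 1) x - eta s c k x =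
        (1 - 2 * ak s c (k + 1)) * ph s c (k + 1) x - ee s c k / kp s k * ph s c k x -
          ((Zk s c (k + 1) - Zk s c k) * W).re + ((ze s c k x - Zk s c k) * (W - U)).re := by
      have e3 : eta s c (k + 1) x = ph s c (k + 1) x - (Zk s c (k + 1) * W).re := by
        rw [hW]; rfl
      have e4 : eta s c k x = ph s c k x - (Zk s c k * U).re := by
        rw [hU]; rfl
      have e5 : ((ze s c k x - Zk s c k) * (W - U)).re = (ze s c k x * W).re -
          (ze s c k x * U).re - (Zk s c k * W).re + (Zk s c k * U).re := by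
        have : (ze s c k x - Zk s c k) * (W - U) = ze s c k x * W - ze s c k x * U -
          Zk s c k * W + Zk s c k * U := by ring
        rw [this]
        simp
      have e6 : ((Zk s c (k + 1) - Zk s c k) * W).re = (Zk s c (k + 1) * W).re -
          (Zk s c k * W).re := by
        rw [sub_mul]; simp
      rw [e3, e4, e5, e6, ← hpU]
      linear_combination hph
    rw [hmain]
    have h1' := (hze (k + 1) x h0 hx2).1
    have b1 : |(1 - 2 * ak s c (k + 1)) * ph s c (k + 1) x| ≤
        (1 + (s - 1) ^ 2) ^ 2 / ((k : ℝ) + 1) * B := by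
      rw [abs_mul, abs_sub_comm]
      have h4 := ak_near h k
      have h5 : (1 + (s - 1) ^ 2) ^ 2 / ((k : ℝ) + 1) ^ 2 ≤ (1 + (s - 1) ^ 2) ^ 2 / ((k : ℝ) + 1) := by
        apply div_le_div_of_nonneg_left (by positivity) (by positivity)
        nlinarith
      have h6 := h4.trans h5
      gcongr
    have b2 : |ee s c k / kp s k * ph s c k x| ≤ 2 * (s - 1) ^ 2 / ((k : ℝ) + 1) * B := by
      rw [abs_mul, abs_div, abs_of_pos hk]
      have h4 := ee_kp h k k le_rfl
      have h5 : 2 * (s - 1) ^ 2 / ((k : ℝ) + 1) ^ 2 ≤ 2 * (s - 1) ^ 2 / ((k : ℝ) + 1) := by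
        apply div_le_div_of_nonneg_left (by positivity) (by positivity)
        nlinarith
      have h6 := h4.trans h5
      gcongr
    have b3 : |((Zk s c (k + 1) - Zk s c k) * W).re| ≤ D / ((k : ℝ) + 1) := by
      refine (Complex.abs_re_le_norm _).trans ?_
      rw [norm_mul, hW, Complex.norm_exp_ofReal_mul_I, mul_one]
      refine (hZ k).2.trans ?_
      apply div_le_div_of_nonneg_left (by positivity) (by positivity)
      nlinarith
    have b4 : |((ze s c k x - Zk s c k) * (W - U)).re| ≤ B / ((k : ℝ) + 1) := by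
      refine (Complex.abs_re_le_norm _).trans ?_
      rw [norm_mul]
      have h4 := exp_step h k h0
      rw [← hW, ← hU] at h4
      calc ‖ze s c k x - Zk s c k‖ * ‖W - U‖ ≤ ‖ze s c k x - Zk s c k‖ * x := by gcongr
        _ = x * ‖ze s c k x - Zk s c k‖ := by ring
        _ ≤ _ := h2
    have b5 : ∀ p q u v : ℝ, |p - q - u + v| ≤ |p| + |q| + |u| + |v| := by
      intro p q u v
      have e1 := abs_add_le (p - q - u) v
      have e2 := abs_sub (p - q) u
      have e3 := abs_sub p q
      linarith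
    refine (b5 _ _ _ _).trans ?_
    refine (add_le_add (add_le_add (add_le_add b1 b2) b3) b4).trans ?_
    have e7 : (1 + (s - 1) ^ 2) ^ 2 / ((k : ℝ) + 1) * B + 2 * (s - 1) ^ 2 / ((k : ℝ) + 1) * B +
        D / ((k : ℝ) + 1) + B / ((k : ℝ) + 1) = (L * B + D + B) / ((k : ℝ) + 1) := by
      rw [hL]
      field_simp
    rw [e7]
    apply div_le_div_of_nonneg_right _ (by positivity)
    rw [hC]
    have : 0 ≤ L * D := by positivity
    have : 0 ≤ L * B := by positivity
    nlinarith

end Pool.Agent.H72.Is
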