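import Mathlib
import Pool.Agent.H72.Is.I6
set_option autoImplicit false

/-! Partial sums. -/

namespace Pool.Agent.H72.Is

open MeasureTheory intervalIntegral Set
open Finset (range)

variable {s c : ℝ}

theorem abel (a z : ℕ → ℂ) (n : ℕ) : ∑ k ∈ range (n + 1), a k * z k =
    (∑ k ∈ range (n + 1), a k) * z n -
      ∑ k ∈ range n, (∑ j ∈ range (k + 1), a j) * (z (k + 1) - z k) := by
  induction n with
  | zero => simp
  | succ n ih =>
    have e1 : ∑ k ∈ range (n + 1 + 1), a k = ∑ k ∈ range (n + 1), a k + a (n + 1) :=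
      Finset.sum_range_succ _ _
    have e2 : ∑ k ∈ range (n + 1), (∑ j ∈ range (k + 1), a j) * (z (k + 1) - z k) =
        ∑ k ∈ range n, (∑ j ∈ range (k + 1), a j) * (z (k + 1) - z k) +
          (∑ k ∈ range (n + 1), a k) * (z (n + 1) - z n) := Finset.sum_range_succ _ _
    have e3 : ∑ k ∈ range (n + 1 + 1), a k * z k = ∑ k ∈ range (n + 1), a k * z k +
      a (n + 1) * z (n + 1) := Finset.sum_range_succ _ _
    rw [e1, e2, e3, ih]
    ring

theorem abel_le (a z : ℕ → ℂ) (N : ℕ) (M B V : ℝ) (hM0 : 0 ≤ M) (hB0 : 0 ≤ B) (hV0 : 0 ≤ V)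
    (hS : ∀ m ≤ N, ‖∑ j ∈ range m, a j‖ ≤ M) (hB : ∀ k, ‖z k‖ ≤ B)
    (hV : ∑ k ∈ range N, ‖z (k + 1) - z k‖ ≤ V) :
    ‖∑ k ∈ range N, a k * z k‖ ≤ M * (B + V) := by
  rcases N with _ | n
  · simp
    positivity
  · rw [abel]
    refine (norm_sub_le _ _).trans ?_
    have h1 : ‖(∑ k ∈ range (n + 1), a k) * z n‖ ≤ M * B := by
      rw [norm_mul]
      exact mul_le_mul (hS _ le_rfl) (hB _) (norm_nonneg _) hM0
    have h2 : ‖∑ k ∈ range n, (∑ j ∈ range (k + 1), a j) * (z (k + 1) - z k)‖ ≤ M * V := by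
      refine (norm_sum_le _ _).trans ?_
      calc ∑ k ∈ range n, ‖(∑ j ∈ range (k + 1), a j) * (z (k + 1) - z k)‖
          ≤ ∑ k ∈ range n, M * ‖z (k + 1) - z k‖ := by
            apply Finset.sum_le_sum
            intro k hk
            rw [norm_mul]
            have := hS (k + 1) (by have := Finset.mem_range.1 hk; omega)
            gcongr
        _ = M * ∑ k ∈ range n, ‖z (k + 1) - z k‖ := by rw [Finset.mul_sum]
        _ ≤ M * V := by
            gcongr
            refine le_trans ?_ hV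
            rw [Finset.sum_range_succ]
            have := norm_nonneg (z (n + 1) - z n)
            linarith
    linarith

theorem sum_inv (N : ℕ) : ∑ k ∈ range N, 1 / ((k : ℝ) + 1) ≤ 1 + Real.log N := by
  have h := harmonic_le_one_add_log N
  refine le_trans (le_of_eq ?_) h
  unfold harmonic
  push_cast
  apply Finset.sum_congr rfl
  intro k _
  rw [one_div]

theorem sum_inv_sq (N : ℕ) : ∑ k ∈ range N, 1 / ((k : ℝ) + 1) ^ 2 ≤ 2 := by
  have h : ∀ N : ℕ, ∑ k ∈ range N, 1 / ((k : ℝ) + 1) ^ 2 ≤ 2 * (1 - 1 / ((N : ℝ) + 1)) := by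
    intro N
    induction N with
    | zero => simp
    | succ n ih =>
      rw [Finset.sum_range_succ]
      refine (add_le_add_left ih _).trans ?_
      have hn : (0 : ℝ) ≤ n := Nat.cast_nonneg n
      have e : 1 / ((n : ℝ) + 1) ^ 2 ≤ 2 * (1 / ((n : ℝ) + 1) - 1 / ((n : ℝ) + 1 + 1)) := by
        rw [div_sub_div _ _ (by positivity) (by positivity), mul_div_assoc',
          div_le_div_iff₀ (by positivity) (by positivity)]
        nlinarith
      push_cast
      linarith
  refine (h N).trans ?_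
  have hn : (0 : ℝ) ≤ N := Nat.cast_nonneg N
  have : 0 ≤ 1 / ((N : ℝ) + 1) := by positivity
  linarith

theorem lg_nonneg (N : ℕ) : 0 ≤ Real.log N := Real.log_natCast_nonneg N

theorem lg_mono {m N : ℕ} (h : m ≤ N) : Real.log m ≤ Real.log N := by
  rcases Nat.eq_zero_or_pos m with h0 | h0
  · rw [h0]
    simp only [CharP.cast_eq_zero, Real.log_zero]
    exact lg_nonneg N
  · exact Real.log_le_log (by exact_mod_cast h0) (by exact_mod_cast h)

/-- the kernel -/
noncomputable def KN (N : ℕ) (y : ℝ) : ℝ := 2 * N / (1 + N * |Real.sin (y / 2)|)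

theorem KN_den (N : ℕ) (y : ℝ) : 0 < 1 + N * |Real.sin (y / 2)| := by positivity

theorem KN_nonneg (N : ℕ) (y : ℝ) : 0 ≤ KN N y := by
  unfold KN
  positivity

theorem KN_cont (N : ℕ) : Continuous (KN N) := by
  unfold KN
  refine Continuous.div (by fun_prop) (by fun_prop) fun y => (KN_den N y).ne'

theorem KN_neg (N : ℕ) (y : ℝ) : KN N (-y) = KN N y := by
  unfold KN
  rw [neg_div, Real.sin_neg, abs_neg]

theorem KN_periodic (N : ℕ) : Function.Periodic (KN N) (2 * Real.pi) := by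
  intro y
  unfold KN
  rw [show (y + 2 * Real.pi) / 2 = y / 2 + Real.pi by ring, Real.sin_add_pi, abs_neg]

theorem KN_mono {m N : ℕ} (h : m ≤ N) (y : ℝ) : KN m y ≤ KN N y := by
  unfold KN
  rw [div_le_div_iff₀ (KN_den m y) (KN_den N y)]
  have h' : (m : ℝ) ≤ N := by exact_mod_cast h
  nlinarith

theorem geo_norm (N : ℕ) (y : ℝ) :
    ‖∑ k ∈ range N, Complex.exp (((kp s k * y : ℝ) : ℂ) * Complex.I)‖ ≤ KN N y := by
  have h1 : ∑ k ∈ range N, Complex.exp (((kp s k * y : ℝ) : ℂ) * Complex.I) =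
      Complex.exp (((s / 2 * y : ℝ) : ℂ) * Complex.I) *
        ∑ k ∈ range N, Complex.exp (Complex.I * (y : ℝ)) ^ k := by
    rw [Finset.mul_sum]
    apply Finset.sum_congr rfl
    intro k _
    rw [← Complex.exp_nat_mul, ← Complex.exp_add]
    unfold kp
    congr 1
    push_cast
    ring
  obtain ⟨G, hG⟩ : ∃ G, G = ∑ k ∈ range N, Complex.exp (Complex.I * (y : ℝ)) ^ k := ⟨_, rfl⟩
  rw [h1, norm_mul, Complex.norm_exp_ofReal_mul_I, one_mul, ← hG]
  have hn : ∀ k : ℕ, ‖Complex.exp (Complex.I * (y : ℝ)) ^ k‖ = 1 := by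
    intro k
    rw [norm_pow, mul_comm, Complex.norm_exp_ofReal_mul_I, one_pow]
  have h2 : ‖G‖ ≤ N := by
    rw [hG]
    refine (norm_sum_le _ _).trans ?_
    simp only [hn]
    simp
  have h3 : G * (Complex.exp (Complex.I * (y : ℝ)) - 1) = Complex.exp (Complex.I * (y : ℝ)) ^ N - 1 := by
    rw [hG]
    exact geom_sum_mul _ _
  have h4 : ‖G‖ * (2 * |Real.sin (y / 2)|) ≤ 2 := by
    have e1 := congrArg norm h3
    rw [norm_mul, Complex.norm_exp_I_mul_ofReal_sub_one, Real.norm_eq_abs, abs_mul,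
      abs_of_pos (by norm_num : (0 : ℝ) < 2)] at e1
    rw [e1]
    refine (norm_sub_le _ _).trans ?_
    rw [hn, norm_one]
    norm_num
  unfold KN
  rw [le_div_iff₀ (KN_den N y)]
  have hN : (0 : ℝ) ≤ N := Nat.cast_nonneg N
  nlinarith

theorem log_one_add (N : ℕ) (hN : 1 ≤ N) : Real.log (1 + N) ≤ 1 + Real.log N := by
  have h1 : (1 : ℝ) ≤ N := by exact_mod_cast hN
  have h2 : Real.log (1 + N) ≤ Real.log (2 * N) := Real.log_le_log (by linarith) (by linarith)
  rw [Real.log_mul (by norm_num) (by linarith)] at h2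
  have h3 : Real.log 2 ≤ 1 := by
    have := Real.log_le_sub_one_of_pos (show (0 : ℝ) < 2 by norm_num)
    linarith
  linarith

theorem KN_int0 (N : ℕ) (hN : 1 ≤ N) :
    ∫ y in (0 : ℝ)..Real.pi, KN N y ≤ 2 * Real.pi * (1 + Real.log N) := by
  have hπ := Real.pi_pos
  have h1 : (1 : ℝ) ≤ N := by exact_mod_cast hN
  have hd : ∀ y ∈ uIcc 0 Real.pi, HasDerivAt (fun y => 2 * Real.pi * Real.log (1 + N * y / Real.pi))
      (2 * N / (1 + N * y / Real.pi)) y := by
    intro y hy
    rw [uIcc_of_le hπ.le] at hy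
    have h0 : 0 < 1 + N * y / Real.pi := by
      have := hy.1
      positivity
    have e1 : HasDerivAt (fun y : ℝ => 1 + N * y / Real.pi) (N / Real.pi) y := by
      have := (((hasDerivAt_id' y).const_mul (N : ℝ)).div_const Real.pi).const_add 1
      simpa using this
    refine ((e1.log h0.ne').const_mul (2 * Real.pi)).congr_deriv ?_
    field_simp
  have hc : ContinuousOn (fun y : ℝ => 2 * N / (1 + N * y / Real.pi)) (uIcc 0 Real.pi) := by
    rw [uIcc_of_le hπ.le]
    refine ContinuousOn.div (by fun_prop) (by fun_prop) fun y hy => ?_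
    have := hy.1
    have h0 : 0 < 1 + N * y / Real.pi := by positivity
    exact h0.ne'
  have h2 : ∫ y in (0 : ℝ)..Real.pi, KN N y ≤ ∫ y in (0 : ℝ)..Real.pi, 2 * N / (1 + N * y / Real.pi) := by
    apply integral_mono_on hπ.le ((KN_cont N).intervalIntegrable _ _) hc.intervalIntegrable
    intro y hy
    unfold KN
    have h3 := Real.mul_le_sin (x := y / 2) (by linarith [hy.1]) (by linarith [hy.2])
    have h4 : y / Real.pi ≤ |Real.sin (y / 2)| := by
      refine le_trans ?_ (le_abs_self _)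
      refine le_trans (le_of_eq ?_) h3
      field_simp
    have := hy.1
    have h5 : N * y / Real.pi ≤ N * |Real.sin (y / 2)| := by
      rw [mul_div_assoc]
      gcongr
    apply div_le_div_of_nonneg_left (by positivity) (by positivity)
    linarith
  rw [integral_eq_sub_of_hasDerivAt hd hc.intervalIntegrable] at h2
  have h3 := log_one_add N hN
  have e : 1 + (N : ℝ) * Real.pi / Real.pi = 1 + N := by field_simp
  rw [e] at h2
  simp only [mul_zero, zero_div, add_zero, Real.log_one, sub_zero] at h2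
  refine h2.trans ?_
  gcongr

theorem KN_int (N : ℕ) (hN : 1 ≤ N) (τ : ℝ) :
    ∫ x in (0 : ℝ)..(Real.pi / 2), KN N (τ + x) ≤ 4 * Real.pi * (1 + Real.log N) := by
  have hπ := Real.pi_pos
  have hc := KN_cont N
  have hc1 : Continuous fun x => KN N (τ + x) := by fun_prop
  have h1 : ∫ x in (0 : ℝ)..(Real.pi / 2), KN N (τ + x) ≤ ∫ x in (0 : ℝ)..(2 * Real.pi), KN N (τ + x) := by
    rw [← integral_add_adjacent_intervals (hc1.intervalIntegrable 0 (Real.pi / 2))
      (hc1.intervalIntegrable (Real.pi / 2) (2 * Real.pi))]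
    have : 0 ≤ ∫ x in (Real.pi / 2)..(2 * Real.pi), KN N (τ + x) :=
      integral_nonneg (by linarith) fun x _ => KN_nonneg N _
    linarith
  have h2 : ∫ x in (0 : ℝ)..(2 * Real.pi), KN N (τ + x) = ∫ x in (-Real.pi)..Real.pi, KN N x := by
    rw [intervalIntegral.integral_comp_add_left (fun x => KN N x) τ, add_zero,
      (KN_periodic N).intervalIntegral_add_eq τ (-Real.pi)]
    congr 1
    ring
  have h3 : ∫ x in (-Real.pi)..Real.pi, KN N x = 2 * ∫ x in (0 : ℝ)..Real.pi, KN N x := by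
    rw [← integral_add_adjacent_intervals (hc.intervalIntegrable (-Real.pi) 0)
      (hc.intervalIntegrable 0 Real.pi)]
    have : ∫ x in (-Real.pi)..0, KN N x = ∫ x in (0 : ℝ)..Real.pi, KN N x := by
      have e := intervalIntegral.integral_comp_neg (fun x => KN N x) (a := 0) (b := Real.pi)
      simp only [neg_zero] at e
      rw [← e]
      congr 1
      funext x
      exact KN_neg N x
    rw [this]
    ring
  rw [h2, h3] at h1
  have h4 := KN_int0 N hN
  linarith

theorem Z_sum_gen {C : ℝ} (hC : 0 < C) (z : ℕ → ℂ) (hz : ∀ k : ℕ, ‖z k‖ ≤ C ∧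
    ‖z (k + 1) - z k‖ ≤ C / ((k : ℝ) + 1) ^ 2) (a : ℕ → ℂ) (N : ℕ) (M : ℝ) (hM : 0 ≤ M)
    (hS : ∀ m ≤ N, ‖∑ j ∈ range m, a j‖ ≤ M) : ‖∑ k ∈ range N, a k * z k‖ ≤ M * (3 * C) := by
  have h := abel_le a z N M C (2 * C) hM hC.le (by positivity) hS (fun k => (hz k).1) ?_
  · refine h.trans (le_of_eq (by ring))
  · calc ∑ k ∈ range N, ‖z (k + 1) - z k‖ ≤ ∑ k ∈ range N, C * (1 / ((k : ℝ) + 1) ^ 2) := by
          apply Finset.sum_le_sum
          intro k _
          refine (hz k).2.trans (le_of_eq (by ring))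
      _ = C * ∑ k ∈ range N, 1 / ((k : ℝ) + 1) ^ 2 := by rw [Finset.mul_sum]
      _ ≤ C * 2 := by
          gcongr
          exact sum_inv_sq N
      _ = _ := by ring

theorem conj_z {C : ℝ} {z : ℕ → ℂ} (hz : ∀ k : ℕ, ‖z k‖ ≤ C ∧
    ‖z (k + 1) - z k‖ ≤ C / ((k : ℝ) + 1) ^ 2) : ∀ k : ℕ, ‖(starRingEnd ℂ) (z k)‖ ≤ C ∧
    ‖(starRingEnd ℂ) (z (k + 1)) - (starRingEnd ℂ) (z k)‖ ≤ C / ((k : ℝ) + 1) ^ 2 := by
  intro k
  rw [← map_sub, Complex.norm_conj, Complex.norm_conj]
  exact hz k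

/-- decomposition -/
theorem ph_dec (k : ℕ) (x : ℝ) : (ph s c k x : ℂ) =
    (Zk s c k * Complex.exp (((kp s k * x : ℝ) : ℂ) * Complex.I)) / 2 +
    ((starRingEnd ℂ) (Zk s c k) * Complex.exp (((kp s k * (-x) : ℝ) : ℂ) * Complex.I)) / 2 +
      (eta s c k x : ℂ) := by
  unfold eta
  push_cast
  rw [Complex.re_eq_add_conj, map_mul, ← Complex.exp_conj, map_mul, Complex.conj_I]
  simp only [Complex.conj_ofReal, map_mul]
  rw [show (kp s k : ℂ) * (x : ℂ) * -Complex.I = (kp s k : ℂ) * -(x : ℂ) * Complex.I by ring]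
  ring

theorem phase_add (k : ℕ) (x y : ℝ) : Complex.exp (((kp s k * (x + y) : ℝ) : ℂ) * Complex.I) =
    Complex.exp (((kp s k * x : ℝ) : ℂ) * Complex.I) *
      Complex.exp (((kp s k * y : ℝ) : ℂ) * Complex.I) := by
  rw [← Complex.exp_add]
  congr 1
  push_cast
  ring

theorem log_int (m : ℕ) : ∫ x in (0 : ℝ)..(Real.pi / 2), 1 / (1 + ((m : ℝ) + 1) * x) ≤
    (2 + Real.log ((m : ℝ) + 1)) / ((m : ℝ) + 1) := by
  have hπ := Real.pi_pos
  have hm : (0 : ℝ) ≤ m := Nat.cast_nonneg m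
  have hd : ∀ y ∈ uIcc 0 (Real.pi / 2), HasDerivAt
      (fun y => Real.log (1 + ((m : ℝ) + 1) * y) / ((m : ℝ) + 1))
      (1 / (1 + ((m : ℝ) + 1) * y)) y := by
    intro y hy
    rw [uIcc_of_le (by linarith)] at hy
    have h0 : 0 < 1 + ((m : ℝ) + 1) * y := by
      have := hy.1
      positivity
    have e1 : HasDerivAt (fun y : ℝ => 1 + ((m : ℝ) + 1) * y) ((m : ℝ) + 1) y := by
      have := ((hasDerivAt_id' y).const_mul ((m : ℝ) + 1)).const_add 1
      simpa using this
    refine ((e1.log h0.ne').div_const _).congr_deriv ?_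
    field_simp
  have hc : ContinuousOn (fun y : ℝ => 1 / (1 + ((m : ℝ) + 1) * y)) (uIcc 0 (Real.pi / 2)) := by
    rw [uIcc_of_le (by linarith)]
    refine ContinuousOn.div (by fun_prop) (by fun_prop) fun y hy => ?_
    have := hy.1
    have h0 : 0 < 1 + ((m : ℝ) + 1) * y := by positivity
    exact h0.ne'
  rw [integral_eq_sub_of_hasDerivAt hd hc.intervalIntegrable]
  simp only [mul_zero, add_zero, Real.log_one, zero_div, sub_zero]
  apply div_le_div_of_nonneg_right _ (by positivity)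
  have h4 : Real.pi ≤ 4 := Real.pi_le_four
  have h1 : Real.log (1 + ((m : ℝ) + 1) * (Real.pi / 2)) ≤ Real.log (3 * ((m : ℝ) + 1)) := by
    apply Real.log_le_log (by positivity)
    nlinarith
  rw [Real.log_mul (by norm_num) (by positivity)] at h1
  have h3 : Real.log 3 ≤ 2 := by
    have := Real.log_le_sub_one_of_pos (show (0 : ℝ) < 3 by norm_num)
    linarith
  linarith

theorem eta_cont (h : Adm s c) (k : ℕ) : Continuous (eta s c k) := by
  unfold eta
  have := ph_cont h k
  fun_prop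

/-- the `L¹` norm of the partial sums of the kernel -/
theorem half_sum (h : Adm s c) : ∃ C : ℝ, 0 < C ∧ ∀ N : ℕ, 1 ≤ N → ∀ τ : ℝ,
    ∫ x in (0 : ℝ)..(Real.pi / 2), ‖∑ k ∈ range N, (ph s c k x : ℂ) *
      Complex.exp (((kp s k * τ : ℝ) : ℂ) * Complex.I)‖ ≤ C * (1 + Real.log N) ^ 2 := by
  obtain ⟨C, hC, hZ, hp⟩ := pkg h
  have hπ := Real.pi_pos
  refine ⟨12 * Real.pi * C + 4 * C, by positivity, fun N hN τ => ?_⟩
  obtain ⟨l, hl⟩ : ∃ l, l = Real.log N := ⟨_, rfl⟩
  have hl0 : 0 ≤ l := by rw [hl]; exact lg_nonneg N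
  have hptc : Continuous fun x => ‖∑ k ∈ range N, (ph s c k x : ℂ) *
      Complex.exp (((kp s k * τ : ℝ) : ℂ) * Complex.I)‖ := by
    have : ∀ k, Continuous (ph s c k) := fun k => ph_cont h k
    fun_prop
  have hkc := KN_cont N
  have hetac : ∀ k : ℕ, ContinuousOn (fun x : ℝ => 2 * C * (1 / (1 + ((k : ℝ) + 1) * x)))
      (uIcc 0 (Real.pi / 2)) := by
    intro k
    rw [uIcc_of_le (by linarith)]
    refine ContinuousOn.mul (by fun_prop) ?_
    refine ContinuousOn.div (by fun_prop) (by fun_prop) fun y hy => ?_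
    have := hy.1
    have h0 : 0 < 1 + ((k : ℝ) + 1) * y := by positivity
    exact h0.ne'
  have hsumi : IntervalIntegrable (fun x => ∑ k ∈ range N, 2 * C * (1 / (1 + ((k : ℝ) + 1) * x)))
      volume 0 (Real.pi / 2) := by
    apply ContinuousOn.intervalIntegrable
    exact continuousOn_finsetSum _ fun k _ => hetac k
  have hK1 : IntervalIntegrable (fun x => KN N (τ + x) * (3 * C) / 2) volume 0 (Real.pi / 2) := by
    apply Continuous.intervalIntegrable
    fun_prop
  have hK2 : IntervalIntegrable (fun x => KN N (-τ + x) * (3 * C) / 2) volume 0 (Real.pi / 2) := by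
    apply Continuous.intervalIntegrable
    fun_prop
  have hpt : ∀ x ∈ Ioo 0 (Real.pi / 2), ‖∑ k ∈ range N, (ph s c k x : ℂ) *
      Complex.exp (((kp s k * τ : ℝ) : ℂ) * Complex.I)‖ ≤
      KN N (τ + x) * (3 * C) / 2 + KN N (-τ + x) * (3 * C) / 2 +
        ∑ k ∈ range N, 2 * C * (1 / (1 + ((k : ℝ) + 1) * x)) := by
    intro x hx
    have e1 : ∑ k ∈ range N, (ph s c k x : ℂ) *
        Complex.exp (((kp s k * τ : ℝ) : ℂ) * Complex.I) =
        (∑ k ∈ range N, Complex.exp (((kp s k * (τ + x) : ℝ) : ℂ) * Complex.I) * Zk s c k) / 2 +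
        (∑ k ∈ range N, Complex.exp (((kp s k * (τ + -x) : ℝ) : ℂ) * Complex.I) *
          (starRingEnd ℂ) (Zk s c k)) / 2 +
        ∑ k ∈ range N, (eta s c k x : ℂ) * Complex.exp (((kp s k * τ : ℝ) : ℂ) * Complex.I) := by
      rw [Finset.sum_div, Finset.sum_div, ← Finset.sum_add_distrib, ← Finset.sum_add_distrib]
      apply Finset.sum_congr rfl
      intro k _
      rw [ph_dec, phase_add, phase_add]
      ring
    rw [e1]
    refine (norm_add_le _ _).trans (add_le_add ((norm_add_le _ _).trans (add_le_add ?_ ?_)) ?_)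
    · rw [norm_div]
      have := Z_sum_gen hC (Zk s c) hZ
        (fun k => Complex.exp (((kp s k * (τ + x) : ℝ) : ℂ) * Complex.I)) N
        (KN N (τ + x)) (KN_nonneg _ _) (fun m hm => (geo_norm m _).trans (KN_mono hm _))
      simp only [RCLike.norm_ofNat]
      gcongr
    · rw [norm_div]
      have := Z_sum_gen hC (fun k => (starRingEnd ℂ) (Zk s c k)) (conj_z hZ)
        (fun k => Complex.exp (((kp s k * (τ + -x) : ℝ) : ℂ) * Complex.I)) N
        (KN N (τ + -x)) (KN_nonneg _ _) (fun m hm => (geo_norm m _).trans (KN_mono hm _))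
      have e2 : KN N (τ + -x) = KN N (-τ + x) := by
        rw [← KN_neg]
        congr 1
        ring
      rw [e2] at this
      simp only [RCLike.norm_ofNat]
      gcongr
    · refine (norm_sum_le _ _).trans (Finset.sum_le_sum fun k _ => ?_)
      rw [norm_mul, Complex.norm_exp_ofReal_mul_I, mul_one, Complex.norm_real, Real.norm_eq_abs]
      obtain ⟨_, p2, p3, _⟩ := hp k x hx.1 hx.2.le
      have hx0 := hx.1
      have hkn : (0 : ℝ) ≤ k := Nat.cast_nonneg k
      rw [le_div_iff₀ (by positivity)] at p3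
      rw [mul_one_div, le_div_iff₀ (by positivity)]
      linarith
  have hmono : ∫ x in (0 : ℝ)..(Real.pi / 2), ‖∑ k ∈ range N, (ph s c k x : ℂ) *
      Complex.exp (((kp s k * τ : ℝ) : ℂ) * Complex.I)‖ ≤
      ∫ x in (0 : ℝ)..(Real.pi / 2), (KN N (τ + x) * (3 * C) / 2 + KN N (-τ + x) * (3 * C) / 2 +
        ∑ k ∈ range N, 2 * C * (1 / (1 + ((k : ℝ) + 1) * x))) := by
    apply integral_mono_on_of_le_Ioo (by linarith) (hptc.intervalIntegrable _ _)
      ((hK1.add hK2).add hsumi) hpt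
  refine hmono.trans ?_
  rw [intervalIntegral.integral_add (hK1.add hK2) hsumi, intervalIntegral.integral_add hK1 hK2,
    intervalIntegral.integral_finsetSum fun k _ => (hetac k).intervalIntegrable]
  have b1 : ∫ x in (0 : ℝ)..(Real.pi / 2), KN N (τ + x) * (3 * C) / 2 ≤
      6 * Real.pi * C * (1 + l) := by
    have e : ∀ x, KN N (τ + x) * (3 * C) / 2 = (3 * C / 2) * KN N (τ + x) := fun x => by ring
    simp only [e]
    rw [intervalIntegral.integral_const_mul]
    have := KN_int N hN τ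
    rw [← hl] at this
    calc 3 * C / 2 * ∫ x in (0 : ℝ)..(Real.pi / 2), KN N (τ + x) ≤
        3 * C / 2 * (4 * Real.pi * (1 + l)) := by gcongr
      _ = _ := by ring
  have b2 : ∫ x in (0 : ℝ)..(Real.pi / 2), KN N (-τ + x) * (3 * C) / 2 ≤
      6 * Real.pi * C * (1 + l) := by
    have e : ∀ x, KN N (-τ + x) * (3 * C) / 2 = (3 * C / 2) * KN N (-τ + x) := fun x => by ring
    simp only [e]
    rw [intervalIntegral.integral_const_mul]
    have := KN_int N hN (-τ)
    rw [← hl] at this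
    calc 3 * C / 2 * ∫ x in (0 : ℝ)..(Real.pi / 2), KN N (-τ + x) ≤
        3 * C / 2 * (4 * Real.pi * (1 + l)) := by gcongr
      _ = _ := by ring
  have b3 : ∑ k ∈ range N, ∫ x in (0 : ℝ)..(Real.pi / 2), 2 * C * (1 / (1 + ((k : ℝ) + 1) * x)) ≤
      4 * C * (1 + l) ^ 2 := by
    calc ∑ k ∈ range N, ∫ x in (0 : ℝ)..(Real.pi / 2), 2 * C * (1 / (1 + ((k : ℝ) + 1) * x))
        ≤ ∑ k ∈ range N, 2 * C * (2 + l) * (1 / ((k : ℝ) + 1)) := by
          apply Finset.sum_le_sum
          intro k hk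
          rw [intervalIntegral.integral_const_mul]
          have h1 := log_int k
          have h2 : Real.log ((k : ℝ) + 1) ≤ l := by
            rw [hl]
            have := lg_mono (show k + 1 ≤ N from Finset.mem_range.1 hk)
            push_cast at this
            exact this
          have hkn : (0 : ℝ) ≤ k := Nat.cast_nonneg k
          calc 2 * C * ∫ x in (0 : ℝ)..(Real.pi / 2), 1 / (1 + ((k : ℝ) + 1) * x)
              ≤ 2 * C * ((2 + l) / ((k : ℝ) + 1)) := by
                gcongr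
                refine h1.trans ?_
                gcongr
            _ = _ := by ring
      _ = 2 * C * (2 + l) * ∑ k ∈ range N, (1 / ((k : ℝ) + 1)) := by rw [Finset.mul_sum]
      _ ≤ 2 * C * (2 + l) * (1 + l) := by
          have := sum_inv N
          rw [← hl] at this
          gcongr
      _ ≤ _ := by nlinarith [mul_nonneg hC.le hl0, mul_nonneg (mul_nonneg hC.le hl0) hl0]
  rw [← hl]
  have : 0 ≤ Real.pi * C := by positivity
  have : 0 ≤ Real.pi * C * l := by positivity
  have : 0 ≤ Real.pi * C * l ^ 2 := by positivity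
  nlinarith

end Pool.Agent.H72.Is
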