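import Mathlib
import Pool.Agent.H72.Is.I7
set_option autoImplicit false

/-! Reflection, coefficients of a bounded function. -/

namespace Pool.Agent.H72.Is

open MeasureTheory intervalIntegral Set
open Finset (range)

variable {s c : ℝ}

theorem Adm.neg (h : Adm s c) : Adm s (-c) := ⟨h.one, by rw [abs_neg]; exact h.le⟩

theorem uu_neg (k : ℕ) : uu s (-c) k = -uu s c k := by
  unfold uu
  ring

theorem bb_neg (k : ℕ) : bb s (-c) k = -bb s c k := by
  unfold bb
  rw [uu_neg, uu_neg]
  ring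

theorem AA_neg (k : ℕ) : AA s (-c) k = AA s c k := by
  unfold AA
  rw [neg_sq]

theorem hh_neg (t : ℝ) : ∀ k : ℕ, hh s c k (-t) = (-1) ^ k * hh s (-c) k t := by
  intro k
  induction k using Nat.strong_induction_on with
  | _ k ih =>
    match k, ih with
    | 0, _ => simp [hh_zero]
    | 1, _ =>
      rw [hh_one, hh_one, bb_neg]
      ring
    | (k + 2), ih =>
      rw [hh_rec, hh_rec, ih (k + 1) (by omega), ih k (by omega), bb_neg, AA_neg]
      ring

theorem hx_refl (k : ℕ) (x : ℝ) : hx s c k (Real.pi - x) = (-1) ^ k * hx s (-c) k x := by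
  unfold hx
  rw [Real.cos_pi_sub, hh_neg]

theorem om_refl (x : ℝ) : om s c (Real.pi - x) = om s (-c) x := by
  unfold om
  have e1 : Real.sin ((Real.pi - x) / 2) = Real.cos (x / 2) := by
    rw [sub_div, Real.sin_pi_div_two_sub]
  have e2 : Real.cos ((Real.pi - x) / 2) = Real.sin (x / 2) := by
    rw [sub_div, Real.cos_pi_div_two_sub]
  rw [e1, e2, sub_neg_eq_add, mul_comm, ← sub_eq_add_neg]

theorem ip_refl (k : ℕ) : ip s c k k = ip s (-c) k k := by
  unfold ip
  have e := intervalIntegral.integral_comp_sub_left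
    (fun x => om s c x ^ 2 * (hx s c k x * hx s c k x)) (a := 0) (b := Real.pi) Real.pi
  rw [sub_self, sub_zero] at e
  rw [← e]
  congr 1
  funext x
  rw [om_refl, hx_refl]
  have : ((-1 : ℝ) ^ k) * (-1) ^ k = 1 := by rw [← mul_pow]; simp
  linear_combination (om s (-c) x ^ 2 * hx s (-c) k x * hx s (-c) k x) * this

theorem ph_refl (k : ℕ) (x : ℝ) : ph s c k (Real.pi - x) = (-1) ^ k * ph s (-c) k x := by
  unfold ph nk
  rw [om_refl, hx_refl, ip_refl]
  ring

/-- coefficients -/
noncomputable def co (s c : ℝ) (f : ℝ → ℂ) (k : ℕ) : ℂ :=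
  ∫ x in (0 : ℝ)..Real.pi, f x * (ph s c k x : ℂ)

theorem co_refl (f : ℝ → ℂ) (k : ℕ) :
    co s (-c) (fun x => f (Real.pi - x)) k = (-1) ^ k * co s c f k := by
  unfold co
  have e := intervalIntegral.integral_comp_sub_left
    (fun x => f x * (ph s c k x : ℂ)) (a := 0) (b := Real.pi) Real.pi
  rw [sub_self, sub_zero] at e
  rw [← e, ← intervalIntegral.integral_const_mul]
  congr 1
  funext x
  rw [ph_refl]
  have : ((-1 : ℂ) ^ k) * (-1) ^ k = 1 := by rw [← mul_pow]; simp
  push_cast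
  linear_combination -(f (Real.pi - x) * (ph s (-c) k x : ℂ)) * this

theorem phase_pi (k : ℕ) (τ : ℝ) : (-1 : ℂ) ^ k * Complex.exp (((kp s k * τ : ℝ) : ℂ) * Complex.I) =
    Complex.exp (((-(s / 2 * Real.pi) : ℝ) : ℂ) * Complex.I) *
      Complex.exp (((kp s k * (τ + Real.pi) : ℝ) : ℂ) * Complex.I) := by
  have e1 : (-1 : ℂ) ^ k = Complex.exp (((k * Real.pi : ℝ) : ℂ) * Complex.I) := by
    rw [← Complex.exp_pi_mul_I, ← Complex.exp_nat_mul]
    congr 1
    push_cast
    ring
  rw [e1, ← Complex.exp_add, ← Complex.exp_add]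
  unfold kp
  congr 1
  push_cast
  ring

/-- the partial sums of the coefficients of a bounded function -/
theorem S_bd (h : Adm s c) : ∃ C : ℝ, 0 < C ∧ ∀ f : ℝ → ℂ, Continuous f →
    (∀ x ∈ Icc 0 Real.pi, ‖f x‖ ≤ 1) → ∀ N : ℕ, ∀ τ : ℝ,
    ‖∑ k ∈ range N, co s c f k * Complex.exp (((kp s k * τ : ℝ) : ℂ) * Complex.I)‖ ≤
      C * (1 + Real.log N) ^ 2 := by
  obtain ⟨C1, hC1, h1⟩ := half_sum h
  obtain ⟨C2, hC2, h2⟩ := half_sum h.neg
  refine ⟨C1 + C2, by positivity, fun f hf hf1 N τ => ?_⟩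
  rcases Nat.eq_zero_or_pos N with hN0 | hN
  · rw [hN0]
    simp
    positivity
  have hπ := Real.pi_pos
  have hphc : ∀ k, Continuous (ph s c k) := fun k => ph_cont h k
  have hphc' : ∀ k, Continuous (ph s (-c) k) := fun k => ph_cont h.neg k
  obtain ⟨G, hG⟩ : ∃ G : ℝ → ℂ, G = fun x => ∑ k ∈ range N, (ph s c k x : ℂ) *
      Complex.exp (((kp s k * τ : ℝ) : ℂ) * Complex.I) := ⟨_, rfl⟩
  have hGc : Continuous G := by
    rw [hG]
    fun_prop
  have e1 : ∑ k ∈ range N, co s c f k * Complex.exp (((kp s k * τ : ℝ) : ℂ) * Complex.I) =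
      ∫ x in (0 : ℝ)..Real.pi, f x * G x := by
    rw [hG]
    simp only [Finset.mul_sum]
    rw [intervalIntegral.integral_finsetSum]
    · apply Finset.sum_congr rfl
      intro k _
      unfold co
      rw [← intervalIntegral.integral_mul_const]
      congr 1
      funext x
      ring
    · intro k _
      apply Continuous.intervalIntegrable
      have := hphc k
      fun_prop
  have e2 : ‖∫ x in (0 : ℝ)..Real.pi, f x * G x‖ ≤ ∫ x in (0 : ℝ)..Real.pi, ‖G x‖ := by
    refine (intervalIntegral.norm_integral_le_integral_norm hπ.le).trans ?_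
    apply integral_mono_on hπ.le
    · apply Continuous.intervalIntegrable
      fun_prop
    · exact hGc.norm.intervalIntegrable _ _
    · intro x hx
      rw [norm_mul]
      have := hf1 x hx
      have := norm_nonneg (G x)
      nlinarith
  have e3 : ∫ x in (0 : ℝ)..Real.pi, ‖G x‖ = (∫ x in (0 : ℝ)..(Real.pi / 2), ‖G x‖) +
      ∫ x in (Real.pi / 2)..Real.pi, ‖G x‖ := by
    rw [integral_add_adjacent_intervals]
    · exact hGc.norm.intervalIntegrable _ _
    · exact hGc.norm.intervalIntegrable _ _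
  have e4 : ∫ x in (Real.pi / 2)..Real.pi, ‖G x‖ = ∫ x in (0 : ℝ)..(Real.pi / 2),
      ‖∑ k ∈ range N, (ph s (-c) k x : ℂ) *
        Complex.exp (((kp s k * (τ + Real.pi) : ℝ) : ℂ) * Complex.I)‖ := by
    have e := intervalIntegral.integral_comp_sub_left
      (fun x => ‖G x‖) (a := 0) (b := Real.pi / 2) Real.pi
    rw [sub_zero, show Real.pi - Real.pi / 2 = Real.pi / 2 by ring] at e
    rw [← e]
    congr 1
    funext x
    have e5 : G (Real.pi - x) = Complex.exp (((-(s / 2 * Real.pi) : ℝ) : ℂ) * Complex.I) *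
        ∑ k ∈ range N, (ph s (-c) k x : ℂ) *
        Complex.exp (((kp s k * (τ + Real.pi) : ℝ) : ℂ) * Complex.I) := by
      rw [hG, Finset.mul_sum]
      apply Finset.sum_congr rfl
      intro k _
      have e6 := phase_pi (s := s) k τ
      rw [ph_refl]
      push_cast at e6 ⊢
      linear_combination (ph s (-c) k x : ℂ) * e6
    rw [e5, norm_mul, Complex.norm_exp_ofReal_mul_I, one_mul]
  rw [e1]
  refine e2.trans ?_
  rw [e3, e4]
  have h3 := h1 N hN τ
  have h4 := h2 N hN (τ + Real.pi)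
  rw [hG]
  linarith

theorem log_mono_sq {m N : ℕ} (h : m ≤ N) : (1 + Real.log m) ^ 2 ≤ (1 + Real.log N) ^ 2 := by
  have h1 := lg_mono h
  have h2 := lg_nonneg m
  gcongr

/-- bounded sums -/
theorem D_bd (h : Adm s c) : ∃ C : ℝ, 0 < C ∧ ∀ f : ℝ → ℂ, Continuous f →
    (∀ x ∈ Icc 0 Real.pi, ‖f x‖ ≤ 1) → ∀ N : ℕ, ∀ τ : ℝ,
    ‖∑ k ∈ range N, co s c f k * Complex.exp (((kp s k * τ : ℝ) : ℂ) * Complex.I) * Zk s c k‖ ≤
      C * (1 + Real.log N) ^ 2 ∧
    ‖∑ k ∈ range N, co s c f k * Complex.exp (((kp s k * τ : ℝ) : ℂ) * Complex.I) *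
      (starRingEnd ℂ) (Zk s c k)‖ ≤ C * (1 + Real.log N) ^ 2 := by
  obtain ⟨C1, hC1, h1⟩ := S_bd h
  obtain ⟨C, hC, hZ, hp⟩ := pkg h
  refine ⟨C1 * (3 * C), by positivity, fun f hf hf1 N τ => ?_⟩
  have hM : 0 ≤ C1 * (1 + Real.log N) ^ 2 := by positivity
  have hS : ∀ m ≤ N, ‖∑ j ∈ range m, co s c f j *
      Complex.exp (((kp s j * τ : ℝ) : ℂ) * Complex.I)‖ ≤ C1 * (1 + Real.log N) ^ 2 := by
    intro m hm
    refine (h1 f hf hf1 m τ).trans ?_
    have := log_mono_sq hm
    gcongr
  constructor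
  · refine (Z_sum_gen hC (Zk s c) hZ _ N _ hM hS).trans (le_of_eq (by ring))
  · refine (Z_sum_gen hC (fun k => (starRingEnd ℂ) (Zk s c k)) (conj_z hZ) _ N _ hM hS).trans
      (le_of_eq (by ring))

/-- the full amplitude sum -/
theorem A_bd (h : Adm s c) : ∃ C : ℝ, 0 < C ∧ ∀ f : ℝ → ℂ, Continuous f →
    (∀ x ∈ Icc 0 Real.pi, ‖f x‖ ≤ 1) → ∀ N : ℕ, ∀ τ : ℝ, ∀ x ∈ Ioc 0 (Real.pi / 2),
    ‖∑ k ∈ range N, co s c f k * (ph s c k x : ℂ) *
      Complex.exp (((kp s k * τ : ℝ) : ℂ) * Complex.I)‖ ≤ C * (1 + Real.log N) ^ 3 ∧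
    ‖∑ k ∈ range N, co s c f k * (eta s c k x : ℂ) *
      Complex.exp (((kp s k * τ : ℝ) : ℂ) * Complex.I)‖ ≤ C * (1 + Real.log N) ^ 3 := by
  obtain ⟨C1, hC1, h1⟩ := S_bd h
  obtain ⟨C2, hC2, h2⟩ := D_bd h
  obtain ⟨C, hC, hZ, hp⟩ := pkg h
  refine ⟨C2 + 2 * C1 * C, by positivity, fun f hf hf1 N τ x hx => ?_⟩
  obtain ⟨l, hl⟩ : ∃ l, l = Real.log N := ⟨_, rfl⟩
  have hl0 : 0 ≤ l := by rw [hl]; exact lg_nonneg N
  have hl1 : (1 + l) ^ 2 ≤ (1 + l) ^ 3 := by
    apply pow_le_pow_right₀ (by linarith) (by norm_num)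
  have hS : ∀ m ≤ N, ‖∑ j ∈ range m, co s c f j *
      Complex.exp (((kp s j * τ : ℝ) : ℂ) * Complex.I)‖ ≤ C1 * (1 + l) ^ 2 := by
    intro m hm
    refine (h1 f hf hf1 m τ).trans ?_
    have := log_mono_sq hm
    rw [hl]
    gcongr
  have heta : ‖∑ k ∈ range N, co s c f k * (eta s c k x : ℂ) *
      Complex.exp (((kp s k * τ : ℝ) : ℂ) * Complex.I)‖ ≤ 2 * C1 * C * (1 + l) ^ 3 := by
    have e1 := abel_le (fun k => co s c f k * Complex.exp (((kp s k * τ : ℝ) : ℂ) * Complex.I))
      (fun k => (eta s c k x : ℂ)) N (C1 * (1 + l) ^ 2) C (C * (1 + l)) (by positivity) hC.le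
      (by positivity) hS (fun k => by
        rw [Complex.norm_real, Real.norm_eq_abs]
        exact (hp k x hx.1 hx.2).2.1) ?_
    · have e2 : ∑ k ∈ range N, co s c f k * (eta s c k x : ℂ) *
          Complex.exp (((kp s k * τ : ℝ) : ℂ) * Complex.I) = ∑ k ∈ range N,
          (co s c f k * Complex.exp (((kp s k * τ : ℝ) : ℂ) * Complex.I)) * (eta s c k x : ℂ) := by
        apply Finset.sum_congr rfl
        intro k _
        ring
      rw [e2]
      refine e1.trans ?_
      calc C1 * (1 + l) ^ 2 * (C + C * (1 + l)) ≤ C1 * (1 + l) ^ 2 * (2 * C * (1 + l)) := by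
            gcongr
            nlinarith
        _ = _ := by ring
    · calc ∑ k ∈ range N, ‖(eta s c (k + 1) x : ℂ) - (eta s c k x : ℂ)‖
          ≤ ∑ k ∈ range N, C * (1 / ((k : ℝ) + 1)) := by
            apply Finset.sum_le_sum
            intro k _
            rw [← Complex.ofReal_sub, Complex.norm_real, Real.norm_eq_abs]
            refine (hp k x hx.1 hx.2).2.2.2.trans (le_of_eq (by ring))
        _ = C * ∑ k ∈ range N, 1 / ((k : ℝ) + 1) := by rw [Finset.mul_sum]
        _ ≤ C * (1 + l) := by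
            gcongr
            rw [hl]
            exact sum_inv N
  refine ⟨?_, ?_⟩
  · have e1 : ∑ k ∈ range N, co s c f k * (ph s c k x : ℂ) *
        Complex.exp (((kp s k * τ : ℝ) : ℂ) * Complex.I) =
        (∑ k ∈ range N, co s c f k * Complex.exp (((kp s k * (τ + x) : ℝ) : ℂ) * Complex.I) *
          Zk s c k) / 2 +
        (∑ k ∈ range N, co s c f k * Complex.exp (((kp s k * (τ + -x) : ℝ) : ℂ) * Complex.I) *
          (starRingEnd ℂ) (Zk s c k)) / 2 +
        ∑ k ∈ range N, co s c f k * (eta s c k x : ℂ) *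
          Complex.exp (((kp s k * τ : ℝ) : ℂ) * Complex.I) := by
      rw [Finset.sum_div, Finset.sum_div, ← Finset.sum_add_distrib, ← Finset.sum_add_distrib]
      apply Finset.sum_congr rfl
      intro k _
      rw [ph_dec, phase_add, phase_add]
      ring
    rw [e1]
    have b1 := (h2 f hf hf1 N (τ + x)).1
    have b2 := (h2 f hf hf1 N (τ + -x)).2
    rw [← hl] at b1 b2 ⊢
    refine (norm_add_le _ _).trans ?_
    refine (add_le_add (norm_add_le _ _) heta).trans ?_
    rw [norm_div, norm_div, RCLike.norm_ofNat]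
    have : C2 * (1 + l) ^ 2 ≤ C2 * (1 + l) ^ 3 := by gcongr
    linarith
  · rw [← hl]
    refine heta.trans ?_
    have : 0 ≤ C2 * (1 + l) ^ 3 := by positivity
    linarith

/-- Bessel's inequality for the coefficients -/
theorem co_bessel (h : Adm s c) (f : ℝ → ℂ) (hf : Continuous f)
    (hf1 : ∀ x ∈ Icc 0 Real.pi, ‖f x‖ ≤ 1) (N : ℕ) :
    ∑ k ∈ range N, ‖co s c f k‖ ^ 2 ≤ Real.pi := by
  have hπ := Real.pi_pos
  have hphc : ∀ k, Continuous (ph s c k) := fun k => ph_cont h k
  obtain ⟨P, hP⟩ : ∃ P : ℝ → ℂ, P = fun x => ∑ k ∈ range N, co s c f k * (ph s c k x : ℂ) :=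
    ⟨_, rfl⟩
  have hPc : Continuous P := by
    rw [hP]
    fun_prop
  have hstar : ∀ x, (starRingEnd ℂ) (P x) = ∑ k ∈ range N,
      (starRingEnd ℂ) (co s c f k) * (ph s c k x : ℂ) := by
    intro x
    rw [hP]
    simp [map_sum]
  have hstarc : Continuous fun x => (starRingEnd ℂ) (P x) := Complex.continuous_conj.comp hPc
  have i1 : ∫ x in (0 : ℝ)..Real.pi, f x * (starRingEnd ℂ) (P x) =
      ((∑ k ∈ range N, ‖co s c f k‖ ^ 2 : ℝ) : ℂ) := by
    simp only [hstar, Finset.mul_sum]
    rw [intervalIntegral.integral_finsetSum]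
    · push_cast
      apply Finset.sum_congr rfl
      intro k _
      rw [← Complex.mul_conj']
      have : ∀ x, f x * ((starRingEnd ℂ) (co s c f k) * (ph s c k x : ℂ)) =
        (f x * (ph s c k x : ℂ)) * (starRingEnd ℂ) (co s c f k) := fun x => by ring
      simp only [this]
      rw [intervalIntegral.integral_mul_const]
      rfl
    · intro k _
      apply Continuous.intervalIntegrable
      have := hphc k
      fun_prop
  have i2 : ∫ x in (0 : ℝ)..Real.pi, P x * (starRingEnd ℂ) (P x) =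
      ((∑ k ∈ range N, ‖co s c f k‖ ^ 2 : ℝ) : ℂ) := by
    have hP' : ∀ x, P x * (starRingEnd ℂ) (P x) = ∑ j ∈ range N, ∑ k ∈ range N,
        (co s c f j * (starRingEnd ℂ) (co s c f k)) * (((ph s c j x * ph s c k x : ℝ)) : ℂ) := by
      intro x
      rw [hstar]
      have : P x = ∑ j ∈ range N, co s c f j * (ph s c j x : ℂ) := by rw [hP]
      rw [this, Finset.sum_mul_sum]
      apply Finset.sum_congr rfl
      intro j _
      apply Finset.sum_congr rfl
      intro k _
      push_cast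
      ring
    simp only [hP']
    rw [intervalIntegral.integral_finsetSum]
    · rw [Complex.ofReal_sum]
      apply Finset.sum_congr rfl
      intro j hj
      rw [intervalIntegral.integral_finsetSum]
      · rw [Finset.sum_eq_single j]
        · rw [intervalIntegral.integral_const_mul, Complex.mul_conj']
          have := ph_norm h j
          rw [intervalIntegral.integral_ofReal, this]
          push_cast
          ring
        · intro k _ hkj
          rw [intervalIntegral.integral_const_mul, intervalIntegral.integral_ofReal,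
            ph_orth h hkj.symm]
          simp
        · intro hj'
          exact absurd hj hj'
      · intro k _
        apply Continuous.intervalIntegrable
        have := hphc k
        have := hphc j
        fun_prop
    · intro j _
      apply Continuous.intervalIntegrable
      have := hphc j
      fun_prop
  have i3 : ∫ x in (0 : ℝ)..Real.pi, ‖f x - P x‖ ^ 2 =
      (∫ x in (0 : ℝ)..Real.pi, ‖f x‖ ^ 2) - ∑ k ∈ range N, ‖co s c f k‖ ^ 2 := by
    have e1 : ∀ x, ‖f x - P x‖ ^ 2 = ‖f x‖ ^ 2 - 2 * (f x * (starRingEnd ℂ) (P x)).re +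
        (P x * (starRingEnd ℂ) (P x)).re := by
      intro x
      rw [← Complex.normSq_eq_norm_sq, ← Complex.normSq_eq_norm_sq, Complex.normSq_sub,
        Complex.mul_conj (P x), Complex.ofReal_re]
      ring
    simp only [e1]
    have c1 : Continuous fun x => (f x * (starRingEnd ℂ) (P x)) := hf.mul hstarc
    have c2 : Continuous fun x => (P x * (starRingEnd ℂ) (P x)) := hPc.mul hstarc
    have c1' : Continuous fun x => (f x * (starRingEnd ℂ) (P x)).re := Complex.continuous_re.comp c1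
    have c2' : Continuous fun x => (P x * (starRingEnd ℂ) (P x)).re := Complex.continuous_re.comp c2
    have c3 : Continuous fun x => ‖f x‖ ^ 2 := by fun_prop
    have r1 : ∫ x in (0 : ℝ)..Real.pi, (f x * (starRingEnd ℂ) (P x)).re =
        ∑ k ∈ range N, ‖co s c f k‖ ^ 2 := by
      have := Complex.reCLM.intervalIntegral_comp_comm (c1.intervalIntegrable (μ := volume) 0 Real.pi)
      rw [i1] at this
      simp only [Complex.reCLM_apply, Complex.ofReal_re] at this
      exact this
    have r2 : ∫ x in (0 : ℝ)..Real.pi, (P x * (starRingEnd ℂ) (P x)).re =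
        ∑ k ∈ range N, ‖co s c f k‖ ^ 2 := by
      have := Complex.reCLM.intervalIntegral_comp_comm (c2.intervalIntegrable (μ := volume) 0 Real.pi)
      rw [i2] at this
      simp only [Complex.reCLM_apply, Complex.ofReal_re] at this
      exact this
    have c5 : Continuous fun x => 2 * (f x * (starRingEnd ℂ) (P x)).re := continuous_const.mul c1'
    have c4 : Continuous fun x => ‖f x‖ ^ 2 - 2 * (f x * (starRingEnd ℂ) (P x)).re := c3.sub c5
    rw [intervalIntegral.integral_add (c4.intervalIntegrable _ _)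
      (c2'.intervalIntegrable _ _), intervalIntegral.integral_sub (c3.intervalIntegrable _ _)
      (c5.intervalIntegrable _ _), intervalIntegral.integral_const_mul, r1, r2]
    ring
  have h1 : 0 ≤ ∫ x in (0 : ℝ)..Real.pi, ‖f x - P x‖ ^ 2 :=
    integral_nonneg hπ.le fun x _ => by positivity
  have h2 : ∫ x in (0 : ℝ)..Real.pi, ‖f x‖ ^ 2 ≤ Real.pi := by
    have : ∫ x in (0 : ℝ)..Real.pi, ‖f x‖ ^ 2 ≤ ∫ x in (0 : ℝ)..Real.pi, (1 : ℝ) := by
      apply integral_mono_on hπ.le
      · apply Continuous.intervalIntegrable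
        fun_prop
      · apply Continuous.intervalIntegrable
        fun_prop
      · intro x hx
        have := hf1 x hx
        have := norm_nonneg (f x)
        nlinarith
    simpa using this
  rw [i3] at h1
  linarith

end Pool.Agent.H72.Is
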