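import Mathlib

set_option autoImplicit false

/-! van der Corput's second derivative test -/

namespace Pool.Agent.H72.VdC

open MeasureTheory intervalIntegral Set Complex

/-- First derivative test. -/
lemma first_test (a b : ℝ) (hab : a ≤ b) (u : ℝ → ℂ) (ψ ψ' : ℝ → ℝ) (μ : ℝ) (hμ : 0 < μ)
    (hu : ∀ t, HasDerivAt u (-(I * (ψ t : ℂ)) * u t) t) (hn : ∀ t, ‖u t‖ = 1)
    (hψ : ∀ t, HasDerivAt ψ (ψ' t) t) (hc : Continuous ψ')
    (hpos : ∀ t ∈ Icc a b, 0 ≤ ψ' t) (hlow : ∀ t ∈ Icc a b, μ ≤ ψ t) :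
    ‖∫ t in a..b, u t‖ ≤ 2 / μ := by
  have hψc : Continuous ψ := continuous_iff_continuousAt.mpr fun t => (hψ t).continuousAt
  have huc : Continuous u := continuous_iff_continuousAt.mpr fun t => (hu t).continuousAt
  have hIcc : uIcc a b = Icc a b := uIcc_of_le hab
  have hne : ∀ t ∈ Icc a b, ψ t ≠ 0 := fun t ht => (lt_of_lt_of_le hμ (hlow t ht)).ne'
  have hneC : ∀ t ∈ Icc a b, (ψ t : ℂ) ≠ 0 := fun t ht => by
    rw [Ne, Complex.ofReal_eq_zero]; exact hne t ht
  have hW : ∀ t ∈ Icc a b, HasDerivAt (fun s => I * (u s * ((ψ s : ℂ))⁻¹))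
      (u t - I * (u t * ((ψ' t : ℂ) / (ψ t : ℂ) ^ 2))) t := by
    intro t ht
    have h1 : HasDerivAt (fun s => (ψ s : ℂ)) (ψ' t : ℂ) t := (hψ t).ofReal_comp
    have h2 := (((hu t).mul (h1.inv (hneC t ht))).const_mul I)
    refine h2.congr_deriv ?_
    have h3 := hneC t ht
    simp only [Pi.inv_apply]
    field_simp
    ring_nf
    rw [Complex.I_sq]
    ring
  have hci1 : IntervalIntegrable u volume a b := huc.intervalIntegrable _ _
  have hcR : ContinuousOn (fun t => ψ' t / ψ t ^ 2) (uIcc a b) := by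
    rw [hIcc]
    exact hc.continuousOn.div (hψc.continuousOn.pow 2) (fun t ht => pow_ne_zero 2 (hne t ht))
  have hcC : ContinuousOn (fun t => I * (u t * ((ψ' t : ℂ) / (ψ t : ℂ) ^ 2))) (uIcc a b) := by
    have h := (Complex.continuous_ofReal.comp_continuousOn hcR)
    have h2 : ContinuousOn (fun t => I * (u t * ((ψ' t / ψ t ^ 2 : ℝ) : ℂ))) (uIcc a b) :=
      continuousOn_const.mul (huc.continuousOn.mul h)
    refine h2.congr ?_
    intro t _
    push_cast
    rfl
  have hci2 := hcC.intervalIntegrable (μ := volume)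
  have hI := integral_eq_sub_of_hasDerivAt (a := a) (b := b) (fun t ht => hW t (hIcc ▸ ht))
    (hci1.sub hci2)
  rw [integral_sub hci1 hci2] at hI
  have hR := integral_eq_sub_of_hasDerivAt (a := a) (b := b)
    (f := fun s => -(ψ s)⁻¹) (f' := fun t => ψ' t / ψ t ^ 2) (by
      intro t ht
      refine ((hψ t).inv (hne t (hIcc ▸ ht))).neg.congr_deriv ?_
      ring) hcR.intervalIntegrable
  have hb2 : ‖∫ t in a..b, I * (u t * ((ψ' t : ℂ) / (ψ t : ℂ) ^ 2))‖ ≤
      ∫ t in a..b, ψ' t / ψ t ^ 2 := by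
    apply norm_integral_le_of_norm_le hab
    · filter_upwards with t ht
      have ht' : t ∈ Icc a b := ⟨ht.1.le, ht.2⟩
      rw [norm_mul, norm_mul, Complex.norm_I, hn t, one_mul, one_mul, norm_div, norm_pow,
        Complex.norm_real, Complex.norm_real, Real.norm_eq_abs, Real.norm_eq_abs, sq_abs,
        abs_of_nonneg (hpos t ht')]
    · exact hcR.intervalIntegrable
  rw [hR] at hb2
  have hA : ‖I * (u a * ((ψ a : ℂ))⁻¹)‖ = (ψ a)⁻¹ := by
    have := lt_of_lt_of_le hμ (hlow a ⟨le_refl _, hab⟩)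
    rw [norm_mul, norm_mul, Complex.norm_I, hn a, one_mul, one_mul, norm_inv, Complex.norm_real,
      Real.norm_eq_abs, abs_of_pos this]
  have hB : ‖I * (u b * ((ψ b : ℂ))⁻¹)‖ = (ψ b)⁻¹ := by
    have := lt_of_lt_of_le hμ (hlow b ⟨hab, le_refl _⟩)
    rw [norm_mul, norm_mul, Complex.norm_I, hn b, one_mul, one_mul, norm_inv, Complex.norm_real,
      Real.norm_eq_abs, abs_of_pos this]
  have hsum : (∫ t in a..b, u t) = (I * (u b * ((ψ b : ℂ))⁻¹) - I * (u a * ((ψ a : ℂ))⁻¹)) +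
      ∫ t in a..b, I * (u t * ((ψ' t : ℂ) / (ψ t : ℂ) ^ 2)) := by
    rw [← hI]; ring
  have hfin : (ψ a)⁻¹ ≤ μ⁻¹ := inv_anti₀ hμ (hlow a ⟨le_refl _, hab⟩)
  calc ‖∫ t in a..b, u t‖ ≤ (‖I * (u b * ((ψ b : ℂ))⁻¹)‖ + ‖I * (u a * ((ψ a : ℂ))⁻¹)‖) +
      ‖∫ t in a..b, I * (u t * ((ψ' t : ℂ) / (ψ t : ℂ) ^ 2))‖ := by
        rw [hsum]
        exact (norm_add_le _ _).trans (add_le_add_left (norm_sub_le _ _) _)
    _ ≤ ((ψ b)⁻¹ + (ψ a)⁻¹) + (-(ψ b)⁻¹ - -(ψ a)⁻¹) := by
        rw [hA, hB]; gcongr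
    _ = 2 * (ψ a)⁻¹ := by ring
    _ ≤ 2 * μ⁻¹ := by gcongr
    _ = 2 / μ := by ring

/-- One-sided second derivative test. -/
lemma second_test_right (a b : ℝ) (hab : a ≤ b) (u : ℝ → ℂ) (ψ ψ' : ℝ → ℝ) (μ : ℝ) (hμ : 0 < μ)
    (hu : ∀ t, HasDerivAt u (-(I * (ψ t : ℂ)) * u t) t) (hn : ∀ t, ‖u t‖ = 1)
    (hψ : ∀ t, HasDerivAt ψ (ψ' t) t) (hc : Continuous ψ')
    (hpos : ∀ t ∈ Icc a b, μ ^ 2 ≤ ψ' t) (h0 : 0 ≤ ψ a) :
    ‖∫ t in a..b, u t‖ ≤ 3 / μ := by
  have huc : Continuous u := continuous_iff_continuousAt.mpr fun t => (hu t).continuousAt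
  have htriv : ∀ c d : ℝ, c ≤ d → ‖∫ t in c..d, u t‖ ≤ d - c := by
    intro c d hcd
    have := norm_integral_le_of_norm_le_const (a := c) (b := d) (f := u) (C := 1)
      (fun t _ => (hn t).le)
    rwa [one_mul, abs_of_nonneg (by linarith)] at this
  rcases le_or_gt b (a + 1 / μ) with h | h
  · refine (htriv a b hab).trans ?_
    have : 1 / μ ≤ 3 / μ := by gcongr; norm_num
    linarith
  · have hδ : 0 < 1 / μ := by positivity
    rw [← integral_add_adjacent_intervals (huc.intervalIntegrable a (a + 1 / μ))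
      (huc.intervalIntegrable (a + 1 / μ) b)]
    have h1 := htriv a (a + 1 / μ) (by linarith)
    have h2 := first_test (a + 1 / μ) b h.le u ψ ψ' μ hμ hu hn hψ hc
      (fun t ht => (sq_nonneg μ).trans (hpos t ⟨by linarith [ht.1], ht.2⟩)) (by
        intro t ht
        -- monotonicity
        have hmono : MonotoneOn (fun s => ψ s - μ ^ 2 * s) (Icc a b) := by
          apply monotoneOn_of_deriv_nonneg (convex_Icc a b)
          · apply Continuous.continuousOn
            exact (continuous_iff_continuousAt.mpr fun t => (hψ t).continuousAt).sub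
              (continuous_const.mul continuous_id)
          · intro s _
            exact ((hψ s).sub ((hasDerivAt_id s).const_mul (μ ^ 2))).differentiableAt.differentiableWithinAt
          · intro s hs
            rw [interior_Icc] at hs
            have h3 := ((hψ s).sub ((hasDerivAt_id s).const_mul (μ ^ 2))).deriv
            have h4 : deriv (fun s => ψ s - μ ^ 2 * s) s = ψ' s - μ ^ 2 * 1 := h3
            rw [h4]
            have := hpos s ⟨hs.1.le, hs.2.le⟩
            linarith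
        have h5 := hmono ⟨le_refl a, hab⟩ (⟨by linarith [ht.1], ht.2⟩ : t ∈ Icc a b)
          (by linarith [ht.1])
        simp only at h5
        have h6 : μ ^ 2 * (1 / μ) = μ := by field_simp
        have h7 : μ ^ 2 * (1 / μ) ≤ μ ^ 2 * (t - a) := by
          apply mul_le_mul_of_nonneg_left _ (sq_nonneg μ)
          linarith [ht.1]
        nlinarith)
    calc ‖(∫ t in a..(a + 1 / μ), u t) + ∫ t in (a + 1 / μ)..b, u t‖
        ≤ ‖∫ t in a..(a + 1 / μ), u t‖ + ‖∫ t in (a + 1 / μ)..b, u t‖ := norm_add_le _ _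
      _ ≤ (a + 1 / μ - a) + 2 / μ := add_le_add h1 h2
      _ = 3 / μ := by ring

/-- Second derivative test. -/
lemma second_test (a b : ℝ) (hab : a ≤ b) (u : ℝ → ℂ) (ψ ψ' : ℝ → ℝ) (μ : ℝ) (hμ : 0 < μ)
    (hu : ∀ t, HasDerivAt u (-(I * (ψ t : ℂ)) * u t) t) (hn : ∀ t, ‖u t‖ = 1)
    (hψ : ∀ t, HasDerivAt ψ (ψ' t) t) (hc : Continuous ψ')
    (hpos : ∀ t ∈ Icc a b, μ ^ 2 ≤ ψ' t) :
    ‖∫ t in a..b, u t‖ ≤ 6 / μ := by
  have huc : Continuous u := continuous_iff_continuousAt.mpr fun t => (hu t).continuousAt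
  have hψc : Continuous ψ := continuous_iff_continuousAt.mpr fun t => (hψ t).continuousAt
  have h36 : 3 / μ ≤ 6 / μ := by gcongr; norm_num
  have hleft : ∀ c d : ℝ, c ≤ d → a ≤ c → d ≤ b → ψ d ≤ 0 → ‖∫ t in c..d, u t‖ ≤ 3 / μ := by
    intro c d hcd hac hdb hd
    have h := second_test_right (-d) (-c) (by linarith) (fun t => u (-t)) (fun t => -ψ (-t))
      (fun t => ψ' (-t)) μ hμ (by
        intro t
        have h1 := (hu (-t)).scomp t (hasDerivAt_neg t)
        refine h1.congr_deriv ?_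
        simp) (fun t => hn _) (by
        intro t
        have h1 := ((hψ (-t)).comp t (hasDerivAt_neg t)).neg
        refine h1.congr_deriv ?_
        ring) (hc.comp continuous_neg) (by
        intro t ht
        exact hpos (-t) ⟨by linarith [ht.2], by linarith [ht.1]⟩) (by
        simp only [neg_neg]; linarith)
    rw [intervalIntegral.integral_comp_neg (fun t => u t)] at h
    simpa using h
  rcases le_or_gt 0 (ψ a) with ha | ha
  · exact (second_test_right a b hab u ψ ψ' μ hμ hu hn hψ hc hpos ha).trans h36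
  · rcases le_or_gt (ψ b) 0 with hb | hb
    · exact (hleft a b hab (le_refl _) (le_refl _) hb).trans h36
    · obtain ⟨c, hc1, hc2⟩ := intermediate_value_Icc hab hψc.continuousOn ⟨ha.le, hb.le⟩
      rw [← integral_add_adjacent_intervals (huc.intervalIntegrable a c)
        (huc.intervalIntegrable c b)]
      have h1 := hleft a c hc1.1 (le_refl _) hc1.2 hc2.le
      have h2 := second_test_right c b hc1.2 u ψ ψ' μ hμ hu hn hψ hc
        (fun t ht => hpos t ⟨by linarith [ht.1, hc1.1], ht.2⟩) hc2.ge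
      calc ‖(∫ t in a..c, u t) + ∫ t in c..b, u t‖
          ≤ ‖∫ t in a..c, u t‖ + ‖∫ t in c..b, u t‖ := norm_add_le _ _
        _ ≤ 3 / μ + 3 / μ := add_le_add h1 h2
        _ = 6 / μ := by ring

end Pool.Agent.H72.VdC
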