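import Mathlib
import Pool.Agent.H72.Is.VdC
set_option autoImplicit false

/-! The Bessel integrals. -/

namespace Pool.Agent.H72.Is

open MeasureTheory intervalIntegral Set
open Finset (range)

/-- the phase -/
noncomputable def ua (m : ℕ) (r : ℝ) (t : ℝ) : ℂ :=
  Complex.exp (((-(r * Real.cos t) : ℝ) : ℂ) * Complex.I) *
    Complex.exp (((m * t : ℝ) : ℂ) * Complex.I)

noncomputable def Em (m : ℕ) (r : ℝ) : ℂ := ∫ t in (-Real.pi)..Real.pi, ua m r t

theorem ua_norm (m : ℕ) (r t : ℝ) : ‖ua m r t‖ = 1 := by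
  unfold ua
  rw [norm_mul, Complex.norm_exp_ofReal_mul_I, Complex.norm_exp_ofReal_mul_I, mul_one]

theorem ua_cont (m : ℕ) (r : ℝ) : Continuous (ua m r) := by
  unfold ua
  fun_prop

theorem ua_deriv (m : ℕ) (r t : ℝ) : HasDerivAt (ua m r)
    (((m + r * Real.sin t : ℝ) : ℂ) * Complex.I * ua m r t) t := by
  have e1 : HasDerivAt (fun t : ℝ => (((-(r * Real.cos t) : ℝ) : ℂ) * Complex.I))
      (((r * Real.sin t : ℝ) : ℂ) * Complex.I) t := by
    have : HasDerivAt (fun t : ℝ => -(r * Real.cos t)) (r * Real.sin t) t :=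
      ((Real.hasDerivAt_cos t).const_mul r).fun_neg.congr_deriv (by ring)
    exact this.ofReal_comp.mul_const Complex.I
  have e2 : HasDerivAt (fun t : ℝ => (((m * t : ℝ) : ℂ) * Complex.I))
      (((m : ℝ) : ℂ) * Complex.I) t := by
    have : HasDerivAt (fun t : ℝ => (m : ℝ) * t) (m : ℝ) t :=
      ((hasDerivAt_id' t).const_mul (m : ℝ)).congr_deriv (by ring)
    exact this.ofReal_comp.mul_const Complex.I
  refine (e1.cexp.mul e2.cexp).congr_deriv ?_
  unfold ua
  push_cast
  ring

theorem ua_periodic (m : ℕ) (r : ℝ) : Function.Periodic (ua m r) (2 * Real.pi) := by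
  intro t
  unfold ua
  rw [Real.cos_add_two_pi]
  congr 1
  have : Complex.exp (((m * (t + 2 * Real.pi) : ℝ) : ℂ) * Complex.I) =
      Complex.exp (((m * t : ℝ) : ℂ) * Complex.I) * Complex.exp (2 * Real.pi * Complex.I) ^ m := by
    rw [← Complex.exp_nat_mul, ← Complex.exp_add]
    congr 1
    push_cast
    ring
  rw [this, Complex.exp_two_pi_mul_I, one_pow, mul_one]

theorem no_stat (m : ℕ) (r : ℝ) (hr : 0 < r) (a b : ℝ) (hab : a ≤ b) (m0 : ℝ) (hm0 : 0 < m0)
    (hφ : ∀ t ∈ Icc a b, m0 ≤ |m + r * Real.sin t|) :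
    ‖∫ t in a..b, ua m r t‖ ≤ 2 / m0 + r * (b - a) / m0 ^ 2 := by
  have hne : ∀ t ∈ uIcc a b, (m : ℝ) + r * Real.sin t ≠ 0 := by
    intro t ht
    rw [uIcc_of_le hab] at ht
    have := hφ t ht
    intro h
    rw [h, abs_zero] at this
    linarith
  have hneC : ∀ t ∈ uIcc a b, (((m : ℝ) + r * Real.sin t : ℝ) : ℂ) ≠ 0 := fun t ht => by
    exact_mod_cast hne t ht
  have hd : ∀ t ∈ uIcc a b, HasDerivAt (fun t => ua m r t /
      (((m + r * Real.sin t : ℝ) : ℂ) * Complex.I))
      (ua m r t + ua m r t * (((r * Real.cos t : ℝ) : ℂ) /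
        (((m + r * Real.sin t : ℝ) : ℂ) ^ 2)) * Complex.I) t := by
    intro t ht
    have e0 : HasDerivAt (fun t : ℝ => ((m + r * Real.sin t : ℝ) : ℂ) * Complex.I)
        (((r * Real.cos t : ℝ) : ℂ) * Complex.I) t := by
      have : HasDerivAt (fun t : ℝ => (m : ℝ) + r * Real.sin t) (r * Real.cos t) t :=
        ((Real.hasDerivAt_sin t).const_mul r).const_add _
      exact this.ofReal_comp.mul_const Complex.I
    have h0 := hneC t ht
    refine ((ua_deriv m r t).div e0 (mul_ne_zero h0 Complex.I_ne_zero)).congr_deriv ?_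
    have hI := Complex.I_sq
    have hI0 := Complex.I_ne_zero
    field_simp
    linear_combination (-(ua m r t * ((r * Real.cos t : ℝ) : ℂ))) * hI
  have hc1 : ContinuousOn (fun t => ua m r t * (((r * Real.cos t : ℝ) : ℂ) /
        (((m + r * Real.sin t : ℝ) : ℂ) ^ 2)) * Complex.I) (uIcc a b) := by
    have := ua_cont m r
    refine ContinuousOn.mul (ContinuousOn.mul this.continuousOn ?_) continuousOn_const
    refine ContinuousOn.div (by fun_prop) (by fun_prop) fun t ht => pow_ne_zero 2 (hneC t ht)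
  have hc : ContinuousOn (fun t => ua m r t + ua m r t * (((r * Real.cos t : ℝ) : ℂ) /
        (((m + r * Real.sin t : ℝ) : ℂ) ^ 2)) * Complex.I) (uIcc a b) :=
    (ua_cont m r).continuousOn.add hc1
  have h1 := integral_eq_sub_of_hasDerivAt hd hc.intervalIntegrable
  rw [intervalIntegral.integral_add ((ua_cont m r).intervalIntegrable _ _)
    hc1.intervalIntegrable] at h1
  have h2 : ∫ t in a..b, ua m r t = (ua m r b / (((m + r * Real.sin b : ℝ) : ℂ) * Complex.I) -
      ua m r a / (((m + r * Real.sin a : ℝ) : ℂ) * Complex.I)) -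
      ∫ t in a..b, ua m r t * (((r * Real.cos t : ℝ) : ℂ) /
        (((m + r * Real.sin t : ℝ) : ℂ) ^ 2)) * Complex.I := by
    rw [← h1]
    ring
  rw [h2]
  have hend : ∀ t ∈ Icc a b, ‖ua m r t / (((m + r * Real.sin t : ℝ) : ℂ) * Complex.I)‖ ≤ 1 / m0 := by
    intro t ht
    rw [norm_div, ua_norm, norm_mul, Complex.norm_I, mul_one, Complex.norm_real, Real.norm_eq_abs]
    exact one_div_le_one_div_of_le hm0 (hφ t ht)
  have h3 : ‖∫ t in a..b, ua m r t * (((r * Real.cos t : ℝ) : ℂ) /
        (((m + r * Real.sin t : ℝ) : ℂ) ^ 2)) * Complex.I‖ ≤ r / m0 ^ 2 * |b - a| := by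
    apply intervalIntegral.norm_integral_le_of_norm_le_const
    intro t ht
    rw [uIoc_of_le hab] at ht
    have ht' : t ∈ Icc a b := Ioc_subset_Icc_self ht
    rw [norm_mul, norm_mul, Complex.norm_I, mul_one, ua_norm, one_mul, norm_div, norm_pow,
      Complex.norm_real, Complex.norm_real, Real.norm_eq_abs, Real.norm_eq_abs]
    have e1 : |r * Real.cos t| ≤ r := by
      rw [abs_mul, abs_of_pos hr]
      have := Real.abs_cos_le_one t
      nlinarith
    have e2 := hφ t ht'
    gcongr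
  rw [abs_of_nonneg (by linarith)] at h3
  refine (norm_sub_le _ _).trans ?_
  have h4 := norm_sub_le (ua m r b / (((m + r * Real.sin b : ℝ) : ℂ) * Complex.I))
    (ua m r a / (((m + r * Real.sin a : ℝ) : ℂ) * Complex.I))
  have h5 := hend b (right_mem_Icc.2 hab)
  have h6 := hend a (left_mem_Icc.2 hab)
  have h7 : 2 / m0 = 1 / m0 + 1 / m0 := by ring
  have h8 : r * (b - a) / m0 ^ 2 = r / m0 ^ 2 * (b - a) := by ring
  rw [h7, h8]
  linarith

theorem cosA {t : ℝ} (h1 : -(Real.pi / 3) ≤ t) (h2 : t ≤ Real.pi / 3) : 1 / 2 ≤ Real.cos t := by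
  have hπ := Real.pi_pos
  rw [← Real.cos_abs, ← Real.cos_pi_div_three]
  apply Real.cos_le_cos_of_nonneg_of_le_pi (abs_nonneg t) (by linarith)
  rw [abs_le]
  exact ⟨h1, h2⟩

theorem sinB {t : ℝ} (h1 : Real.pi / 3 ≤ t) (h2 : t ≤ 2 * Real.pi / 3) : 5 / 6 ≤ Real.sin t := by
  have hπ := Real.pi_pos
  have e1 : Real.cos t ≤ 1 / 2 := by
    rw [← Real.cos_pi_div_three]
    exact Real.cos_le_cos_of_nonneg_of_le_pi (by linarith) (by linarith) h1
  have e2 : -(1 / 2) ≤ Real.cos t := by
    have : Real.cos (Real.pi - t) ≤ 1 / 2 := by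
      rw [← Real.cos_pi_div_three]
      exact Real.cos_le_cos_of_nonneg_of_le_pi (by linarith) (by linarith) (by linarith)
    rw [Real.cos_pi_sub] at this
    linarith
  have e3 : 0 ≤ Real.sin t := Real.sin_nonneg_of_nonneg_of_le_pi (by linarith) (by linarith)
  have e4 := Real.sin_sq_add_cos_sq t
  nlinarith

/-- decay of the Bessel integrals -/
theorem Em_decay (m : ℕ) (r : ℝ) (hr : 1 ≤ r) (hm : (m : ℝ) ≤ r / 2) :
    ‖Em m r‖ ≤ 60 / Real.sqrt r := by
  have hπ := Real.pi_pos
  have hr0 : 0 < r := by linarith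
  have hm0 : (0 : ℝ) ≤ m := Nat.cast_nonneg m
  have hc := ua_cont m r
  have e0 : Em m r = (∫ t in (-(Real.pi / 3))..(Real.pi / 3), ua m r t) +
      (∫ t in (Real.pi / 3)..(2 * Real.pi / 3), ua m r t) +
      (∫ t in (2 * Real.pi / 3)..(4 * Real.pi / 3), ua m r t) +
      ∫ t in (4 * Real.pi / 3)..(5 * Real.pi / 3), ua m r t := by
    rw [integral_add_adjacent_intervals (hc.intervalIntegrable _ _) (hc.intervalIntegrable _ _),
      integral_add_adjacent_intervals (hc.intervalIntegrable _ _) (hc.intervalIntegrable _ _),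
      integral_add_adjacent_intervals (hc.intervalIntegrable _ _) (hc.intervalIntegrable _ _)]
    unfold Em
    have := (ua_periodic m r).intervalIntegral_add_eq (-Real.pi) (-(Real.pi / 3))
    rw [show -Real.pi + 2 * Real.pi = Real.pi by ring,
      show -(Real.pi / 3) + 2 * Real.pi = 5 * Real.pi / 3 by ring] at this
    exact this
  have hsq : 0 < Real.sqrt r := Real.sqrt_pos.2 hr0
  have hsq2 : Real.sqrt r ^ 2 = r := Real.sq_sqrt hr0.le
  have hsq1 : 1 ≤ Real.sqrt r := Real.one_le_sqrt.2 hr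
  have hμ : 0 < Real.sqrt r / 2 := by positivity
  have p2 : ‖∫ t in (Real.pi / 3)..(2 * Real.pi / 3), ua m r t‖ ≤ 2 / (r / 3) +
      r * (2 * Real.pi / 3 - Real.pi / 3) / (r / 3) ^ 2 := by
    apply no_stat m r hr0 _ _ (by linarith) (r / 3) (by positivity)
    intro t ht
    have := sinB ht.1 ht.2
    rw [abs_of_nonneg (by nlinarith)]
    nlinarith
  have p4 : ‖∫ t in (4 * Real.pi / 3)..(5 * Real.pi / 3), ua m r t‖ ≤ 2 / (r / 3) +
      r * (5 * Real.pi / 3 - 4 * Real.pi / 3) / (r / 3) ^ 2 := by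
    apply no_stat m r hr0 _ _ (by linarith) (r / 3) (by positivity)
    intro t ht
    have h1 := sinB (t := t - Real.pi) (by linarith [ht.1]) (by linarith [ht.2])
    rw [Real.sin_sub_pi] at h1
    rw [abs_of_nonpos (by nlinarith)]
    nlinarith
  have p3 : ‖∫ t in (2 * Real.pi / 3)..(4 * Real.pi / 3), ua m r t‖ ≤ 6 / (Real.sqrt r / 2) := by
    apply Pool.Agent.H72.VdC.second_test (2 * Real.pi / 3) (4 * Real.pi / 3) (by linarith) (ua m r)
      (fun t => -(m + r * Real.sin t)) (fun t => -(r * Real.cos t)) (Real.sqrt r / 2) hμ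
    · intro t
      refine (ua_deriv m r t).congr_deriv ?_
      push_cast
      ring
    · exact fun t => ua_norm m r t
    · intro t
      exact (((Real.hasDerivAt_sin t).const_mul r).const_add (m : ℝ)).fun_neg
    · fun_prop
    · intro t ht
      have h1 := cosA (t := t - Real.pi) (by linarith [ht.1]) (by linarith [ht.2])
      rw [Real.cos_sub_pi] at h1
      rw [div_pow, hsq2]
      nlinarith
  have p1 : ‖∫ t in (-(Real.pi / 3))..(Real.pi / 3), ua m r t‖ ≤ 6 / (Real.sqrt r / 2) := by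
    have q := Pool.Agent.H72.VdC.second_test (-(Real.pi / 3)) (Real.pi / 3) (by linarith)
      (fun t => (starRingEnd ℂ) (ua m r t))
      (fun t => (m + r * Real.sin t)) (fun t => (r * Real.cos t)) (Real.sqrt r / 2) hμ ?_ ?_ ?_ ?_ ?_
    · have e : ∫ t in (-(Real.pi / 3))..(Real.pi / 3), (starRingEnd ℂ) (ua m r t) =
          (starRingEnd ℂ) (∫ t in (-(Real.pi / 3))..(Real.pi / 3), ua m r t) :=
        Complex.conjCLE.toContinuousLinearMap.intervalIntegral_comp_comm (hc.intervalIntegrable _ _)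
      rw [e, Complex.norm_conj] at q
      exact q
    · intro t
      have h1 := (Complex.conjCLE.toContinuousLinearMap.hasFDerivAt
        (x := ua m r t)).comp_hasDerivAt t (ua_deriv m r t)
      refine h1.congr_deriv ?_
      simp only [ContinuousLinearEquiv.coe_coe, Complex.conjCLE_apply, map_mul,
        Complex.conj_I, Complex.conj_ofReal]
      push_cast
      ring
    · intro t
      simp only [Complex.norm_conj, ua_norm]
    · intro t
      exact ((Real.hasDerivAt_sin t).const_mul r).const_add (m : ℝ)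
    · fun_prop
    · intro t ht
      have h1 := cosA ht.1 ht.2
      rw [div_pow, hsq2]
      nlinarith
  have e1 : 6 / (Real.sqrt r / 2) = 12 / Real.sqrt r := by field_simp; norm_num
  have e2 : 2 / (r / 3) + r * (2 * Real.pi / 3 - Real.pi / 3) / (r / 3) ^ 2 =
      (6 + 3 * Real.pi) / r := by field_simp; ring
  have e3 : 2 / (r / 3) + r * (5 * Real.pi / 3 - 4 * Real.pi / 3) / (r / 3) ^ 2 =
      (6 + 3 * Real.pi) / r := by field_simp; ring
  have h4 : Real.pi ≤ 4 := Real.pi_le_four
  have e4 : (6 + 3 * Real.pi) / r ≤ 18 / Real.sqrt r := by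
    rw [div_le_div_iff₀ hr0 hsq]
    nlinarith
  rw [e1] at p1 p3
  rw [e2] at p2
  rw [e3] at p4
  rw [e0]
  have n1 := norm_add_le ((∫ t in (-(Real.pi / 3))..(Real.pi / 3), ua m r t) +
      (∫ t in (Real.pi / 3)..(2 * Real.pi / 3), ua m r t) +
      (∫ t in (2 * Real.pi / 3)..(4 * Real.pi / 3), ua m r t))
      (∫ t in (4 * Real.pi / 3)..(5 * Real.pi / 3), ua m r t)
  have n2 := norm_add_le ((∫ t in (-(Real.pi / 3))..(Real.pi / 3), ua m r t) +
      (∫ t in (Real.pi / 3)..(2 * Real.pi / 3), ua m r t))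
      (∫ t in (2 * Real.pi / 3)..(4 * Real.pi / 3), ua m r t)
  have n3 := norm_add_le (∫ t in (-(Real.pi / 3))..(Real.pi / 3), ua m r t)
      (∫ t in (Real.pi / 3)..(2 * Real.pi / 3), ua m r t)
  have e5 : 60 / Real.sqrt r = 12 / Real.sqrt r + 18 / Real.sqrt r + 12 / Real.sqrt r +
    18 / Real.sqrt r := by ring
  rw [e5]
  linarith

/-- decay in the order -/
theorem Em_order (m : ℕ) (hm : 1 ≤ m) (r : ℝ) (hr : 0 ≤ r) :
    ‖Em m r‖ ≤ 2 * Real.pi * r / m := by
  have hπ := Real.pi_pos
  have hm0 : (0 : ℝ) < m := by exact_mod_cast hm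
  have hc := ua_cont m r
  have e1 : ∫ t in (-Real.pi)..Real.pi, ((m + r * Real.sin t : ℝ) : ℂ) * Complex.I * ua m r t = 0 := by
    rw [integral_eq_sub_of_hasDerivAt (fun t _ => ua_deriv m r t)]
    · have := ua_periodic m r (-Real.pi)
      rw [show -Real.pi + 2 * Real.pi = Real.pi by ring] at this
      rw [this, sub_self]
    · apply Continuous.intervalIntegrable
      fun_prop
  have e2 : ∀ t : ℝ, ((m + r * Real.sin t : ℝ) : ℂ) * Complex.I * ua m r t =
      ((m : ℂ) * Complex.I) * ua m r t + ((r * Real.sin t : ℝ) : ℂ) * Complex.I * ua m r t := by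
    intro t
    push_cast
    ring
  simp only [e2] at e1
  rw [intervalIntegral.integral_add, intervalIntegral.integral_const_mul] at e1
  rotate_left
  · apply Continuous.intervalIntegrable
    fun_prop
  · apply Continuous.intervalIntegrable
    fun_prop
  have e3 : ((m : ℂ) * Complex.I) * Em m r =
      -∫ t in (-Real.pi)..Real.pi, ((r * Real.sin t : ℝ) : ℂ) * Complex.I * ua m r t := by
    unfold Em
    linear_combination e1
  have e4 := congrArg norm e3
  rw [norm_mul, norm_mul, Complex.norm_I, mul_one, norm_neg, Complex.norm_natCast] at e4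
  have e5 : ‖∫ t in (-Real.pi)..Real.pi, ((r * Real.sin t : ℝ) : ℂ) * Complex.I * ua m r t‖ ≤
      r * |Real.pi - -Real.pi| := by
    apply intervalIntegral.norm_integral_le_of_norm_le_const
    intro t _
    rw [norm_mul, norm_mul, Complex.norm_I, mul_one, ua_norm, mul_one, Complex.norm_real,
      Real.norm_eq_abs, abs_mul, abs_of_nonneg hr]
    have := Real.abs_sin_le_one t
    nlinarith
  rw [← e4, abs_of_pos (by linarith)] at e5
  rw [le_div_iff₀ hm0]
  linarith

/-- Bessel's inequality, general form -/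
theorem bessel_gen {ι : Type*} [DecidableEq ι] (a b : ℝ) (hab : a ≤ b) (S : Finset ι) (e : ι → ℝ → ℂ)
    (he : ∀ k, Continuous (e k)) (ℓ : ℝ) (hℓ : 0 < ℓ)
    (ho : ∀ j k, j ≠ k → ∫ x in a..b, e j x * (starRingEnd ℂ) (e k x) = 0)
    (hn : ∀ k, ∫ x in a..b, e k x * (starRingEnd ℂ) (e k x) = (ℓ : ℂ))
    (g : ℝ → ℂ) (hg : Continuous g) :
    ∑ k ∈ S, ‖∫ x in a..b, g x * (starRingEnd ℂ) (e k x)‖ ^ 2 ≤ ℓ * ∫ x in a..b, ‖g x‖ ^ 2 := by
  obtain ⟨G, hG⟩ : ∃ G : ι → ℂ, G = fun k => ∫ x in a..b, g x * (starRingEnd ℂ) (e k x) := ⟨_, rfl⟩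
  have hec : ∀ k, Continuous fun x => (starRingEnd ℂ) (e k x) := fun k =>
    Complex.continuous_conj.comp (he k)
  obtain ⟨P, hP⟩ : ∃ P : ℝ → ℂ, P = fun x => ∑ k ∈ S, G k * e k x := ⟨_, rfl⟩
  have hPc : Continuous P := by
    rw [hP]
    fun_prop
  have hstar : ∀ x, (starRingEnd ℂ) (P x) = ∑ k ∈ S,
      (starRingEnd ℂ) (G k) * (starRingEnd ℂ) (e k x) := by
    intro x
    rw [hP]
    simp [map_sum]
  have hstarc : Continuous fun x => (starRingEnd ℂ) (P x) := Complex.continuous_conj.comp hPc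
  have i1 : ∫ x in a..b, g x * (starRingEnd ℂ) (P x) = ((∑ k ∈ S, ‖G k‖ ^ 2 : ℝ) : ℂ) := by
    simp only [hstar, Finset.mul_sum]
    rw [intervalIntegral.integral_finsetSum]
    · rw [Complex.ofReal_sum]
      apply Finset.sum_congr rfl
      intro k _
      have : ∀ x, g x * ((starRingEnd ℂ) (G k) * (starRingEnd ℂ) (e k x)) =
        (g x * (starRingEnd ℂ) (e k x)) * (starRingEnd ℂ) (G k) := fun x => by ring
      simp only [this]
      rw [intervalIntegral.integral_mul_const]
      have e1 : ∫ x in a..b, g x * (starRingEnd ℂ) (e k x) = G k := by rw [hG]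
      rw [e1, Complex.mul_conj', Complex.ofReal_pow]
    · intro k _
      apply Continuous.intervalIntegrable
      have := hec k
      fun_prop
  have i2 : ∫ x in a..b, P x * (starRingEnd ℂ) (P x) = ((ℓ * ∑ k ∈ S, ‖G k‖ ^ 2 : ℝ) : ℂ) := by
    have hP' : ∀ x, P x * (starRingEnd ℂ) (P x) = ∑ j ∈ S, ∑ k ∈ S,
        (G j * (starRingEnd ℂ) (G k)) * (e j x * (starRingEnd ℂ) (e k x)) := by
      intro x
      rw [hstar]
      have : P x = ∑ j ∈ S, G j * e j x := by rw [hP]
      rw [this, Finset.sum_mul_sum]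
      apply Finset.sum_congr rfl
      intro j _
      apply Finset.sum_congr rfl
      intro k _
      ring
    simp only [hP']
    rw [intervalIntegral.integral_finsetSum]
    · rw [Complex.ofReal_mul, Complex.ofReal_sum, Finset.mul_sum]
      apply Finset.sum_congr rfl
      intro j hj
      rw [intervalIntegral.integral_finsetSum]
      · rw [Finset.sum_eq_single j]
        · rw [intervalIntegral.integral_const_mul, Complex.mul_conj', hn]
          push_cast
          ring
        · intro k _ hkj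
          rw [intervalIntegral.integral_const_mul, ho j k hkj.symm, mul_zero]
        · intro hj'
          exact absurd hj hj'
      · intro k _
        apply Continuous.intervalIntegrable
        have := hec k
        have := he j
        fun_prop
    · intro j _
      apply Continuous.intervalIntegrable
      have := hec
      have := he j
      fun_prop
  have i3 : ∫ x in a..b, ‖(ℓ : ℂ) * g x - P x‖ ^ 2 =
      ℓ * (ℓ * (∫ x in a..b, ‖g x‖ ^ 2) - ∑ k ∈ S, ‖G k‖ ^ 2) := by
    have e1 : ∀ x, ‖(ℓ : ℂ) * g x - P x‖ ^ 2 = ℓ ^ 2 * ‖g x‖ ^ 2 -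
        2 * ℓ * (g x * (starRingEnd ℂ) (P x)).re + (P x * (starRingEnd ℂ) (P x)).re := by
      intro x
      rw [← Complex.normSq_eq_norm_sq, ← Complex.normSq_eq_norm_sq, Complex.normSq_sub,
        Complex.mul_conj (P x), Complex.ofReal_re, Complex.normSq_mul, Complex.normSq_ofReal,
        mul_assoc (ℓ : ℂ), Complex.re_ofReal_mul]
      ring
    simp only [e1]
    have c1 : Continuous fun x => (g x * (starRingEnd ℂ) (P x)) := hg.mul hstarc
    have c2 : Continuous fun x => (P x * (starRingEnd ℂ) (P x)) := hPc.mul hstarc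
    have c1' : Continuous fun x => (g x * (starRingEnd ℂ) (P x)).re := Complex.continuous_re.comp c1
    have c2' : Continuous fun x => (P x * (starRingEnd ℂ) (P x)).re := Complex.continuous_re.comp c2
    have c3 : Continuous fun x => ℓ ^ 2 * ‖g x‖ ^ 2 := by fun_prop
    have r1 : ∫ x in a..b, (g x * (starRingEnd ℂ) (P x)).re = ∑ k ∈ S, ‖G k‖ ^ 2 := by
      have := Complex.reCLM.intervalIntegral_comp_comm (c1.intervalIntegrable (μ := volume) a b)
      rw [i1] at this
      simp only [Complex.reCLM_apply, Complex.ofReal_re] at this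
      exact this
    have r2 : ∫ x in a..b, (P x * (starRingEnd ℂ) (P x)).re = ℓ * ∑ k ∈ S, ‖G k‖ ^ 2 := by
      have := Complex.reCLM.intervalIntegral_comp_comm (c2.intervalIntegrable (μ := volume) a b)
      rw [i2] at this
      simp only [Complex.reCLM_apply, Complex.ofReal_re] at this
      exact this
    have c5 : Continuous fun x => 2 * ℓ * (g x * (starRingEnd ℂ) (P x)).re :=
      continuous_const.mul c1'
    have c4 : Continuous fun x => ℓ ^ 2 * ‖g x‖ ^ 2 - 2 * ℓ * (g x * (starRingEnd ℂ) (P x)).re :=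
      c3.sub c5
    rw [intervalIntegral.integral_add (c4.intervalIntegrable _ _)
      (c2'.intervalIntegrable _ _), intervalIntegral.integral_sub (c3.intervalIntegrable _ _)
      (c5.intervalIntegrable _ _), intervalIntegral.integral_const_mul,
      intervalIntegral.integral_const_mul, r1, r2]
    ring
  have h1 : 0 ≤ ∫ x in a..b, ‖(ℓ : ℂ) * g x - P x‖ ^ 2 :=
    integral_nonneg hab fun x _ => by positivity
  rw [i3] at h1
  have h2 := nonneg_of_mul_nonneg_right h1 hℓ
  have h3 : ∑ k ∈ S, ‖∫ x in a..b, g x * (starRingEnd ℂ) (e k x)‖ ^ 2 = ∑ k ∈ S, ‖G k‖ ^ 2 := by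
    rw [hG]
  rw [h3]
  linarith

/-- Bessel's inequality for the Bessel integrals -/
theorem Em_bessel (S : Finset ℕ) (r : ℝ) : ∑ m ∈ S, ‖Em m r‖ ^ 2 ≤ (2 * Real.pi) ^ 2 := by
  have hπ := Real.pi_pos
  have hconj : ∀ (m : ℕ) (t : ℝ), (starRingEnd ℂ) (Complex.exp (((-(m * t) : ℝ) : ℂ) * Complex.I)) =
      Complex.exp (((m * t : ℝ) : ℂ) * Complex.I) := by
    intro m t
    rw [← Complex.exp_conj, map_mul, Complex.conj_I, Complex.conj_ofReal]
    congr 1
    push_cast
    ring
  have h := bessel_gen (-Real.pi) Real.pi (by linarith) S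
    (fun m t => Complex.exp (((-(m * t) : ℝ) : ℂ) * Complex.I)) (fun m => by fun_prop)
    (2 * Real.pi) (by positivity) ?_ ?_
    (fun t => Complex.exp (((-(r * Real.cos t) : ℝ) : ℂ) * Complex.I)) (by fun_prop)
  · simp only [hconj, Complex.norm_exp_ofReal_mul_I] at h
    refine le_trans (le_of_eq rfl) (h.trans ?_)
    simp
    nlinarith
  · intro j k hjk
    simp only [hconj]
    have hz : (k : ℝ) - j ≠ 0 := by
      rw [sub_ne_zero]
      exact_mod_cast hjk.symm
    have hzc : (((k : ℝ) - j : ℝ) : ℂ) ≠ 0 := by exact_mod_cast hz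
    have e1 : ∀ t : ℝ, Complex.exp (((-(j * t) : ℝ) : ℂ) * Complex.I) *
        Complex.exp (((k * t : ℝ) : ℂ) * Complex.I) =
        Complex.exp (((((k : ℝ) - j) * t : ℝ) : ℂ) * Complex.I) := by
      intro t
      rw [← Complex.exp_add]
      congr 1
      push_cast
      ring
    simp only [e1]
    have hd : ∀ t ∈ uIcc (-Real.pi) Real.pi, HasDerivAt
        (fun t : ℝ => Complex.exp (((((k : ℝ) - j) * t : ℝ) : ℂ) * Complex.I) /
          ((((k : ℝ) - j : ℝ) : ℂ) * Complex.I))
        (Complex.exp (((((k : ℝ) - j) * t : ℝ) : ℂ) * Complex.I)) t := by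
      intro t _
      have e2 : HasDerivAt (fun t : ℝ => (((((k : ℝ) - j) * t : ℝ) : ℂ) * Complex.I))
          ((((k : ℝ) - j : ℝ) : ℂ) * Complex.I) t := by
        have : HasDerivAt (fun t : ℝ => ((k : ℝ) - j) * t) ((k : ℝ) - j) t :=
          ((hasDerivAt_id' t).const_mul ((k : ℝ) - j)).congr_deriv (by ring)
        exact this.ofReal_comp.mul_const Complex.I
      refine (e2.cexp.div_const _).congr_deriv ?_
      have := Complex.I_ne_zero
      field_simp
    rw [integral_eq_sub_of_hasDerivAt hd (by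
      apply Continuous.intervalIntegrable
      fun_prop)]
    have e3 : Complex.exp (((((k : ℝ) - j) * Real.pi : ℝ) : ℂ) * Complex.I) =
        Complex.exp (((((k : ℝ) - j) * (-Real.pi) : ℝ) : ℂ) * Complex.I) := by
      have e4 : (((((k : ℝ) - j) * Real.pi : ℝ) : ℂ) * Complex.I) =
          (((((k : ℝ) - j) * (-Real.pi) : ℝ) : ℂ) * Complex.I) +
            (((k : ℤ) - (j : ℤ) : ℤ) : ℂ) * (2 * Real.pi * Complex.I) := by
        push_cast
        ring
      rw [e4, Complex.exp_add, Complex.exp_int_mul_two_pi_mul_I, mul_one]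
    rw [e3, sub_self]
  · intro k
    simp only [hconj]
    have e1 : ∀ t : ℝ, Complex.exp (((-(k * t) : ℝ) : ℂ) * Complex.I) *
        Complex.exp (((k * t : ℝ) : ℂ) * Complex.I) = 1 := by
      intro t
      rw [← Complex.exp_add]
      rw [show (((-(k * t) : ℝ) : ℂ) * Complex.I) + (((k * t : ℝ) : ℂ) * Complex.I) = 0 by
        push_cast; ring, Complex.exp_zero]
    simp only [e1]
    simp
    ring

end Pool.Agent.H72.Is
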