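import Mathlib
import Pool.Agent.H72.Is.I9
import Pool.Agent.H72.Lib.S8.H789R2.FR.Planch
set_option autoImplicit false

/-! `L²` on rays. -/

namespace Pool.Agent.H72.Is

open MeasureTheory intervalIntegral Set
open scoped ENNReal

/-- the oscillatory integral -/
noncomputable def OI (A : ℝ → ℂ) (r : ℝ) : ℂ :=
  ∫ t in (-Real.pi)..Real.pi, Complex.exp (((-(r * Real.cos t) : ℝ) : ℂ) * Complex.I) * A t

theorem sin_low {ρ c : ℝ} (hρ : 0 < ρ) (hc : c ∈ Ioo ρ (Real.pi - ρ)) :
    1 / Real.sin c ≤ 2 * (1 / c + 1 / (Real.pi - c)) := by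
  have hπ := Real.pi_pos
  have hc0 : 0 < c := by linarith [hc.1]
  have hc1 : 0 < Real.pi - c := by linarith [hc.2]
  have hs : 0 < Real.sin c := Real.sin_pos_of_pos_of_lt_pi hc0 (by linarith)
  have h4 : Real.pi ≤ 4 := Real.pi_le_four
  rcases le_total c (Real.pi / 2) with h | h
  · have h1 := Real.mul_le_sin hc0.le h
    have h2 : c / 2 ≤ Real.sin c := by
      refine le_trans ?_ h1
      rw [div_mul_eq_mul_div, div_le_div_iff₀ (by norm_num) hπ]
      nlinarith
    have h3 : 1 / Real.sin c ≤ 2 * (1 / c) := by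
      rw [mul_one_div, div_le_div_iff₀ hs hc0]
      linarith
    have : 0 ≤ 1 / (Real.pi - c) := by positivity
    linarith
  · have h1 := Real.mul_le_sin hc1.le (by linarith)
    rw [Real.sin_pi_sub] at h1
    have h2 : (Real.pi - c) / 2 ≤ Real.sin c := by
      refine le_trans ?_ h1
      rw [div_mul_eq_mul_div, div_le_div_iff₀ (by norm_num) hπ]
      nlinarith
    have h3 : 1 / Real.sin c ≤ 2 * (1 / (Real.pi - c)) := by
      rw [mul_one_div, div_le_div_iff₀ hs hc1]
      linarith
    have : 0 ≤ 1 / c := by positivity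
    linarith

theorem csc_int {ρ : ℝ} (hρ : 0 < ρ) (hρ1 : ρ ≤ 1) :
    ∫⁻ c in Ioo ρ (Real.pi - ρ), ENNReal.ofReal (1 / Real.sin c) ≤
      ENNReal.ofReal (4 * Real.log (Real.pi / ρ)) := by
  have hπ := Real.pi_gt_three
  have hle : ρ ≤ Real.pi - ρ := by linarith
  have hc : ContinuousOn (fun c : ℝ => 2 * (1 / c + 1 / (Real.pi - c))) (uIcc ρ (Real.pi - ρ)) := by
    rw [uIcc_of_le hle]
    refine ContinuousOn.mul (by fun_prop) (ContinuousOn.add ?_ ?_)
    · refine ContinuousOn.div (by fun_prop) (by fun_prop) fun y hy => ?_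
      have := hy.1
      exact ne_of_gt (by linarith)
    · refine ContinuousOn.div (by fun_prop) (by fun_prop) fun y hy => ?_
      have := hy.2
      exact ne_of_gt (by linarith)
  calc ∫⁻ c in Ioo ρ (Real.pi - ρ), ENNReal.ofReal (1 / Real.sin c)
      ≤ ∫⁻ c in Ioo ρ (Real.pi - ρ), ENNReal.ofReal (2 * (1 / c + 1 / (Real.pi - c))) := by
        apply setLIntegral_mono' measurableSet_Ioo
        intro c hc
        exact ENNReal.ofReal_le_ofReal (sin_low hρ hc)
    _ = ENNReal.ofReal (∫ c in Ioo ρ (Real.pi - ρ), 2 * (1 / c + 1 / (Real.pi - c))) := by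
        rw [ofReal_integral_eq_lintegral_ofReal]
        · have := hc.intervalIntegrable (μ := volume)
          rw [intervalIntegrable_iff_integrableOn_Ioc_of_le hle] at this
          exact this.mono_set Ioo_subset_Ioc_self
        · rw [Filter.EventuallyLE, ae_restrict_iff' measurableSet_Ioo]
          refine Filter.Eventually.of_forall fun c hc => ?_
          have h1 : 0 < c := by linarith [hc.1]
          have h2 : 0 < Real.pi - c := by linarith [hc.2]
          simp only [Pi.zero_apply]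
          positivity
    _ ≤ _ := by
        apply ENNReal.ofReal_le_ofReal
        rw [← integral_Ioc_eq_integral_Ioo, ← intervalIntegral.integral_of_le hle]
        have hd : ∀ y ∈ uIcc ρ (Real.pi - ρ), HasDerivAt
            (fun y => 2 * (Real.log y - Real.log (Real.pi - y)))
            (2 * (1 / y + 1 / (Real.pi - y))) y := by
          intro y hy
          rw [uIcc_of_le hle] at hy
          have h1 : 0 < y := by linarith [hy.1]
          have h2 : 0 < Real.pi - y := by linarith [hy.2]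
          have e1 : HasDerivAt (fun y : ℝ => Real.pi - y) (-1) y := (hasDerivAt_id' y).const_sub _
          refine (((Real.hasDerivAt_log h1.ne').sub (e1.log h2.ne')).const_mul 2).congr_deriv ?_
          field_simp
          ring
        rw [integral_eq_sub_of_hasDerivAt hd hc.intervalIntegrable]
        have e1 : Real.pi - (Real.pi - ρ) = ρ := by ring
        rw [e1]
        have h1 : Real.log (Real.pi / ρ) = Real.log Real.pi - Real.log ρ :=
          Real.log_div (by linarith) hρ.ne'
        have h2 : Real.log (Real.pi - ρ) ≤ Real.log Real.pi :=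
          Real.log_le_log (by linarith) (by linarith)
        rw [h1]
        linarith

/-- the reduction -/
theorem OI_split (A : ℝ → ℂ) (hA : Continuous A) (ρ : ℝ) (hρ : 0 < ρ) (hρ1 : ρ ≤ 1) (r : ℝ) :
    OI A r = ((∫ t in (-Real.pi)..(-Real.pi + ρ),
        Complex.exp (((-(r * Real.cos t) : ℝ) : ℂ) * Complex.I) * A t) +
      (∫ t in (-ρ)..ρ, Complex.exp (((-(r * Real.cos t) : ℝ) : ℂ) * Complex.I) * A t) +
      (∫ t in (Real.pi - ρ)..Real.pi,
        Complex.exp (((-(r * Real.cos t) : ℝ) : ℂ) * Complex.I) * A t)) +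
      ∫ c in Ioo ρ (Real.pi - ρ), Complex.exp (-((r * Real.cos c : ℝ) : ℂ) * Complex.I) *
        (A c + A (-c)) := by
  have hπ := Real.pi_gt_three
  have hc : Continuous fun t => Complex.exp (((-(r * Real.cos t) : ℝ) : ℂ) * Complex.I) * A t := by
    fun_prop
  have hc' : Continuous fun t => Complex.exp (((-(r * Real.cos t) : ℝ) : ℂ) * Complex.I) * A (-t) := by
    fun_prop
  have e1 : ∫ c in Ioo ρ (Real.pi - ρ), Complex.exp (-((r * Real.cos c : ℝ) : ℂ) * Complex.I) *
        (A c + A (-c)) = (∫ t in ρ..(Real.pi - ρ),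
          Complex.exp (((-(r * Real.cos t) : ℝ) : ℂ) * Complex.I) * A t) +
        ∫ t in (-Real.pi + ρ)..(-ρ), Complex.exp (((-(r * Real.cos t) : ℝ) : ℂ) * Complex.I) * A t := by
    rw [← integral_Ioc_eq_integral_Ioo, ← intervalIntegral.integral_of_le (by linarith)]
    have e2 : ∫ t in (-Real.pi + ρ)..(-ρ), Complex.exp (((-(r * Real.cos t) : ℝ) : ℂ) * Complex.I) * A t =
        ∫ t in ρ..(Real.pi - ρ), Complex.exp (((-(r * Real.cos t) : ℝ) : ℂ) * Complex.I) * A (-t) := by
      have e := intervalIntegral.integral_comp_neg (fun t =>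
        Complex.exp (((-(r * Real.cos t) : ℝ) : ℂ) * Complex.I) * A t) (a := ρ) (b := Real.pi - ρ)
      rw [show -(Real.pi - ρ) = -Real.pi + ρ by ring] at e
      rw [← e]
      congr 1
      funext t
      simp only [Real.cos_neg]
    rw [e2, ← intervalIntegral.integral_add (hc.intervalIntegrable _ _) (hc'.intervalIntegrable _ _)]
    congr 1
    funext t
    have : (-((r * Real.cos t : ℝ) : ℂ) * Complex.I) =
      (((-(r * Real.cos t) : ℝ) : ℂ) * Complex.I) := by push_cast; ring
    rw [this]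
    ring
  rw [e1]
  unfold OI
  have i := fun a b => hc.intervalIntegrable (μ := volume) a b
  rw [← integral_add_adjacent_intervals (i (-Real.pi) (-Real.pi + ρ)) (i (-Real.pi + ρ) Real.pi),
    ← integral_add_adjacent_intervals (i (-Real.pi + ρ) (-ρ)) (i (-ρ) Real.pi),
    ← integral_add_adjacent_intervals (i (-ρ) ρ) (i ρ Real.pi),
    ← integral_add_adjacent_intervals (i ρ (Real.pi - ρ)) (i (Real.pi - ρ) Real.pi)]
  ring

theorem OI_near (A : ℝ → ℂ) (B : ℝ) (hB : ∀ t, ‖A t‖ ≤ B) (ρ : ℝ) (hρ : 0 < ρ) (r : ℝ) :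
    ‖(∫ t in (-Real.pi)..(-Real.pi + ρ),
        Complex.exp (((-(r * Real.cos t) : ℝ) : ℂ) * Complex.I) * A t) +
      (∫ t in (-ρ)..ρ, Complex.exp (((-(r * Real.cos t) : ℝ) : ℂ) * Complex.I) * A t) +
      (∫ t in (Real.pi - ρ)..Real.pi,
        Complex.exp (((-(r * Real.cos t) : ℝ) : ℂ) * Complex.I) * A t)‖ ≤ 4 * ρ * B := by
  have h : ∀ a b : ℝ, ‖∫ t in a..b, Complex.exp (((-(r * Real.cos t) : ℝ) : ℂ) * Complex.I) * A t‖ ≤
      B * |b - a| := by
    intro a b
    apply intervalIntegral.norm_integral_le_of_norm_le_const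
    intro t _
    rw [norm_mul, Complex.norm_exp_ofReal_mul_I, one_mul]
    exact hB t
  have h1 := h (-Real.pi) (-Real.pi + ρ)
  have h2 := h (-ρ) ρ
  have h3 := h (Real.pi - ρ) Real.pi
  rw [show -Real.pi + ρ - -Real.pi = ρ by ring, abs_of_pos hρ] at h1
  rw [show ρ - -ρ = 2 * ρ by ring, abs_of_pos (by positivity)] at h2
  rw [show Real.pi - (Real.pi - ρ) = ρ by ring, abs_of_pos hρ] at h3
  refine (norm_add_le _ _).trans ?_
  refine (add_le_add (norm_add_le _ _) le_rfl).trans ?_
  linarith

theorem OI_cont (A : ℝ → ℂ) (hA : Continuous A) : Continuous (OI A) := by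
  unfold OI
  apply intervalIntegral.continuous_parametric_intervalIntegral_of_continuous'
  fun_prop

/-- `L²` bound on a ray -/
theorem ray (A : ℝ → ℂ) (hA : Continuous A) (B : ℝ) (hB : ∀ t, ‖A t‖ ≤ B) (R : ℝ) (hR : 1 ≤ R) :
    ∫⁻ r in Ioo R (2 * R), ENNReal.ofReal (‖OI A r‖ ^ 2) ≤
      ENNReal.ofReal (1000 * B ^ 2 * (1 + Real.log R)) := by
  have hB0 : 0 ≤ B := (norm_nonneg _).trans (hB 0)
  have hπ := Real.pi_gt_three
  have h4 : Real.pi ≤ 4 := Real.pi_le_four
  have hR0 : 0 < R := by linarith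
  have hlog : 0 ≤ Real.log R := Real.log_nonneg hR
  obtain ⟨ρ, hρd⟩ : ∃ ρ, ρ = (Real.sqrt R)⁻¹ := ⟨_, rfl⟩
  have hsq : 0 < Real.sqrt R := Real.sqrt_pos.2 hR0
  have hsq1 : 1 ≤ Real.sqrt R := Real.one_le_sqrt.2 hR
  have hρ : 0 < ρ := by rw [hρd]; positivity
  have hρ1 : ρ ≤ 1 := by rw [hρd]; exact inv_le_one_of_one_le₀ hsq1
  have hρ2 : ρ ^ 2 * R = 1 := by
    rw [hρd, inv_pow, Real.sq_sqrt hR0.le]
    field_simp
  obtain ⟨V, hV⟩ : ∃ V : ℝ → ℂ, V = fun r => ∫ c in Ioo ρ (Real.pi - ρ),
    Complex.exp (-((r * Real.cos c : ℝ) : ℂ) * Complex.I) * (A c + A (-c)) := ⟨_, rfl⟩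
  have hpt : ∀ r, ‖OI A r‖ ^ 2 ≤ 2 * (4 * ρ * B) ^ 2 + 2 * ‖V r‖ ^ 2 := by
    intro r
    have h1 := OI_split A hA ρ hρ hρ1 r
    have h2 := OI_near A B hB ρ hρ r
    have h3 : ‖OI A r‖ ≤ 4 * ρ * B + ‖V r‖ := by
      rw [h1, hV]
      refine (norm_add_le _ _).trans ?_
      gcongr
    have h5 : ‖OI A r‖ ^ 2 ≤ (4 * ρ * B + ‖V r‖) ^ 2 := by gcongr
    nlinarith [sq_nonneg (4 * ρ * B - ‖V r‖)]
  have hVb : ∫⁻ r : ℝ, ENNReal.ofReal (‖V r‖ ^ 2) ≤
      ENNReal.ofReal (2 * Real.pi) * ENNReal.ofReal (4 * B ^ 2 * (4 * Real.log (Real.pi / ρ))) := by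
    have hinj : InjOn Real.cos (Ioo ρ (Real.pi - ρ)) := by
      apply Real.injOn_cos.mono
      intro x hx
      exact ⟨by linarith [hx.1], by linarith [hx.2]⟩
    have h1 := Pool.Agent.H789R2.FR.pl_phase (Ioo ρ (Real.pi - ρ)) measurableSet_Ioo
      (by rw [Real.volume_Ioo]; exact ENNReal.ofReal_lt_top)
      Real.cos (fun c => -Real.sin c) Real.measurable_cos Real.measurable_sin.neg
      (fun c _ => (Real.hasDerivAt_cos c).hasDerivWithinAt)
      (fun c hc => by
        have := Real.sin_pos_of_pos_of_lt_pi (show 0 < c by linarith [hc.1])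
          (show c < Real.pi by linarith [hc.2])
        exact neg_ne_zero.2 this.ne')
      hinj (fun c => A c + A (-c)) (by
        have : Continuous fun c => A c + A (-c) := by fun_prop
        exact this.measurable)
      ⟨2 * B, fun c => by
        refine (norm_add_le _ _).trans ?_
        have := hB c
        have := hB (-c)
        linarith⟩
    rw [hV]
    refine h1.trans ?_
    gcongr
    calc ∫⁻ c in Ioo ρ (Real.pi - ρ), ENNReal.ofReal (‖A c + A (-c)‖ ^ 2 / |-Real.sin c|)
        ≤ ∫⁻ c in Ioo ρ (Real.pi - ρ), ENNReal.ofReal (4 * B ^ 2) *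
            ENNReal.ofReal (1 / Real.sin c) := by
          apply setLIntegral_mono' measurableSet_Ioo
          intro c hc
          have hs := Real.sin_pos_of_pos_of_lt_pi (show 0 < c by linarith [hc.1])
            (show c < Real.pi by linarith [hc.2])
          rw [← ENNReal.ofReal_mul (by positivity)]
          apply ENNReal.ofReal_le_ofReal
          rw [abs_neg, abs_of_pos hs, mul_one_div]
          apply div_le_div_of_nonneg_right _ hs.le
          have h2 : ‖A c + A (-c)‖ ≤ 2 * B := by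
            refine (norm_add_le _ _).trans ?_
            have := hB c
            have := hB (-c)
            linarith
          calc ‖A c + A (-c)‖ ^ 2 ≤ (2 * B) ^ 2 := by gcongr
            _ = _ := by ring
      _ = ENNReal.ofReal (4 * B ^ 2) * ∫⁻ c in Ioo ρ (Real.pi - ρ), ENNReal.ofReal (1 / Real.sin c) := by
          rw [lintegral_const_mul]
          exact (measurable_const.div Real.measurable_sin).ennreal_ofReal
      _ ≤ ENNReal.ofReal (4 * B ^ 2) * ENNReal.ofReal (4 * Real.log (Real.pi / ρ)) := by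
          gcongr
          exact csc_int hρ hρ1
      _ = _ := by rw [← ENNReal.ofReal_mul (by positivity)]
  have hlogρ : Real.log (Real.pi / ρ) ≤ 3 * (1 + Real.log R) := by
    rw [Real.log_div (by linarith) hρ.ne', hρd, Real.log_inv, Real.log_sqrt hR0.le]
    have := Real.log_le_sub_one_of_pos (show (0 : ℝ) < Real.pi by linarith)
    linarith
  calc ∫⁻ r in Ioo R (2 * R), ENNReal.ofReal (‖OI A r‖ ^ 2)
      ≤ ∫⁻ r in Ioo R (2 * R), (ENNReal.ofReal (2 * (4 * ρ * B) ^ 2) +
          ENNReal.ofReal 2 * ENNReal.ofReal (‖V r‖ ^ 2)) := by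
        apply lintegral_mono
        intro r
        simp only
        rw [← ENNReal.ofReal_mul (by norm_num), ← ENNReal.ofReal_add (by positivity) (by positivity)]
        exact ENNReal.ofReal_le_ofReal (hpt r)
    _ = ENNReal.ofReal (2 * (4 * ρ * B) ^ 2) * volume (Ioo R (2 * R)) +
          ENNReal.ofReal 2 * ∫⁻ r in Ioo R (2 * R), ENNReal.ofReal (‖V r‖ ^ 2) := by
        rw [lintegral_add_left measurable_const, lintegral_const, Measure.restrict_apply_univ,
          lintegral_const_mul' _ _ ENNReal.ofReal_ne_top]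
    _ ≤ ENNReal.ofReal (2 * (4 * ρ * B) ^ 2 * R) + ENNReal.ofReal 2 *
          (ENNReal.ofReal (2 * Real.pi) * ENNReal.ofReal (4 * B ^ 2 * (4 * Real.log (Real.pi / ρ)))) := by
        rw [Real.volume_Ioo, ← ENNReal.ofReal_mul (by positivity)]
        gcongr
        · linarith
        · exact (setLIntegral_le_lintegral _ _).trans hVb
    _ ≤ _ := by
        rw [← ENNReal.ofReal_mul (by positivity), ← ENNReal.ofReal_mul (by norm_num),
          ← ENNReal.ofReal_add (by positivity) ?_]
        · apply ENNReal.ofReal_le_ofReal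
          have e1 : 2 * (4 * ρ * B) ^ 2 * R = 32 * B ^ 2 * (ρ ^ 2 * R) := by ring
          rw [e1, hρ2]
          have e2 : 2 * (2 * Real.pi * (4 * B ^ 2 * (4 * Real.log (Real.pi / ρ)))) ≤
              2 * (2 * 4 * (4 * B ^ 2 * (4 * (3 * (1 + Real.log R))))) := by
            have : 0 ≤ Real.log (Real.pi / ρ) := by
              apply Real.log_nonneg
              rw [le_div_iff₀ hρ]
              linarith
            gcongr
          refine (add_le_add le_rfl e2).trans ?_
          have : 0 ≤ B ^ 2 := by positivity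
          have : 0 ≤ B ^ 2 * Real.log R := by positivity
          nlinarith
        · have : 0 ≤ Real.log (Real.pi / ρ) := by
            apply Real.log_nonneg
            rw [le_div_iff₀ hρ]
            linarith
          positivity

end Pool.Agent.H72.Is
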