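import Mathlib
import Pool.Agent.H72.Is.J1
import Pool.Agent.H72.Lib.S8.H789R2.FR.E4
set_option autoImplicit false

/-! The planar `L⁴` estimate in polar coordinates. -/

namespace Pool.Agent.H72.Is

open MeasureTheory intervalIntegral Set
open Pool.Agent.H789R2.FR (Ex sc band)
open scoped ENNReal

/-- one arc -/
noncomputable def arc (h : ℝ → ℂ) (r Θ : ℝ) : ℂ :=
  ∫ u in (-(Real.pi / 4))..(Real.pi / 4),
    Complex.exp (((-(r * Real.cos (u - Θ)) : ℝ) : ℂ) * Complex.I) * h u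

/-- the planar density of an arc -/
noncomputable def barc (h : ℝ → ℂ) : ℝ → ℂ :=
  (Ioc (-(Real.sqrt 2 / 2)) (Real.sqrt 2 / 2)).indicator fun c => h (Real.arcsin c) / (sc c : ℂ)

theorem sq2 : Real.sqrt 2 ^ 2 = 2 := Real.sq_sqrt (by norm_num)

theorem sq2_lt : Real.sqrt 2 / 2 < 1 := by
  have h1 := sq2
  have h2 := Real.sqrt_nonneg 2
  nlinarith

theorem sc_low {c : ℝ} (hc : c ∈ Icc (-(Real.sqrt 2 / 2)) (Real.sqrt 2 / 2)) : 1 / 2 < sc c := by
  unfold sc
  apply Real.lt_sqrt_of_sq_lt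
  have h1 := sq2
  have h2 := hc.1
  have h3 := hc.2
  nlinarith

theorem sc_cont : Continuous sc := by
  unfold sc
  exact Real.continuous_sqrt.comp (by fun_prop)

theorem barc_meas (h : ℝ → ℂ) (hh : Continuous h) : Measurable (barc h) := by
  unfold barc
  refine Measurable.indicator ?_ measurableSet_Ioc
  exact (hh.comp Real.continuous_arcsin).measurable.div
    (Complex.measurable_ofReal.comp sc_cont.measurable)

theorem barc_bd (h : ℝ → ℂ) (B : ℝ) (hB : ∀ t, ‖h t‖ ≤ B) (c : ℝ) : ‖barc h c‖ ≤ 2 * B := by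
  have hB0 : 0 ≤ B := (norm_nonneg _).trans (hB 0)
  unfold barc
  by_cases hc : c ∈ Ioc (-(Real.sqrt 2 / 2)) (Real.sqrt 2 / 2)
  · rw [indicator_of_mem hc]
    have h1 := sc_low (Ioc_subset_Icc_self hc)
    rw [norm_div, Complex.norm_real, Real.norm_eq_abs, abs_of_pos (by linarith),
      div_le_iff₀ (by linarith)]
    have := hB (Real.arcsin c)
    nlinarith
  · rw [indicator_of_notMem hc, norm_zero]
    positivity

theorem barc_supp (h : ℝ → ℂ) (c : ℝ) (hc : c ∉ band 1) : barc h c = 0 := by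
  unfold barc
  apply indicator_of_notMem
  intro hc'
  apply hc
  have hI := Ioc_subset_Icc_self hc'
  have h1 := sc_low hI
  have h2 := sq2_lt
  refine ⟨abs_lt.2 ⟨by linarith [hI.1], by linarith [hI.2]⟩, h1, ?_⟩
  unfold sc
  apply Real.sqrt_le_one.2
  nlinarith [sq_nonneg c]

theorem arc_eq (h : ℝ → ℂ) (hh : Continuous h) (r Θ : ℝ) :
    arc h r Θ = Ex (barc h) (r * Real.cos Θ) (r * Real.sin Θ) := by
  have hπ := Real.pi_pos
  have h2 := sq2_lt
  have h20 : 0 < Real.sqrt 2 / 2 := by positivity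
  obtain ⟨g, hg⟩ : ∃ g : ℝ → ℂ, g = fun c =>
    Complex.exp (-((r * Real.cos Θ * sc c + r * Real.sin Θ * c : ℝ) : ℂ) * Complex.I) *
      (h (Real.arcsin c) / (sc c : ℂ)) := ⟨_, rfl⟩
  have e1 : Ex (barc h) (r * Real.cos Θ) (r * Real.sin Θ) =
      ∫ c in (-(Real.sqrt 2 / 2))..(Real.sqrt 2 / 2), g c := by
    unfold Ex barc
    rw [intervalIntegral.integral_of_le (by linarith)]
    have e2 : ∀ c, Complex.exp (-((r * Real.cos Θ * sc c + r * Real.sin Θ * c : ℝ) : ℂ) * Complex.I) *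
        (Ioc (-(Real.sqrt 2 / 2)) (Real.sqrt 2 / 2)).indicator
          (fun c => h (Real.arcsin c) / (sc c : ℂ)) c =
        (Ioc (-(Real.sqrt 2 / 2)) (Real.sqrt 2 / 2)).indicator g c := by
      intro c
      by_cases hc : c ∈ Ioc (-(Real.sqrt 2 / 2)) (Real.sqrt 2 / 2)
      · rw [indicator_of_mem hc, indicator_of_mem hc, hg]
      · rw [indicator_of_notMem hc, indicator_of_notMem hc, mul_zero]
    simp only [e2]
    rw [setIntegral_indicator measurableSet_Ioc]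
    congr 2
    rw [inter_eq_right]
    intro c hc
    exact ⟨by linarith [hc.1], by linarith [hc.2]⟩
  have hs1 : Real.sin (-(Real.pi / 4)) = -(Real.sqrt 2 / 2) := by
    rw [Real.sin_neg, Real.sin_pi_div_four]
  have hs2 : Real.sin (Real.pi / 4) = Real.sqrt 2 / 2 := Real.sin_pi_div_four
  have hgc : ContinuousOn g (Icc (-(Real.sqrt 2 / 2)) (Real.sqrt 2 / 2)) := by
    rw [hg]
    have h3 : Continuous fun c => h (Real.arcsin c) := hh.comp Real.continuous_arcsin
    have h4 := sc_cont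
    refine ContinuousOn.mul (by fun_prop) (ContinuousOn.div h3.continuousOn (by fun_prop)
      fun c hc => ?_)
    have := sc_low hc
    exact_mod_cast (show sc c ≠ 0 by linarith)
  have himg : Real.sin '' (uIcc (-(Real.pi / 4)) (Real.pi / 4)) ⊆
      Icc (-(Real.sqrt 2 / 2)) (Real.sqrt 2 / 2) := by
    rintro _ ⟨u, hu, rfl⟩
    rw [uIcc_of_le (by linarith)] at hu
    rw [← hs1, ← hs2]
    exact ⟨Real.sin_le_sin_of_le_of_le_pi_div_two (by linarith [hu.1]) (by linarith [hu.2]) hu.1,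
      Real.sin_le_sin_of_le_of_le_pi_div_two (by linarith [hu.1]) (by linarith [hu.2]) hu.2⟩
  have e3 := intervalIntegral.integral_deriv_smul_comp'' (a := -(Real.pi / 4)) (b := Real.pi / 4)
    (f := Real.sin) (f' := Real.cos) (g := g) Real.continuous_sin.continuousOn
    (fun x _ => (Real.hasDerivAt_sin x).hasDerivWithinAt) Real.continuous_cos.continuousOn
    (hgc.mono himg)
  rw [hs1, hs2] at e3
  rw [e1, ← e3]
  unfold arc
  apply intervalIntegral.integral_congr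
  intro u hu
  rw [uIcc_of_le (by linarith)] at hu
  simp only [Function.comp_apply]
  have hcos : 0 < Real.cos u := Real.cos_pos_of_mem_Ioo ⟨by linarith [hu.1], by linarith [hu.2]⟩
  have hsc : sc (Real.sin u) = Real.cos u := by
    unfold sc
    rw [← Real.cos_sq', Real.sqrt_sq hcos.le]
  have has : Real.arcsin (Real.sin u) = u := Real.arcsin_sin (by linarith [hu.1]) (by linarith [hu.2])
  rw [hg]
  simp only [hsc, has]
  have e4 : (((-(r * Real.cos (u - Θ)) : ℝ) : ℂ) * Complex.I) =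
      (-((r * Real.cos Θ * Real.cos u + r * Real.sin Θ * Real.sin u : ℝ) : ℂ) * Complex.I) := by
    rw [Real.cos_sub]
    push_cast
    ring
  rw [e4, Complex.real_smul]
  have : (Real.cos u : ℂ) ≠ 0 := by exact_mod_cast hcos.ne'
  field_simp

/-- one arc in polar coordinates -/
theorem polar_arc : ∃ C : ℝ, 0 < C ∧ ∀ h : ℝ → ℂ, Continuous h → ∀ B : ℝ, (∀ t, ‖h t‖ ≤ B) →
    ∀ R : ℝ, 1 ≤ R → ∫⁻ r in Ioo R (2 * R), ∫⁻ θ in Ioo (-Real.pi) Real.pi,
      ENNReal.ofReal (‖arc h r θ‖ ^ 4) ≤ ENNReal.ofReal (C * B ^ 4 * (1 + Real.log R) / R) := by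
  obtain ⟨C, hC, hE⟩ := Pool.Agent.H789R2.FR.E4
  refine ⟨32 * C, by positivity, fun h hh B hB R hR => ?_⟩
  have hB0 : 0 ≤ B := (norm_nonneg _).trans (hB 0)
  have hR0 : 0 < R := by linarith
  have hlog : 0 ≤ Real.log R := Real.log_nonneg hR
  have h1 := hE 1 one_pos le_rfl (2 * R) (by linarith) (barc h) (barc_meas h hh) (2 * B)
    (barc_bd h B hB) (barc_supp h)
  obtain ⟨f, hf⟩ : ∃ f : ℝ × ℝ → ℝ≥0∞, f = fun p => (Icc (-(2 * R)) (2 * R)).indicator
    (fun _ => (1 : ℝ≥0∞)) p.1 * ENNReal.ofReal (‖Ex (barc h) p.1 p.2‖ ^ 4) := ⟨_, rfl⟩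
  have hEm : Measurable fun p : ℝ × ℝ => ENNReal.ofReal (‖Ex (barc h) p.1 p.2‖ ^ 4) :=
    ((Pool.Agent.H789R2.FR.E4w.Ex_meas (barc h) (barc_meas h hh)).norm.pow_const 4).ennreal_ofReal
  have hfm : Measurable f := by
    rw [hf]
    refine Measurable.mul ?_ hEm
    exact (measurable_const.indicator measurableSet_Icc).comp measurable_fst
  have h2 : ∫⁻ p, f p = ∫⁻ y in Icc (-(2 * R)) (2 * R), ∫⁻ z : ℝ,
      ENNReal.ofReal (‖Ex (barc h) y z‖ ^ 4) := by
    rw [Measure.volume_eq_prod, lintegral_prod _ hfm.aemeasurable, ← lintegral_indicator measurableSet_Icc]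
    congr 1
    funext y
    rw [hf]
    simp only
    rw [lintegral_const_mul' _ _ (by
      by_cases hy : y ∈ Icc (-(2 * R)) (2 * R)
      · rw [indicator_of_mem hy]; exact ENNReal.one_ne_top
      · rw [indicator_of_notMem hy]; exact ENNReal.zero_ne_top)]
    by_cases hy : y ∈ Icc (-(2 * R)) (2 * R)
    · rw [indicator_of_mem hy, indicator_of_mem hy, one_mul]
    · rw [indicator_of_notMem hy, indicator_of_notMem hy, zero_mul]
  have h3 := lintegral_comp_polarCoord_symm f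
  rw [h2] at h3
  have hpm : Measurable fun p : ℝ × ℝ => ENNReal.ofReal p.1 • f (polarCoord.symm p) := by
    have e : (fun p : ℝ × ℝ => ENNReal.ofReal p.1 • f (polarCoord.symm p)) =
        fun p => ENNReal.ofReal p.1 * f (p.1 * Real.cos p.2, p.1 * Real.sin p.2) := by
      funext p
      rfl
    rw [e]
    refine Measurable.mul (by fun_prop) (hfm.comp (by fun_prop))
  have h4 : ∫⁻ r in Ioo R (2 * R), ∫⁻ θ in Ioo (-Real.pi) Real.pi,
      (ENNReal.ofReal r • f (polarCoord.symm (r, θ))) ≤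
      ∫⁻ p in polarCoord.target, ENNReal.ofReal p.1 • f (polarCoord.symm p) := by
    have e : polarCoord.target = Ioi (0 : ℝ) ×ˢ Ioo (-Real.pi) Real.pi := rfl
    rw [e, Measure.volume_eq_prod, ← Measure.prod_restrict, lintegral_prod _ hpm.aemeasurable]
    apply lintegral_mono_set
    intro r hr
    exact lt_trans hR0 hr.1
  have h5 : ENNReal.ofReal R * ∫⁻ r in Ioo R (2 * R), ∫⁻ θ in Ioo (-Real.pi) Real.pi,
      ENNReal.ofReal (‖arc h r θ‖ ^ 4) ≤ ∫⁻ r in Ioo R (2 * R), ∫⁻ θ in Ioo (-Real.pi) Real.pi,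
      (ENNReal.ofReal r • f (polarCoord.symm (r, θ))) := by
    rw [← lintegral_const_mul' _ _ ENNReal.ofReal_ne_top]
    apply setLIntegral_mono' measurableSet_Ioo
    intro r hr
    rw [← lintegral_const_mul' _ _ ENNReal.ofReal_ne_top]
    apply setLIntegral_mono' measurableSet_Ioo
    intro θ _
    have e : f (polarCoord.symm (r, θ)) = ENNReal.ofReal (‖arc h r θ‖ ^ 4) := by
      rw [hf, arc_eq h hh]
      simp only [polarCoord_symm_apply]
      rw [indicator_of_mem, one_mul]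
      have hc1 := Real.cos_le_one θ
      have hc2 := Real.neg_one_le_cos θ
      have hr1 := hr.1
      have hr2 := hr.2
      constructor
      · nlinarith
      · nlinarith
    rw [e, smul_eq_mul]
    gcongr
    exact hr.1.le
  have h6 := h5.trans (h4.trans (le_of_eq h3)) |>.trans h1
  have hRne : ENNReal.ofReal R ≠ 0 := by simpa using hR0
  rw [ENNReal.mul_le_iff_le_inv hRne ENNReal.ofReal_ne_top, ← ENNReal.ofReal_inv_of_pos hR0,
    ← ENNReal.ofReal_mul (by positivity)] at h6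
  refine h6.trans (ENNReal.ofReal_le_ofReal ?_)
  rw [mul_one, Real.log_mul (by norm_num) hR0.ne']
  have h7 : Real.log 2 ≤ 1 := by
    have := Real.log_le_sub_one_of_pos (show (0 : ℝ) < 2 by norm_num)
    linarith
  have h8 : R⁻¹ * (C * (2 * B) ^ 4 * 1 ^ 5 * (1 + (Real.log 2 + Real.log R))) =
      (C * (2 * B) ^ 4 * (1 + (Real.log 2 + Real.log R))) / R := by
    rw [one_pow, mul_one, div_eq_inv_mul]
  rw [h8]
  apply div_le_div_of_nonneg_right _ hR0.le
  calc C * (2 * B) ^ 4 * (1 + (Real.log 2 + Real.log R)) ≤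
      C * (2 * B) ^ 4 * (2 * (1 + Real.log R)) := by
        gcongr
        linarith
    _ = _ := by ring

/-- the full planar extension operator on an interval of length `2 π` -/
noncomputable def v4 (h : ℝ → ℂ) (r θ : ℝ) : ℂ :=
  ∫ t in (-(3 * Real.pi / 4))..(5 * Real.pi / 4),
    Complex.exp (((-(r * Real.cos (t - θ)) : ℝ) : ℂ) * Complex.I) * h t

theorem v4_eq (h : ℝ → ℂ) (hh : Continuous h) (r θ : ℝ) :
    v4 h r θ = arc (fun u => h (u + -(Real.pi / 2))) r (θ + Real.pi / 2) +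
      arc (fun u => h (u + 0)) r (θ + 0) +
      arc (fun u => h (u + Real.pi / 2)) r (θ + -(Real.pi / 2)) +
      arc (fun u => h (u + Real.pi)) r (θ + -Real.pi) := by
  have hc : Continuous fun t => Complex.exp (((-(r * Real.cos (t - θ)) : ℝ) : ℂ) * Complex.I) * h t := by
    fun_prop
  have e : ∀ a : ℝ, arc (fun u => h (u + a)) r (θ + -a) = ∫ t in (a - Real.pi / 4)..(a + Real.pi / 4),
      Complex.exp (((-(r * Real.cos (t - θ)) : ℝ) : ℂ) * Complex.I) * h t := by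
    intro a
    unfold arc
    have := intervalIntegral.integral_comp_add_right (a := -(Real.pi / 4)) (b := Real.pi / 4)
      (fun t => Complex.exp (((-(r * Real.cos (t - θ)) : ℝ) : ℂ) * Complex.I) * h t) a
    rw [show -(Real.pi / 4) + a = a - Real.pi / 4 by ring,
      show Real.pi / 4 + a = a + Real.pi / 4 by ring] at this
    rw [← this]
    congr 1
    funext u
    rw [show u - (θ + -a) = u + a - θ by ring]
  have e1 := e (-(Real.pi / 2))
  have e2 := e 0
  have e3 := e (Real.pi / 2)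
  have e4 := e Real.pi
  rw [neg_neg, show -(Real.pi / 2) - Real.pi / 4 = -(3 * Real.pi / 4) by ring,
    show -(Real.pi / 2) + Real.pi / 4 = -(Real.pi / 4) by ring] at e1
  rw [neg_zero, zero_sub, zero_add] at e2
  rw [show Real.pi / 2 - Real.pi / 4 = Real.pi / 4 by ring,
    show Real.pi / 2 + Real.pi / 4 = 3 * Real.pi / 4 by ring] at e3
  rw [show Real.pi - Real.pi / 4 = 3 * Real.pi / 4 by ring,
    show Real.pi + Real.pi / 4 = 5 * Real.pi / 4 by ring] at e4
  rw [e1, e2, e3, e4]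
  unfold v4
  have i := fun a b => hc.intervalIntegrable (μ := volume) a b
  rw [integral_add_adjacent_intervals (i _ _) (i _ _),
    integral_add_adjacent_intervals (i _ _) (i _ _),
    integral_add_adjacent_intervals (i _ _) (i _ _)]

theorem arc_cont (h : ℝ → ℂ) (hh : Continuous h) : Continuous (Function.uncurry (arc h)) := by
  unfold arc Function.uncurry
  apply intervalIntegral.continuous_parametric_intervalIntegral_of_continuous'
  fun_prop

theorem four_pow (a b c d : ℝ) : (a + b + c + d) ^ 4 ≤ 64 * (a ^ 4 + b ^ 4 + c ^ 4 + d ^ 4) := by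
  have h1 : (a + b + c + d) ^ 2 ≤ 4 * (a ^ 2 + b ^ 2 + c ^ 2 + d ^ 2) := by
    nlinarith [sq_nonneg (a - b), sq_nonneg (a - c), sq_nonneg (a - d), sq_nonneg (b - c),
      sq_nonneg (b - d), sq_nonneg (c - d)]
  have h2 : (a ^ 2 + b ^ 2 + c ^ 2 + d ^ 2) ^ 2 ≤ 4 * (a ^ 4 + b ^ 4 + c ^ 4 + d ^ 4) := by
    nlinarith [sq_nonneg (a ^ 2 - b ^ 2), sq_nonneg (a ^ 2 - c ^ 2), sq_nonneg (a ^ 2 - d ^ 2),
      sq_nonneg (b ^ 2 - c ^ 2), sq_nonneg (b ^ 2 - d ^ 2), sq_nonneg (c ^ 2 - d ^ 2)]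
  calc (a + b + c + d) ^ 4 = ((a + b + c + d) ^ 2) ^ 2 := by ring
    _ ≤ (4 * (a ^ 2 + b ^ 2 + c ^ 2 + d ^ 2)) ^ 2 := by
        apply pow_le_pow_left₀ (sq_nonneg _) h1
    _ = 16 * (a ^ 2 + b ^ 2 + c ^ 2 + d ^ 2) ^ 2 := by ring
    _ ≤ _ := by linarith

theorem shift_arc (h : ℝ → ℂ) (a r : ℝ) (ha : ∀ θ ∈ Ioo 0 (Real.pi / 2),
    θ + a ∈ Ioo (-Real.pi) Real.pi) :
    ∫⁻ θ in Ioo 0 (Real.pi / 2), ENNReal.ofReal (‖arc h r (θ + a)‖ ^ 4) ≤
      ∫⁻ θ in Ioo (-Real.pi) Real.pi, ENNReal.ofReal (‖arc h r θ‖ ^ 4) := by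
  rw [← lintegral_indicator measurableSet_Ioo, ← lintegral_indicator measurableSet_Ioo,
    ← lintegral_add_right_eq_self ((Ioo (-Real.pi) Real.pi).indicator
      fun θ => ENNReal.ofReal (‖arc h r θ‖ ^ 4)) a]
  apply lintegral_mono
  intro θ
  simp only
  by_cases hθ : θ ∈ Ioo 0 (Real.pi / 2)
  · rw [indicator_of_mem hθ, indicator_of_mem (ha θ hθ)]
  · rw [indicator_of_notMem hθ]
    exact zero_le

theorem sum4 (S T : Set ℝ) (F F1 F2 F3 F4 : ℝ → ℝ → ℝ≥0∞) (K M : ℝ≥0∞) (hK : K ≠ ∞)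
    (h2 : Measurable (Function.uncurry F2)) (h3 : Measurable (Function.uncurry F3))
    (h4 : Measurable (Function.uncurry F4))
    (hF : ∀ r θ, F r θ ≤ K * (F1 r θ + F2 r θ + F3 r θ + F4 r θ))
    (b1 : ∫⁻ r in S, ∫⁻ θ in T, F1 r θ ≤ M) (b2 : ∫⁻ r in S, ∫⁻ θ in T, F2 r θ ≤ M)
    (b3 : ∫⁻ r in S, ∫⁻ θ in T, F3 r θ ≤ M) (b4 : ∫⁻ r in S, ∫⁻ θ in T, F4 r θ ≤ M) :
    ∫⁻ r in S, ∫⁻ θ in T, F r θ ≤ K * (M + M + M + M) := by
  have m2 : ∀ r, Measurable (F2 r) := fun r => h2.comp (measurable_const.prodMk measurable_id)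
  have m3 : ∀ r, Measurable (F3 r) := fun r => h3.comp (measurable_const.prodMk measurable_id)
  have m4 : ∀ r, Measurable (F4 r) := fun r => h4.comp (measurable_const.prodMk measurable_id)
  have n2 : Measurable fun r => ∫⁻ θ in T, F2 r θ := h2.lintegral_prod_right'
  have n3 : Measurable fun r => ∫⁻ θ in T, F3 r θ := h3.lintegral_prod_right'
  have n4 : Measurable fun r => ∫⁻ θ in T, F4 r θ := h4.lintegral_prod_right'
  calc ∫⁻ r in S, ∫⁻ θ in T, F r θ ≤ ∫⁻ r in S, K * ((∫⁻ θ in T, F1 r θ) + (∫⁻ θ in T, F2 r θ) +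
        (∫⁻ θ in T, F3 r θ) + ∫⁻ θ in T, F4 r θ) := by
        apply lintegral_mono
        intro r
        refine (lintegral_mono fun θ => hF r θ).trans (le_of_eq ?_)
        rw [lintegral_const_mul' _ _ hK, lintegral_add_right _ (m4 r),
          lintegral_add_right _ (m3 r), lintegral_add_right _ (m2 r)]
    _ = K * ((∫⁻ r in S, ∫⁻ θ in T, F1 r θ) + (∫⁻ r in S, ∫⁻ θ in T, F2 r θ) +
        (∫⁻ r in S, ∫⁻ θ in T, F3 r θ) + ∫⁻ r in S, ∫⁻ θ in T, F4 r θ) := by
        rw [lintegral_const_mul' _ _ hK, lintegral_add_right _ n4,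
          lintegral_add_right _ n3, lintegral_add_right _ n2]
    _ ≤ _ := by gcongr

/-- the planar `L⁴` estimate -/
theorem planar4 : ∃ C : ℝ, 0 < C ∧ ∀ h : ℝ → ℂ, Continuous h → ∀ B : ℝ, (∀ t, ‖h t‖ ≤ B) →
    ∀ R : ℝ, 1 ≤ R → ∫⁻ r in Ioo R (2 * R), ∫⁻ θ in Ioo 0 (Real.pi / 2),
      ENNReal.ofReal (‖v4 h r θ‖ ^ 4) ≤ ENNReal.ofReal (C * B ^ 4 * (1 + Real.log R) / R) := by
  obtain ⟨C, hC, hA⟩ := polar_arc
  refine ⟨256 * C, by positivity, fun h hh B hB R hR => ?_⟩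
  have hB0 : 0 ≤ B := (norm_nonneg _).trans (hB 0)
  have hR0 : 0 < R := by linarith
  have hlog : 0 ≤ Real.log R := Real.log_nonneg hR
  have hπ := Real.pi_pos
  have hc : ∀ a : ℝ, Continuous fun u => h (u + a) := fun a => by fun_prop
  obtain ⟨G, hG⟩ : ∃ G : ℝ → ℝ → ℝ → ℝ → ℝ≥0∞, G = fun a b r θ =>
      ENNReal.ofReal (‖arc (fun u => h (u + a)) r (θ + b)‖ ^ 4) := ⟨_, rfl⟩
  have hm : ∀ a b : ℝ, Measurable (Function.uncurry (G a b)) := by
    intro a b
    have h1 : Continuous fun p : ℝ × ℝ => arc (fun u => h (u + a)) p.1 (p.2 + b) :=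
      (arc_cont _ (hc a)).comp (by fun_prop : Continuous fun p : ℝ × ℝ => (p.1, p.2 + b))
    rw [hG]
    exact (h1.norm.pow 4).measurable.ennreal_ofReal
  have hone : ∀ a b : ℝ, (∀ θ ∈ Ioo 0 (Real.pi / 2), θ + b ∈ Ioo (-Real.pi) Real.pi) →
      ∫⁻ r in Ioo R (2 * R), ∫⁻ θ in Ioo 0 (Real.pi / 2), G a b r θ ≤
        ENNReal.ofReal (C * B ^ 4 * (1 + Real.log R) / R) := by
    intro a b hb
    refine le_trans ?_ (hA (fun u => h (u + a)) (hc a) B (fun t => hB _) R hR)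
    apply lintegral_mono
    intro r
    rw [hG]
    exact shift_arc _ _ _ hb
  have i1 := hone (-(Real.pi / 2)) (Real.pi / 2) (fun θ hθ => ⟨by linarith [hθ.1], by linarith [hθ.2]⟩)
  have i2 := hone 0 0 (fun θ hθ => ⟨by linarith [hθ.1], by linarith [hθ.2]⟩)
  have i3 := hone (Real.pi / 2) (-(Real.pi / 2)) (fun θ hθ => ⟨by linarith [hθ.1], by linarith [hθ.2]⟩)
  have i4 := hone Real.pi (-Real.pi) (fun θ hθ => ⟨by linarith [hθ.1], by linarith [hθ.2]⟩)
  have hpt : ∀ r θ : ℝ, ENNReal.ofReal (‖v4 h r θ‖ ^ 4) ≤ ENNReal.ofReal 64 *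
      (G (-(Real.pi / 2)) (Real.pi / 2) r θ + G 0 0 r θ +
        G (Real.pi / 2) (-(Real.pi / 2)) r θ + G Real.pi (-Real.pi) r θ) := by
    intro r θ
    rw [hG]
    simp only
    rw [← ENNReal.ofReal_add (by positivity) (by positivity),
      ← ENNReal.ofReal_add (by positivity) (by positivity),
      ← ENNReal.ofReal_add (by positivity) (by positivity), ← ENNReal.ofReal_mul (by norm_num)]
    apply ENNReal.ofReal_le_ofReal
    rw [v4_eq h hh]
    refine le_trans ?_ (four_pow _ _ _ _)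
    gcongr
    refine (norm_add_le _ _).trans (add_le_add ?_ le_rfl)
    refine (norm_add_le _ _).trans (add_le_add ?_ le_rfl)
    exact norm_add_le _ _
  have key := sum4 (Ioo R (2 * R)) (Ioo 0 (Real.pi / 2))
    (fun r θ => ENNReal.ofReal (‖v4 h r θ‖ ^ 4)) (G (-(Real.pi / 2)) (Real.pi / 2)) (G 0 0)
    (G (Real.pi / 2) (-(Real.pi / 2))) (G Real.pi (-Real.pi)) (ENNReal.ofReal 64)
    (ENNReal.ofReal (C * B ^ 4 * (1 + Real.log R) / R)) ENNReal.ofReal_ne_top (hm _ _) (hm _ _)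
    (hm _ _) hpt i1 i2 i3 i4
  refine key.trans (le_of_eq ?_)
  rw [← ENNReal.ofReal_add (by positivity) (by positivity),
    ← ENNReal.ofReal_add (by positivity) (by positivity),
    ← ENNReal.ofReal_add (by positivity) (by positivity), ← ENNReal.ofReal_mul (by norm_num)]
  congr 1
  ring

end Pool.Agent.H72.Is
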