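import Mathlib
import Pool.Agent.H72.Is.I8
import Pool.Agent.H72.Is.J2
set_option autoImplicit false

/-! The one dimensional sums: structure and pointwise bounds. -/

namespace Pool.Agent.H72.Is

open MeasureTheory intervalIntegral Set
open Finset (range)
open scoped ENNReal

variable {s c : ℝ}

/-- the general sum -/
noncomputable def SE (s c : ℝ) (g ν : ℕ) (f : ℝ → ℂ) (y : ℕ → ℂ) (S : Finset ℕ) (r : ℝ) : ℂ :=
  ∑ k ∈ S, co s c f k * y k * Em (g * k + ν) r

theorem kp_phase (g ν : ℕ) (hg : (g : ℝ) * s = 2 * ν) (k : ℕ) (t : ℝ) :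
    kp s k * (g * t) = ((g * k + ν : ℕ) : ℝ) * t := by
  unfold kp
  push_cast
  linear_combination (t / 2) * hg

theorem SE_OI (g ν : ℕ) (hg : (g : ℝ) * s = 2 * ν) (f : ℝ → ℂ) (y : ℕ → ℂ) (S : Finset ℕ) (r : ℝ) :
    SE s c g ν f y S r = OI (fun t => ∑ k ∈ S, co s c f k * y k *
      Complex.exp (((kp s k * (g * t) : ℝ) : ℂ) * Complex.I)) r := by
  unfold SE OI
  simp only [Finset.mul_sum]
  rw [intervalIntegral.integral_finsetSum]
  · apply Finset.sum_congr rfl
    intro k _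
    unfold Em ua
    rw [← intervalIntegral.integral_const_mul]
    congr 1
    funext t
    rw [kp_phase g ν hg]
    ring
  · intro k _
    apply Continuous.intervalIntegrable
    fun_prop

theorem SE_cont (g ν : ℕ) (hg : (g : ℝ) * s = 2 * ν) (f : ℝ → ℂ) (y : ℕ → ℂ) (S : Finset ℕ) :
    Continuous (SE s c g ν f y S) := by
  have h : SE s c g ν f y S = OI (fun t => ∑ k ∈ S, co s c f k * y k *
      Complex.exp (((kp s k * (g * t) : ℝ) : ℂ) * Complex.I)) := by
    funext r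
    exact SE_OI g ν hg f y S r
  rw [h]
  apply OI_cont
  fun_prop

theorem em_shift (m : ℕ) (r θ : ℝ) : Em m r * Complex.exp (((m * θ : ℝ) : ℂ) * Complex.I) =
    v4 (fun t => Complex.exp (((m * t : ℝ) : ℂ) * Complex.I)) r θ := by
  have hper : Function.Periodic (fun t => ua m r (t - θ)) (2 * Real.pi) := by
    intro t
    simp only
    rw [show t + 2 * Real.pi - θ = (t - θ) + 2 * Real.pi by ring]
    exact ua_periodic m r (t - θ)
  have e1 : v4 (fun t => Complex.exp (((m * t : ℝ) : ℂ) * Complex.I)) r θ =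
      ∫ t in (-(3 * Real.pi / 4))..(5 * Real.pi / 4), ua m r (t - θ) *
        Complex.exp (((m * θ : ℝ) : ℂ) * Complex.I) := by
    unfold v4 ua
    congr 1
    funext t
    have : Complex.exp (((m * t : ℝ) : ℂ) * Complex.I) =
        Complex.exp (((m * (t - θ) : ℝ) : ℂ) * Complex.I) *
          Complex.exp (((m * θ : ℝ) : ℂ) * Complex.I) := by
      rw [← Complex.exp_add]
      congr 1
      push_cast
      ring
    beta_reduce
    rw [this]
    ring
  rw [e1, intervalIntegral.integral_mul_const]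
  congr 1
  have e2 := hper.intervalIntegral_add_eq (-(3 * Real.pi / 4)) (-Real.pi + θ)
  rw [show -(3 * Real.pi / 4) + 2 * Real.pi = 5 * Real.pi / 4 by ring,
    show -Real.pi + θ + 2 * Real.pi = Real.pi + θ by ring] at e2
  rw [e2, intervalIntegral.integral_comp_sub_right (fun t => ua m r t) θ]
  unfold Em
  congr 1 <;> ring

theorem em_even (m : ℕ) (r : ℝ) : Em m r = ∫ t in (-Real.pi)..Real.pi,
    Complex.exp (((-(r * Real.cos t) : ℝ) : ℂ) * Complex.I) *
      Complex.exp (((-(m * t) : ℝ) : ℂ) * Complex.I) := by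
  unfold Em
  have e := intervalIntegral.integral_comp_neg (fun t => ua m r t) (a := -Real.pi) (b := Real.pi)
  rw [neg_neg] at e
  rw [← e]
  congr 1
  funext t
  unfold ua
  rw [Real.cos_neg, mul_neg]

theorem em_shift' (m : ℕ) (r θ : ℝ) : Em m r * Complex.exp (((-(m * θ) : ℝ) : ℂ) * Complex.I) =
    v4 (fun t => Complex.exp (((-(m * t) : ℝ) : ℂ) * Complex.I)) r θ := by
  obtain ⟨U, hU⟩ : ∃ U : ℝ → ℂ, U = fun t => Complex.exp (((-(r * Real.cos t) : ℝ) : ℂ) * Complex.I) *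
      Complex.exp (((-(m * t) : ℝ) : ℂ) * Complex.I) := ⟨_, rfl⟩
  have hUper : Function.Periodic U (2 * Real.pi) := by
    intro t
    have h := ua_periodic m r (-t - 2 * Real.pi)
    have e1 : ∀ t, U t = ua m r (-t) := by
      intro t
      rw [hU]
      unfold ua
      rw [Real.cos_neg, mul_neg]
    rw [e1, e1, show -(t + 2 * Real.pi) = -t - 2 * Real.pi by ring, ← h]
    congr 1
    ring
  have hper : Function.Periodic (fun t => U (t - θ)) (2 * Real.pi) := by
    intro t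
    simp only
    rw [show t + 2 * Real.pi - θ = (t - θ) + 2 * Real.pi by ring]
    exact hUper (t - θ)
  have e1 : v4 (fun t => Complex.exp (((-(m * t) : ℝ) : ℂ) * Complex.I)) r θ =
      ∫ t in (-(3 * Real.pi / 4))..(5 * Real.pi / 4), U (t - θ) *
        Complex.exp (((-(m * θ) : ℝ) : ℂ) * Complex.I) := by
    rw [hU]
    unfold v4
    congr 1
    funext t
    have : Complex.exp (((-(m * t) : ℝ) : ℂ) * Complex.I) =
        Complex.exp (((-(m * (t - θ)) : ℝ) : ℂ) * Complex.I) *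
          Complex.exp (((-(m * θ) : ℝ) : ℂ) * Complex.I) := by
      rw [← Complex.exp_add]
      congr 1
      push_cast
      ring
    beta_reduce
    rw [this]
    ring
  rw [e1, intervalIntegral.integral_mul_const]
  congr 1
  have e2 := hper.intervalIntegral_add_eq (-(3 * Real.pi / 4)) (-Real.pi + θ)
  rw [show -(3 * Real.pi / 4) + 2 * Real.pi = 5 * Real.pi / 4 by ring,
    show -Real.pi + θ + 2 * Real.pi = Real.pi + θ by ring] at e2
  rw [e2, intervalIntegral.integral_comp_sub_right (fun t => U t) θ, em_even, hU]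
  congr 1 <;> ring

theorem v4_sum {ι : Type*} (S : Finset ι) (a : ι → ℂ) (h : ι → ℝ → ℂ) (hh : ∀ i, Continuous (h i))
    (r θ : ℝ) : v4 (fun t => ∑ i ∈ S, a i * h i t) r θ = ∑ i ∈ S, a i * v4 (h i) r θ := by
  unfold v4
  simp only [Finset.mul_sum]
  rw [intervalIntegral.integral_finsetSum]
  · apply Finset.sum_congr rfl
    intro i _
    rw [← intervalIntegral.integral_const_mul]
    congr 1
    funext t
    ring
  · intro i _
    apply Continuous.intervalIntegrable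
    have := hh i
    fun_prop

theorem v4_add (h1 h2 : ℝ → ℂ) (hh1 : Continuous h1) (hh2 : Continuous h2) (r θ : ℝ) :
    v4 (fun t => h1 t + h2 t) r θ = v4 h1 r θ + v4 h2 r θ := by
  unfold v4
  rw [← intervalIntegral.integral_add]
  · congr 1
    funext t
    ring
  · apply Continuous.intervalIntegrable
    fun_prop
  · apply Continuous.intervalIntegrable
    fun_prop

/-- the plane wave part -/
noncomputable def zr (s c : ℝ) (k : ℕ) (x : ℝ) : ℝ :=
  (Zk s c k * Complex.exp (((kp s k * x : ℝ) : ℂ) * Complex.I)).re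

/-- the planar density -/
noncomputable def hD (s c : ℝ) (g : ℕ) (f : ℝ → ℂ) (K : ℕ) (t : ℝ) : ℂ :=
  (∑ k ∈ range K, co s c f k * Complex.exp (((kp s k * (g * t) : ℝ) : ℂ) * Complex.I) * Zk s c k) / 2 +
  (∑ k ∈ range K, co s c f k * Complex.exp (((kp s k * (g * (-t)) : ℝ) : ℂ) * Complex.I) *
    (starRingEnd ℂ) (Zk s c k)) / 2

theorem hD_cont (g : ℕ) (f : ℝ → ℂ) (K : ℕ) : Continuous (hD s c g f K) := by
  unfold hD
  fun_prop

theorem main_eq (g ν : ℕ) (hg : (g : ℝ) * s = 2 * ν) (hg1 : 1 ≤ g) (f : ℝ → ℂ) (K : ℕ) (r x : ℝ) :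
    SE s c g ν f (fun k => (zr s c k x : ℂ)) (range K) r = v4 (hD s c g f K) r (x / g) := by
  have hg0 : (g : ℝ) ≠ 0 := by
    have : (1 : ℝ) ≤ g := by exact_mod_cast hg1
    linarith
  have hxg : ∀ k : ℕ, ((g * k + ν : ℕ) : ℝ) * (x / g) = kp s k * x := by
    intro k
    rw [← kp_phase g ν hg]
    field_simp
  have e1 : hD s c g f K = fun t => (∑ k ∈ range K, (co s c f k * Zk s c k / 2) *
      Complex.exp (((((g * k + ν : ℕ) : ℝ) * t : ℝ) : ℂ) * Complex.I)) +
      ∑ k ∈ range K, (co s c f k * (starRingEnd ℂ) (Zk s c k) / 2) *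
      Complex.exp (((-(((g * k + ν : ℕ) : ℝ) * t) : ℝ) : ℂ) * Complex.I) := by
    funext t
    unfold hD
    rw [Finset.sum_div, Finset.sum_div]
    congr 1
    · apply Finset.sum_congr rfl
      intro k _
      rw [kp_phase g ν hg]
      ring
    · apply Finset.sum_congr rfl
      intro k _
      rw [kp_phase g ν hg, mul_neg]
      ring
  rw [e1, v4_add _ _ (by fun_prop) (by fun_prop),
    v4_sum (range K) (fun k => (co s c f k * Zk s c k / 2))
      (fun k t => Complex.exp (((((g * k + ν : ℕ) : ℝ) * t : ℝ) : ℂ) * Complex.I))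
      (fun k => by fun_prop),
    v4_sum (range K) (fun k => (co s c f k * (starRingEnd ℂ) (Zk s c k) / 2))
      (fun k t => Complex.exp (((-(((g * k + ν : ℕ) : ℝ) * t) : ℝ) : ℂ) * Complex.I))
      (fun k => by fun_prop), ← Finset.sum_add_distrib]
  unfold SE
  apply Finset.sum_congr rfl
  intro k _
  rw [← em_shift, ← em_shift', hxg]
  unfold zr
  beta_reduce
  rw [Complex.re_eq_add_conj, map_mul, ← Complex.exp_conj, map_mul, Complex.conj_I,
    Complex.conj_ofReal]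
  have : ((kp s k * x : ℝ) : ℂ) * -Complex.I = (((-(kp s k * x) : ℝ) : ℂ) * Complex.I) := by
    push_cast
    ring
  rw [this]
  ring

theorem hD_bd (h : Adm s c) : ∃ C : ℝ, 0 < C ∧ ∀ f : ℝ → ℂ, Continuous f →
    (∀ x ∈ Icc 0 Real.pi, ‖f x‖ ≤ 1) → ∀ (g K : ℕ) (t : ℝ),
    ‖hD s c g f K t‖ ≤ C * (1 + Real.log K) ^ 2 := by
  obtain ⟨C, hC, hD⟩ := D_bd h
  refine ⟨C, hC, fun f hf hf1 g K t => ?_⟩
  have h1 := (hD f hf hf1 K (g * t)).1
  have h2 := (hD f hf hf1 K (g * (-t))).2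
  unfold Is.hD
  refine (norm_add_le _ _).trans ?_
  rw [norm_div, norm_div, RCLike.norm_ofNat]
  linarith

/-- splitting -/
theorem SE_split (g ν : ℕ) (f : ℝ → ℂ) (S : Finset ℕ) (r x : ℝ) :
    SE s c g ν f (fun k => (ph s c k x : ℂ)) S r =
      SE s c g ν f (fun k => (zr s c k x : ℂ)) S r +
        SE s c g ν f (fun k => (eta s c k x : ℂ)) S r := by
  unfold SE
  rw [← Finset.sum_add_distrib]
  apply Finset.sum_congr rfl
  intro k _
  have : (ph s c k x : ℂ) = (zr s c k x : ℂ) + (eta s c k x : ℂ) := by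
    unfold zr eta
    push_cast
    ring
  beta_reduce
  rw [this]
  ring

/-- Cauchy-Schwarz with the coefficients -/
theorem SE_cs (h : Adm s c) (g ν : ℕ) (f : ℝ → ℂ) (hf : Continuous f)
    (hf1 : ∀ x ∈ Icc 0 Real.pi, ‖f x‖ ≤ 1) (y : ℕ → ℂ) (S : Finset ℕ) (r : ℝ) :
    ‖SE s c g ν f y S r‖ ^ 2 ≤ Real.pi * ∑ k ∈ S, ‖y k‖ ^ 2 * ‖Em (g * k + ν) r‖ ^ 2 := by
  have h1 : ‖SE s c g ν f y S r‖ ≤ ∑ k ∈ S, ‖co s c f k‖ * (‖y k‖ * ‖Em (g * k + ν) r‖) := by
    unfold SE
    refine (norm_sum_le _ _).trans (le_of_eq ?_)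
    apply Finset.sum_congr rfl
    intro k _
    rw [norm_mul, norm_mul, mul_assoc]
  have h2 : ∑ k ∈ S, ‖co s c f k‖ ^ 2 ≤ Real.pi := by
    obtain ⟨N, hN⟩ := Finset.exists_nat_subset_range S
    refine le_trans ?_ (co_bessel h f hf hf1 N)
    exact Finset.sum_le_sum_of_subset_of_nonneg hN fun _ _ _ => by positivity
  calc ‖SE s c g ν f y S r‖ ^ 2 ≤ (∑ k ∈ S, ‖co s c f k‖ * (‖y k‖ * ‖Em (g * k + ν) r‖)) ^ 2 := by
        gcongr
    _ ≤ (∑ k ∈ S, ‖co s c f k‖ ^ 2) * ∑ k ∈ S, (‖y k‖ * ‖Em (g * k + ν) r‖) ^ 2 :=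
        Finset.sum_mul_sq_le_sq_mul_sq _ _ _
    _ ≤ Real.pi * ∑ k ∈ S, (‖y k‖ * ‖Em (g * k + ν) r‖) ^ 2 := by
        gcongr
    _ = _ := by
        congr 1
        apply Finset.sum_congr rfl
        intro k _
        ring

theorem Em_bessel' (g ν : ℕ) (hg1 : 1 ≤ g) (S : Finset ℕ) (r : ℝ) :
    ∑ k ∈ S, ‖Em (g * k + ν) r‖ ^ 2 ≤ (2 * Real.pi) ^ 2 := by
  have hinj : Function.Injective fun k : ℕ => g * k + ν := by
    intro a b hab
    simp only at hab
    have : g * a = g * b := by omega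
    exact Nat.eq_of_mul_eq_mul_left (by omega) this
  have h := Em_bessel (S.map ⟨fun k : ℕ => g * k + ν, hinj⟩) r
  rw [Finset.sum_map] at h
  exact h

theorem eta_sum {C x : ℝ} (hC : 0 < C) (hx : 0 < x) (y : ℕ → ℝ) (h1 : ∀ k, |y k| ≤ C)
    (h2 : ∀ k, |y k| ≤ C / (((k : ℝ) + 1) * x)) (S : Finset ℕ) :
    ∑ k ∈ S, |y k| ^ 2 ≤ 4 * C ^ 2 / x := by
  have hy : ∀ k : ℕ, |y k| ^ 2 ≤ 4 * C ^ 2 / x * (1 / (1 + k * x) - 1 / (1 + (k + 1) * x)) := by
    intro k
    have hk : (0 : ℝ) ≤ k := Nat.cast_nonneg k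
    have h3 := h1 k
    have h4 := h2 k
    rw [le_div_iff₀ (by positivity)] at h4
    have h5 : |y k| ≤ 2 * C / (1 + (k + 1) * x) := by
      rw [le_div_iff₀ (by positivity)]
      linarith
    calc |y k| ^ 2 ≤ (2 * C / (1 + (k + 1) * x)) ^ 2 := by gcongr
      _ = 4 * C ^ 2 / ((1 + (k + 1) * x) * (1 + (k + 1) * x)) := by
          field_simp
          ring
      _ ≤ 4 * C ^ 2 / ((1 + k * x) * (1 + (k + 1) * x)) := by
          gcongr
          linarith
      _ = _ := by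
          field_simp
          ring
  obtain ⟨N, hN⟩ := Finset.exists_nat_subset_range S
  calc ∑ k ∈ S, |y k| ^ 2 ≤ ∑ k ∈ range N, |y k| ^ 2 :=
        Finset.sum_le_sum_of_subset_of_nonneg hN fun _ _ _ => by positivity
    _ ≤ ∑ k ∈ range N, 4 * C ^ 2 / x * (1 / (1 + k * x) - 1 / (1 + (k + 1) * x)) :=
        Finset.sum_le_sum fun k _ => hy k
    _ = 4 * C ^ 2 / x * ∑ k ∈ range N, (1 / (1 + k * x) - 1 / (1 + (k + 1) * x)) := by
        rw [Finset.mul_sum]
    _ = 4 * C ^ 2 / x * (1 - 1 / (1 + N * x)) := by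
        congr 1
        have := Finset.sum_range_sub' (fun k : ℕ => 1 / (1 + (k : ℝ) * x)) N
        push_cast at this
        simpa using this
    _ ≤ 4 * C ^ 2 / x * 1 := by
        gcongr
        have : 0 ≤ 1 / (1 + (N : ℝ) * x) := by positivity
        linarith
    _ = _ := mul_one _

/-- pointwise bound for the remainder part -/
theorem w_pt (h : Adm s c) (g ν : ℕ) (hg1 : 1 ≤ g) : ∃ C : ℝ, 0 < C ∧ ∀ f : ℝ → ℂ, Continuous f →
    (∀ x ∈ Icc 0 Real.pi, ‖f x‖ ≤ 1) → ∀ (S : Finset ℕ) (r x : ℝ), 1 ≤ r → 0 < x → x ≤ Real.pi / 2 →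
    ‖SE s c g ν f (fun k => (eta s c k x : ℂ)) S r‖ ^ 2 ≤ C / (r * x) := by
  obtain ⟨C, hC, _, hp⟩ := pkg h
  have hπ := Real.pi_pos
  have hπ4 := Real.pi_le_four
  obtain ⟨D, hD⟩ : ∃ D, D = 2 * C * ((g : ℝ) + ν) := ⟨_, rfl⟩
  have hg0 : (1 : ℝ) ≤ g := by exact_mod_cast hg1
  have hν0 : (0 : ℝ) ≤ ν := Nat.cast_nonneg ν
  have hD0 : 0 < D := by rw [hD]; positivity
  obtain ⟨M, hM⟩ : ∃ M, M = 4 * (4 * C ^ 2 * 3600 + 64 * C ^ 2 + 64 * D ^ 2) := ⟨_, rfl⟩
  have hM0 : 0 < M := by rw [hM]; positivity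
  refine ⟨M, hM0, fun f hf hf1 S r x hr hx hx2 => ?_⟩
  have hr0 : 0 < r := by linarith
  have hcs := SE_cs h g ν f hf hf1 (fun k => (eta s c k x : ℂ)) S r
  have hEm := Em_bessel' g ν hg1 S r
  have hsq : (2 * Real.pi) ^ 2 ≤ 64 := by nlinarith
  simp only [Complex.norm_real, Real.norm_eq_abs] at hcs
  refine hcs.trans ?_
  rcases le_total (r * x) 1 with hrx | hrx
  · -- trivial bound
    have h1 : ∑ k ∈ S, |eta s c k x| ^ 2 * ‖Em (g * k + ν) r‖ ^ 2 ≤ C ^ 2 * 64 := by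
      calc ∑ k ∈ S, |eta s c k x| ^ 2 * ‖Em (g * k + ν) r‖ ^ 2
          ≤ ∑ k ∈ S, C ^ 2 * ‖Em (g * k + ν) r‖ ^ 2 := by
            apply Finset.sum_le_sum
            intro k _
            have := (hp k x hx hx2).2.1
            gcongr
        _ = C ^ 2 * ∑ k ∈ S, ‖Em (g * k + ν) r‖ ^ 2 := by rw [Finset.mul_sum]
        _ ≤ _ := by
            gcongr
            exact hEm.trans hsq
    calc Real.pi * ∑ k ∈ S, |eta s c k x| ^ 2 * ‖Em (g * k + ν) r‖ ^ 2 ≤ 4 * (C ^ 2 * 64) := by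
          gcongr
      _ ≤ M := by
          rw [hM]
          nlinarith [sq_nonneg C, sq_nonneg D]
      _ ≤ M / (r * x) := by
          rw [le_div_iff₀ (by positivity)]
          nlinarith
  · -- low and high parts
    have h1 : ∀ k ∈ S, |eta s c k x| ^ 2 * ‖Em (g * k + ν) r‖ ^ 2 ≤
        |eta s c k x| ^ 2 * (3600 / r) + (D / (r * x)) ^ 2 * ‖Em (g * k + ν) r‖ ^ 2 := by
      intro k _
      by_cases hk : (((g * k + ν : ℕ)) : ℝ) ≤ r / 2
      · have e1 := Em_decay (g * k + ν) r hr hk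
        have e2 : ‖Em (g * k + ν) r‖ ^ 2 ≤ 3600 / r := by
          calc ‖Em (g * k + ν) r‖ ^ 2 ≤ (60 / Real.sqrt r) ^ 2 := by gcongr
            _ = _ := by
                rw [div_pow, Real.sq_sqrt hr0.le]
                norm_num
        have e3 : 0 ≤ (D / (r * x)) ^ 2 * ‖Em (g * k + ν) r‖ ^ 2 := by positivity
        have e4 : |eta s c k x| ^ 2 * ‖Em (g * k + ν) r‖ ^ 2 ≤ |eta s c k x| ^ 2 * (3600 / r) := by
          gcongr
        linarith
      · push Not at hk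
        have hkn : (0 : ℝ) ≤ k := Nat.cast_nonneg k
        have e1 : r / 2 < ((g : ℝ) + ν) * ((k : ℝ) + 1) := by
          push_cast at hk
          nlinarith
        have e2 : |eta s c k x| ≤ D / (r * x) := by
          refine (hp k x hx hx2).2.2.1.trans ?_
          rw [hD, div_le_div_iff₀ (by positivity) (by positivity)]
          have : C * x * r ≤ C * x * (2 * (((g : ℝ) + ν) * ((k : ℝ) + 1))) := by
            gcongr
            linarith
          nlinarith
        have e3 : 0 ≤ |eta s c k x| ^ 2 * (3600 / r) := by positivity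
        have e4 : |eta s c k x| ^ 2 * ‖Em (g * k + ν) r‖ ^ 2 ≤
            (D / (r * x)) ^ 2 * ‖Em (g * k + ν) r‖ ^ 2 := by gcongr
        linarith
    have h2 : ∑ k ∈ S, |eta s c k x| ^ 2 * ‖Em (g * k + ν) r‖ ^ 2 ≤
        4 * C ^ 2 / x * (3600 / r) + (D / (r * x)) ^ 2 * 64 := by
      refine (Finset.sum_le_sum h1).trans ?_
      rw [Finset.sum_add_distrib, ← Finset.sum_mul, ← Finset.mul_sum]
      have e1 := eta_sum hC hx (fun k => eta s c k x) (fun k => (hp k x hx hx2).2.1)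
        (fun k => (hp k x hx hx2).2.2.1) S
      gcongr
      exact hEm.trans hsq
    calc Real.pi * ∑ k ∈ S, |eta s c k x| ^ 2 * ‖Em (g * k + ν) r‖ ^ 2
        ≤ 4 * (4 * C ^ 2 / x * (3600 / r) + (D / (r * x)) ^ 2 * 64) := by gcongr
      _ = 4 * (4 * C ^ 2 * 3600 + 64 * D ^ 2 * (1 / (r * x))) / (r * x) := by
          field_simp
      _ ≤ M / (r * x) := by
          apply div_le_div_of_nonneg_right _ (by positivity)
          have e1 : 1 / (r * x) ≤ 1 := by
            rw [div_le_one (by positivity)]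
            exact hrx
          have e2 : 64 * D ^ 2 * (1 / (r * x)) ≤ 64 * D ^ 2 * 1 := by gcongr
          rw [hM]
          nlinarith [sq_nonneg C, sq_nonneg D]

/-- the tail -/
theorem tail_pt (h : Adm s c) (g ν : ℕ) (hg1 : 1 ≤ g) : ∃ C : ℝ, 0 < C ∧ ∀ f : ℝ → ℂ, Continuous f →
    (∀ x ∈ Icc 0 Real.pi, ‖f x‖ ≤ 1) → ∀ (N K : ℕ) (r x : ℝ), 1 ≤ N → 0 ≤ r → 0 < x →
    x ≤ Real.pi / 2 →
    ‖SE s c g ν f (fun k => (ph s c k x : ℂ)) (Finset.Ico N K) r‖ ^ 2 ≤ C * r ^ 2 / N := by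
  obtain ⟨C, hC, _, hp⟩ := pkg h
  have hπ := Real.pi_pos
  have hπ4 := Real.pi_le_four
  refine ⟨Real.pi * (C ^ 2 * 64 * 2), by positivity, fun f hf hf1 N K r x hN hr hx hx2 => ?_⟩
  have hcs := SE_cs h g ν f hf hf1 (fun k => (ph s c k x : ℂ)) (Finset.Ico N K) r
  simp only [Complex.norm_real, Real.norm_eq_abs] at hcs
  have hN1 : (1 : ℝ) ≤ N := by exact_mod_cast hN
  have h1 : ∀ k ∈ Finset.Ico N K, |ph s c k x| ^ 2 * ‖Em (g * k + ν) r‖ ^ 2 ≤
      C ^ 2 * 64 * r ^ 2 * (1 / (k : ℝ) ^ 2) := by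
    intro k hk
    have hkN : N ≤ k := (Finset.mem_Ico.1 hk).1
    have hk1 : (1 : ℝ) ≤ k := by exact_mod_cast hN.trans hkN
    have e1 := (hp k x hx hx2).1
    have e2 : ‖Em (g * k + ν) r‖ ≤ 8 * r / k := by
      refine (Em_order (g * k + ν) (by nlinarith) r hr).trans ?_
      have e3 : (k : ℝ) ≤ ((g * k + ν : ℕ) : ℝ) := by
        have : k ≤ g * k + ν := by nlinarith
        exact_mod_cast this
      calc 2 * Real.pi * r / ((g * k + ν : ℕ) : ℝ) ≤ 2 * Real.pi * r / k := by gcongr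
        _ ≤ _ := by
            gcongr
            linarith
    calc |ph s c k x| ^ 2 * ‖Em (g * k + ν) r‖ ^ 2 ≤ C ^ 2 * (8 * r / k) ^ 2 := by gcongr
      _ = _ := by
          field_simp
          ring
  have h2 : ∀ K : ℕ, N ≤ K → ∑ k ∈ Finset.Ico N K, 1 / (k : ℝ) ^ 2 ≤ 2 * (1 / (N : ℝ) - 1 / (K : ℝ)) := by
    intro K hK
    induction K, hK using Nat.le_induction with
    | base => simp
    | succ K hK ih =>
      rw [Finset.sum_Ico_succ_top hK]
      have hK1 : (1 : ℝ) ≤ K := by exact_mod_cast hN.trans hK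
      have e : 1 / (K : ℝ) ^ 2 ≤ 2 * (1 / (K : ℝ) - 1 / ((K : ℝ) + 1)) := by
        rw [div_sub_div _ _ (by positivity) (by positivity), mul_div_assoc',
          div_le_div_iff₀ (by positivity) (by positivity)]
        nlinarith
      push_cast
      linarith
  have h3 : ∑ k ∈ Finset.Ico N K, 1 / (k : ℝ) ^ 2 ≤ 2 / (N : ℝ) := by
    rcases le_total N K with hK | hK
    · refine (h2 K hK).trans ?_
      have : 0 ≤ 1 / (K : ℝ) := by positivity
      have e : 2 / (N : ℝ) = 2 * (1 / N) := by ring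
      rw [e]
      linarith
    · rw [Finset.Ico_eq_empty (by omega), Finset.sum_empty]
      positivity
  refine hcs.trans ?_
  calc Real.pi * ∑ k ∈ Finset.Ico N K, |ph s c k x| ^ 2 * ‖Em (g * k + ν) r‖ ^ 2
      ≤ Real.pi * ∑ k ∈ Finset.Ico N K, C ^ 2 * 64 * r ^ 2 * (1 / (k : ℝ) ^ 2) :=
        mul_le_mul_of_nonneg_left (Finset.sum_le_sum h1) hπ.le
    _ = Real.pi * (C ^ 2 * 64 * r ^ 2 * ∑ k ∈ Finset.Ico N K, (1 / (k : ℝ) ^ 2)) := by
        rw [← Finset.mul_sum]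
    _ ≤ Real.pi * (C ^ 2 * 64 * r ^ 2 * (2 / (N : ℝ))) := by gcongr
    _ = _ := by ring

end Pool.Agent.H72.Is
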