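import Mathlib
set_option autoImplicit false

/-! Abstract interpolation lemmas. -/

namespace Pool.Agent.H72.Is

open MeasureTheory Set
open scoped ENNReal

theorem holder2 (S T : Set ℝ) (hT : MeasurableSet T) (u : ℝ → ℝ → ℝ≥0∞)
    (hu : Measurable (Function.uncurry u)) (W : ℝ → ℝ≥0∞) (hW : Measurable W) (σ : ℝ) (h0 : 0 < σ)
    (h2 : σ < 2) (L M : ℝ≥0∞) (hL : ∀ x ∈ T, ∫⁻ r in S, u r x ^ (2 : ℝ) ≤ L)
    (hM : ∫⁻ r in S, ∫⁻ x in T, u r x ^ (4 : ℝ) ≤ M) :
    ∫⁻ r in S, ∫⁻ x in T, u r x ^ (2 + σ) * W x ≤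
      (L * ∫⁻ x in T, W x ^ (2 / (2 - σ))) ^ ((2 - σ) / 2) * M ^ (σ / 2) := by
  have h3 : 0 < 2 - σ := by linarith
  set μ : Measure (ℝ × ℝ) := (volume.restrict S).prod (volume.restrict T) with hμ
  have hu' : Measurable fun p : ℝ × ℝ => u p.1 p.2 := hu
  have hW' : Measurable fun p : ℝ × ℝ => W p.2 := hW.comp measurable_snd
  have hpq : (2 / (2 - σ)).HolderConjugate (2 / σ) := by
    rw [Real.holderConjugate_iff]
    constructor
    · rw [lt_div_iff₀ h3]
      linarith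
    · rw [inv_div, inv_div]
      ring
  have hf : Measurable fun p : ℝ × ℝ => u p.1 p.2 ^ (2 - σ) * W p.2 := (hu'.pow_const _).mul hW'
  have hg : Measurable fun p : ℝ × ℝ => u p.1 p.2 ^ (2 * σ) := hu'.pow_const _
  have key := ENNReal.lintegral_mul_le_Lp_mul_Lq μ hpq hf.aemeasurable hg.aemeasurable
  have e1 : ∫⁻ r in S, ∫⁻ x in T, u r x ^ (2 + σ) * W x =
      ∫⁻ p, ((fun p : ℝ × ℝ => u p.1 p.2 ^ (2 - σ) * W p.2) *
        fun p : ℝ × ℝ => u p.1 p.2 ^ (2 * σ)) p ∂μ := by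
    rw [hμ, lintegral_prod _ (hf.mul hg).aemeasurable]
    apply lintegral_congr
    intro r
    apply lintegral_congr
    intro x
    simp only [Pi.mul_apply]
    rw [mul_right_comm, ← ENNReal.rpow_add_of_nonneg _ _ h3.le (by positivity)]
    congr 2
    ring
  have e2 : ∫⁻ p, (fun p : ℝ × ℝ => u p.1 p.2 ^ (2 - σ) * W p.2) p ^ (2 / (2 - σ)) ∂μ ≤
      L * ∫⁻ x in T, W x ^ (2 / (2 - σ)) := by
    have e3 : ∀ p : ℝ × ℝ, (fun p : ℝ × ℝ => u p.1 p.2 ^ (2 - σ) * W p.2) p ^ (2 / (2 - σ)) =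
        u p.1 p.2 ^ (2 : ℝ) * W p.2 ^ (2 / (2 - σ)) := by
      intro p
      simp only
      rw [ENNReal.mul_rpow_of_nonneg _ _ (by positivity), ← ENNReal.rpow_mul]
      congr 2
      field_simp
    simp only [e3]
    rw [hμ, lintegral_prod_symm]
    · calc ∫⁻ x in T, ∫⁻ r in S, u r x ^ (2 : ℝ) * W x ^ (2 / (2 - σ))
          ≤ ∫⁻ x in T, L * W x ^ (2 / (2 - σ)) := by
            apply setLIntegral_mono' hT
            intro x hx
            have hm : Measurable fun r => u r x ^ (2 : ℝ) :=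
              (hu'.comp (measurable_id.prodMk measurable_const)).pow_const _
            rw [lintegral_mul_const _ hm]
            exact mul_le_mul_left (hL x hx) _
        _ = _ := by rw [lintegral_const_mul _ (hW.pow_const _)]
    · exact ((hu'.pow_const _).mul (hW'.pow_const _)).aemeasurable
  have e4 : ∫⁻ p, (fun p : ℝ × ℝ => u p.1 p.2 ^ (2 * σ)) p ^ (2 / σ) ∂μ ≤ M := by
    have e3 : ∀ p : ℝ × ℝ, (fun p : ℝ × ℝ => u p.1 p.2 ^ (2 * σ)) p ^ (2 / σ) =
        u p.1 p.2 ^ (4 : ℝ) := by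
      intro p
      simp only
      rw [← ENNReal.rpow_mul]
      congr 1
      field_simp
      norm_num
    simp only [e3]
    rw [hμ, lintegral_prod _ (hu'.pow_const _).aemeasurable]
    exact hM
  rw [e1]
  refine key.trans ?_
  rw [one_div_div, one_div_div]
  gcongr

theorem simple2 (S T : Set ℝ) (hS : MeasurableSet S) (hT : MeasurableSet T) (u : ℝ → ℝ → ℝ≥0∞)
    (hu : Measurable (Function.uncurry u)) (W Y : ℝ → ℝ≥0∞) (hW : Measurable W) (hY : Measurable Y)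
    (σ : ℝ) (h0 : 0 < σ) (L : ℝ≥0∞) (hL : ∀ x ∈ T, ∫⁻ r in S, u r x ^ (2 : ℝ) ≤ L)
    (hM : ∀ r ∈ S, ∀ x ∈ T, u r x ^ σ ≤ Y x) :
    ∫⁻ r in S, ∫⁻ x in T, u r x ^ (2 + σ) * W x ≤ L * ∫⁻ x in T, Y x * W x := by
  have hu' : Measurable fun p : ℝ × ℝ => u p.1 p.2 := hu
  have hW' : Measurable fun p : ℝ × ℝ => W p.2 := hW.comp measurable_snd
  have e1 : ∫⁻ r in S, ∫⁻ x in T, u r x ^ (2 + σ) * W x =
      ∫⁻ x in T, ∫⁻ r in S, u r x ^ (2 + σ) * W x := by
    apply lintegral_lintegral_swap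
    exact ((hu'.pow_const _).mul hW').aemeasurable
  rw [e1, ← lintegral_const_mul _ (show Measurable fun x => Y x * W x from hY.mul hW)]
  apply setLIntegral_mono' hT
  intro x hx
  calc ∫⁻ r in S, u r x ^ (2 + σ) * W x ≤ ∫⁻ r in S, u r x ^ (2 : ℝ) * (Y x * W x) := by
        apply setLIntegral_mono' hS
        intro r hr
        rw [ENNReal.rpow_add_of_nonneg _ _ (by norm_num) h0.le, mul_assoc]
        gcongr
        exact hM r hr x hx
    _ = (∫⁻ r in S, u r x ^ (2 : ℝ)) * (Y x * W x) := by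
        have hm : Measurable fun r => u r x ^ (2 : ℝ) :=
          (hu'.comp (measurable_id.prodMk measurable_const)).pow_const _
        rw [lintegral_mul_const _ hm]
    _ ≤ _ := mul_le_mul_left (hL x hx) _

theorem const2 (S T : Set ℝ) (hS : MeasurableSet S) (hT : MeasurableSet T) (u : ℝ → ℝ → ℝ≥0∞)
    (W : ℝ → ℝ≥0∞) (hW : Measurable W) (q : ℝ) (Z : ℝ≥0∞)
    (hM : ∀ r ∈ S, ∀ x ∈ T, u r x ^ q ≤ Z) :
    ∫⁻ r in S, ∫⁻ x in T, u r x ^ q * W x ≤ volume S * (Z * ∫⁻ x in T, W x) := by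
  calc ∫⁻ r in S, ∫⁻ x in T, u r x ^ q * W x ≤ ∫⁻ r in S, ∫⁻ x in T, Z * W x := by
        apply setLIntegral_mono' hS
        intro r hr
        apply setLIntegral_mono' hT
        intro x hx
        exact mul_le_mul_left (hM r hr x hx) _
    _ = _ := by
        rw [lintegral_const, Measure.restrict_apply_univ, lintegral_const_mul _ hW, mul_comm]

theorem three_pow (a b c : ℝ≥0∞) (q : ℝ) (hq : 1 ≤ q) :
    (a + b + c) ^ q ≤ (2 : ℝ≥0∞) ^ (q - 1) * 2 ^ (q - 1) * (a ^ q + b ^ q + c ^ q) := by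
  have h1 := ENNReal.rpow_add_le_mul_rpow_add_rpow (a + b) c hq
  have h2 := ENNReal.rpow_add_le_mul_rpow_add_rpow a b hq
  have h3 : (1 : ℝ≥0∞) ≤ 2 ^ (q - 1) := by
    calc (1 : ℝ≥0∞) = 1 ^ (q - 1) := (ENNReal.one_rpow _).symm
      _ ≤ 2 ^ (q - 1) := ENNReal.rpow_le_rpow (by norm_num) (by linarith)
  calc (a + b + c) ^ q ≤ 2 ^ (q - 1) * ((a + b) ^ q + c ^ q) := h1
    _ ≤ 2 ^ (q - 1) * (2 ^ (q - 1) * (a ^ q + b ^ q) + 2 ^ (q - 1) * c ^ q) := by
        gcongr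
        calc c ^ q = 1 * c ^ q := (one_mul _).symm
          _ ≤ _ := by gcongr
    _ = _ := by ring

/-- scaling -/
theorem scale_lint (F : ℝ → ℝ≥0∞) (hF : Measurable F) (g : ℝ) (hg : 1 ≤ g) (b : ℝ) :
    ∫⁻ x in Ioo 0 b, F (x / g) ≤ ENNReal.ofReal g * ∫⁻ x in Ioo 0 b, F x := by
  have hg0 : 0 < g := by linarith
  have h1 : ∫⁻ x in Ioo 0 b, F (x / g) ≤ ∫⁻ x, (Ioo 0 b).indicator F (g⁻¹ * x) := by
    rw [← lintegral_indicator measurableSet_Ioo]
    apply lintegral_mono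
    intro x
    simp only
    by_cases hx : x ∈ Ioo 0 b
    · have hx' : g⁻¹ * x ∈ Ioo 0 b := by
        constructor
        · have := hx.1
          positivity
        · have h2 : g⁻¹ * x ≤ 1 * x := by
            have := hx.1
            gcongr
            exact inv_le_one_of_one_le₀ hg
          linarith [hx.2]
      rw [indicator_of_mem hx, indicator_of_mem hx', div_eq_inv_mul]
    · rw [indicator_of_notMem hx]
      exact zero_le
  have h2 : ∫⁻ x, (Ioo 0 b).indicator F (g⁻¹ * x) = ENNReal.ofReal g * ∫⁻ x, (Ioo 0 b).indicator F x := by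
    have e1 : ∫⁻ x, (Ioo 0 b).indicator F (g⁻¹ * x) =
        ∫⁻ y, (Ioo 0 b).indicator F y ∂(Measure.map (fun x => g⁻¹ * x) volume) := by
      rw [lintegral_map (hF.indicator measurableSet_Ioo) (by fun_prop)]
    rw [e1, Real.map_volume_mul_left (inv_ne_zero hg0.ne'), lintegral_smul_measure, inv_inv,
      abs_of_pos hg0, smul_eq_mul]
  rw [h2, lintegral_indicator measurableSet_Ioo] at h1
  exact h1

/-- finiteness of the weight integral -/
theorem rpow_fin (β b : ℝ) (hβ : β < 1) (hb : 0 ≤ b) :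
    ∫⁻ x in Ioo 0 b, ENNReal.ofReal (x ^ (-β)) ≠ ∞ := by
  have h1 := intervalIntegral.intervalIntegrable_rpow' (a := 0) (b := b) (r := -β) (by linarith)
  rw [intervalIntegrable_iff_integrableOn_Ioo_of_le hb] at h1
  have h2 := h1.2
  unfold HasFiniteIntegral at h2
  refine ne_of_lt (lt_of_le_of_lt ?_ h2)
  apply lintegral_mono
  intro x
  exact Real.ofReal_le_enorm _

end Pool.Agent.H72.Is
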