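import Mathlib
import Pool.Agent.H72.Is.J3
import Pool.Agent.H72.Is.J4
set_option autoImplicit false

/-! The estimate on a dyadic shell, half of the sphere. -/

namespace Pool.Agent.H72.Is

open MeasureTheory Set
open Finset (range)
open scoped ENNReal

variable {s c : ℝ}

theorem log_R (j : ℕ) : Real.log ((2 : ℝ) ^ j) ≤ j := by
  rw [Real.log_pow]
  have h3 : Real.log 2 ≤ 1 := by
    have := Real.log_le_sub_one_of_pos (show (0 : ℝ) < 2 by norm_num)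
    linarith
  have : (0 : ℝ) ≤ j := Nat.cast_nonneg j
  nlinarith

theorem log_N (j K : ℕ) (hK : K ≤ 16 ^ j) : 1 + Real.log K ≤ 4 * (1 + (j : ℝ)) := by
  have h1 := lg_mono hK
  have h2 : Real.log (((16 ^ j : ℕ)) : ℝ) = 4 * Real.log ((2 : ℝ) ^ j) := by
    push_cast
    rw [show (16 : ℝ) = 2 ^ 4 by norm_num, ← pow_mul, mul_comm 4 j, pow_mul, Real.log_pow]
    norm_num
  have h3 := log_R j
  rw [h2] at h1
  have : (0 : ℝ) ≤ j := Nat.cast_nonneg j
  linarith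

/-- conversion -/
theorem en_pow (z : ℂ) (n : ℕ) : ‖z‖ₑ ^ (n : ℝ) = ENNReal.ofReal (‖z‖ ^ n) := by
  rw [ENNReal.rpow_natCast, ENNReal.ofReal_pow (norm_nonneg _), ofReal_norm]

theorem en_two (z : ℂ) : ‖z‖ₑ ^ (2 : ℝ) = ENNReal.ofReal (‖z‖ ^ 2) := by
  have := en_pow z 2
  push_cast at this
  exact this

theorem en_four (z : ℂ) : ‖z‖ₑ ^ (4 : ℝ) = ENNReal.ofReal (‖z‖ ^ 4) := by
  have := en_pow z 4
  push_cast at this
  exact this

theorem SE_cont2 (g ν : ℕ) (hg : (g : ℝ) * s = 2 * ν) (f : ℝ → ℂ) (y : ℕ → ℝ → ℂ)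
    (hy : ∀ k, Continuous (y k)) (S : Finset ℕ) :
    Continuous (Function.uncurry fun r x : ℝ => SE s c g ν f (fun k => y k x) S r) := by
  have hE : ∀ m, Continuous (Em m) := by
    intro m
    have : Em m = OI (fun t => Complex.exp (((m * t : ℝ) : ℂ) * Complex.I)) := by
      funext r
      rfl
    rw [this]
    apply OI_cont
    fun_prop
  unfold SE Function.uncurry
  simp only
  apply continuous_finsetSum
  intro k _
  have h1 := hE (g * k + ν)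
  have h2 := hy k
  fun_prop

theorem zr_cont (k : ℕ) : Continuous (zr s c k) := by
  unfold zr
  fun_prop

/-- ray bounds for the truncated sums -/
theorem ray_bds (h : Adm s c) (g ν : ℕ) (hg : (g : ℝ) * s = 2 * ν) : ∃ C : ℝ, 0 < C ∧
    ∀ f : ℝ → ℂ, Continuous f → (∀ x ∈ Icc 0 Real.pi, ‖f x‖ ≤ 1) → ∀ j K : ℕ, K ≤ 16 ^ j →
    ∀ x ∈ Ioo 0 (Real.pi / 2),
    ∫⁻ r in Ioo ((2 : ℝ) ^ j) (2 * 2 ^ j), ‖SE s c g ν f (fun k => (zr s c k x : ℂ)) (range K) r‖ₑ ^ (2 : ℝ) ≤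
      ENNReal.ofReal (C * (1 + (j : ℝ)) ^ 9) ∧
    ∫⁻ r in Ioo ((2 : ℝ) ^ j) (2 * 2 ^ j), ‖SE s c g ν f (fun k => (eta s c k x : ℂ)) (range K) r‖ₑ ^ (2 : ℝ) ≤
      ENNReal.ofReal (C * (1 + (j : ℝ)) ^ 9) := by
  obtain ⟨C, hC, hA⟩ := A_bd h
  refine ⟨4 * (1000 * (64 * C) ^ 2), by positivity, fun f hf hf1 j K hK x hx => ?_⟩
  have hx' : x ∈ Ioc 0 (Real.pi / 2) := ⟨hx.1, hx.2.le⟩
  have hj : (0 : ℝ) ≤ j := Nat.cast_nonneg j
  have hl := log_N j K hK
  have hlK := lg_nonneg K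
  have hR : (1 : ℝ) ≤ 2 ^ j := one_le_pow₀ (by norm_num)
  have hlR := log_R j
  have hcube : C * (1 + Real.log K) ^ 3 ≤ 64 * C * (1 + (j : ℝ)) ^ 3 := by
    calc C * (1 + Real.log K) ^ 3 ≤ C * (4 * (1 + (j : ℝ))) ^ 3 := by gcongr
      _ = _ := by ring
  have hfin : 1000 * (64 * C * (1 + (j : ℝ)) ^ 3) ^ 2 * (1 + Real.log ((2 : ℝ) ^ j)) ≤
      1000 * (64 * C) ^ 2 * (1 + (j : ℝ)) ^ 9 := by
    calc 1000 * (64 * C * (1 + (j : ℝ)) ^ 3) ^ 2 * (1 + Real.log ((2 : ℝ) ^ j)) ≤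
        1000 * (64 * C * (1 + (j : ℝ)) ^ 3) ^ 2 * (1 + (j : ℝ)) := by gcongr
      _ = 1000 * (64 * C) ^ 2 * (1 + (j : ℝ)) ^ 7 := by ring
      _ ≤ _ := by
          gcongr
          · linarith
          · norm_num
  have hph : ∫⁻ r in Ioo ((2 : ℝ) ^ j) (2 * 2 ^ j),
      ‖SE s c g ν f (fun k => (ph s c k x : ℂ)) (range K) r‖ₑ ^ (2 : ℝ) ≤
      ENNReal.ofReal (1000 * (64 * C) ^ 2 * (1 + (j : ℝ)) ^ 9) := by
    simp only [en_two]
    have e : ∀ r, SE s c g ν f (fun k => (ph s c k x : ℂ)) (range K) r = OI (fun t => ∑ k ∈ range K,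
        co s c f k * (ph s c k x : ℂ) * Complex.exp (((kp s k * (g * t) : ℝ) : ℂ) * Complex.I)) r :=
      fun r => SE_OI g ν hg f _ _ r
    simp only [e]
    refine (ray _ (by fun_prop) (64 * C * (1 + (j : ℝ)) ^ 3)
      (fun t => ((hA f hf hf1 K (g * t) x hx').1).trans hcube) _ hR).trans ?_
    exact ENNReal.ofReal_le_ofReal hfin
  have heta : ∫⁻ r in Ioo ((2 : ℝ) ^ j) (2 * 2 ^ j),
      ‖SE s c g ν f (fun k => (eta s c k x : ℂ)) (range K) r‖ₑ ^ (2 : ℝ) ≤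
      ENNReal.ofReal (1000 * (64 * C) ^ 2 * (1 + (j : ℝ)) ^ 9) := by
    simp only [en_two]
    have e : ∀ r, SE s c g ν f (fun k => (eta s c k x : ℂ)) (range K) r = OI (fun t => ∑ k ∈ range K,
        co s c f k * (eta s c k x : ℂ) * Complex.exp (((kp s k * (g * t) : ℝ) : ℂ) * Complex.I)) r :=
      fun r => SE_OI g ν hg f _ _ r
    simp only [e]
    refine (ray _ (by fun_prop) (64 * C * (1 + (j : ℝ)) ^ 3)
      (fun t => ((hA f hf hf1 K (g * t) x hx').2).trans hcube) _ hR).trans ?_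
    exact ENNReal.ofReal_le_ofReal hfin
  have hle : ENNReal.ofReal (1000 * (64 * C) ^ 2 * (1 + (j : ℝ)) ^ 9) ≤
      ENNReal.ofReal (4 * (1000 * (64 * C) ^ 2) * (1 + (j : ℝ)) ^ 9) := by
    apply ENNReal.ofReal_le_ofReal
    have : 0 ≤ 1000 * (64 * C) ^ 2 * (1 + (j : ℝ)) ^ 9 := by positivity
    linarith
  refine ⟨?_, heta.trans hle⟩
  have hpt : ∀ r, ‖SE s c g ν f (fun k => (zr s c k x : ℂ)) (range K) r‖ₑ ^ (2 : ℝ) ≤
      ENNReal.ofReal 2 * (‖SE s c g ν f (fun k => (ph s c k x : ℂ)) (range K) r‖ₑ ^ (2 : ℝ) +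
        ‖SE s c g ν f (fun k => (eta s c k x : ℂ)) (range K) r‖ₑ ^ (2 : ℝ)) := by
    intro r
    rw [en_two, en_two, en_two, ← ENNReal.ofReal_add (by positivity) (by positivity),
      ← ENNReal.ofReal_mul (by norm_num)]
    apply ENNReal.ofReal_le_ofReal
    have e := SE_split (s := s) (c := c) g ν f (range K) r x
    have e2 : SE s c g ν f (fun k => (zr s c k x : ℂ)) (range K) r =
      SE s c g ν f (fun k => (ph s c k x : ℂ)) (range K) r -
        SE s c g ν f (fun k => (eta s c k x : ℂ)) (range K) r := by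
      rw [e]; ring
    rw [e2]
    have n1 := norm_sub_le (SE s c g ν f (fun k => (ph s c k x : ℂ)) (range K) r)
      (SE s c g ν f (fun k => (eta s c k x : ℂ)) (range K) r)
    have n2 : ‖SE s c g ν f (fun k => (ph s c k x : ℂ)) (range K) r -
        SE s c g ν f (fun k => (eta s c k x : ℂ)) (range K) r‖ ^ 2 ≤
        (‖SE s c g ν f (fun k => (ph s c k x : ℂ)) (range K) r‖ +
          ‖SE s c g ν f (fun k => (eta s c k x : ℂ)) (range K) r‖) ^ 2 := by gcongr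
    nlinarith [sq_nonneg (‖SE s c g ν f (fun k => (ph s c k x : ℂ)) (range K) r‖ -
          ‖SE s c g ν f (fun k => (eta s c k x : ℂ)) (range K) r‖)]
  have hmeta : Measurable fun r =>
      ‖SE s c g ν f (fun k => (eta s c k x : ℂ)) (range K) r‖ₑ ^ (2 : ℝ) :=
    ((SE_cont g ν hg f _ _).measurable.enorm).pow_const _
  calc ∫⁻ r in Ioo ((2 : ℝ) ^ j) (2 * 2 ^ j),
      ‖SE s c g ν f (fun k => (zr s c k x : ℂ)) (range K) r‖ₑ ^ (2 : ℝ)
      ≤ ∫⁻ r in Ioo ((2 : ℝ) ^ j) (2 * 2 ^ j), ENNReal.ofReal 2 *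
        (‖SE s c g ν f (fun k => (ph s c k x : ℂ)) (range K) r‖ₑ ^ (2 : ℝ) +
        ‖SE s c g ν f (fun k => (eta s c k x : ℂ)) (range K) r‖ₑ ^ (2 : ℝ)) :=
        lintegral_mono fun r => hpt r
    _ = ENNReal.ofReal 2 * ((∫⁻ r in Ioo ((2 : ℝ) ^ j) (2 * 2 ^ j),
        ‖SE s c g ν f (fun k => (ph s c k x : ℂ)) (range K) r‖ₑ ^ (2 : ℝ)) +
        ∫⁻ r in Ioo ((2 : ℝ) ^ j) (2 * 2 ^ j),
        ‖SE s c g ν f (fun k => (eta s c k x : ℂ)) (range K) r‖ₑ ^ (2 : ℝ)) := by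
        rw [lintegral_const_mul' _ _ ENNReal.ofReal_ne_top, lintegral_add_right _ hmeta]
    _ ≤ ENNReal.ofReal 2 * (ENNReal.ofReal (1000 * (64 * C) ^ 2 * (1 + (j : ℝ)) ^ 9) +
          ENNReal.ofReal (1000 * (64 * C) ^ 2 * (1 + (j : ℝ)) ^ 9)) := by gcongr
    _ = _ := by
        rw [← ENNReal.ofReal_add (by positivity) (by positivity), ← ENNReal.ofReal_mul (by norm_num)]
        congr 1
        ring

/-- `L⁴` bound for the plane wave part -/
theorem four_bd (h : Adm s c) (g ν : ℕ) (hg : (g : ℝ) * s = 2 * ν) (hg1 : 1 ≤ g) : ∃ C : ℝ, 0 < C ∧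
    ∀ f : ℝ → ℂ, Continuous f → (∀ x ∈ Icc 0 Real.pi, ‖f x‖ ≤ 1) → ∀ j K : ℕ, K ≤ 16 ^ j →
    ∫⁻ r in Ioo ((2 : ℝ) ^ j) (2 * 2 ^ j), ∫⁻ x in Ioo 0 (Real.pi / 2),
      ‖SE s c g ν f (fun k => (zr s c k x : ℂ)) (range K) r‖ₑ ^ (4 : ℝ) ≤
      ENNReal.ofReal (C * (1 + (j : ℝ)) ^ 9 / 2 ^ j) := by
  obtain ⟨C, hC, hDb⟩ := hD_bd h
  obtain ⟨C4, hC4, hP⟩ := planar4
  have hg0 : (1 : ℝ) ≤ g := by exact_mod_cast hg1
  refine ⟨g * (C4 * (16 * C) ^ 4), by positivity, fun f hf hf1 j K hK => ?_⟩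
  have hj : (0 : ℝ) ≤ j := Nat.cast_nonneg j
  have hl := log_N j K hK
  have hlK := lg_nonneg K
  have hR : (1 : ℝ) ≤ 2 ^ j := one_le_pow₀ (by norm_num)
  have hlR := log_R j
  have hB : ∀ t, ‖hD s c g f K t‖ ≤ 16 * C * (1 + (j : ℝ)) ^ 2 := by
    intro t
    refine (hDb f hf hf1 g K t).trans ?_
    calc C * (1 + Real.log K) ^ 2 ≤ C * (4 * (1 + (j : ℝ))) ^ 2 := by gcongr
      _ = _ := by ring
  have h1 := hP (Is.hD s c g f K) (hD_cont g f K) _ hB (2 ^ j) hR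
  have hcont : Continuous (Function.uncurry fun r x : ℝ => v4 (Is.hD s c g f K) r x) := by
    have hh := hD_cont (s := s) (c := c) g f K
    unfold v4 Function.uncurry
    apply intervalIntegral.continuous_parametric_intervalIntegral_of_continuous'
    fun_prop
  calc ∫⁻ r in Ioo ((2 : ℝ) ^ j) (2 * 2 ^ j), ∫⁻ x in Ioo 0 (Real.pi / 2),
      ‖SE s c g ν f (fun k => (zr s c k x : ℂ)) (range K) r‖ₑ ^ (4 : ℝ)
      ≤ ∫⁻ r in Ioo ((2 : ℝ) ^ j) (2 * 2 ^ j), ENNReal.ofReal g * ∫⁻ θ in Ioo 0 (Real.pi / 2),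
        ENNReal.ofReal (‖v4 (Is.hD s c g f K) r θ‖ ^ 4) := by
        apply lintegral_mono
        intro r
        simp only
        have e : ∀ x : ℝ, ‖SE s c g ν f (fun k => (zr s c k x : ℂ)) (range K) r‖ₑ ^ (4 : ℝ) =
            (fun θ => ENNReal.ofReal (‖v4 (Is.hD s c g f K) r θ‖ ^ 4)) (x / g) := by
          intro x
          rw [en_four, main_eq g ν hg hg1]
        simp only [e]
        apply scale_lint _ _ _ hg0
        have h2 : Continuous fun θ => v4 (Is.hD s c g f K) r θ :=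
          hcont.comp (by fun_prop : Continuous fun θ : ℝ => (r, θ))
        exact (h2.norm.pow 4).measurable.ennreal_ofReal
    _ = ENNReal.ofReal g * ∫⁻ r in Ioo ((2 : ℝ) ^ j) (2 * 2 ^ j), ∫⁻ θ in Ioo 0 (Real.pi / 2),
        ENNReal.ofReal (‖v4 (Is.hD s c g f K) r θ‖ ^ 4) := by
        rw [lintegral_const_mul' _ _ ENNReal.ofReal_ne_top]
    _ ≤ ENNReal.ofReal g * ENNReal.ofReal (C4 * (16 * C * (1 + (j : ℝ)) ^ 2) ^ 4 *
          (1 + Real.log (2 ^ j)) / 2 ^ j) := by gcongr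
    _ ≤ _ := by
        rw [← ENNReal.ofReal_mul (by positivity)]
        apply ENNReal.ofReal_le_ofReal
        rw [mul_div_assoc']
        apply div_le_div_of_nonneg_right _ (by positivity)
        calc (g : ℝ) * (C4 * (16 * C * (1 + (j : ℝ)) ^ 2) ^ 4 * (1 + Real.log (2 ^ j)))
            ≤ (g : ℝ) * (C4 * (16 * C * (1 + (j : ℝ)) ^ 2) ^ 4 * (1 + (j : ℝ))) := by gcongr
          _ = _ := by ring

/-- the weight -/
noncomputable def wt (s c σ : ℝ) (x : ℝ) : ℝ≥0∞ := ENNReal.ofReal (om s c x ^ (-σ))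

theorem wt_meas (h : Adm s c) (σ : ℝ) : Measurable (wt s c σ) := by
  unfold wt
  exact ((om_cont h).measurable.pow_const _).ennreal_ofReal

theorem om_low (h : Adm s c) {x : ℝ} (hx : x ∈ Ioo 0 (Real.pi / 2)) :
    (x / 4) ^ ((s - c) / 2) * (1 / 2 : ℝ) ^ ((s + c) / 2) ≤ om s c x := by
  have hπ := Real.pi_pos
  have hπ4 := Real.pi_le_four
  have hx0 := hx.1
  unfold om
  have h1 : x / 4 ≤ Real.sin (x / 2) := by
    have := Real.mul_le_sin (x := x / 2) (by linarith) (by linarith [hx.2])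
    refine le_trans ?_ this
    rw [div_mul_div_comm, div_le_div_iff₀ (by norm_num) (by positivity)]
    nlinarith
  have h2 : 1 / 2 ≤ Real.cos (x / 2) := cosA (by linarith) (by linarith [hx.2])
  have e1 := h.e1
  have e2 := h.e2
  have h3 : 0 ≤ Real.sin (x / 2) := le_trans (by positivity) h1
  gcongr

theorem wt_le (h : Adm s c) {σ : ℝ} (hσ : 0 < σ) : ∃ D : ℝ, 0 < D ∧ ∀ x ∈ Ioo 0 (Real.pi / 2),
    om s c x ^ (-σ) ≤ D * x ^ (-((s - c) * σ / 2)) := by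
  have e1 := h.e1
  have e2 := h.e2
  refine ⟨(4 : ℝ) ^ ((s - c) * σ / 2) * ((1 / 2 : ℝ) ^ ((s + c) / 2)) ^ (-σ), by positivity,
    fun x hx => ?_⟩
  have hx0 := hx.1
  have h1 := om_low h hx
  have h2 : om s c x ^ (-σ) ≤ ((x / 4) ^ ((s - c) / 2) * (1 / 2 : ℝ) ^ ((s + c) / 2)) ^ (-σ) := by
    apply Real.rpow_le_rpow_of_nonpos (by positivity) h1 (by linarith)
  refine h2.trans (le_of_eq ?_)
  rw [Real.mul_rpow (by positivity) (by positivity), ← Real.rpow_mul (by positivity),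
    Real.div_rpow hx0.le (by norm_num)]
  have e3 : (s - c) / 2 * -σ = -((s - c) * σ / 2) := by ring
  rw [e3, Real.rpow_neg (by norm_num : (0 : ℝ) ≤ 4), div_inv_eq_mul]
  ring

theorem mul_pow_lint (T : Set ℝ) (hT : MeasurableSet T) (F : ℝ → ℝ≥0∞) (G : ℝ → ℝ) (D : ℝ) (hD : 0 ≤ D)
    (hF : ∀ x ∈ T, F x ≤ ENNReal.ofReal (D * G x))
    (hfin : ∫⁻ x in T, ENNReal.ofReal (G x) ≠ ∞) : ∫⁻ x in T, F x ≠ ∞ := by
  refine ne_of_lt (lt_of_le_of_lt (setLIntegral_mono' hT hF) ?_)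
  simp only [ENNReal.ofReal_mul hD]
  rw [lintegral_const_mul' _ _ ENNReal.ofReal_ne_top]
  exact ENNReal.mul_lt_top ENNReal.ofReal_lt_top (lt_of_le_of_ne le_top hfin)

/-- the three weight integrals are finite -/
theorem wt_fin (h : Adm s c) {σ : ℝ} (h0 : 0 < σ) (h1 : (s - c + 1) * σ < 2) :
    (∫⁻ x in Ioo 0 (Real.pi / 2), wt s c σ x ^ (2 / (2 - σ)) ≠ ∞) ∧
    (∫⁻ x in Ioo 0 (Real.pi / 2), ENNReal.ofReal (x ^ (-(σ / 2))) * wt s c σ x ≠ ∞) ∧
    (∫⁻ x in Ioo 0 (Real.pi / 2), wt s c σ x ≠ ∞) := by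
  obtain ⟨D, hD, hw⟩ := wt_le h h0
  have hπ := Real.pi_pos
  have e1 := h.e1
  have hσ2 : σ < 2 := by nlinarith
  have h3 : 0 < 2 - σ := by linarith
  refine ⟨?_, ?_, ?_⟩
  · apply mul_pow_lint _ measurableSet_Ioo _ (fun x => x ^ (-((s - c) * σ / 2 * (2 / (2 - σ)))))
      (D ^ (2 / (2 - σ))) (by positivity)
    · intro x hx
      have hx0 := hx.1
      unfold wt
      rw [ENNReal.ofReal_rpow_of_nonneg (by
        have := om_pos s c hx.1 (show x < Real.pi by linarith [hx.2])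
        positivity) (by positivity)]
      apply ENNReal.ofReal_le_ofReal
      calc (om s c x ^ (-σ)) ^ (2 / (2 - σ)) ≤ (D * x ^ (-((s - c) * σ / 2))) ^ (2 / (2 - σ)) := by
            have := om_pos s c hx.1 (show x < Real.pi by linarith [hx.2])
            apply Real.rpow_le_rpow (by positivity) (hw x hx) (by positivity)
        _ = _ := by
            rw [Real.mul_rpow hD.le (by positivity), ← Real.rpow_mul hx0.le]
            congr 2
            ring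
    · apply rpow_fin _ _ _ (by positivity)
      rw [div_mul_div_comm, div_lt_one (by positivity)]
      nlinarith
  · apply mul_pow_lint _ measurableSet_Ioo _ (fun x => x ^ (-((s - c) * σ / 2 + σ / 2))) D hD.le
    · intro x hx
      have hx0 := hx.1
      unfold wt
      rw [← ENNReal.ofReal_mul (by positivity)]
      apply ENNReal.ofReal_le_ofReal
      calc x ^ (-(σ / 2)) * om s c x ^ (-σ) ≤ x ^ (-(σ / 2)) * (D * x ^ (-((s - c) * σ / 2))) := by
            have := hw x hx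
            gcongr
        _ = D * (x ^ (-((s - c) * σ / 2)) * x ^ (-(σ / 2))) := by ring
        _ = _ := by
            rw [← Real.rpow_add hx0]
            congr 2
            ring
    · apply rpow_fin _ _ _ (by positivity)
      nlinarith
  · apply mul_pow_lint _ measurableSet_Ioo _ (fun x => x ^ (-((s - c) * σ / 2))) D hD.le
    · intro x hx
      unfold wt
      exact ENNReal.ofReal_le_ofReal (hw x hx)
    · apply rpow_fin _ _ _ (by positivity)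
      nlinarith

end Pool.Agent.H72.Is
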