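import Mathlib
import Pool.Agent.H72.Is.J5
set_option autoImplicit false

/-! The estimate on a dyadic shell: assembling the three parts. -/

namespace Pool.Agent.H72.Is

open MeasureTheory Set
open Finset (range)
open scoped ENNReal

variable {s c : ℝ}

/-- the loss and the decay on the shell `2 ^ j < r < 2 ^ (j + 1)` -/
noncomputable def gain (σ : ℝ) (j : ℕ) : ℝ≥0∞ :=
  ENNReal.ofReal ((1 + (j : ℝ)) ^ 9 * ((2 : ℝ) ^ j) ^ (-(σ / 2)))

theorem part0 (h : Adm s c) (g ν : ℕ) (hg : (g : ℝ) * s = 2 * ν) (hg1 : 1 ≤ g) {σ : ℝ} (h0 : 0 < σ)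
    (h1 : (s - c + 1) * σ < 2) : ∃ C : ℝ≥0∞, C ≠ ∞ ∧
    ∀ f : ℝ → ℂ, Continuous f → (∀ x ∈ Icc 0 Real.pi, ‖f x‖ ≤ 1) → ∀ j K : ℕ, K ≤ 16 ^ j →
    ∫⁻ r in Ioo ((2 : ℝ) ^ j) (2 * 2 ^ j), ∫⁻ x in Ioo 0 (Real.pi / 2),
      ‖SE s c g ν f (fun k => (zr s c k x : ℂ)) (range K) r‖ₑ ^ (2 + σ) * wt s c σ x ≤
      C * gain σ j := by
  obtain ⟨C1, hC1, hray⟩ := ray_bds h g ν hg
  obtain ⟨C2, hC2, hfour⟩ := four_bd h g ν hg hg1
  have hfin := (wt_fin h h0 h1).1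
  have e1 := h.e1
  have hσ2 : σ < 2 := by nlinarith
  obtain ⟨I, hI⟩ : ∃ I, I = ∫⁻ x in Ioo 0 (Real.pi / 2), wt s c σ x ^ (2 / (2 - σ)) := ⟨_, rfl⟩
  rw [← hI] at hfin
  refine ⟨ENNReal.ofReal (C1 + C2) * I ^ ((2 - σ) / 2), ?_, fun f hf hf1 j K hK => ?_⟩
  · apply ENNReal.mul_ne_top ENNReal.ofReal_ne_top
    exact ENNReal.rpow_ne_top_of_nonneg (by linarith) hfin
  have hj : (0 : ℝ) ≤ j := Nat.cast_nonneg j
  have hu : Measurable (Function.uncurry fun r x : ℝ =>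
      ‖SE s c g ν f (fun k => (zr s c k x : ℂ)) (range K) r‖ₑ) := by
    have := SE_cont2 (s := s) (c := c) g ν hg f (fun k x => (zr s c k x : ℂ))
      (fun k => Complex.continuous_ofReal.comp (zr_cont k)) (range K)
    exact this.measurable.enorm
  have key := holder2 (Ioo ((2 : ℝ) ^ j) (2 * 2 ^ j)) (Ioo 0 (Real.pi / 2)) measurableSet_Ioo
    (fun r x : ℝ => ‖SE s c g ν f (fun k => (zr s c k x : ℂ)) (range K) r‖ₑ) hu (wt s c σ)
    (wt_meas h σ) σ h0 hσ2 _ _ (fun x hx => (hray f hf hf1 j K hK x hx).1) (hfour f hf hf1 j K hK)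
  refine key.trans ?_
  rw [← hI]
  obtain ⟨R, hR⟩ : ∃ R, R = (2 : ℝ) ^ j := ⟨_, rfl⟩
  have hR0 : 0 < R := by rw [hR]; positivity
  obtain ⟨P, hP⟩ : ∃ P, P = (C1 + C2) * (1 + (j : ℝ)) ^ 9 := ⟨_, rfl⟩
  have hP0 : 0 < P := by rw [hP]; positivity
  have m1 : ENNReal.ofReal (C1 * (1 + (j : ℝ)) ^ 9) ≤ ENNReal.ofReal P := by
    apply ENNReal.ofReal_le_ofReal
    rw [hP]
    gcongr
    linarith
  have m2 : ENNReal.ofReal (C2 * (1 + (j : ℝ)) ^ 9 / 2 ^ j) ≤ ENNReal.ofReal P * ENNReal.ofReal (R⁻¹) := by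
    rw [← ENNReal.ofReal_mul hP0.le]
    apply ENNReal.ofReal_le_ofReal
    rw [← hR, hP, div_eq_mul_inv]
    gcongr
    linarith
  calc (ENNReal.ofReal (C1 * (1 + (j : ℝ)) ^ 9) * I) ^ ((2 - σ) / 2) *
        ENNReal.ofReal (C2 * (1 + (j : ℝ)) ^ 9 / 2 ^ j) ^ (σ / 2)
      ≤ (ENNReal.ofReal P * I) ^ ((2 - σ) / 2) *
          (ENNReal.ofReal P * ENNReal.ofReal (R⁻¹)) ^ (σ / 2) := by gcongr
    _ = (ENNReal.ofReal P ^ ((2 - σ) / 2) * ENNReal.ofReal P ^ (σ / 2)) * I ^ ((2 - σ) / 2) *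
          ENNReal.ofReal (R⁻¹) ^ (σ / 2) := by
        rw [ENNReal.mul_rpow_of_nonneg _ _ (by linarith),
          ENNReal.mul_rpow_of_nonneg _ _ (by positivity)]
        ring
    _ = ENNReal.ofReal P * I ^ ((2 - σ) / 2) * ENNReal.ofReal (R ^ (-(σ / 2))) := by
        rw [← ENNReal.rpow_add_of_nonneg _ _ (by linarith) (by positivity),
          show (2 - σ) / 2 + σ / 2 = 1 by ring, ENNReal.rpow_one,
          ENNReal.ofReal_rpow_of_nonneg (by positivity) (by positivity), Real.inv_rpow hR0.le,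
          Real.rpow_neg hR0.le]
    _ = _ := by
        unfold gain
        rw [← hR, hP, ENNReal.ofReal_mul (by positivity : (0 : ℝ) ≤ C1 + C2),
          ENNReal.ofReal_mul (by positivity : (0 : ℝ) ≤ (1 + (j : ℝ)) ^ 9)]
        ring

theorem part1 (h : Adm s c) (g ν : ℕ) (hg : (g : ℝ) * s = 2 * ν) (hg1 : 1 ≤ g) {σ : ℝ} (h0 : 0 < σ)
    (h1 : (s - c + 1) * σ < 2) : ∃ C : ℝ≥0∞, C ≠ ∞ ∧
    ∀ f : ℝ → ℂ, Continuous f → (∀ x ∈ Icc 0 Real.pi, ‖f x‖ ≤ 1) → ∀ j K : ℕ, K ≤ 16 ^ j →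
    ∫⁻ r in Ioo ((2 : ℝ) ^ j) (2 * 2 ^ j), ∫⁻ x in Ioo 0 (Real.pi / 2),
      ‖SE s c g ν f (fun k => (eta s c k x : ℂ)) (range K) r‖ₑ ^ (2 + σ) * wt s c σ x ≤
      C * gain σ j := by
  obtain ⟨C1, hC1, hray⟩ := ray_bds h g ν hg
  obtain ⟨C2, hC2, hw⟩ := w_pt h g ν hg1
  have hfin := (wt_fin h h0 h1).2.1
  obtain ⟨I, hI⟩ : ∃ I, I = ∫⁻ x in Ioo 0 (Real.pi / 2), ENNReal.ofReal (x ^ (-(σ / 2))) * wt s c σ x :=
    ⟨_, rfl⟩
  rw [← hI] at hfin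
  refine ⟨ENNReal.ofReal C1 * ENNReal.ofReal (C2 ^ (σ / 2)) * I, ?_, fun f hf hf1 j K hK => ?_⟩
  · exact ENNReal.mul_ne_top (ENNReal.mul_ne_top ENNReal.ofReal_ne_top ENNReal.ofReal_ne_top) hfin
  have hj : (0 : ℝ) ≤ j := Nat.cast_nonneg j
  obtain ⟨R, hR⟩ : ∃ R, R = (2 : ℝ) ^ j := ⟨_, rfl⟩
  have hR0 : 0 < R := by rw [hR]; positivity
  have hR1 : 1 ≤ R := by rw [hR]; exact one_le_pow₀ (by norm_num)
  have hu : Measurable (Function.uncurry fun r x : ℝ =>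
      ‖SE s c g ν f (fun k => (eta s c k x : ℂ)) (range K) r‖ₑ) := by
    have := SE_cont2 (s := s) (c := c) g ν hg f (fun k x => (eta s c k x : ℂ))
      (fun k => Complex.continuous_ofReal.comp (eta_cont h k)) (range K)
    exact this.measurable.enorm
  have hYm : Measurable fun x : ℝ => ENNReal.ofReal (C2 ^ (σ / 2) * R ^ (-(σ / 2))) *
      ENNReal.ofReal (x ^ (-(σ / 2))) := by fun_prop
  have key := simple2 (Ioo ((2 : ℝ) ^ j) (2 * 2 ^ j)) (Ioo 0 (Real.pi / 2)) measurableSet_Ioo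
    measurableSet_Ioo
    (fun r x : ℝ => ‖SE s c g ν f (fun k => (eta s c k x : ℂ)) (range K) r‖ₑ) hu (wt s c σ)
    (fun x : ℝ => ENNReal.ofReal (C2 ^ (σ / 2) * R ^ (-(σ / 2))) * ENNReal.ofReal (x ^ (-(σ / 2))))
    (wt_meas h σ) hYm σ h0 _ (fun x hx => (hray f hf hf1 j K hK x hx).2) ?_
  · refine key.trans (le_of_eq ?_)
    have e2 : ∀ x : ℝ, ENNReal.ofReal (C2 ^ (σ / 2) * R ^ (-(σ / 2))) *
        ENNReal.ofReal (x ^ (-(σ / 2))) * wt s c σ x =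
        ENNReal.ofReal (C2 ^ (σ / 2) * R ^ (-(σ / 2))) *
          (ENNReal.ofReal (x ^ (-(σ / 2))) * wt s c σ x) := fun x => by rw [mul_assoc]
    simp only [e2]
    rw [lintegral_const_mul' _ _ ENNReal.ofReal_ne_top, ← hI]
    unfold gain
    rw [← hR, ENNReal.ofReal_mul (by positivity : (0 : ℝ) ≤ C2 ^ (σ / 2)),
      ENNReal.ofReal_mul (by positivity : (0 : ℝ) ≤ C1),
      ENNReal.ofReal_mul (by positivity : (0 : ℝ) ≤ (1 + (j : ℝ)) ^ 9)]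
    ring
  · intro r hr x hx
    have hx0 := hx.1
    rw [← hR] at hr
    have hr0 : 0 < r := lt_trans hR0 hr.1
    have h2 := hw f hf hf1 (range K) r x (hR1.trans hr.1.le) hx.1 hx.2.le
    have h3 : ‖SE s c g ν f (fun k => (eta s c k x : ℂ)) (range K) r‖ₑ ^ σ =
        (ENNReal.ofReal (‖SE s c g ν f (fun k => (eta s c k x : ℂ)) (range K) r‖ ^ 2)) ^ (σ / 2) := by
      rw [← en_two, ← ENNReal.rpow_mul]
      congr 1
      ring
    rw [h3, ← ENNReal.ofReal_mul (by positivity)]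
    calc (ENNReal.ofReal (‖SE s c g ν f (fun k => (eta s c k x : ℂ)) (range K) r‖ ^ 2)) ^ (σ / 2)
        ≤ (ENNReal.ofReal (C2 / (R * x))) ^ (σ / 2) := by
          gcongr
          refine h2.trans ?_
          have := hr.1.le
          gcongr
      _ = _ := by
          rw [ENNReal.ofReal_rpow_of_nonneg (by positivity) (by positivity)]
          congr 1
          rw [Real.div_rpow hC2.le (by positivity), Real.mul_rpow hR0.le hx0.le,
            Real.rpow_neg hR0.le, Real.rpow_neg hx0.le]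
          field_simp

theorem part2 (h : Adm s c) (g ν : ℕ) (hg1 : 1 ≤ g) {σ : ℝ} (h0 : 0 < σ)
    (h1 : (s - c + 1) * σ < 2) : ∃ C : ℝ≥0∞, C ≠ ∞ ∧
    ∀ f : ℝ → ℂ, Continuous f → (∀ x ∈ Icc 0 Real.pi, ‖f x‖ ≤ 1) → ∀ j K : ℕ,
    ∫⁻ r in Ioo ((2 : ℝ) ^ j) (2 * 2 ^ j), ∫⁻ x in Ioo 0 (Real.pi / 2),
      ‖SE s c g ν f (fun k => (ph s c k x : ℂ)) (Finset.Ico (16 ^ j) K) r‖ₑ ^ (2 + σ) * wt s c σ x ≤
      C * gain σ j := by
  obtain ⟨C2, hC2, hw⟩ := tail_pt h g ν hg1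
  have hfin := (wt_fin h h0 h1).2.2
  obtain ⟨I, hI⟩ : ∃ I, I = ∫⁻ x in Ioo 0 (Real.pi / 2), wt s c σ x := ⟨_, rfl⟩
  rw [← hI] at hfin
  refine ⟨ENNReal.ofReal ((4 * C2) ^ (1 + σ / 2)) * I, ?_, fun f hf hf1 j K => ?_⟩
  · exact ENNReal.mul_ne_top ENNReal.ofReal_ne_top hfin
  have hj : (0 : ℝ) ≤ j := Nat.cast_nonneg j
  obtain ⟨R, hR⟩ : ∃ R, R = (2 : ℝ) ^ j := ⟨_, rfl⟩
  have hR0 : 0 < R := by rw [hR]; positivity
  have hR1 : 1 ≤ R := by rw [hR]; exact one_le_pow₀ (by norm_num)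
  have hN : (((16 ^ j : ℕ)) : ℝ) = R ^ 4 := by
    push_cast
    rw [hR, show (16 : ℝ) = 2 ^ 4 by norm_num, ← pow_mul, ← pow_mul, mul_comm 4 j]
  have key := const2 (Ioo ((2 : ℝ) ^ j) (2 * 2 ^ j)) (Ioo 0 (Real.pi / 2)) measurableSet_Ioo
    measurableSet_Ioo
    (fun r x : ℝ => ‖SE s c g ν f (fun k => (ph s c k x : ℂ)) (Finset.Ico (16 ^ j) K) r‖ₑ)
    (wt s c σ) (wt_meas h σ) (2 + σ) (ENNReal.ofReal ((4 * C2) ^ (1 + σ / 2) * R ^ (-(2 + σ)))) ?_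
  · refine key.trans ?_
    rw [← hI, ← hR, Real.volume_Ioo, show 2 * R - R = R by ring]
    unfold gain
    rw [← hR, ENNReal.ofReal_mul (by positivity : (0 : ℝ) ≤ (4 * C2) ^ (1 + σ / 2))]
    have e1 : ENNReal.ofReal R * ENNReal.ofReal (R ^ (-(2 + σ))) ≤
        ENNReal.ofReal ((1 + (j : ℝ)) ^ 9 * R ^ (-(σ / 2))) := by
      rw [← ENNReal.ofReal_mul hR0.le]
      apply ENNReal.ofReal_le_ofReal
      have e2 : R * R ^ (-(2 + σ)) = R ^ (-(1 + σ)) := by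
        nth_rewrite 1 [← Real.rpow_one R]
        rw [← Real.rpow_add hR0]
        congr 1
        ring
      rw [e2]
      calc R ^ (-(1 + σ)) ≤ R ^ (-(σ / 2)) := by
            apply Real.rpow_le_rpow_of_exponent_le hR1
            linarith
        _ = 1 * R ^ (-(σ / 2)) := (one_mul _).symm
        _ ≤ _ := by
            gcongr
            exact one_le_pow₀ (by linarith)
    calc ENNReal.ofReal R * (ENNReal.ofReal ((4 * C2) ^ (1 + σ / 2)) *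
          ENNReal.ofReal (R ^ (-(2 + σ))) * I) =
          ENNReal.ofReal ((4 * C2) ^ (1 + σ / 2)) * I *
            (ENNReal.ofReal R * ENNReal.ofReal (R ^ (-(2 + σ)))) := by ring
      _ ≤ _ := by gcongr
  · intro r hr x hx
    have hx0 := hx.1
    rw [← hR] at hr
    have hr0 : 0 < r := lt_trans hR0 hr.1
    have h2 := hw f hf hf1 (16 ^ j) K r x (Nat.one_le_pow _ _ (by norm_num)) hr0.le hx.1 hx.2.le
    rw [hN] at h2
    have h3 : ‖SE s c g ν f (fun k => (ph s c k x : ℂ)) (Finset.Ico (16 ^ j) K) r‖ₑ ^ (2 + σ) =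
        (ENNReal.ofReal (‖SE s c g ν f (fun k => (ph s c k x : ℂ)) (Finset.Ico (16 ^ j) K) r‖ ^ 2)) ^
          (1 + σ / 2) := by
      rw [← en_two, ← ENNReal.rpow_mul]
      congr 1
      ring
    rw [h3]
    have h4 : ‖SE s c g ν f (fun k => (ph s c k x : ℂ)) (Finset.Ico (16 ^ j) K) r‖ ^ 2 ≤
        4 * C2 * R ^ (-2 : ℝ) := by
      refine h2.trans ?_
      have e : R ^ (-2 : ℝ) = (R ^ 2)⁻¹ := by
        rw [Real.rpow_neg hR0.le]
        norm_num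
      rw [e]
      have h5 : r ^ 2 ≤ (2 * R) ^ 2 := by
        have := hr.2.le
        gcongr
      calc C2 * r ^ 2 / R ^ 4 ≤ C2 * (2 * R) ^ 2 / R ^ 4 := by gcongr
        _ = _ := by
            field_simp
            norm_num
    calc _ ≤ (ENNReal.ofReal (4 * C2 * R ^ (-2 : ℝ))) ^ (1 + σ / 2) := by gcongr
      _ = _ := by
          rw [ENNReal.ofReal_rpow_of_nonneg (by positivity) (by positivity)]
          congr 1
          rw [Real.mul_rpow (by positivity) (by positivity), ← Real.rpow_mul hR0.le]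
          congr 2
          ring

/-- the estimate on half of a shell -/
theorem half_shell (h : Adm s c) (g ν : ℕ) (hg : (g : ℝ) * s = 2 * ν) (hg1 : 1 ≤ g) {σ : ℝ}
    (h0 : 0 < σ) (h1 : (s - c + 1) * σ < 2) : ∃ C : ℝ≥0∞, C ≠ ∞ ∧
    ∀ f : ℝ → ℂ, Continuous f → (∀ x ∈ Icc 0 Real.pi, ‖f x‖ ≤ 1) → ∀ j K : ℕ,
    ∫⁻ r in Ioo ((2 : ℝ) ^ j) (2 * 2 ^ j), ∫⁻ x in Ioo 0 (Real.pi / 2),
      ‖SE s c g ν f (fun k => (ph s c k x : ℂ)) (range K) r‖ₑ ^ (2 + σ) * wt s c σ x ≤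
      C * gain σ j := by
  obtain ⟨A0, hA0, p0⟩ := part0 h g ν hg hg1 h0 h1
  obtain ⟨A1, hA1, p1⟩ := part1 h g ν hg hg1 h0 h1
  obtain ⟨A2, hA2, p2⟩ := part2 h g ν hg1 h0 h1
  have e1 := h.e1
  have hσ2 : σ < 2 := by nlinarith
  obtain ⟨B, hB⟩ : ∃ B : ℝ≥0∞, B = 2 ^ (2 + σ - 1) * 2 ^ (2 + σ - 1) := ⟨_, rfl⟩
  have hBt : B ≠ ∞ := by
    rw [hB]
    exact ENNReal.mul_ne_top (ENNReal.rpow_ne_top_of_nonneg (by linarith) (by norm_num))
      (ENNReal.rpow_ne_top_of_nonneg (by linarith) (by norm_num))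
  refine ⟨B * (A0 + A1 + A2), ENNReal.mul_ne_top hBt (by simp [hA0, hA1, hA2]),
    fun f hf hf1 j K => ?_⟩
  obtain ⟨K', hK'⟩ : ∃ K', K' = min K (16 ^ j) := ⟨_, rfl⟩
  have hK16 : K' ≤ 16 ^ j := by rw [hK']; exact min_le_right _ _
  have hsum : ∀ r x : ℝ, SE s c g ν f (fun k => (ph s c k x : ℂ)) (range K) r =
      SE s c g ν f (fun k => (zr s c k x : ℂ)) (range K') r +
      SE s c g ν f (fun k => (eta s c k x : ℂ)) (range K') r +
      SE s c g ν f (fun k => (ph s c k x : ℂ)) (Finset.Ico (16 ^ j) K) r := by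
    intro r x
    rw [← SE_split]
    unfold SE
    rcases le_total K (16 ^ j) with hK | hK
    · rw [hK', min_eq_left hK, Finset.Ico_eq_empty (by omega), Finset.sum_empty, add_zero]
    · rw [hK', min_eq_right hK, Finset.sum_range_add_sum_Ico _ hK]
  have q0 := p0 f hf hf1 j K' hK16
  have q1 := p1 f hf hf1 j K' hK16
  have q2 := p2 f hf hf1 j K
  obtain ⟨F0, hF0⟩ : ∃ F : ℝ → ℝ → ℝ≥0∞, F = fun r x =>
    ‖SE s c g ν f (fun k => (zr s c k x : ℂ)) (range K') r‖ₑ ^ (2 + σ) * wt s c σ x := ⟨_, rfl⟩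
  obtain ⟨F1, hF1⟩ : ∃ F : ℝ → ℝ → ℝ≥0∞, F = fun r x =>
    ‖SE s c g ν f (fun k => (eta s c k x : ℂ)) (range K') r‖ₑ ^ (2 + σ) * wt s c σ x := ⟨_, rfl⟩
  obtain ⟨F2, hF2⟩ : ∃ F : ℝ → ℝ → ℝ≥0∞, F = fun r x =>
    ‖SE s c g ν f (fun k => (ph s c k x : ℂ)) (Finset.Ico (16 ^ j) K) r‖ₑ ^ (2 + σ) * wt s c σ x :=
      ⟨_, rfl⟩
  have hwm : Measurable fun p : ℝ × ℝ => wt s c σ p.2 := (wt_meas h σ).comp measurable_snd
  have m1 : Measurable (Function.uncurry F1) := by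
    have := (SE_cont2 (s := s) (c := c) g ν hg f (fun k x => (eta s c k x : ℂ))
      (fun k => Complex.continuous_ofReal.comp (eta_cont h k)) (range K')).measurable.enorm
    rw [hF1]
    exact (this.pow_const (2 + σ)).mul hwm
  have m2 : Measurable (Function.uncurry F2) := by
    have := (SE_cont2 (s := s) (c := c) g ν hg f (fun k x => (ph s c k x : ℂ))
      (fun k => Complex.continuous_ofReal.comp (ph_cont h k)) (Finset.Ico (16 ^ j) K)).measurable.enorm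
    rw [hF2]
    exact (this.pow_const (2 + σ)).mul hwm
  have hpt : ∀ r x : ℝ, ‖SE s c g ν f (fun k => (ph s c k x : ℂ)) (range K) r‖ₑ ^ (2 + σ) *
      wt s c σ x ≤ B * (F0 r x + F1 r x + F2 r x) := by
    intro r x
    rw [hsum, hF0, hF1, hF2, hB]
    simp only
    rw [← add_mul, ← add_mul, ← mul_assoc]
    gcongr
    refine le_trans ?_ (three_pow _ _ _ _ (by linarith))
    gcongr
    refine (enorm_add_le _ _).trans ?_
    gcongr
    exact enorm_add_le _ _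
  have n1 : Measurable fun r => ∫⁻ x in Ioo 0 (Real.pi / 2), F1 r x := m1.lintegral_prod_right'
  have n2 : Measurable fun r => ∫⁻ x in Ioo 0 (Real.pi / 2), F2 r x := m2.lintegral_prod_right'
  have m1' : ∀ r, Measurable (F1 r) := fun r => m1.comp (measurable_const.prodMk measurable_id)
  have m2' : ∀ r, Measurable (F2 r) := fun r => m2.comp (measurable_const.prodMk measurable_id)
  rw [show (fun r : ℝ => ∫⁻ x in Ioo 0 (Real.pi / 2),
    ‖SE s c g ν f (fun k => (zr s c k x : ℂ)) (range K') r‖ₑ ^ (2 + σ) * wt s c σ x) =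
    fun r => ∫⁻ x in Ioo 0 (Real.pi / 2), F0 r x by rw [hF0]] at q0
  rw [show (fun r : ℝ => ∫⁻ x in Ioo 0 (Real.pi / 2),
    ‖SE s c g ν f (fun k => (eta s c k x : ℂ)) (range K') r‖ₑ ^ (2 + σ) * wt s c σ x) =
    fun r => ∫⁻ x in Ioo 0 (Real.pi / 2), F1 r x by rw [hF1]] at q1
  rw [show (fun r : ℝ => ∫⁻ x in Ioo 0 (Real.pi / 2),
    ‖SE s c g ν f (fun k => (ph s c k x : ℂ)) (Finset.Ico (16 ^ j) K) r‖ₑ ^ (2 + σ) * wt s c σ x) =
    fun r => ∫⁻ x in Ioo 0 (Real.pi / 2), F2 r x by rw [hF2]] at q2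
  calc ∫⁻ r in Ioo ((2 : ℝ) ^ j) (2 * 2 ^ j), ∫⁻ x in Ioo 0 (Real.pi / 2),
        ‖SE s c g ν f (fun k => (ph s c k x : ℂ)) (range K) r‖ₑ ^ (2 + σ) * wt s c σ x
      ≤ ∫⁻ r in Ioo ((2 : ℝ) ^ j) (2 * 2 ^ j), B * ((∫⁻ x in Ioo 0 (Real.pi / 2), F0 r x) +
          (∫⁻ x in Ioo 0 (Real.pi / 2), F1 r x) + ∫⁻ x in Ioo 0 (Real.pi / 2), F2 r x) := by
        apply lintegral_mono
        intro r
        refine (lintegral_mono fun x => hpt r x).trans (le_of_eq ?_)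
        rw [lintegral_const_mul' _ _ hBt, lintegral_add_right _ (m2' r),
          lintegral_add_right _ (m1' r)]
    _ = B * ((∫⁻ r in Ioo ((2 : ℝ) ^ j) (2 * 2 ^ j), ∫⁻ x in Ioo 0 (Real.pi / 2), F0 r x) +
          (∫⁻ r in Ioo ((2 : ℝ) ^ j) (2 * 2 ^ j), ∫⁻ x in Ioo 0 (Real.pi / 2), F1 r x) +
          ∫⁻ r in Ioo ((2 : ℝ) ^ j) (2 * 2 ^ j), ∫⁻ x in Ioo 0 (Real.pi / 2), F2 r x) := by
        rw [lintegral_const_mul' _ _ hBt, lintegral_add_right _ n2, lintegral_add_right _ n1]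
    _ ≤ B * (A0 * gain σ j + A1 * gain σ j + A2 * gain σ j) := by gcongr
    _ = _ := by ring

end Pool.Agent.H72.Is
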