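import Mathlib
import Pool.Agent.H72.Is.J6
set_option autoImplicit false

/-! The one dimensional estimate. -/

namespace Pool.Agent.H72.Is

open MeasureTheory Set
open Finset (range)
open scoped ENNReal

variable {s c : ℝ}

theorem SE_refl (g ν : ℕ) (f : ℝ → ℂ) (S : Finset ℕ) (r x : ℝ) :
    SE s c g ν f (fun k => (ph s c k (Real.pi - x) : ℂ)) S r =
      SE s (-c) g ν (fun x => f (Real.pi - x)) (fun k => (ph s (-c) k x : ℂ)) S r := by
  unfold SE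
  apply Finset.sum_congr rfl
  intro k _
  beta_reduce
  rw [co_refl, ph_refl]
  push_cast
  ring

theorem wt_refl (σ x : ℝ) : wt s c σ (Real.pi - x) = wt s (-c) σ x := by
  unfold wt
  rw [om_refl]

/-- the estimate on a full shell -/
theorem shell (h : Adm s c) (g ν : ℕ) (hg : (g : ℝ) * s = 2 * ν) (hg1 : 1 ≤ g) {σ : ℝ}
    (h0 : 0 < σ) (h1 : (s - c + 1) * σ < 2) (h2 : (s + c + 1) * σ < 2) : ∃ C : ℝ≥0∞, C ≠ ∞ ∧
    ∀ f : ℝ → ℂ, Continuous f → (∀ x ∈ Icc 0 Real.pi, ‖f x‖ ≤ 1) → ∀ j K : ℕ,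
    ∫⁻ r in Ioo ((2 : ℝ) ^ j) (2 * 2 ^ j), ∫⁻ x in Ioo 0 Real.pi,
      ‖SE s c g ν f (fun k => (ph s c k x : ℂ)) (range K) r‖ₑ ^ (2 + σ) * wt s c σ x ≤
      C * gain σ j := by
  obtain ⟨A0, hA0, p0⟩ := half_shell h g ν hg hg1 h0 h1
  obtain ⟨A1, hA1, p1⟩ := half_shell h.neg g ν hg hg1 h0 (by rw [sub_neg_eq_add]; exact h2)
  refine ⟨A0 + A1, by simp [hA0, hA1], fun f hf hf1 j K => ?_⟩
  have hπ := Real.pi_pos
  have q0 := p0 f hf hf1 j K
  have q1 := p1 (fun x => f (Real.pi - x)) (hf.comp (by fun_prop)) (fun x hx => by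
    apply hf1
    exact ⟨by linarith [hx.2], by linarith [hx.1]⟩) j K
  have hm : Measurable (Function.uncurry fun r x : ℝ =>
      ‖SE s c g ν f (fun k => (ph s c k x : ℂ)) (range K) r‖ₑ ^ (2 + σ) * wt s c σ x) := by
    have := (SE_cont2 (s := s) (c := c) g ν hg f (fun k x => (ph s c k x : ℂ))
      (fun k => Complex.continuous_ofReal.comp (ph_cont h k)) (range K)).measurable.enorm
    exact (this.pow_const (2 + σ)).mul ((wt_meas h σ).comp measurable_snd)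
  have hpt : ∀ r : ℝ, ∫⁻ x in Ioo 0 Real.pi,
      ‖SE s c g ν f (fun k => (ph s c k x : ℂ)) (range K) r‖ₑ ^ (2 + σ) * wt s c σ x ≤
      (∫⁻ x in Ioo 0 (Real.pi / 2),
        ‖SE s c g ν f (fun k => (ph s c k x : ℂ)) (range K) r‖ₑ ^ (2 + σ) * wt s c σ x) +
      ∫⁻ x in Ioo 0 (Real.pi / 2),
        ‖SE s (-c) g ν (fun x => f (Real.pi - x)) (fun k => (ph s (-c) k x : ℂ)) (range K) r‖ₑ ^
          (2 + σ) * wt s (-c) σ x := by
    intro r
    obtain ⟨G, hG⟩ : ∃ G : ℝ → ℝ≥0∞, G = fun x =>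
      ‖SE s c g ν f (fun k => (ph s c k x : ℂ)) (range K) r‖ₑ ^ (2 + σ) * wt s c σ x := ⟨_, rfl⟩
    have e1 : ∀ x, ‖SE s (-c) g ν (fun x => f (Real.pi - x)) (fun k => (ph s (-c) k x : ℂ))
        (range K) r‖ₑ ^ (2 + σ) * wt s (-c) σ x = G (Real.pi - x) := by
      intro x
      rw [hG, ← SE_refl, ← wt_refl]
    have e0 : (fun x => ‖SE s c g ν f (fun k => (ph s c k x : ℂ)) (range K) r‖ₑ ^ (2 + σ) *
      wt s c σ x) = G := hG.symm
    simp only [e1]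
    rw [e0]
    have e2 : Ioo 0 Real.pi ⊆ Ioc 0 (Real.pi / 2) ∪ Ioo (Real.pi / 2) Real.pi := by
      intro x hx
      rcases le_or_gt x (Real.pi / 2) with h | h
      · exact Or.inl ⟨hx.1, h⟩
      · exact Or.inr ⟨h, hx.2⟩
    refine (lintegral_mono_set e2).trans ((lintegral_union_le _ _ _).trans ?_)
    gcongr ?_ + ?_
    · rw [setLIntegral_congr (Ioo_ae_eq_Ioc (a := (0 : ℝ)) (b := Real.pi / 2)).symm]
    · rw [← lintegral_indicator measurableSet_Ioo, ← lintegral_indicator measurableSet_Ioo,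
        ← lintegral_sub_left_eq_self _ Real.pi]
      apply lintegral_mono
      intro x
      simp only
      by_cases hx : Real.pi - x ∈ Ioo (Real.pi / 2) Real.pi
      · have hx' : x ∈ Ioo 0 (Real.pi / 2) := ⟨by linarith [hx.2], by linarith [hx.1]⟩
        rw [indicator_of_mem hx, indicator_of_mem hx']
      · rw [indicator_of_notMem hx]
        exact zero_le
  have hm2 : Measurable fun r => ∫⁻ x in Ioo 0 (Real.pi / 2),
      ‖SE s c g ν f (fun k => (ph s c k x : ℂ)) (range K) r‖ₑ ^ (2 + σ) * wt s c σ x :=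
    hm.lintegral_prod_right'
  calc _ ≤ ∫⁻ r in Ioo ((2 : ℝ) ^ j) (2 * 2 ^ j), ((∫⁻ x in Ioo 0 (Real.pi / 2),
        ‖SE s c g ν f (fun k => (ph s c k x : ℂ)) (range K) r‖ₑ ^ (2 + σ) * wt s c σ x) +
      ∫⁻ x in Ioo 0 (Real.pi / 2),
        ‖SE s (-c) g ν (fun x => f (Real.pi - x)) (fun k => (ph s (-c) k x : ℂ)) (range K) r‖ₑ ^
          (2 + σ) * wt s (-c) σ x) := lintegral_mono fun r => hpt r
    _ = _ := lintegral_add_left hm2 _
    _ ≤ A0 * gain σ j + A1 * gain σ j := by gcongr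
    _ = _ := by ring

theorem gain_sum {σ e : ℝ} (he : e < σ / 2) :
    ∑' j : ℕ, gain σ j * ENNReal.ofReal (((2 : ℝ) ^ j) ^ e) ≠ ∞ := by
  obtain ⟨ρ, hρ⟩ : ∃ ρ, ρ = (2 : ℝ) ^ (e - σ / 2) := ⟨_, rfl⟩
  have hρ0 : 0 < ρ := by rw [hρ]; positivity
  have hρ1 : ρ < 1 := by
    rw [hρ]
    exact Real.rpow_lt_one_of_one_lt_of_neg (by norm_num) (by linarith)
  have hterm : ∀ j : ℕ, gain σ j * ENNReal.ofReal (((2 : ℝ) ^ j) ^ e) =
      ENNReal.ofReal ((1 + (j : ℝ)) ^ 9 * ρ ^ j) := by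
    intro j
    unfold gain
    rw [← ENNReal.ofReal_mul (by positivity), mul_assoc, ← Real.rpow_add (by positivity)]
    congr 2
    rw [hρ, ← Real.rpow_natCast 2 j, ← Real.rpow_mul (by norm_num), ← Real.rpow_natCast,
      ← Real.rpow_mul (by norm_num)]
    congr 1
    ring
  simp only [hterm]
  have hs : Summable fun j : ℕ => (1 + (j : ℝ)) ^ 9 * ρ ^ j := by
    have h1 := summable_pow_mul_geometric_of_norm_lt_one 9 (r := ρ) (by
      rw [Real.norm_eq_abs, abs_of_pos hρ0]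
      exact hρ1)
    have h2 := (summable_nat_add_iff 1).2 h1
    have h3 := h2.mul_left ρ⁻¹
    refine h3.congr fun j => ?_
    push_cast
    rw [pow_succ]
    field_simp
    ring
  rw [← ENNReal.ofReal_tsum_of_nonneg (fun j => by positivity) hs]
  exact ENNReal.ofReal_ne_top

/-- the estimate for all `r > 1` -/
theorem all_r (h : Adm s c) (g ν : ℕ) (hg : (g : ℝ) * s = 2 * ν) (hg1 : 1 ≤ g) {σ : ℝ}
    (h0 : 0 < σ) (h1 : (s - c + 1) * σ < 2) (h2 : (s + c + 1) * σ < 2)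
    (h3 : 2 < (2 * (ν : ℝ) + 1) * σ) : ∃ C : ℝ≥0∞, C ≠ ∞ ∧
    ∀ f : ℝ → ℂ, Continuous f → (∀ x ∈ Icc 0 Real.pi, ‖f x‖ ≤ 1) → ∀ K : ℕ,
    ∫⁻ r in Ioi (1 : ℝ), (∫⁻ x in Ioo 0 Real.pi,
      ‖SE s c g ν f (fun k => (ph s c k x : ℂ)) (range K) r‖ₑ ^ (2 + σ) * wt s c σ x) *
        ENNReal.ofReal (r ^ (1 - ν * σ)) ≤ C := by
  obtain ⟨A, hA, p⟩ := shell h g ν hg hg1 h0 h1 h2
  obtain ⟨e, he⟩ : ∃ e : ℝ, e = 1 - ν * σ := ⟨_, rfl⟩
  have hsum := gain_sum (σ := σ) (e := e) (by rw [he]; linarith)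
  refine ⟨ENNReal.ofReal (2 ^ |e|) * (A * ∑' j : ℕ, gain σ j * ENNReal.ofReal (((2 : ℝ) ^ j) ^ e)),
    ?_, fun f hf hf1 K => ?_⟩
  · exact ENNReal.mul_ne_top ENNReal.ofReal_ne_top (ENNReal.mul_ne_top hA hsum)
  rw [← he]
  obtain ⟨G, hG⟩ : ∃ G : ℝ → ℝ≥0∞, G = fun r => ∫⁻ x in Ioo 0 Real.pi,
      ‖SE s c g ν f (fun k => (ph s c k x : ℂ)) (range K) r‖ₑ ^ (2 + σ) * wt s c σ x := ⟨_, rfl⟩
  have e0 : (fun r => (∫⁻ x in Ioo 0 Real.pi,
      ‖SE s c g ν f (fun k => (ph s c k x : ℂ)) (range K) r‖ₑ ^ (2 + σ) * wt s c σ x) *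
        ENNReal.ofReal (r ^ e)) = fun r => G r * ENNReal.ofReal (r ^ e) := by rw [hG]
  rw [e0]
  have hcov : Ioi (1 : ℝ) ⊆ ⋃ j : ℕ, Ioc ((2 : ℝ) ^ j) (2 * 2 ^ j) := by
    intro r hr
    have hr' : (1 : ℝ) < r := hr
    obtain ⟨j, hj1, hj2⟩ := exists_nat_pow_near hr'.le (show (1 : ℝ) < 2 by norm_num)
    rcases lt_or_eq_of_le hj1 with hlt | heq
    · exact mem_iUnion.2 ⟨j, hlt, by rw [pow_succ] at hj2; linarith⟩
    · rcases j with _ | j
      · rw [pow_zero] at heq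
        exact absurd heq (ne_of_lt hr')
      · refine mem_iUnion.2 ⟨j, ?_, ?_⟩
        · rw [← heq]
          exact pow_lt_pow_right₀ (by norm_num) (by omega)
        · rw [← heq, pow_succ]
          linarith
  have hshell : ∀ j : ℕ, ∫⁻ r in Ioc ((2 : ℝ) ^ j) (2 * 2 ^ j), G r * ENNReal.ofReal (r ^ e) ≤
      ENNReal.ofReal (2 ^ |e|) * (A * (gain σ j * ENNReal.ofReal (((2 : ℝ) ^ j) ^ e))) := by
    intro j
    obtain ⟨R, hR⟩ : ∃ R, R = (2 : ℝ) ^ j := ⟨_, rfl⟩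
    have hR0 : 0 < R := by rw [hR]; positivity
    rw [setLIntegral_congr (Ioo_ae_eq_Ioc (a := (2 : ℝ) ^ j) (b := 2 * 2 ^ j)).symm]
    calc ∫⁻ r in Ioo ((2 : ℝ) ^ j) (2 * 2 ^ j), G r * ENNReal.ofReal (r ^ e)
        ≤ ∫⁻ r in Ioo ((2 : ℝ) ^ j) (2 * 2 ^ j), G r * ENNReal.ofReal (2 ^ |e| * R ^ e) := by
          apply setLIntegral_mono' measurableSet_Ioo
          intro r hr
          rw [← hR] at hr
          gcongr
          have hr0 : 0 < r := lt_trans hR0 hr.1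
          rcases le_total 0 e with he0 | he0
          · rw [abs_of_nonneg he0, ← Real.mul_rpow (by norm_num) hR0.le]
            exact Real.rpow_le_rpow hr0.le hr.2.le he0
          · have h4 : r ^ e ≤ R ^ e := Real.rpow_le_rpow_of_nonpos hR0 hr.1.le he0
            refine h4.trans ?_
            have h5 : (1 : ℝ) ≤ 2 ^ |e| := Real.one_le_rpow (by norm_num) (abs_nonneg e)
            have h6 : 0 < R ^ e := by positivity
            nlinarith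
      _ = (∫⁻ r in Ioo ((2 : ℝ) ^ j) (2 * 2 ^ j), G r) * ENNReal.ofReal (2 ^ |e| * R ^ e) := by
          rw [lintegral_mul_const' _ _ ENNReal.ofReal_ne_top]
      _ ≤ (A * gain σ j) * ENNReal.ofReal (2 ^ |e| * R ^ e) := by
          gcongr
          rw [hG]
          exact p f hf hf1 j K
      _ = _ := by
          rw [ENNReal.ofReal_mul (by positivity), ← hR]
          ring
  calc ∫⁻ r in Ioi (1 : ℝ), G r * ENNReal.ofReal (r ^ e)
      ≤ ∫⁻ r in ⋃ j : ℕ, Ioc ((2 : ℝ) ^ j) (2 * 2 ^ j), G r * ENNReal.ofReal (r ^ e) :=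
        lintegral_mono_set hcov
    _ ≤ ∑' j : ℕ, ∫⁻ r in Ioc ((2 : ℝ) ^ j) (2 * 2 ^ j), G r * ENNReal.ofReal (r ^ e) :=
        lintegral_iUnion_le _ _
    _ ≤ ∑' j : ℕ, ENNReal.ofReal (2 ^ |e|) * (A * (gain σ j * ENNReal.ofReal (((2 : ℝ) ^ j) ^ e))) :=
        ENNReal.tsum_le_tsum hshell
    _ = _ := by rw [ENNReal.tsum_mul_left, ENNReal.tsum_mul_left]

end Pool.Agent.H72.Is
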