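import Mathlib
import Pool.Agent.H72.Co.C2
import Pool.Agent.H72.Is.I1
set_option autoImplicit false

/-! Harmonic polynomials of an isoparametric function. -/

open MeasureTheory Set Metric
open scoped ENNReal RealInnerProductSpace

namespace Pool.Agent.H72.Is

open MvPolynomial (pderiv)
open Pool.Agent.H789R2.FR (E sg T sg_finite)
open Pool.Agent.W5h55.SH
open Pool.Agent.H72.Co

variable {n : ℕ}

/-- real scalars -/
noncomputable def cr (n : ℕ) : ℝ →+* MvPolynomial (Fin n) ℂ :=
  (MvPolynomial.C : ℂ →+* MvPolynomial (Fin n) ℂ).comp Complex.ofRealHom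

theorem cr_apply (x : ℝ) : cr n x = MvPolynomial.C (x : ℂ) := rfl

/-- the gradient pairing -/
noncomputable def Gr (p q : MvPolynomial (Fin n) ℂ) : MvPolynomial (Fin n) ℂ :=
  ∑ i, pderiv i p * pderiv i q

theorem Gr_mul (p a b : MvPolynomial (Fin n) ℂ) : Gr p (a * b) = a * Gr p b + b * Gr p a := by
  unfold Gr
  rw [Finset.mul_sum, Finset.mul_sum, ← Finset.sum_add_distrib]
  apply Finset.sum_congr rfl
  intro i _
  rw [Derivation.leibniz, smul_eq_mul, smul_eq_mul]
  ring

theorem Gr_sub (p a b : MvPolynomial (Fin n) ℂ) : Gr p (a - b) = Gr p a - Gr p b := by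
  unfold Gr
  rw [← Finset.sum_sub_distrib]
  apply Finset.sum_congr rfl
  intro i _
  rw [map_sub]
  ring

theorem Gr_cr (p : MvPolynomial (Fin n) ℂ) (x : ℝ) : Gr p (cr n x) = 0 := by
  unfold Gr
  apply Finset.sum_eq_zero
  intro i _
  rw [cr_apply, MvPolynomial.pderiv_C, mul_zero]

theorem Gr_one (p : MvPolynomial (Fin n) ℂ) : Gr p 1 = 0 := by
  have := Gr_cr p 1
  rwa [map_one] at this

theorem lap_mul (a b : MvPolynomial (Fin n) ℂ) : lap (a * b) = a * lap b + b * lap a + 2 * Gr a b := by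
  unfold lap Gr
  rw [Finset.mul_sum, Finset.mul_sum, Finset.mul_sum, ← Finset.sum_add_distrib,
    ← Finset.sum_add_distrib]
  apply Finset.sum_congr rfl
  intro i _
  simp only [Derivation.leibniz, smul_eq_mul, map_add]
  ring

theorem lap_cr (x : ℝ) (q : MvPolynomial (Fin n) ℂ) : lap (cr n x * q) = cr n x * lap q :=
  lap_C _ _

theorem Gr_rho {g : ℕ} {P : MvPolynomial (Fin n) ℂ} (hP : P.IsHomogeneous g) :
    Gr P (rho n) = cr n (2 * g) * P := by
  unfold Gr
  have h1 : ∀ i, pderiv i P * pderiv i (rho n) = 2 * (MvPolynomial.X i * pderiv i P) := by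
    intro i
    rw [pd_rho]
    ring
  rw [Finset.sum_congr rfl fun i _ => h1 i, ← Finset.mul_sum, hP.sum_X_mul_pderiv]
  rw [cr_apply]
  push_cast
  simp only [map_mul, map_natCast, map_ofNat, nsmul_eq_mul]
  ring

theorem Gr_rho_pow {g : ℕ} {P : MvPolynomial (Fin n) ℂ} (hP : P.IsHomogeneous g) (j : ℕ) :
    Gr P (rho n ^ (j + 1)) = cr n (2 * (j + 1) * g) * (rho n ^ j * P) := by
  induction j with
  | zero =>
    rw [zero_add, pow_one, Gr_rho hP]
    simp
  | succ j ih =>
    rw [pow_succ, Gr_mul, ih, Gr_rho hP]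
    have e : cr n (2 * (((j + 1 : ℕ) : ℝ) + 1) * g) = cr n (2 * g) + cr n (2 * (j + 1) * g) := by
      rw [← map_add]
      congr 1
      push_cast
      ring
    rw [e]
    ring

theorem lap_rho_pow {d : ℕ} {Y : MvPolynomial (Fin n) ℂ} (hY : Y.IsHomogeneous d)
    (hl : lap Y = 0) (j : ℕ) :
    lap (rho n ^ (j + 1) * Y) = cr n (2 * (j + 1) * (n + 2 * j + 2 * d)) * (rho n ^ j * Y) := by
  induction j with
  | zero =>
    rw [zero_add, pow_one, lap_rho hY, hl, cr_apply]
    push_cast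
    simp only [map_mul, map_natCast, map_ofNat, map_add, map_zero, map_one]
    ring
  | succ j ih =>
    have hh : (rho n ^ (j + 1) * Y).IsHomogeneous (2 * (j + 1) + d) := ((rho_hom n).pow _).mul hY
    have e1 : rho n ^ (j + 1 + 1) * Y = rho n * (rho n ^ (j + 1) * Y) := by ring
    rw [e1, lap_rho hh, ih]
    have e2 : (MvPolynomial.C ((2 * n + 4 * (2 * (j + 1) + d) : ℕ) : ℂ) : MvPolynomial (Fin n) ℂ) =
        cr n (2 * n + 4 * (2 * (j + 1) + d)) := by
      rw [cr_apply]
      push_cast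
      rfl
    have e3 : cr n (2 * (((j + 1 : ℕ) : ℝ) + 1) * (n + 2 * ((j + 1 : ℕ) : ℝ) + 2 * d)) =
        cr n (2 * (j + 1) * (n + 2 * j + 2 * d)) + cr n (2 * n + 4 * (2 * (j + 1) + d)) := by
      rw [← map_add]
      congr 1
      push_cast
      ring
    rw [e2, e3]
    ring

/-- The equations of Cartan and Münzner. The parameters are `s = (a + b) / 2`, `c = (b - a) / 2`. -/
structure Iso (n g : ℕ) (s c : ℝ) (P : MvPolynomial (Fin n) ℂ) : Prop where
  two : 2 ≤ g
  adm : Adm s c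
  hom : P.IsHomogeneous g
  par : c = 0 ∨ Even g
  grad : Gr P P = cr n (g ^ 2) * rho n ^ (g - 1)
  lapl : lap P = cr n (g ^ 2 * c) * rho n ^ (g / 2 - 1)
  dim : (g : ℝ) * s = n - 2

/-- the harmonic polynomials -/
noncomputable def YY (g : ℕ) (s c : ℝ) (P : MvPolynomial (Fin n) ℂ) : ℕ → MvPolynomial (Fin n) ℂ
  | 0 => 1
  | 1 => P - cr n (bb s c 0) * rho n ^ (g / 2)
  | (k + 2) => (P - cr n (bb s c (k + 1)) * rho n ^ (g / 2)) * YY g s c P (k + 1) -
      cr n (AA s c (k + 1)) * (rho n ^ g * YY g s c P k)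

variable {g : ℕ} {s c : ℝ} {P : MvPolynomial (Fin n) ℂ}

theorem YY_zero : YY g s c P 0 = 1 := rfl

theorem YY_one : YY g s c P 1 = P - cr n (bb s c 0) * rho n ^ (g / 2) := rfl

theorem YY_rec (k : ℕ) : YY g s c P (k + 2) =
    (P - cr n (bb s c (k + 1)) * rho n ^ (g / 2)) * YY g s c P (k + 1) -
      cr n (AA s c (k + 1)) * (rho n ^ g * YY g s c P k) := by
  rw [YY]

theorem uu_c0 (k : ℕ) (hc : c = 0) : uu s c k = 0 := by
  unfold uu
  rw [hc]
  simp

theorem bb_c0 (k : ℕ) (hc : c = 0) : bb s c k = 0 := by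
  unfold bb
  rw [uu_c0 k hc, uu_c0 (k + 1) hc, sub_zero]

theorem Iso.half (h : Iso n g s c P) : 1 ≤ g / 2 := by
  have := h.two
  omega

/-- `b (P - b rho^m)` is homogeneous in all cases -/
theorem Iso.lin_hom (h : Iso n g s c P) (k : ℕ) :
    (P - cr n (bb s c k) * rho n ^ (g / 2)).IsHomogeneous g := by
  rcases h.par with hc | hg
  · rw [bb_c0 k hc, map_zero, zero_mul, sub_zero]
    exact h.hom
  · refine h.hom.sub ?_
    have h1 := (rho_hom n).pow (g / 2)
    have h2 : 2 * (g / 2) = g := Nat.two_mul_div_two_of_even hg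
    rw [h2] at h1
    have h3 := (MvPolynomial.isHomogeneous_C (Fin n) ((bb s c k : ℝ) : ℂ)).mul h1
    rw [zero_add] at h3
    exact h3

theorem Iso.Y_hom (h : Iso n g s c P) : ∀ k, (YY g s c P k).IsHomogeneous (g * k) := by
  intro k
  induction k using Nat.strong_induction_on with
  | _ k ih =>
    match k, ih with
    | 0, _ =>
      rw [YY_zero, mul_zero]
      exact MvPolynomial.isHomogeneous_one _ _
    | 1, _ =>
      rw [YY_one, mul_one]
      exact h.lin_hom 0
    | (k + 2), ih =>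
      have h1 := ih (k + 1) (by omega)
      have h0 := ih k (by omega)
      rw [YY_rec]
      refine MvPolynomial.IsHomogeneous.sub ?_ ?_
      · have := (h.lin_hom (k + 1)).mul h1
        rwa [show g + g * (k + 1) = g * (k + 2) by ring] at this
      · have := (MvPolynomial.isHomogeneous_C (Fin n) ((AA s c (k + 1) : ℝ) : ℂ)).mul
          (((rho_hom n).pow g).mul h0)
        rwa [show 0 + (2 * g + g * k) = g * (k + 2) by ring] at this

theorem real_id (x y : ℝ) (h : x = y) : cr n x = cr n y := by rw [h]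

theorem step_ring {A : Type*} [CommRing A] (P r w1 z1 Y2 Y1 Y0 Ym G1 G0 GPP Gw Gz GY2 gg b b0 A2 A1 A0
    u2 u1 u0 κ : A) (hY2 : Y2 = (P - b * (r * w1)) * Y1 - A1 * (r * z1 * Y0))
    (hY1 : Y1 = (P - b0 * (r * w1)) * Y0 - A0 * (r * z1 * Ym))
    (hG1 : G1 = gg * (u1 * (w1 * Y1) + (κ + 2) * A1 * (z1 * Y0)))
    (hG0 : G0 = gg * (u0 * (w1 * Y0) + κ * A0 * (z1 * Ym)))
    (hPP : GPP = gg * z1) (hGw : b * Gw = b * (gg * (w1 * P))) (hGz : Gz = gg * (2 * (z1 * P)))
    (hGY2 : GY2 = (P - b * (r * w1)) * G1 + Y1 * (GPP - b * Gw) - A1 * (r * z1 * G0 + Y0 * Gz))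
    (hb : b = u1 - u2) (hb0 : b0 = u0 - u1) (hw1 : u1 * (r * w1 * w1) = u1 * z1)
    (hw2 : u2 * (r * w1 * w1) = u2 * z1) (hA : (κ + 4) * A2 - κ * A1 = 1 - b ^ 2)
    (hbr : (κ + 3) * b = (κ - 1) * b0) :
    GY2 = gg * (u2 * (w1 * Y2) + (κ + 4) * A2 * (z1 * Y1)) := by
  linear_combination hGY2 + (P - b * (r * w1)) * hG1 - A1 * (r * z1) * hG0 + Y1 * hPP - Y1 * hGw -
    A1 * Y0 * hGz - gg * u2 * w1 * hY2 - A1 * gg * z1 * κ * hY1 - gg * w1 * P * Y1 * hb -
    gg * b * Y1 * hw1 + gg * b * Y1 * hw2 + gg * b * z1 * Y1 * hb - gg * z1 * Y1 * hA -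
    gg * r * w1 * z1 * A1 * Y0 * hbr + gg * r * w1 * z1 * A1 * Y0 * hb +
    gg * r * w1 * z1 * A1 * Y0 * hb0

/-- the relation between the powers of `rho` -/
theorem Iso.ww (h : Iso n g s c P) (k : ℕ) :
    cr n (uu s c k) * (rho n ^ (g / 2) * rho n ^ (g / 2 - 1)) = cr n (uu s c k) * rho n ^ (g - 1) := by
  rcases h.par with hc | hg
  · rw [uu_c0 k hc, map_zero, zero_mul, zero_mul]
  · rw [← pow_add]
    congr 2
    have h1 := h.half
    have h2 : 2 * (g / 2) = g := Nat.two_mul_div_two_of_even hg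
    omega

theorem Iso.half_real (h : Iso n g s c P) (k : ℕ) :
    bb s c k * (2 * ((g / 2 : ℕ) : ℝ)) = bb s c k * g := by
  rcases h.par with hc | hg
  · rw [bb_c0 k hc, zero_mul, zero_mul]
  · have h2 : 2 * (g / 2) = g := Nat.two_mul_div_two_of_even hg
    congr 1
    exact_mod_cast h2

theorem Iso.pows (h : Iso n g s c P) : rho n ^ (g / 2) = rho n * rho n ^ (g / 2 - 1) ∧
    rho n ^ g = rho n * rho n ^ (g - 1) := by
  have hm := h.half
  have hg2 := h.two
  constructor
  · rw [← pow_succ']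
    congr 1
    omega
  · rw [← pow_succ']
    congr 1
    omega

theorem Iso.Gw (h : Iso n g s c P) (k : ℕ) : cr n (bb s c k) * Gr P (rho n ^ (g / 2)) =
    cr n (bb s c k) * (cr n (g ^ 2) * (rho n ^ (g / 2 - 1) * P)) := by
  have hm := h.half
  have h1 := Gr_rho_pow h.hom (g / 2 - 1)
  rw [show g / 2 - 1 + 1 = g / 2 by omega] at h1
  have h2 := h.half_real k
  have h3 : ((g / 2 - 1 : ℕ) : ℝ) + 1 = ((g / 2 : ℕ) : ℝ) := by
    rw [Nat.cast_sub hm]
    push_cast
    ring
  rw [h3] at h1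
  have h4 : cr n (bb s c k) * cr n (2 * ((g / 2 : ℕ) : ℝ) * g) = cr n (bb s c k) * cr n (g ^ 2) := by
    rw [← map_mul, ← map_mul]
    apply real_id
    linear_combination (g : ℝ) * h2
  rw [h1]
  linear_combination (rho n ^ (g / 2 - 1) * P) * h4

theorem Iso.Gz (h : Iso n g s c P) : Gr P (rho n ^ g) =
    cr n (g ^ 2) * (2 * (rho n ^ (g - 1) * P)) := by
  have hg2 := h.two
  have h1 := Gr_rho_pow h.hom (g - 1)
  rw [show g - 1 + 1 = g by omega] at h1
  have h3 : ((g - 1 : ℕ) : ℝ) + 1 = (g : ℝ) := by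
    rw [Nat.cast_sub (by omega)]
    push_cast
    ring
  have h4 : cr n (2 * (g : ℝ) * g) = cr n (g ^ 2) * 2 := by
    rw [show (2 : ℝ) * g * g = g ^ 2 * 2 by ring, map_mul]
    congr 1
  rw [h1, h3, h4]
  ring

theorem Iso.Lw (h : Iso n g s c P) (k : ℕ) (hk : lap (YY g s c P k) = 0) :
    cr n (bb s c k) * lap (rho n ^ (g / 2) * YY g s c P k) =
      cr n (g ^ 2) * (cr n (bb s c k * (2 * k + 1 + s)) * (rho n ^ (g / 2 - 1) * YY g s c P k)) := by
  have hm := h.half
  have h1 := lap_rho_pow (h.Y_hom k) hk (g / 2 - 1)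
  rw [show g / 2 - 1 + 1 = g / 2 by omega] at h1
  have h2 := h.half_real k
  have h3 : ((g / 2 - 1 : ℕ) : ℝ) = ((g / 2 : ℕ) : ℝ) - 1 := by
    rw [Nat.cast_sub hm]
    push_cast
    ring
  have h4 := h.dim
  have h5 : (n : ℝ) = g * s + 2 := by linarith
  rw [h3, h5] at h1
  have h6 : cr n (bb s c k) * cr n (2 * (((g / 2 : ℕ) : ℝ) - 1 + 1) *
      (g * s + 2 + 2 * (((g / 2 : ℕ) : ℝ) - 1) + 2 * ((g * k : ℕ) : ℝ))) =
      cr n (g ^ 2) * cr n (bb s c k * (2 * k + 1 + s)) := by
    rw [← map_mul, ← map_mul]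
    apply real_id
    push_cast
    rcases h.par with hc | hg
    · rw [bb_c0 k hc]
      ring
    · have h7 : ((g / 2 : ℕ) : ℝ) = (g : ℝ) / 2 := by
        have := Nat.two_mul_div_two_of_even hg
        have h8 : (2 : ℝ) * ((g / 2 : ℕ) : ℝ) = g := by exact_mod_cast this
        linarith
      rw [h7]
      ring
  rw [h1]
  linear_combination (rho n ^ (g / 2 - 1) * YY g s c P k) * h6

theorem Iso.Lz (h : Iso n g s c P) (k : ℕ) (hk : lap (YY g s c P k) = 0) :
    lap (rho n ^ g * YY g s c P k) =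
      cr n (g ^ 2) * (cr n (2 * (2 * k + 2 + s)) * (rho n ^ (g - 1) * YY g s c P k)) := by
  have hg2 := h.two
  have h1 := lap_rho_pow (h.Y_hom k) hk (g - 1)
  rw [show g - 1 + 1 = g by omega] at h1
  have h3 : ((g - 1 : ℕ) : ℝ) = (g : ℝ) - 1 := by
    rw [Nat.cast_sub (by omega)]
    push_cast
    ring
  have h4 := h.dim
  have h5 : (n : ℝ) = g * s + 2 := by linarith
  rw [h3, h5] at h1
  have h6 : cr n (2 * ((g : ℝ) - 1 + 1) * (g * s + 2 + 2 * ((g : ℝ) - 1) + 2 * ((g * k : ℕ) : ℝ))) =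
      cr n (g ^ 2) * cr n (2 * (2 * k + 2 + s)) := by
    rw [← map_mul]
    apply real_id
    push_cast
    ring
  rw [h1]
  linear_combination (rho n ^ (g - 1) * YY g s c P k) * h6

theorem uu_zero : uu s c 0 = 0 := by simp [uu]

/-- the key facts -/
theorem Iso.key (h : Iso n g s c P) : ∀ k,
    Gr P (YY g s c P k) = cr n (g ^ 2) * (cr n (uu s c k) * (rho n ^ (g / 2 - 1) * YY g s c P k) +
      cr n (2 * k + s) * cr n (AA s c k) * (rho n ^ (g - 1) * YY g s c P (k - 1))) ∧
    lap (YY g s c P k) = 0 := by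
  have hm := h.half
  have hg2 := h.two
  obtain ⟨hw, hz⟩ := h.pows
  intro k
  induction k using Nat.strong_induction_on with
  | _ k ih =>
    match k, ih with
    | 0, _ =>
      constructor
      · rw [YY_zero, Gr_one, AA_zero, uu_zero]
        simp
      · rw [YY_zero]
        unfold lap
        simp
    | 1, _ =>
      have hb0 : bb s c 0 = -uu s c 1 := by
        unfold bb
        rw [uu_zero]
        ring
      have e1 := AA_rec h.adm 0
      rw [AA_zero] at e1
      have e1' := real_id (n := n) _ _ e1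
      simp only [map_sub, map_add, map_mul, map_one, map_pow, map_zero] at e1'
      have gw := h.Gw 0
      have ww1 := h.ww 1
      have hb0' : cr n (bb s c 0) = -cr n (uu s c 1) := by rw [hb0, map_neg]
      constructor
      · rw [YY_one, Gr_sub, h.grad, Gr_mul, Gr_cr, Nat.sub_self, YY_zero]
        have e2 : cr n (2 * ((1 : ℕ) : ℝ) + s) = cr n (2 * ((0 : ℕ) : ℝ)) + cr n 2 + cr n s := by
          rw [← map_add, ← map_add]
          congr 1
          push_cast
          ring
        rw [e2]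
        simp only [map_mul] at e1' ⊢
        linear_combination (-1) * gw + cr n (g ^ 2) * cr n (bb s c 0) * ww1 -
          cr n (g ^ 2) * rho n ^ (g - 1) * e1' -
          (cr n (g ^ 2) * rho n ^ (g / 2 - 1) * P) * hb0' +
          cr n (g ^ 2) * cr n (bb s c 0) * rho n ^ (g - 1) * hb0'
      · have l1 := h.Lw 0 (by rw [YY_zero]; unfold lap; simp)
        rw [YY_zero, mul_one, mul_one] at l1
        rw [YY_one, lap_sub, lap_cr, l1, h.lapl]
        have e3 : cr n (g ^ 2 * c) = cr n (g ^ 2) * cr n (bb s c 0 * (2 * ((0 : ℕ) : ℝ) + 1 + s)) := by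
          rw [← map_mul]
          apply real_id
          have e4 := uu_sum h.adm 0
          rw [uu_zero, hb0] at e4
          rw [hb0]
          push_cast at e4 ⊢
          linear_combination (g : ℝ) ^ 2 * e4
        rw [e3]
        ring
    | (k + 2), ih =>
      obtain ⟨i1, l1⟩ := ih (k + 1) (by omega)
      obtain ⟨i0, l0⟩ := ih k (by omega)
      have hkk : k + 2 - 1 = k + 1 := rfl
      have hk1 : k + 1 - 1 = k := rfl
      rw [hk1] at i1
      rw [hkk]
      have hY2 := YY_rec (g := g) (s := s) (c := c) (P := P) k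
      have hY1 : YY g s c P (k + 1) = (P - cr n (bb s c k) * (rho n * rho n ^ (g / 2 - 1))) *
          YY g s c P k - cr n (AA s c k) * (rho n * rho n ^ (g - 1) * YY g s c P (k - 1)) := by
        rcases k with _ | k
        · rw [YY_zero, AA_zero, map_zero, zero_mul, sub_zero, mul_one, ← hw]
          exact YY_one
        · rw [← hw, ← hz]
          exact YY_rec k
      have hA := real_id (n := n) _ _ (AA_rec h.adm (k + 1))
      have hbr := real_id (n := n) _ _ (bb_rec h.adm k)
      have hu := real_id (n := n) _ _ (uu_sum h.adm (k + 1))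
      obtain ⟨κ, hκ⟩ : ∃ κ, κ = cr n (2 * k + s) := ⟨_, rfl⟩
      have k2 : cr n (2 * ((k + 1 : ℕ) : ℝ) + s) = κ + 2 := by
        rw [hκ, ← map_ofNat (cr n) 2, ← map_add]
        congr 1
        push_cast
        ring
      have k4 : cr n (2 * ((k + 2 : ℕ) : ℝ) + s) = κ + 4 := by
        rw [hκ, ← map_ofNat (cr n) 4, ← map_add]
        congr 1
        push_cast
        ring
      have k3 : cr n (2 * (k : ℝ) + 3 + s) = κ + 3 := by
        rw [hκ, ← map_ofNat (cr n) 3, ← map_add]
        congr 1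
        ring
      have km : cr n (2 * (k : ℝ) - 1 + s) = κ - 1 := by
        rw [hκ, ← map_one (cr n), ← map_sub]
        congr 1
        ring
      have k4' : cr n (2 * ((k + 1 : ℕ) : ℝ) + 2 + s) = κ + 4 := by
        rw [← k4]
        congr 1
        push_cast
        ring
      have k0' : cr n (2 * ((k + 1 : ℕ) : ℝ) - 2 + s) = κ := by
        rw [hκ]
        congr 1
        push_cast
        ring
      rw [map_sub, map_mul, map_mul, map_sub, map_one, map_pow, k4', k0'] at hA
      rw [map_mul, map_mul, k3, km] at hbr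
      rw [map_sub, map_mul, map_sub, map_neg, k2] at hu
      rw [k2] at i1
      rw [← hκ] at i0
      rw [k4]
      rw [hw, hz] at hY2
      have hw1 := h.ww (k + 1)
      have hw2 := h.ww (k + 2)
      rw [hw] at hw1 hw2
      have hGw := h.Gw (k + 1)
      have hGz := h.Gz
      rw [hw] at hGw
      rw [hz] at hGz
      have hb : cr n (bb s c (k + 1)) = cr n (uu s c (k + 1)) - cr n (uu s c (k + 2)) := by
        rw [← map_sub]
        rfl
      have hb0 : cr n (bb s c k) = cr n (uu s c k) - cr n (uu s c (k + 1)) := by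
        rw [← map_sub]
        rfl
      constructor
      · refine step_ring P (rho n) (rho n ^ (g / 2 - 1)) (rho n ^ (g - 1)) (YY g s c P (k + 2))
          (YY g s c P (k + 1)) (YY g s c P k) (YY g s c P (k - 1)) (Gr P (YY g s c P (k + 1)))
          (Gr P (YY g s c P k)) (Gr P P) (Gr P (rho n * rho n ^ (g / 2 - 1)))
          (Gr P (rho n * rho n ^ (g - 1))) _ _ (cr n (bb s c (k + 1))) (cr n (bb s c k))
          (cr n (AA s c (k + 2))) (cr n (AA s c (k + 1))) (cr n (AA s c k)) _ _ _ κ hY2 hY1 i1 i0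
          h.grad hGw hGz ?_ hb hb0 hw1 hw2 hA hbr
        rw [hY2, Gr_sub, Gr_mul, Gr_sub, Gr_mul P (cr n (bb s c (k + 1))), Gr_cr,
          Gr_mul P (cr n (AA s c (k + 1))), Gr_cr, Gr_mul P (rho n * rho n ^ (g - 1))]
        ring
      · have lw := h.Lw (k + 1) l1
        have lz := h.Lz k l0
        rw [hw] at lw
        rw [hz] at lz
        have e1 : cr n (bb s c (k + 1) * (2 * ((k + 1 : ℕ) : ℝ) + 1 + s)) =
            cr n (bb s c (k + 1)) * (κ + 3) := by
          rw [← k3, ← map_mul]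
          congr 1
          push_cast
          ring
        have e2 : cr n (2 * (2 * (k : ℝ) + 2 + s)) = 2 * (κ + 2) := by
          rw [← k2, map_mul, map_ofNat]
          congr 2
          push_cast
          ring
        rw [e1] at lw
        rw [e2] at lz
        have e3 : (P - cr n (bb s c (k + 1)) * (rho n * rho n ^ (g / 2 - 1))) * YY g s c P (k + 1) =
            P * YY g s c P (k + 1) - cr n (bb s c (k + 1)) *
              (rho n * rho n ^ (g / 2 - 1) * YY g s c P (k + 1)) := by ring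
        rw [hY2, e3, lap_sub, lap_sub, lap_cr, lap_cr, lap_mul, l1, h.lapl, i1, map_mul]
        linear_combination (-1) * lw - cr n (AA s c (k + 1)) * lz +
          cr n (g ^ 2) * rho n ^ (g / 2 - 1) * YY g s c P (k + 1) * (hu - hb)

end Pool.Agent.H72.Is
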