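import Mathlib
import Pool.Agent.H72.Is.K1
import Pool.Agent.H72.Is.J7
set_option autoImplicit false

/-! The Bessel integrals and the radial factors. -/

open MeasureTheory Set Metric
open scoped ENNReal RealInnerProductSpace

namespace Pool.Agent.H72.Is

open Pool.Agent.H789R2.FR (E sg T sg_finite sg_ae)
open Pool.Agent.W5h55.SH
open Pool.Agent.H72.Co
open Finset (range)

theorem int_exp (a : ℤ) : ∫ t in (-Real.pi)..Real.pi, Complex.exp (((a * t : ℝ) : ℂ) * Complex.I) =
    if a = 0 then ((2 * Real.pi : ℝ) : ℂ) else 0 := by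
  by_cases ha : a = 0
  · rw [if_pos ha, ha]
    simp
    ring
  · rw [if_neg ha]
    have hz : ((a : ℝ) : ℂ) ≠ 0 := by exact_mod_cast ha
    have hd : ∀ t ∈ uIcc (-Real.pi) Real.pi, HasDerivAt
        (fun t : ℝ => Complex.exp (((a * t : ℝ) : ℂ) * Complex.I) / (((a : ℝ) : ℂ) * Complex.I))
        (Complex.exp (((a * t : ℝ) : ℂ) * Complex.I)) t := by
      intro t _
      have e2 : HasDerivAt (fun t : ℝ => (((a * t : ℝ) : ℂ) * Complex.I))
          (((a : ℝ) : ℂ) * Complex.I) t := by
        have : HasDerivAt (fun t : ℝ => (a : ℝ) * t) (a : ℝ) t :=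
          ((hasDerivAt_id' t).const_mul (a : ℝ)).congr_deriv (by ring)
        exact this.ofReal_comp.mul_const Complex.I
      refine (e2.cexp.div_const _).congr_deriv ?_
      have := Complex.I_ne_zero
      field_simp
    rw [intervalIntegral.integral_eq_sub_of_hasDerivAt hd (by
      apply Continuous.intervalIntegrable
      fun_prop)]
    have e3 : Complex.exp (((a * Real.pi : ℝ) : ℂ) * Complex.I) =
        Complex.exp (((a * (-Real.pi) : ℝ) : ℂ) * Complex.I) := by
      have e4 : (((a * Real.pi : ℝ) : ℂ) * Complex.I) =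
          (((a * (-Real.pi) : ℝ) : ℂ) * Complex.I) + (a : ℂ) * (2 * Real.pi * Complex.I) := by
        push_cast
        ring
      rw [e4, Complex.exp_add, Complex.exp_int_mul_two_pi_mul_I, mul_one]
    rw [e3, sub_self]

/-- the moments -/
theorem moments (j m : ℕ) : ∫ t in (-Real.pi)..Real.pi, ((Real.cos t : ℝ) : ℂ) ^ j *
    Complex.exp (((m * t : ℝ) : ℂ) * Complex.I) =
    (1 / 2 : ℂ) ^ j * ∑ l ∈ range (j + 1), (j.choose l : ℂ) *
      (if 2 * l + m = j then ((2 * Real.pi : ℝ) : ℂ) else 0) := by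
  have e1 : ∀ t : ℝ, ((Real.cos t : ℝ) : ℂ) ^ j * Complex.exp (((m * t : ℝ) : ℂ) * Complex.I) =
      ∑ l ∈ range (j + 1), (1 / 2 : ℂ) ^ j * (j.choose l : ℂ) *
        Complex.exp (((((2 * l + m - j : ℤ) : ℝ) * t : ℝ) : ℂ) * Complex.I) := by
    intro t
    have h1 : ((Real.cos t : ℝ) : ℂ) = (Complex.exp ((t : ℂ) * Complex.I) +
        Complex.exp (-(t : ℂ) * Complex.I)) * (1 / 2) := by
      rw [Complex.ofReal_cos, Complex.cos]
      ring
    rw [h1, mul_pow, add_pow, Finset.sum_mul, Finset.sum_mul]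
    apply Finset.sum_congr rfl
    intro l hl
    have hl' : l ≤ j := by
      have := Finset.mem_range.1 hl
      omega
    rw [← Complex.exp_nat_mul, ← Complex.exp_nat_mul]
    have h2 : Complex.exp ((l : ℂ) * ((t : ℂ) * Complex.I)) *
        Complex.exp (((j - l : ℕ) : ℂ) * (-(t : ℂ) * Complex.I)) *
        Complex.exp (((m * t : ℝ) : ℂ) * Complex.I) =
        Complex.exp (((((2 * l + m - j : ℤ) : ℝ) * t : ℝ) : ℂ) * Complex.I) := by
      rw [← Complex.exp_add, ← Complex.exp_add, Nat.cast_sub hl']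
      congr 1
      push_cast
      ring
    rw [← h2]
    ring
  simp only [e1]
  rw [intervalIntegral.integral_finsetSum]
  · rw [Finset.mul_sum]
    apply Finset.sum_congr rfl
    intro l _
    rw [intervalIntegral.integral_const_mul, int_exp]
    have : ((2 * l + m - j : ℤ) = 0) ↔ 2 * l + m = j := by omega
    simp only [this]
    ring
  · intro l _
    apply Continuous.intervalIntegrable
    fun_prop

theorem Em_series (m : ℕ) (r : ℝ) : HasSum (fun j : ℕ => (-(r : ℂ) * Complex.I) ^ j / (j.factorial : ℂ) *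
    ((1 / 2 : ℂ) ^ j * ∑ l ∈ range (j + 1), (j.choose l : ℂ) *
      (if 2 * l + m = j then ((2 * Real.pi : ℝ) : ℂ) else 0))) (Em m r) := by
  have h := intervalIntegral.hasSum_integral_of_dominated_convergence (μ := volume)
    (a := -Real.pi) (b := Real.pi)
    (F := fun (j : ℕ) (t : ℝ) => (-(r : ℂ) * Complex.I) ^ j / (j.factorial : ℂ) *
      (((Real.cos t : ℝ) : ℂ) ^ j * Complex.exp (((m * t : ℝ) : ℂ) * Complex.I)))
    (f := ua m r) (fun j _ => |r| ^ j / (j.factorial : ℝ)) ?_ ?_ ?_ ?_ ?_
  · simp only [intervalIntegral.integral_const_mul, moments] at h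
    exact h
  · intro j
    apply Continuous.aestronglyMeasurable
    fun_prop
  · intro j
    refine Filter.Eventually.of_forall fun t _ => ?_
    rw [norm_mul, norm_mul, Complex.norm_exp_ofReal_mul_I, mul_one, norm_div, norm_pow, norm_pow,
      norm_mul, norm_neg, Complex.norm_I, mul_one, Complex.norm_real, Complex.norm_real,
      Complex.norm_natCast, Real.norm_eq_abs, Real.norm_eq_abs]
    have h1 : |Real.cos t| ^ j ≤ 1 := pow_le_one₀ (abs_nonneg _) (Real.abs_cos_le_one t)
    have h2 : 0 ≤ |r| ^ j / (j.factorial : ℝ) := by positivity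
    nlinarith
  · exact Filter.Eventually.of_forall fun t _ => Real.summable_pow_div_factorial |r|
  · exact intervalIntegrable_const
  · refine Filter.Eventually.of_forall fun t _ => ?_
    have h1 : HasSum (fun j : ℕ => ((((-(r * Real.cos t) : ℝ) : ℂ) * Complex.I)) ^ j /
        (j.factorial : ℂ)) (Complex.exp (((-(r * Real.cos t) : ℝ) : ℂ) * Complex.I)) := by
      have := NormedSpace.expSeries_div_hasSum_exp (𝔸 := ℂ)
        (((-(r * Real.cos t) : ℝ) : ℂ) * Complex.I)
      rw [← Complex.exp_eq_exp_ℂ] at this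
      exact this
    have h2 := h1.mul_right (Complex.exp (((m * t : ℝ) : ℂ) * Complex.I))
    have e : ((((-(r * Real.cos t) : ℝ) : ℂ) * Complex.I)) =
        (-(r : ℂ) * Complex.I) * ((Real.cos t : ℝ) : ℂ) := by
      push_cast
      ring
    have e2 : (fun j : ℕ => (-(r : ℂ) * Complex.I) ^ j / (j.factorial : ℂ) *
        (((Real.cos t : ℝ) : ℂ) ^ j * Complex.exp (((m * t : ℝ) : ℂ) * Complex.I))) =
        fun j : ℕ => ((((-(r * Real.cos t) : ℝ) : ℂ) * Complex.I)) ^ j /
        (j.factorial : ℂ) * Complex.exp (((m * t : ℝ) : ℂ) * Complex.I) := by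
      funext j
      rw [e, mul_pow]
      ring
    rw [e2]
    exact h2

theorem DD_fact (m p : ℕ) : DD p (2 * m + 2) * (m.factorial : ℝ) =
    4 ^ p * (p.factorial : ℝ) * ((m + p).factorial : ℝ) := by
  induction p with
  | zero => simp [DD]
  | succ p ih =>
    rw [DD_succ, mul_right_comm, ih, ← add_assoc, Nat.factorial_succ, Nat.factorial_succ]
    push_cast
    ring

/-- the Bessel integral in terms of the radial factor -/
theorem Em_phi (m : ℕ) (r : ℝ) : Em m r = (-Complex.I) ^ m *
    ((2 * Real.pi * r ^ m / (2 ^ m * (m.factorial : ℝ)) * phi (2 * m + 2) r : ℝ) : ℂ) := by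
  have h1 := Em_series m r
  have hinj : Function.Injective fun p : ℕ => m + 2 * p := fun a b h => by
    simp only at h
    omega
  rw [← hinj.hasSum_iff] at h1
  · have h2 := (phi_sum (2 * m + 2) (by omega) r).hasSum
    have h3 : HasSum (fun p : ℕ => (-Complex.I) ^ m * ((2 * Real.pi * r ^ m /
        (2 ^ m * (m.factorial : ℝ)) * ((-1) ^ p * r ^ (2 * p) / DD p (2 * m + 2)) : ℝ) : ℂ))
        ((-Complex.I) ^ m * ((2 * Real.pi * r ^ m / (2 ^ m * (m.factorial : ℝ)) *
          phi (2 * m + 2) r : ℝ) : ℂ)) := by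
      apply HasSum.mul_left
      rw [Complex.hasSum_ofReal]
      exact h2.mul_left _
    refine h1.unique ?_
    refine Eq.mp (congrArg (fun F => HasSum F _) (funext fun p => ?_)) h3
    simp only [Function.comp_apply]
    symm
    rw [Finset.sum_eq_single p]
    · rw [if_pos (by ring)]
      have hf := DD_fact m p
      have hD := DD_pos p (2 * m + 2) (by omega)
      have hch : ((m + 2 * p).choose p : ℝ) * (p.factorial : ℝ) * ((m + p).factorial : ℝ) =
          ((m + 2 * p).factorial : ℝ) := by
        have := Nat.choose_mul_factorial_mul_factorial (n := m + 2 * p) (k := p) (by omega)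
        rw [show m + 2 * p - p = m + p by omega] at this
        exact_mod_cast this
      have hm0 : (0 : ℝ) < (m.factorial : ℝ) := by positivity
      have hmp : (0 : ℝ) < ((m + p).factorial : ℝ) := by positivity
      have hp0 : (0 : ℝ) < (p.factorial : ℝ) := by positivity
      have hmm : (0 : ℝ) < ((m + 2 * p).factorial : ℝ) := by positivity
      have e1 : 2 * Real.pi * r ^ m / (2 ^ m * (m.factorial : ℝ)) *
          ((-1) ^ p * r ^ (2 * p) / DD p (2 * m + 2)) =
          (-1) ^ p * (r ^ (m + 2 * p) / ((m + 2 * p).factorial : ℝ) * ((1 / 2) ^ (m + 2 * p) *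
            (((m + 2 * p).choose p : ℝ) * (2 * Real.pi)))) := by
        have e2 : DD p (2 * m + 2) = 4 ^ p * (p.factorial : ℝ) * ((m + p).factorial : ℝ) /
            (m.factorial : ℝ) := by
          rw [← hf]
          field_simp
        rw [e2, ← hch, pow_add, pow_add, pow_mul (1 / 2 : ℝ)]
        have e3 : ((1 / 2 : ℝ)) ^ m = 1 / 2 ^ m := by rw [one_div_pow]
        have e4 : (((1 / 2 : ℝ)) ^ 2) ^ p = 1 / 4 ^ p := by
          rw [show ((1 / 2 : ℝ)) ^ 2 = 1 / 4 by norm_num, one_div_pow]
        rw [e3, e4]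
        have hc0 : ((m + 2 * p).choose p : ℝ) ≠ 0 := by
          have := Nat.choose_pos (n := m + 2 * p) (k := p) (by omega)
          exact_mod_cast this.ne'
        field_simp
      rw [e1]
      have e5 : (-(r : ℂ) * Complex.I) ^ (m + 2 * p) = (-Complex.I) ^ m * (((-1) ^ p : ℝ) : ℂ) *
          ((r ^ (m + 2 * p) : ℝ) : ℂ) := by
        have : (-(r : ℂ) * Complex.I) = (-Complex.I) * (r : ℂ) := by ring
        rw [this, mul_pow, pow_add (-Complex.I), pow_mul (-Complex.I), neg_sq, Complex.I_sq]
        push_cast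
        ring
      rw [e5]
      push_cast
      ring
    · intro l _ hlp
      rw [if_neg (by omega), mul_zero]
    · intro hp
      exact absurd (Finset.mem_range.2 (by omega)) hp
  · intro j hj
    rw [Finset.sum_eq_zero, mul_zero, mul_zero]
    intro l _
    rw [if_neg, mul_zero]
    intro h
    exact hj ⟨l, by simp only; omega⟩

end Pool.Agent.H72.Is
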