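import Mathlib
import Pool.Agent.H72.Is.K2
import Pool.Agent.H72.Co.C9
set_option autoImplicit false

/-! Transforms of the harmonic polynomials, and the law of the isoparametric function. -/

open MeasureTheory Set Metric
open scoped ENNReal RealInnerProductSpace

namespace Pool.Agent.H72.Is

open MvPolynomial (pderiv)
open Pool.Agent.H789R2.FR (E sg T sg_finite sg_ae)
open Pool.Agent.W5h55.SH
open Pool.Agent.H72.Co
open Finset (range)

variable {n g ν : ℕ} {s c : ℝ}

theorem cc_fact (ν d : ℕ) : cc (2 * ν + 2) d * (2 ^ d * ((d + ν).factorial : ℝ)) =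
    ar (2 * ν + 2) * (ν.factorial : ℝ) := by
  induction d with
  | zero => simp [cc]
  | succ d ih =>
    have h := cc_succ (n := 2 * ν + 2) (by omega) d
    rw [← h] at ih
    rw [← ih, show d + 1 + ν = (d + ν) + 1 by ring, Nat.factorial_succ]
    push_cast
    ring

/-- the constant -/
noncomputable def Kn (ν : ℕ) : ℝ := ar (2 * ν + 2) * (ν.factorial : ℝ) * 2 ^ ν / (2 * Real.pi)

theorem Kn_pos (ν : ℕ) : 0 < Kn ν := by
  unfold Kn
  have := ar_pos (n := 2 * ν + 2) (by omega)
  positivity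

theorem T_Y {P : MvPolynomial (Fin (2 * ν + 2)) ℂ} (h : Iso (2 * ν + 2) g s c P) (k : ℕ) (r : ℝ)
    (hr : 0 ≤ r) (w : E (2 * ν + 2)) (hw : ‖w‖ = 1) :
    ((r ^ ν : ℝ) : ℂ) * T (ev (YY g s c P k)) (r • w) =
      ((Kn ν : ℝ) : ℂ) * Complex.I ^ ν * Em (g * k + ν) r * ev (YY g s c P k) w := by
  have hT := T_harm (n := 2 * ν + 2) (by omega) (g * k) (YY g s c P k) (h.Y_hom k) (h.key k).2 (r • w)
  rw [norm_smul, hw, mul_one, Real.norm_of_nonneg hr, ev_smul (g * k) _ (h.Y_hom k)] at hT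
  rw [hT, Em_phi]
  have e0 : 2 * (g * k) + (2 * ν + 2) = 2 * (g * k + ν) + 2 := by ring
  rw [e0]
  have e1 : (-Complex.I) ^ (g * k + ν) = (-Complex.I) ^ (g * k) * (-Complex.I) ^ ν := pow_add _ _ _
  have e2 : Complex.I ^ ν * (-Complex.I) ^ ν = 1 := by
    rw [← mul_pow, mul_neg, Complex.I_mul_I, neg_neg, one_pow]
  have e3 : r ^ ν * (cc (2 * ν + 2) (g * k) * phi (2 * (g * k + ν) + 2) r) * r ^ (g * k) =
      Kn ν * (2 * Real.pi * r ^ (g * k + ν) / (2 ^ (g * k + ν) * ((g * k + ν).factorial : ℝ)) *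
        phi (2 * (g * k + ν) + 2) r) := by
    have h1 := cc_fact ν (g * k)
    have h2 : cc (2 * ν + 2) (g * k) = ar (2 * ν + 2) * (ν.factorial : ℝ) /
        (2 ^ (g * k) * ((g * k + ν).factorial : ℝ)) := by
      rw [← h1]
      field_simp
    rw [h2]
    unfold Kn
    have hπ := Real.pi_pos
    field_simp
    ring
  have e3' := congrArg (fun x : ℝ => (x : ℂ)) e3
  simp only [Complex.ofReal_mul] at e3' ⊢
  rw [e1]
  linear_combination (-Complex.I) ^ (g * k) * ev (YY g s c P k) w * e3' -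
    ((-Complex.I) ^ (g * k) * ev (YY g s c P k) w * (Kn ν : ℂ) *
      (((2 * Real.pi * r ^ (g * k + ν) / (2 ^ (g * k + ν) * ((g * k + ν).factorial : ℝ)) : ℝ) : ℂ) *
        ((phi (2 * (g * k + ν) + 2) r : ℝ) : ℂ))) * e2

/-- complexification of a real polynomial -/
noncomputable def cx (p : MvPolynomial (Fin n) ℝ) : MvPolynomial (Fin n) ℂ :=
  MvPolynomial.map Complex.ofRealHom p

/-- values of a real polynomial -/
noncomputable def pv (p : MvPolynomial (Fin n) ℝ) (w : E n) : ℝ := MvPolynomial.eval (fun i => w i) p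

theorem ev_cx (p : MvPolynomial (Fin n) ℝ) (w : E n) : ev (cx p) w = ((pv p w : ℝ) : ℂ) := by
  unfold ev cx pv
  rw [MvPolynomial.eval_map]
  have := MvPolynomial.eval₂_comp_left Complex.ofRealHom (RingHom.id ℝ) (fun i => w i) p
  rw [RingHom.comp_id] at this
  exact this.symm

theorem pv_cont (p : MvPolynomial (Fin n) ℝ) : Continuous (pv p) := by
  unfold pv
  exact (MvPolynomial.continuous_eval p).comp (continuous_pi fun i => by fun_prop)

/-- the function is between `-1` and `1` on the sphere -/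
theorem pv_le {p : MvPolynomial (Fin n) ℝ} (h : Iso n g s c (cx p)) (w : E n) (hw : ‖w‖ = 1) :
    |pv p w| ≤ 1 := by
  have hg2 := h.two
  have hpd : ∀ i, ev (pderiv i (cx p)) w = ((pv (pderiv i p) w : ℝ) : ℂ) := by
    intro i
    rw [← ev_cx]
    unfold cx
    rw [MvPolynomial.pderiv_map]
  have h1 := congrArg (fun q => ev q w) h.grad
  beta_reduce at h1
  unfold Gr at h1
  rw [ev_sum, ev_mul, ev_pow, ev_rho, hw, cr_apply, ev_C] at h1
  simp only [ev_mul, hpd] at h1
  have h2 := congrArg (fun q => ev q w) h.hom.sum_X_mul_pderiv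
  beta_reduce at h2
  rw [ev_sum, nsmul_eq_mul, ev_mul, ev_cx] at h2
  simp only [ev_mul, ev_X, hpd] at h2
  have h2' : ev ((g : ℕ) : MvPolynomial (Fin n) ℂ) w = (g : ℂ) := by
    rw [← map_natCast (MvPolynomial.C : ℂ →+* MvPolynomial (Fin n) ℂ), ev_C]
  rw [h2'] at h2
  have r1 : ∑ i, pv (pderiv i p) w * pv (pderiv i p) w = (g : ℝ) ^ 2 := by
    have : ((∑ i, pv (pderiv i p) w * pv (pderiv i p) w : ℝ) : ℂ) = (((g : ℝ) ^ 2 : ℝ) : ℂ) := by
      push_cast
      rw [h1]
      push_cast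
      ring
    exact_mod_cast this
  have r2 : ∑ i, w i * pv (pderiv i p) w = g * pv p w := by
    have : ((∑ i, w i * pv (pderiv i p) w : ℝ) : ℂ) = ((g * pv p w : ℝ) : ℂ) := by
      push_cast
      rw [h2]
    exact_mod_cast this
  have r3 : ∑ i, w i ^ 2 = 1 := by
    have := EuclideanSpace.real_norm_sq_eq w
    rw [hw] at this
    linarith
  have h3 := Finset.sum_mul_sq_le_sq_mul_sq Finset.univ (fun i => w i) (fun i => pv (pderiv i p) w)
  rw [r2, r3, one_mul] at h3
  have r1' : ∑ i, pv (pderiv i p) w ^ 2 = (g : ℝ) ^ 2 := by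
    rw [← r1]
    apply Finset.sum_congr rfl
    intro i _
    ring
  rw [r1', mul_pow] at h3
  have hg0 : (0 : ℝ) < (g : ℝ) ^ 2 := by
    have : (2 : ℝ) ≤ g := by exact_mod_cast hg2
    positivity
  have h4 : pv p w ^ 2 ≤ 1 := by
    by_contra hc
    push Not at hc
    nlinarith
  exact abs_le_one_iff_mul_self_le_one.2 (by nlinarith)

/-- the harmonic polynomials on the sphere -/
theorem ev_YY (p : MvPolynomial (Fin n) ℝ) (w : E n) (hw : ‖w‖ = 1) : ∀ k,
    ev (YY g s c (cx p) k) w = ((hh s c k (pv p w) : ℝ) : ℂ) := by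
  have hone : ev (1 : MvPolynomial (Fin n) ℂ) w = 1 := by
    rw [← map_one (MvPolynomial.C : ℂ →+* MvPolynomial (Fin n) ℂ), ev_C]
  have hsub : ∀ a b : MvPolynomial (Fin n) ℂ, ev (a - b) w = ev a w - ev b w := by
    intro a b
    simp [ev]
  have hrho : ∀ j : ℕ, ev (rho n ^ j) w = 1 := by
    intro j
    rw [ev_pow, ev_rho, hw]
    simp
  have hcr : ∀ x : ℝ, ev (cr n x) w = (x : ℂ) := fun x => by rw [cr_apply, ev_C]
  intro k
  induction k using Nat.strong_induction_on with
  | _ k ih =>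
    match k, ih with
    | 0, _ =>
      rw [YY_zero, hone, hh_zero]
      simp
    | 1, _ =>
      rw [YY_one, hsub, ev_mul, hrho, hcr, ev_cx, hh_one]
      push_cast
      ring
    | (k + 2), ih =>
      rw [YY_rec, hsub, ev_mul, ev_mul, ev_mul, hsub, ev_mul, hrho, hrho, hcr, hcr, ev_cx,
        ih (k + 1) (by omega), ih k (by omega), hh_rec]
      push_cast
      ring

/-- evaluation of the complex orthogonal polynomials -/
theorem pc_eval (k : ℕ) (t : ℝ) : (pc s c k).eval (t : ℂ) = ((hh s c k t : ℝ) : ℂ) := by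
  unfold pc hh
  rw [Polynomial.eval_map]
  exact Polynomial.eval₂_at_apply (algebraMap ℝ ℂ) t

theorem Iso.n2 {P : MvPolynomial (Fin n) ℂ} (h : Iso n g s c P) : 2 ≤ n := by
  have h1 := h.dim
  have h2 := h.adm.one
  have h3 := h.two
  have h4 : (2 : ℝ) ≤ g := by exact_mod_cast h3
  have h5 : (2 : ℝ) ≤ n := by nlinarith
  exact_mod_cast h5

theorem Sq_Y {P : MvPolynomial (Fin n) ℂ} (h : Iso n g s c P) (k : ℕ) :
    Sq (YY g s c P k) = if k = 0 then ((ar n : ℝ) : ℂ) else 0 := by
  have hn := h.n2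
  by_cases hk : k = 0
  · rw [if_pos hk, hk, YY_zero]
    have h1 := Sq_const (n := n) (by omega) 1 (MvPolynomial.isHomogeneous_one _ _) 0
    rw [h1]
    have h2 : ev (1 : MvPolynomial (Fin n) ℂ) 0 = 1 := by
      rw [← map_one (MvPolynomial.C : ℂ →+* MvPolynomial (Fin n) ℂ), ev_C]
    rw [h2, mul_one]
  · rw [if_neg hk]
    have h3 := h.two
    exact Sq_low hn (g * k) (by positivity) _ (h.Y_hom k) (h.key k).2

theorem ip_zero (h : Adm s c) (k : ℕ) : ∫ x in (0 : ℝ)..Real.pi,
    ((hh s c k (Real.cos x) : ℝ) : ℂ) * ((om s c x ^ 2 : ℝ) : ℂ) =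
    if k = 0 then ((ip s c 0 0 : ℝ) : ℂ) else 0 := by
  have e : ∀ x, ((hh s c k (Real.cos x) : ℝ) : ℂ) * ((om s c x ^ 2 : ℝ) : ℂ) =
      ((om s c x ^ 2 * (hx s c 0 x * hx s c k x) : ℝ) : ℂ) := by
    intro x
    have h0 : hx s c 0 x = 1 := hh_zero _
    rw [h0]
    unfold hx
    push_cast
    ring
  simp only [e]
  rw [intervalIntegral.integral_ofReal]
  by_cases hk : k = 0
  · rw [if_pos hk, hk]
    rfl
  · rw [if_neg hk]
    have := ip_orth h (j := 0) (k := k) (fun h => hk h.symm)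
    unfold ip at this
    rw [this, Complex.ofReal_zero]

/-- the law of the isoparametric function, polynomials -/
theorem law_poly {p : MvPolynomial (Fin n) ℝ} (h : Iso n g s c (cx p)) (F : Polynomial ℂ) :
    ∫ w, F.eval ((pv p w : ℝ) : ℂ) ∂(sg n) = (((ar n / ip s c 0 0 : ℝ)) : ℂ) *
      ∫ x in (0 : ℝ)..Real.pi, F.eval ((Real.cos x : ℝ) : ℂ) * ((om s c x ^ 2 : ℝ) : ℂ) := by
  obtain ⟨γ, hγ⟩ := expand (s := s) (c := c) F.natDegree F le_rfl
  have hev : ∀ t : ℝ, F.eval (t : ℂ) = ∑ k ∈ range (F.natDegree + 1), γ k * ((hh s c k t : ℝ) : ℂ) := by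
    intro t
    conv_lhs => rw [hγ]
    rw [Polynomial.eval_finsetSum]
    apply Finset.sum_congr rfl
    intro k _
    rw [Polynomial.eval_mul, Polynomial.eval_C, pc_eval]
  have hip := ip_pos h.adm 0
  have h1 : ∫ w, F.eval ((pv p w : ℝ) : ℂ) ∂(sg n) = γ 0 * ((ar n : ℝ) : ℂ) := by
    have e1 : ∫ w, F.eval ((pv p w : ℝ) : ℂ) ∂(sg n) =
        ∫ w, ∑ k ∈ range (F.natDegree + 1), γ k * ev (YY g s c (cx p) k) w ∂(sg n) := by
      apply integral_congr_ae
      filter_upwards [sg_ae n] with w hw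
      rw [hev]
      apply Finset.sum_congr rfl
      intro k _
      rw [ev_YY p w hw]
    rw [e1, integral_finsetSum]
    · rw [Finset.sum_eq_single 0]
      · rw [integral_const_mul, ← Sq_sg, Sq_Y h, if_pos rfl]
      · intro k _ hk
        rw [integral_const_mul, ← Sq_sg, Sq_Y h, if_neg hk, mul_zero]
      · intro h0
        exact absurd (Finset.mem_range.2 (by omega)) h0
    · intro k _
      exact sg_int (continuous_const.mul (ev_cont _))
  have h2 : ∫ x in (0 : ℝ)..Real.pi, F.eval ((Real.cos x : ℝ) : ℂ) * ((om s c x ^ 2 : ℝ) : ℂ) =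
      γ 0 * ((ip s c 0 0 : ℝ) : ℂ) := by
    have e1 : ∀ x : ℝ, F.eval ((Real.cos x : ℝ) : ℂ) * ((om s c x ^ 2 : ℝ) : ℂ) =
        ∑ k ∈ range (F.natDegree + 1), γ k * (((hh s c k (Real.cos x) : ℝ) : ℂ) *
          ((om s c x ^ 2 : ℝ) : ℂ)) := by
      intro x
      rw [hev, Finset.sum_mul]
      apply Finset.sum_congr rfl
      intro k _
      ring
    simp only [e1]
    have homc := om_cont h.adm
    rw [intervalIntegral.integral_finsetSum]
    · rw [Finset.sum_eq_single 0]
      · rw [intervalIntegral.integral_const_mul, ip_zero h.adm, if_pos rfl]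
      · intro k _ hk
        rw [intervalIntegral.integral_const_mul, ip_zero h.adm, if_neg hk, mul_zero]
      · intro h0
        exact absurd (Finset.mem_range.2 (by omega)) h0
    · intro k _
      apply Continuous.intervalIntegrable
      have : Continuous fun x => hh s c k (Real.cos x) := hx_cont k
      fun_prop
  rw [h1, h2]
  have : ((ip s c 0 0 : ℝ) : ℂ) ≠ 0 := by exact_mod_cast hip.ne'
  push_cast
  field_simp

/-- the law of the isoparametric function, continuous functions -/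
theorem law_cont {p : MvPolynomial (Fin n) ℝ} (h : Iso n g s c (cx p)) (f : ℝ → ℝ) (hf : Continuous f) :
    ∫ w, f (pv p w) ∂(sg n) = ar n / ip s c 0 0 *
      ∫ x in (0 : ℝ)..Real.pi, f (Real.cos x) * om s c x ^ 2 := by
  have f1 := sg_finite n
  have hn := h.n2
  have hip := ip_pos h.adm 0
  have har := ar_pos (n := n) (by omega)
  have homc := om_cont h.adm
  have hπ := Real.pi_pos
  have hipe : ∫ x in (0 : ℝ)..Real.pi, om s c x ^ 2 = ip s c 0 0 := by
    unfold ip
    congr 1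
    funext x
    have h0 : hx s c 0 x = 1 := hh_zero _
    rw [h0]
    ring
  have hpoly : ∀ Q : Polynomial ℝ, ∫ w, Q.eval (pv p w) ∂(sg n) = ar n / ip s c 0 0 *
      ∫ x in (0 : ℝ)..Real.pi, Q.eval (Real.cos x) * om s c x ^ 2 := by
    intro Q
    have h1 := law_poly h (Q.map (algebraMap ℝ ℂ))
    have e1 : ∀ t : ℝ, (Q.map (algebraMap ℝ ℂ)).eval (t : ℂ) = ((Q.eval t : ℝ) : ℂ) := by
      intro t
      rw [Polynomial.eval_map]
      exact Polynomial.eval₂_at_apply (algebraMap ℝ ℂ) t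
    simp only [e1] at h1
    rw [integral_complex_ofReal] at h1
    have e2 : ∀ x : ℝ, ((Q.eval (Real.cos x) : ℝ) : ℂ) * ((om s c x ^ 2 : ℝ) : ℂ) =
        ((Q.eval (Real.cos x) * om s c x ^ 2 : ℝ) : ℂ) := fun x => by push_cast; ring
    simp only [e2] at h1
    rw [intervalIntegral.integral_ofReal] at h1
    exact_mod_cast h1
  have key : ∀ ε : ℝ, 0 < ε → |(∫ w, f (pv p w) ∂(sg n)) - ar n / ip s c 0 0 *
      ∫ x in (0 : ℝ)..Real.pi, f (Real.cos x) * om s c x ^ 2| ≤ ε * (2 * ar n) := by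
    intro ε hε
    obtain ⟨Q, hQ⟩ := exists_polynomial_near_of_continuousOn (-1) 1 f hf.continuousOn ε hε
    have i1 : Integrable (fun w : E n => Q.eval (pv p w)) (sg n) :=
      sg_int (Q.continuous.comp (pv_cont p))
    have j1 : Integrable (fun w : E n => f (pv p w)) (sg n) := sg_int (hf.comp (pv_cont p))
    have k1 : |(∫ w, Q.eval (pv p w) ∂(sg n)) - ∫ w, f (pv p w) ∂(sg n)| ≤ ε * ar n := by
      rw [← integral_sub i1 j1, ← Real.norm_eq_abs]
      have := norm_integral_le_of_norm_le_const (μ := sg n) (C := ε)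
        (f := fun w => Q.eval (pv p w) - f (pv p w)) (by
          filter_upwards [sg_ae n] with w hw
          rw [Real.norm_eq_abs]
          exact (hQ _ (abs_le.1 (pv_le h w hw))).le)
      rwa [ar_sg] at this
    have c1 : Continuous fun x => Q.eval (Real.cos x) * om s c x ^ 2 :=
      (Q.continuous.comp Real.continuous_cos).mul (homc.pow 2)
    have c2 : Continuous fun x => f (Real.cos x) * om s c x ^ 2 :=
      (hf.comp Real.continuous_cos).mul (homc.pow 2)
    have k2 : |(∫ x in (0 : ℝ)..Real.pi, Q.eval (Real.cos x) * om s c x ^ 2) -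
        ∫ x in (0 : ℝ)..Real.pi, f (Real.cos x) * om s c x ^ 2| ≤ ε * ip s c 0 0 := by
      rw [← intervalIntegral.integral_sub (c1.intervalIntegrable _ _) (c2.intervalIntegrable _ _),
        ← Real.norm_eq_abs, ← hipe, ← intervalIntegral.integral_const_mul]
      refine (intervalIntegral.norm_integral_le_integral_norm hπ.le).trans ?_
      apply intervalIntegral.integral_mono_on hπ.le
      · exact (c1.sub c2).norm.intervalIntegrable _ _
      · exact (continuous_const.mul (homc.pow 2)).intervalIntegrable _ _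
      · intro x _
        rw [← sub_mul, norm_mul, Real.norm_eq_abs, Real.norm_of_nonneg (by positivity)]
        have := (hQ (Real.cos x) ⟨Real.neg_one_le_cos x, Real.cos_le_one x⟩).le
        gcongr
    rw [hpoly Q] at k1
    have k3 : |ar n / ip s c 0 0 * (∫ x in (0 : ℝ)..Real.pi, Q.eval (Real.cos x) * om s c x ^ 2) -
        ar n / ip s c 0 0 * ∫ x in (0 : ℝ)..Real.pi, f (Real.cos x) * om s c x ^ 2| ≤ ε * ar n := by
      rw [← mul_sub, abs_mul, abs_of_pos (by positivity)]
      calc ar n / ip s c 0 0 * _ ≤ ar n / ip s c 0 0 * (ε * ip s c 0 0) := by gcongr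
        _ = _ := by field_simp
    rw [abs_le] at k1 k3 ⊢
    constructor <;> linarith [k1.1, k1.2, k3.1, k3.2]
  have h3 : |(∫ w, f (pv p w) ∂(sg n)) - ar n / ip s c 0 0 *
      ∫ x in (0 : ℝ)..Real.pi, f (Real.cos x) * om s c x ^ 2| ≤ 0 := by
    refine le_of_forall_pos_le_add fun δ hδ => ?_
    refine (key (δ / (2 * ar n)) (by positivity)).trans (le_of_eq ?_)
    field_simp
    ring
  have h4 := abs_nonpos_iff.1 h3
  linarith

/-- the law for powers of complex continuous functions -/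
theorem law_q {p : MvPolynomial (Fin n) ℝ} (h : Iso n g s c (cx p)) (H : ℝ → ℂ) (hH : Continuous H)
    (q : ℝ) (hq : 0 < q) : ∫⁻ w, ‖H (pv p w)‖ₑ ^ q ∂(sg n) = ENNReal.ofReal (ar n / ip s c 0 0) *
      ∫⁻ x in Ioo 0 Real.pi, ‖H (Real.cos x)‖ₑ ^ q * ENNReal.ofReal (om s c x ^ 2) := by
  have hn := h.n2
  have hip := ip_pos h.adm 0
  have har := ar_pos (n := n) (by omega)
  have homc := om_cont h.adm
  have hπ := Real.pi_pos
  have hf : Continuous fun t : ℝ => ‖H t‖ ^ q := hH.norm.rpow_const fun _ => Or.inr hq.le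
  have h1 := law_cont h _ hf
  have e1 : ∫⁻ w, ‖H (pv p w)‖ₑ ^ q ∂(sg n) = ENNReal.ofReal (∫ w, ‖H (pv p w)‖ ^ q ∂(sg n)) := by
    have i1 : Integrable (fun w => ‖H (pv p w)‖ ^ q) (sg n) := sg_int (hf.comp (pv_cont p))
    rw [ofReal_integral_eq_lintegral_ofReal i1
      (Filter.Eventually.of_forall fun w => by positivity)]
    refine lintegral_congr fun w => ?_
    rw [← ofReal_norm, ENNReal.ofReal_rpow_of_nonneg (norm_nonneg _) hq.le]
  have c2 : Continuous fun x => ‖H (Real.cos x)‖ ^ q * om s c x ^ 2 :=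
    (hf.comp Real.continuous_cos).mul (homc.pow 2)
  have e2 : ∫⁻ x in Ioo 0 Real.pi, ‖H (Real.cos x)‖ₑ ^ q * ENNReal.ofReal (om s c x ^ 2) =
      ENNReal.ofReal (∫ x in (0 : ℝ)..Real.pi, ‖H (Real.cos x)‖ ^ q * om s c x ^ 2) := by
    rw [intervalIntegral.integral_of_le hπ.le, integral_Ioc_eq_integral_Ioo,
      ofReal_integral_eq_lintegral_ofReal]
    · refine lintegral_congr fun x => ?_
      rw [← ofReal_norm, ENNReal.ofReal_rpow_of_nonneg (norm_nonneg _) hq.le,
        ← ENNReal.ofReal_mul (by positivity)]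
    · have := c2.intervalIntegrable (μ := volume) 0 Real.pi
      rw [intervalIntegrable_iff_integrableOn_Ioo_of_le hπ.le] at this
      exact this
    · exact Filter.Eventually.of_forall fun x => by positivity
  rw [e1, e2, ← ENNReal.ofReal_mul (by positivity), h1]

end Pool.Agent.H72.Is
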