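import Mathlib
import Pool.Agent.H72.Is.K3
set_option autoImplicit false

/-! The bound for polynomial densities. -/

open MeasureTheory Set Metric
open scoped ENNReal RealInnerProductSpace

namespace Pool.Agent.H72.Is

open MvPolynomial (pderiv)
open Pool.Agent.H789R2.FR (E sg T sg_finite sg_ae)
open Pool.Agent.W5h55.SH
open Pool.Agent.H72.Co
open Finset (range)

variable {n g ν : ℕ} {s c : ℝ}

theorem nk_sq (h : Adm s c) (k : ℕ) : nk s c k * nk s c k * ip s c k k = 1 := by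
  unfold nk
  have h1 := ip_pos h k
  rw [← mul_inv, Real.mul_self_sqrt h1.le, inv_mul_cancel₀ h1.ne']

/-- the coefficients of a polynomial density -/
theorem co_poly (h : Adm s c) (K : ℕ) (γ : ℕ → ℂ) (k : ℕ) (hk : k < K) :
    co s c (fun x => (∑ j ∈ range K, γ j * ((hh s c j (Real.cos x) : ℝ) : ℂ)) *
      ((om s c x : ℝ) : ℂ)) k * ((nk s c k : ℝ) : ℂ) = γ k := by
  have homc := om_cont h
  have e1 : ∀ x : ℝ, (∑ j ∈ range K, γ j * ((hh s c j (Real.cos x) : ℝ) : ℂ)) *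
      ((om s c x : ℝ) : ℂ) * ((ph s c k x : ℝ) : ℂ) = ∑ j ∈ range K,
        (γ j * ((nk s c k : ℝ) : ℂ)) * ((om s c x ^ 2 * (hx s c j x * hx s c k x) : ℝ) : ℂ) := by
    intro x
    rw [Finset.sum_mul, Finset.sum_mul]
    apply Finset.sum_congr rfl
    intro j _
    unfold ph hx
    push_cast
    ring
  unfold co
  simp only [e1]
  rw [intervalIntegral.integral_finsetSum]
  · have e2 : ∀ j, ∫ x in (0 : ℝ)..Real.pi, (γ j * ((nk s c k : ℝ) : ℂ)) *
        ((om s c x ^ 2 * (hx s c j x * hx s c k x) : ℝ) : ℂ) =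
        (γ j * ((nk s c k : ℝ) : ℂ)) * ((ip s c j k : ℝ) : ℂ) := by
      intro j
      rw [intervalIntegral.integral_const_mul, intervalIntegral.integral_ofReal]
      rfl
    rw [Finset.sum_congr rfl fun j _ => e2 j, Finset.sum_eq_single k]
    · have := nk_sq h k
      have h2 : ((nk s c k : ℝ) : ℂ) * ((nk s c k : ℝ) : ℂ) * ((ip s c k k : ℝ) : ℂ) = 1 := by
        exact_mod_cast this
      linear_combination (γ k) * h2
    · intro j _ hj
      rw [ip_orth h hj]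
      simp
    · intro h0
      exact absurd (Finset.mem_range.2 hk) h0
  · intro j _
    apply Continuous.intervalIntegrable
    have := hx_cont (s := s) (c := c) j
    have := hx_cont (s := s) (c := c) k
    fun_prop

/-- the one variable function on the sphere of radius `r` -/
noncomputable def HF (s c : ℝ) (g ν K : ℕ) (γ : ℕ → ℂ) (r t : ℝ) : ℂ :=
  ∑ k ∈ range K, γ k * Em (g * k + ν) r * ((hh s c k t : ℝ) : ℂ)

theorem HF_cont (K : ℕ) (γ : ℕ → ℂ) (r : ℝ) : Continuous (HF s c g ν K γ r) := by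
  unfold HF
  apply continuous_finsetSum
  intro k _
  have : Continuous (hh s c k) := (pk s c k).continuous
  fun_prop

theorem HF_SE (h : Adm s c) (K : ℕ) (γ : ℕ → ℂ) (r x : ℝ) :
    SE s c g ν (fun x => (∑ j ∈ range K, γ j * ((hh s c j (Real.cos x) : ℝ) : ℂ)) *
      ((om s c x : ℝ) : ℂ)) (fun k => ((ph s c k x : ℝ) : ℂ)) (range K) r =
      HF s c g ν K γ r (Real.cos x) * ((om s c x : ℝ) : ℂ) := by
  unfold SE HF
  rw [Finset.sum_mul]
  apply Finset.sum_congr rfl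
  intro k hk
  have h1 := co_poly h K γ k (Finset.mem_range.1 hk)
  beta_reduce
  rw [← h1]
  unfold ph hx
  push_cast
  ring

/-- the transform on the sphere of radius `r` -/
theorem T_HF {p : MvPolynomial (Fin (2 * ν + 2)) ℝ} (h : Iso (2 * ν + 2) g s c (cx p)) (K : ℕ)
    (γ : ℕ → ℂ) (Q : MvPolynomial (Fin (2 * ν + 2)) ℂ)
    (hQ : ∀ w, ‖w‖ = 1 → ev Q w = ∑ k ∈ range K, γ k * ((hh s c k (pv p w) : ℝ) : ℂ)) (r : ℝ)
    (hr : 0 ≤ r) (w : E (2 * ν + 2)) (hw : ‖w‖ = 1) :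
    ((r ^ ν : ℝ) : ℂ) * T (ev Q) (r • w) =
      ((Kn ν : ℝ) : ℂ) * Complex.I ^ ν * HF s c g ν K γ r (pv p w) := by
  have e0 : ∀ (S : Finset ℕ) (x : E (2 * ν + 2)), T (ev (∑ k ∈ S, γ k • YY g s c (cx p) k)) x =
      ∑ k ∈ S, γ k * T (ev (YY g s c (cx p) k)) x := by
    intro S x
    induction S using Finset.induction_on with
    | empty =>
      rw [Finset.sum_empty, Finset.sum_empty]
      unfold T ev
      simp
    | insert a S ha ih =>
      rw [Finset.sum_insert ha, Finset.sum_insert ha, T_ev_add, T_ev_smul, ih]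
  have e1 : T (ev Q) (r • w) = T (ev (∑ k ∈ range K, γ k • YY g s c (cx p) k)) (r • w) := by
    apply T_congr
    intro v hv
    rw [hQ v hv, ev_sum]
    apply Finset.sum_congr rfl
    intro k _
    rw [MvPolynomial.smul_eq_C_mul, ev_mul, ev_C, ev_YY p v hv]
  rw [e1, e0, Finset.mul_sum]
  unfold HF
  rw [Finset.mul_sum]
  apply Finset.sum_congr rfl
  intro k _
  have h1 := T_Y h k r hr w hw
  rw [ev_YY p w hw] at h1
  linear_combination γ k * h1

theorem sph_norm {p : MvPolynomial (Fin (2 * ν + 2)) ℝ} (h : Iso (2 * ν + 2) g s c (cx p)) (K : ℕ)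
    (γ : ℕ → ℂ) (Q : MvPolynomial (Fin (2 * ν + 2)) ℂ)
    (hQ : ∀ w, ‖w‖ = 1 → ev Q w = ∑ k ∈ range K, γ k * ((hh s c k (pv p w) : ℝ) : ℂ)) (r : ℝ)
    (hr : 0 < r) (σ : ℝ) (hσ : 0 < σ) :
    ENNReal.ofReal (r ^ (2 * ν + 2 - 1)) * ∫⁻ w, ‖T (ev Q) (r • w)‖ₑ ^ (2 + σ) ∂(sg (2 * ν + 2)) =
      ENNReal.ofReal (Kn ν ^ (2 + σ) * (ar (2 * ν + 2) / ip s c 0 0)) *
      ((∫⁻ x in Ioo 0 Real.pi, ‖SE s c g ν (fun x => (∑ j ∈ range K,
        γ j * ((hh s c j (Real.cos x) : ℝ) : ℂ)) * ((om s c x : ℝ) : ℂ))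
        (fun k => ((ph s c k x : ℝ) : ℂ)) (range K) r‖ₑ ^ (2 + σ) * wt s c σ x) *
          ENNReal.ofReal (r ^ (1 - ν * σ))) := by
  have hK := Kn_pos ν
  have hip := ip_pos h.adm 0
  have har := ar_pos (n := 2 * ν + 2) (by omega)
  have hq : 0 < 2 + σ := by linarith
  have e1 : ∫⁻ w, ‖T (ev Q) (r • w)‖ₑ ^ (2 + σ) ∂(sg (2 * ν + 2)) =
      ENNReal.ofReal ((Kn ν * (r ^ ν)⁻¹) ^ (2 + σ)) *
        ∫⁻ w, ‖HF s c g ν K γ r (pv p w)‖ₑ ^ (2 + σ) ∂(sg (2 * ν + 2)) := by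
    rw [← lintegral_const_mul' _ _ ENNReal.ofReal_ne_top]
    apply lintegral_congr_ae
    filter_upwards [sg_ae (2 * ν + 2)] with w hw
    have h1 := T_HF h K γ Q hQ r hr.le w hw
    have hrν : ((r ^ ν : ℝ) : ℂ) ≠ 0 := by
      have : r ^ ν ≠ 0 := by positivity
      exact_mod_cast this
    have h2 : T (ev Q) (r • w) = (((Kn ν * (r ^ ν)⁻¹ : ℝ)) : ℂ) * (Complex.I ^ ν *
        HF s c g ν K γ r (pv p w)) := by
      rw [Complex.ofReal_mul, Complex.ofReal_inv]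
      field_simp
      linear_combination h1
    have h3 : ‖(((Kn ν * (r ^ ν)⁻¹ : ℝ)) : ℂ)‖ₑ = ENNReal.ofReal (Kn ν * (r ^ ν)⁻¹) := by
      rw [← ofReal_norm, Complex.norm_real, Real.norm_of_nonneg (by positivity)]
    have h4 : ‖Complex.I ^ ν‖ₑ = 1 := by
      rw [← ofReal_norm, norm_pow, Complex.norm_I, one_pow, ENNReal.ofReal_one]
    rw [h2, enorm_mul, enorm_mul, h3, h4, one_mul, ENNReal.mul_rpow_of_nonneg _ _ hq.le,
      ENNReal.ofReal_rpow_of_nonneg (by positivity) hq.le]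
  have e2 := law_q h (HF s c g ν K γ r) (HF_cont K γ r) (2 + σ) hq
  have e3 : ∫⁻ x in Ioo 0 Real.pi, ‖HF s c g ν K γ r (Real.cos x)‖ₑ ^ (2 + σ) *
      ENNReal.ofReal (om s c x ^ 2) = ∫⁻ x in Ioo 0 Real.pi, ‖SE s c g ν (fun x => (∑ j ∈ range K,
        γ j * ((hh s c j (Real.cos x) : ℝ) : ℂ)) * ((om s c x : ℝ) : ℂ))
        (fun k => ((ph s c k x : ℝ) : ℂ)) (range K) r‖ₑ ^ (2 + σ) * wt s c σ x := by
    apply setLIntegral_congr_fun measurableSet_Ioo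
    intro x hx
    have hom := om_pos s c hx.1 hx.2
    beta_reduce
    rw [HF_SE h.adm, enorm_mul, ENNReal.mul_rpow_of_nonneg _ _ hq.le, mul_assoc]
    congr 1
    unfold wt
    rw [← ofReal_norm, Complex.norm_real, Real.norm_of_nonneg hom.le,
      ENNReal.ofReal_rpow_of_nonneg hom.le hq.le, ← ENNReal.ofReal_mul (by positivity),
      ← Real.rpow_add hom]
    congr 1
    rw [show 2 + σ + -σ = 2 by ring, Real.rpow_two]
  rw [e1, e2, e3]
  have e4 : r ^ (2 * ν + 2 - 1) * (Kn ν * (r ^ ν)⁻¹) ^ (2 + σ) =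
      Kn ν ^ (2 + σ) * r ^ (1 - ν * σ) := by
    rw [Real.mul_rpow hK.le (by positivity), ← Real.rpow_natCast r (2 * ν + 2 - 1),
      ← Real.rpow_natCast r ν, ← Real.rpow_neg hr.le, ← Real.rpow_mul hr.le]
    have h5 : ((2 * ν + 2 - 1 : ℕ) : ℝ) = 2 * ν + 1 := by
      rw [show 2 * ν + 2 - 1 = 2 * ν + 1 by omega]
      push_cast
      ring
    rw [h5]
    have h6 : r ^ ((2 : ℝ) * ν + 1) * r ^ (-(ν : ℝ) * (2 + σ)) = r ^ (1 - ν * σ) := by
      rw [← Real.rpow_add hr]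
      congr 1
      ring
    rw [← h6]
    ring
  obtain ⟨I, hI⟩ : ∃ I, I = ∫⁻ x in Ioo 0 Real.pi, ‖SE s c g ν (fun x => (∑ j ∈ range K,
        γ j * ((hh s c j (Real.cos x) : ℝ) : ℂ)) * ((om s c x : ℝ) : ℂ))
        (fun k => ((ph s c k x : ℝ) : ℂ)) (range K) r‖ₑ ^ (2 + σ) * wt s c σ x := ⟨_, rfl⟩
  rw [← hI]
  calc ENNReal.ofReal (r ^ (2 * ν + 2 - 1)) * (ENNReal.ofReal ((Kn ν * (r ^ ν)⁻¹) ^ (2 + σ)) *
        (ENNReal.ofReal (ar (2 * ν + 2) / ip s c 0 0) * I))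
      = (ENNReal.ofReal (r ^ (2 * ν + 2 - 1)) * ENNReal.ofReal ((Kn ν * (r ^ ν)⁻¹) ^ (2 + σ))) *
        ENNReal.ofReal (ar (2 * ν + 2) / ip s c 0 0) * I := by ring
    _ = ENNReal.ofReal (Kn ν ^ (2 + σ)) * ENNReal.ofReal (r ^ (1 - ν * σ)) *
        ENNReal.ofReal (ar (2 * ν + 2) / ip s c 0 0) * I := by
        rw [← ENNReal.ofReal_mul (by positivity), e4, ENNReal.ofReal_mul (by positivity)]
    _ = _ := by
        rw [ENNReal.ofReal_mul (by positivity : (0 : ℝ) ≤ Kn ν ^ (2 + σ))]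
        ring

/-- **the bound for polynomials** -/
theorem poly_bound {p : MvPolynomial (Fin (2 * ν + 2)) ℝ} (h : Iso (2 * ν + 2) g s c (cx p)) {σ : ℝ}
    (h0 : 0 < σ) (h1 : (s - c + 1) * σ < 2) (h2 : (s + c + 1) * σ < 2)
    (h3 : 2 < (2 * (ν : ℝ) + 1) * σ) : ∃ C : ℝ, 0 < C ∧ ∀ F : Polynomial ℂ,
    (∀ t ∈ Icc (-1 : ℝ) 1, ‖F.eval (t : ℂ)‖ ≤ 1) → ∀ Q : MvPolynomial (Fin (2 * ν + 2)) ℂ,
    (∀ w, ‖w‖ = 1 → ev Q w = F.eval ((pv p w : ℝ) : ℂ)) →
    ∫⁻ x, ‖T (ev Q) x‖ₑ ^ (2 + σ) ≤ ENNReal.ofReal C := by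
  have hg : (g : ℝ) * s = 2 * ν := by
    have := h.dim
    push_cast at this
    linarith
  have hg1 : 1 ≤ g := le_trans (by norm_num) h.two
  have hq : 0 < 2 + σ := by linarith
  obtain ⟨A, hA, hall⟩ := all_r h.adm g ν hg hg1 h0 h1 h2 h3
  have fin := sg_finite (2 * ν + 2)
  obtain ⟨B, hB⟩ : ∃ B : ℝ≥0∞, B = ENNReal.ofReal (Kn ν ^ (2 + σ) * (ar (2 * ν + 2) / ip s c 0 0)) :=
    ⟨_, rfl⟩
  obtain ⟨D, hD⟩ : ∃ D : ℝ≥0∞, D = ENNReal.ofReal (ar (2 * ν + 2)) ^ (2 + σ) *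
      sg (2 * ν + 2) univ := ⟨_, rfl⟩
  have hBt : B ≠ ∞ := by rw [hB]; exact ENNReal.ofReal_ne_top
  have hDt : D ≠ ∞ := by
    rw [hD]
    exact ENNReal.mul_ne_top (ENNReal.rpow_ne_top_of_nonneg hq.le ENNReal.ofReal_ne_top)
      (measure_ne_top _ _)
  have hfin : D + B * A ≠ ∞ := by
    rw [ENNReal.add_ne_top]
    exact ⟨hDt, ENNReal.mul_ne_top hBt hA⟩
  refine ⟨(D + B * A).toReal + 1, by positivity, fun F hF Q hQ => ?_⟩
  have hle : D + B * A ≤ ENNReal.ofReal ((D + B * A).toReal + 1) := by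
    calc D + B * A = ENNReal.ofReal (D + B * A).toReal := (ENNReal.ofReal_toReal hfin).symm
      _ ≤ _ := ENNReal.ofReal_le_ofReal (by linarith)
  refine le_trans ?_ hle
  obtain ⟨γ, hγ⟩ := expand (s := s) (c := c) F.natDegree F le_rfl
  obtain ⟨K, hK⟩ : ∃ K, K = F.natDegree + 1 := ⟨_, rfl⟩
  rw [← hK] at hγ
  have hev : ∀ t : ℝ, F.eval (t : ℂ) = ∑ k ∈ range K, γ k * ((hh s c k t : ℝ) : ℂ) := by
    intro t
    conv_lhs => rw [hγ]
    rw [Polynomial.eval_finsetSum]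
    apply Finset.sum_congr rfl
    intro k _
    rw [Polynomial.eval_mul, Polynomial.eval_C, pc_eval]
  have hQ' : ∀ w, ‖w‖ = 1 → ev Q w = ∑ k ∈ range K, γ k * ((hh s c k (pv p w) : ℝ) : ℂ) := by
    intro w hw
    rw [hQ w hw, hev]
  have hQ1 : ∀ w, ‖w‖ = 1 → ‖ev Q w‖ ≤ 1 := by
    intro w hw
    rw [hQ w hw]
    exact hF _ (abs_le.1 (pv_le h w hw))
  have hm : Measurable fun x : E (2 * ν + 2) => ‖T (ev Q) x‖ₑ ^ (2 + σ) :=
    (T_ev_cont Q).measurable.enorm.pow_const _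
  rw [polar' (by omega) _ hm]
  have hcov : Ioi (0 : ℝ) ⊆ Ioc 0 1 ∪ Ioi 1 := by
    intro r hr
    rcases le_or_gt r 1 with h | h
    · exact Or.inl ⟨hr, h⟩
    · exact Or.inr h
  refine (lintegral_mono_set hcov).trans ((lintegral_union_le _ _ _).trans ?_)
  apply add_le_add
  · have hT1 : ∀ x, ‖T (ev Q) x‖ₑ ≤ ENNReal.ofReal (ar (2 * ν + 2)) := by
      intro x
      rw [← ofReal_norm]
      apply ENNReal.ofReal_le_ofReal
      rw [← ar_sg]
      exact T_le_sph _ hQ1 x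
    calc ∫⁻ r in Ioc (0 : ℝ) 1, ENNReal.ofReal (r ^ (2 * ν + 2 - 1)) *
          ∫⁻ w, ‖T (ev Q) (r • w)‖ₑ ^ (2 + σ) ∂(sg (2 * ν + 2))
        ≤ ∫⁻ r in Ioc (0 : ℝ) 1, 1 * D := by
          apply setLIntegral_mono' measurableSet_Ioc
          intro r hr
          have hr0 := hr.1
          gcongr
          · rw [ENNReal.ofReal_le_one]
            exact pow_le_one₀ hr.1.le hr.2
          · rw [hD, ← lintegral_const]
            apply lintegral_mono
            intro w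
            exact ENNReal.rpow_le_rpow (hT1 (r • w)) hq.le
      _ = D := by
          rw [lintegral_const, Measure.restrict_apply_univ, Real.volume_Ioc]
          simp
  · have homc := om_cont h.adm
    obtain ⟨f, hf⟩ : ∃ f : ℝ → ℂ, f = fun x => (∑ j ∈ range K,
        γ j * ((hh s c j (Real.cos x) : ℝ) : ℂ)) * ((om s c x : ℝ) : ℂ) := ⟨_, rfl⟩
    have hfc : Continuous f := by
      rw [hf]
      refine Continuous.mul ?_ (Complex.continuous_ofReal.comp homc)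
      apply continuous_finsetSum
      intro j _
      have : Continuous fun x => hh s c j (Real.cos x) := hx_cont j
      fun_prop
    have hf1 : ∀ x ∈ Icc 0 Real.pi, ‖f x‖ ≤ 1 := by
      intro x hx
      rw [hf]
      beta_reduce
      rw [← hev, norm_mul, Complex.norm_real, Real.norm_of_nonneg (om_nonneg hx.1 hx.2)]
      have e1 := hF (Real.cos x) ⟨Real.neg_one_le_cos x, Real.cos_le_one x⟩
      have e2 := om_le_one h.adm hx.1 hx.2
      have e3 := om_nonneg (s := s) (c := c) hx.1 hx.2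
      calc _ ≤ 1 * 1 := mul_le_mul e1 e2 e3 zero_le_one
        _ = 1 := one_mul 1
    have hmain := hall f hfc hf1 K
    calc ∫⁻ r in Ioi (1 : ℝ), ENNReal.ofReal (r ^ (2 * ν + 2 - 1)) *
          ∫⁻ w, ‖T (ev Q) (r • w)‖ₑ ^ (2 + σ) ∂(sg (2 * ν + 2))
        = ∫⁻ r in Ioi (1 : ℝ), B * ((∫⁻ x in Ioo 0 Real.pi,
          ‖SE s c g ν f (fun k => ((ph s c k x : ℝ) : ℂ)) (range K) r‖ₑ ^ (2 + σ) * wt s c σ x) *
            ENNReal.ofReal (r ^ (1 - ν * σ))) := by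
          apply setLIntegral_congr_fun measurableSet_Ioi
          intro r hr
          have hr0 : 0 < r := lt_trans one_pos hr
          beta_reduce
          rw [hB, hf]
          exact sph_norm h K γ Q hQ' r hr0 σ h0
      _ = B * ∫⁻ r in Ioi (1 : ℝ), ((∫⁻ x in Ioo 0 Real.pi,
          ‖SE s c g ν f (fun k => ((ph s c k x : ℝ) : ℂ)) (range K) r‖ₑ ^ (2 + σ) * wt s c σ x) *
            ENNReal.ofReal (r ^ (1 - ν * σ))) := lintegral_const_mul' _ _ hBt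
      _ ≤ B * A := by gcongr

end Pool.Agent.H72.Is
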