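import Mathlib
import Pool.Agent.H72.Is.K4
set_option autoImplicit false

/-! The bound for all bounded Borel functions of the isoparametric function. -/

open MeasureTheory Set Metric
open scoped ENNReal RealInnerProductSpace BoundedContinuousFunction

namespace Pool.Agent.H72.Is

open Pool.Agent.H789R2.FR (E sg T sg_finite sg_ae)
open Pool.Agent.W5h55.SH
open Pool.Agent.H72.Co
open Finset (range)

variable {n g ν : ℕ} {s c : ℝ}

theorem ev_aeval (p : MvPolynomial (Fin n) ℝ) (F : Polynomial ℂ) (w : E n) :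
    ev (Polynomial.aeval (cx p) F) w = F.eval ((pv p w : ℝ) : ℂ) := by
  rw [← ev_cx]
  unfold ev
  rw [Polynomial.aeval_def, Polynomial.hom_eval₂]
  have : (MvPolynomial.eval (fun i => ((w i : ℝ) : ℂ))).comp
      (algebraMap ℂ (MvPolynomial (Fin n) ℂ)) = RingHom.id ℂ := by
    ext z
    simp
  rw [this]
  rfl

/-- approximation -/
theorem approx1 {p : MvPolynomial (Fin n) ℝ} (h : Iso n g s c (cx p)) (Γ : ℝ → ℂ)
    (hΓ : Measurable Γ) (hΓ1 : ∀ x, ‖Γ x‖ ≤ 1) (ε : ℝ) (hε : 0 < ε) :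
    ∃ F : Polynomial ℂ, (∀ t ∈ Icc (-1 : ℝ) 1, ‖F.eval (t : ℂ)‖ ≤ 1) ∧
      ∫ w, ‖F.eval ((pv p w : ℝ) : ℂ) - Γ (pv p w)‖ ∂(sg n) ≤ ε := by
  have f1 := sg_finite n
  have he := pv_cont p
  set μ : Measure ℝ := (sg n).map (pv p) with hμ
  have hem : Measurable (pv p) := he.measurable
  have f2 : IsFiniteMeasure μ := by
    rw [hμ]
    exact Measure.isFiniteMeasure_map _ _
  set S : ℝ := (sg n).real univ with hSS
  have hS0 : 0 ≤ S := measureReal_nonneg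
  have hΓi : Integrable Γ μ := Integrable.of_bound (C := 1) hΓ.aestronglyMeasurable
    (Filter.Eventually.of_forall hΓ1)
  obtain ⟨g, hg, hgi⟩ := hΓi.exists_boundedContinuous_integral_sub_le (ε := ε / 4) (by positivity)
  -- the retraction
  set R : ℂ → ℂ := fun z => ((max 1 ‖z‖)⁻¹ : ℝ) • z with hR
  have hRc : Continuous R := by
    have h1 : Continuous fun z : ℂ => (max 1 ‖z‖)⁻¹ := by
      refine Continuous.inv₀ (by fun_prop) fun z => ?_
      have : 1 ≤ max 1 ‖z‖ := le_max_left _ _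
      linarith
    exact h1.smul continuous_id
  have hR1 : ∀ z, ‖R z‖ ≤ 1 := by
    intro z
    have h1 : 0 < max 1 ‖z‖ := lt_of_lt_of_le one_pos (le_max_left _ _)
    simp only [hR]
    rw [norm_smul, Real.norm_of_nonneg (by positivity), inv_mul_le_iff₀ h1, mul_one]
    exact le_max_right _ _
  have hR2 : ∀ z c : ℂ, ‖c‖ ≤ 1 → ‖R z - c‖ ≤ 2 * ‖z - c‖ := by
    intro z c hc1
    have h1 : 0 < max 1 ‖z‖ := lt_of_lt_of_le one_pos (le_max_left _ _)
    have h2 : ‖R z - z‖ ≤ ‖z - c‖ := by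
      have e1 : R z - z = (((max 1 ‖z‖)⁻¹ - 1 : ℝ)) • z := by
        simp only [hR]
        rw [sub_smul, one_smul]
      rw [e1, norm_smul, Real.norm_eq_abs]
      rcases le_or_gt ‖z‖ 1 with h | h
      · rw [max_eq_left h]
        simp
      · rw [max_eq_right h.le]
        have h3 : ‖z‖⁻¹ ≤ 1 := inv_le_one_of_one_le₀ h.le
        rw [abs_of_nonpos (by linarith)]
        have h4 : -(‖z‖⁻¹ - 1) * ‖z‖ = ‖z‖ - 1 := by
          have : ‖z‖ ≠ 0 := by linarith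
          field_simp
          ring
        rw [h4]
        have h5 := norm_sub_norm_le z c
        linarith
    calc ‖R z - c‖ = ‖(R z - z) + (z - c)‖ := by congr 1; ring
      _ ≤ ‖R z - z‖ + ‖z - c‖ := norm_add_le _ _
      _ ≤ _ := by linarith
  -- uniform approximation
  set ε' : ℝ := ε / (4 * (S + 1)) with hε'
  have hε'0 : 0 < ε' := by positivity
  obtain ⟨Q1, hQ1⟩ := exists_polynomial_near_of_continuousOn (-1) 1 (fun x => (R (g x)).re)
    (Complex.continuous_re.comp (hRc.comp g.continuous)).continuousOn (ε' / 2) (by positivity)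
  obtain ⟨Q2, hQ2⟩ := exists_polynomial_near_of_continuousOn (-1) 1 (fun x => (R (g x)).im)
    (Complex.continuous_im.comp (hRc.comp g.continuous)).continuousOn (ε' / 2) (by positivity)
  obtain ⟨F0, hF0⟩ : ∃ F0 : Polynomial ℂ, F0 = Q1.map (algebraMap ℝ ℂ) +
    Polynomial.C Complex.I * Q2.map (algebraMap ℝ ℂ) := ⟨_, rfl⟩
  have hmapev : ∀ (Q : Polynomial ℝ) (t : ℝ), (Q.map (algebraMap ℝ ℂ)).eval (t : ℂ) =
      ((Q.eval t : ℝ) : ℂ) := by
    intro Q t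
    rw [Polynomial.eval_map]
    exact Polynomial.eval₂_at_apply (algebraMap ℝ ℂ) t
  have hF0e : ∀ t : ℝ, F0.eval (t : ℂ) = ((Q1.eval t : ℝ) : ℂ) + Complex.I * ((Q2.eval t : ℝ) : ℂ) := by
    intro t
    rw [hF0, Polynomial.eval_add, Polynomial.eval_mul, Polynomial.eval_C, hmapev, hmapev]
  have happ : ∀ t ∈ Icc (-1 : ℝ) 1, ‖F0.eval (t : ℂ) - R (g t)‖ ≤ ε' := by
    intro t ht
    have e1 : F0.eval (t : ℂ) - R (g t) =
        (((Q1.eval t - (R (g t)).re : ℝ)) : ℂ) +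
        Complex.I * (((Q2.eval t - (R (g t)).im : ℝ)) : ℂ) := by
      rw [hF0e]
      conv_lhs => rw [← Complex.re_add_im (R (g t))]
      push_cast
      ring
    rw [e1]
    refine (norm_add_le _ _).trans ?_
    rw [norm_mul, Complex.norm_I, one_mul, Complex.norm_real, Complex.norm_real, Real.norm_eq_abs,
      Real.norm_eq_abs]
    have := (hQ1 t ht).le
    have := (hQ2 t ht).le
    linarith
  have hp : 0 < 1 + ε' := by positivity
  obtain ⟨F, hF⟩ : ∃ F : Polynomial ℂ, F = Polynomial.C ((((1 + ε')⁻¹ : ℝ)) : ℂ) * F0 := ⟨_, rfl⟩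
  have hFe : ∀ t : ℝ, F.eval (t : ℂ) = (((1 + ε')⁻¹ : ℝ) : ℂ) * F0.eval (t : ℂ) := by
    intro t
    rw [hF, Polynomial.eval_mul, Polynomial.eval_C]
  have hle : ∀ t ∈ Icc (-1 : ℝ) 1, ‖F0.eval (t : ℂ)‖ ≤ 1 + ε' := by
    intro t ht
    have h1 := happ t ht
    have h2 := hR1 (g t)
    have h3 := norm_sub_norm_le (F0.eval (t : ℂ)) (R (g t))
    linarith
  have hF1 : ∀ t ∈ Icc (-1 : ℝ) 1, ‖F.eval (t : ℂ)‖ ≤ 1 := by
    intro t ht
    rw [hFe, norm_mul, Complex.norm_real, Real.norm_of_nonneg (by positivity),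
      inv_mul_le_iff₀ hp, mul_one]
    exact hle t ht
  refine ⟨F, hF1, ?_⟩
  have hpt : ∀ t ∈ Icc (-1 : ℝ) 1, ‖F.eval (t : ℂ) - Γ t‖ ≤ 2 * ε' + 2 * ‖Γ t - g t‖ := by
    intro t ht
    have h1 : ‖F.eval (t : ℂ) - F0.eval (t : ℂ)‖ ≤ ε' := by
      have e1 : F.eval (t : ℂ) - F0.eval (t : ℂ) =
          (((1 + ε')⁻¹ - 1 : ℝ) : ℂ) * F0.eval (t : ℂ) := by
        rw [hFe]
        push_cast
        ring
      rw [e1, norm_mul, Complex.norm_real, Real.norm_eq_abs]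
      have h2 : |(1 + ε')⁻¹ - 1| = ε' * (1 + ε')⁻¹ := by
        have h3 : (1 + ε')⁻¹ - 1 = -(ε' * (1 + ε')⁻¹) := by
          field_simp
          ring
        rw [h3, abs_neg, abs_of_pos (by positivity)]
      rw [h2]
      calc ε' * (1 + ε')⁻¹ * ‖F0.eval (t : ℂ)‖
          ≤ ε' * (1 + ε')⁻¹ * (1 + ε') := by
            gcongr
            exact hle t ht
        _ = ε' := by rw [mul_assoc, inv_mul_cancel₀ hp.ne', mul_one]
    have h2 := happ t ht
    have h3 := hR2 (g t) (Γ t) (hΓ1 _)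
    rw [norm_sub_rev (g t) (Γ t)] at h3
    calc ‖F.eval (t : ℂ) - Γ t‖
        = ‖(F.eval (t : ℂ) - F0.eval (t : ℂ)) +
          ((F0.eval (t : ℂ) - R (g t)) + (R (g t) - Γ t))‖ := by
          congr 1; ring
      _ ≤ ‖F.eval (t : ℂ) - F0.eval (t : ℂ)‖ +
          (‖F0.eval (t : ℂ) - R (g t)‖ + ‖R (g t) - Γ t‖) :=
          (norm_add_le _ _).trans (add_le_add le_rfl (norm_add_le _ _))
      _ ≤ _ := by linarith
  have hi1 : Integrable (fun w => ‖Γ (pv p w) - g (pv p w)‖) (sg n) := by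
    have h1 : Integrable (fun x => ‖Γ x - g x‖) μ := (hΓi.sub hgi).norm
    exact h1.comp_measurable hem
  have hi2 : ∫ w, ‖Γ (pv p w) - g (pv p w)‖ ∂(sg n) ≤ ε / 4 := by
    have h1 : ∫ x, ‖Γ x - g x‖ ∂μ = ∫ w, ‖Γ (pv p w) - g (pv p w)‖ ∂(sg n) := by
      rw [hμ, integral_map hem.aemeasurable]
      exact (hΓ.sub g.continuous.measurable).norm.aestronglyMeasurable
    rw [← h1]
    exact hg
  have hFc : Continuous fun w : E n => F.eval ((pv p w : ℝ) : ℂ) :=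
    F.continuous.comp (Complex.continuous_ofReal.comp he)
  have hi3 : Integrable (fun w => ‖F.eval ((pv p w : ℝ) : ℂ) - Γ (pv p w)‖) (sg n) := by
    refine Integrable.norm (Integrable.sub (sg_int hFc) ?_)
    exact Integrable.of_bound (C := 1) (hΓ.comp hem).aestronglyMeasurable
      (Filter.Eventually.of_forall fun w => hΓ1 _)
  calc ∫ w, ‖F.eval ((pv p w : ℝ) : ℂ) - Γ (pv p w)‖ ∂(sg n)
      ≤ ∫ w, (2 * ε' + 2 * ‖Γ (pv p w) - g (pv p w)‖) ∂(sg n) := by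
        refine integral_mono_ae hi3 ((integrable_const _).add (hi1.const_mul 2)) ?_
        filter_upwards [sg_ae n] with w hw
        exact hpt _ (abs_le.1 (pv_le h w hw))
    _ = 2 * ε' * S + 2 * ∫ w, ‖Γ (pv p w) - g (pv p w)‖ ∂(sg n) := by
        rw [integral_add (integrable_const _) (hi1.const_mul 2), integral_const, integral_const_mul,
          smul_eq_mul]
        ring
    _ ≤ 2 * ε' * S + 2 * (ε / 4) := by gcongr
    _ ≤ ε := by
        have h5 : ε' * S ≤ ε / 4 := by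
          rw [hε', div_mul_eq_mul_div, div_le_iff₀ (by positivity)]
          nlinarith
        linarith

/-- the bound for all bounded Borel functions, base exponents -/
theorem borel_bound {p : MvPolynomial (Fin (2 * ν + 2)) ℝ} (h : Iso (2 * ν + 2) g s c (cx p)) {σ : ℝ}
    (h0 : 0 < σ) (h1 : (s - c + 1) * σ < 2) (h2 : (s + c + 1) * σ < 2)
    (h3 : 2 < (2 * (ν : ℝ) + 1) * σ) : ∃ C : ℝ, 0 < C ∧ ∀ Γ : ℝ → ℂ, Measurable Γ →
    (∀ x, ‖Γ x‖ ≤ 1) → ∫⁻ x, ‖T (fun w => Γ (pv p w)) x‖ₑ ^ (2 + σ) ≤ ENNReal.ofReal C := by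
  obtain ⟨C, hC, hb⟩ := poly_bound h h0 h1 h2 h3
  refine ⟨C, hC, fun Γ hΓ hΓ1 => ?_⟩
  refine limit_bound {Q | ∃ F : Polynomial ℂ, (∀ t ∈ Icc (-1 : ℝ) 1, ‖F.eval (t : ℂ)‖ ≤ 1) ∧
    ∀ w, ‖w‖ = 1 → ev Q w = F.eval ((pv p w : ℝ) : ℂ)} (2 + σ) C (by linarith) ?_ _
    (hΓ.comp (pv_cont p).measurable) (fun w _ => hΓ1 _) ?_
  · rintro Q ⟨F, hF, hQ⟩ _
    exact hb F hF Q hQ
  · intro ε hε
    obtain ⟨F, hF, hFi⟩ := approx1 h Γ hΓ hΓ1 ε hε
    refine ⟨Polynomial.aeval (cx p) F, ⟨F, hF, fun w _ => ev_aeval p F w⟩, fun w hw => ?_, ?_⟩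
    · rw [ev_aeval]
      exact hF _ (abs_le.1 (pv_le h w hw))
    · simp only [ev_aeval]
      exact hFi

/-- the full range -/
theorem full_range {p : MvPolynomial (Fin (2 * ν + 2)) ℝ} (h : Iso (2 * ν + 2) g s c (cx p)) {q : ℝ}
    (hq : 2 * (2 * (ν : ℝ) + 2) / (2 * ν + 1) < q) : ∃ C : ℝ, 0 < C ∧ ∀ Γ : ℝ → ℂ, Measurable Γ →
    (∀ x, ‖Γ x‖ ≤ 1) → ∫⁻ x, ‖T (fun w => Γ (pv p w)) x‖ₑ ^ q ≤ ENNReal.ofReal C := by
  have hs := h.adm.one
  have hc := h.adm.le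
  have hc1 := le_abs_self c
  have hc2 := neg_abs_le c
  have hg2 : (2 : ℝ) ≤ g := by exact_mod_cast h.two
  have hdim : (g : ℝ) * s = 2 * ν := by
    have := h.dim
    push_cast at this
    linarith
  have hν : 2 * s ≤ 2 * (ν : ℝ) := by nlinarith
  have hν0 : (0 : ℝ) < 2 * ν + 1 := by linarith
  have a1 : 0 < s - c + 1 := by linarith
  have a2 : 0 < s + c + 1 := by linarith
  have b1 : 2 / (2 * (ν : ℝ) + 1) < 2 / (s - c + 1) := by
    apply div_lt_div_of_pos_left (by norm_num) a1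
    linarith
  have b2 : 2 / (2 * (ν : ℝ) + 1) < 2 / (s + c + 1) := by
    apply div_lt_div_of_pos_left (by norm_num) a2
    linarith
  have b3 : 2 / (2 * (ν : ℝ) + 1) < q - 2 := by
    have : 2 * (2 * (ν : ℝ) + 2) / (2 * ν + 1) = 2 + 2 / (2 * ν + 1) := by
      field_simp
      ring
    rw [this] at hq
    linarith
  obtain ⟨σ, hσ1, hσ2⟩ := exists_between (lt_min (lt_min b1 b2) b3)
  have c1 : σ < 2 / (s - c + 1) := lt_of_lt_of_le hσ2 ((min_le_left _ _).trans (min_le_left _ _))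
  have c2 : σ < 2 / (s + c + 1) := lt_of_lt_of_le hσ2 ((min_le_left _ _).trans (min_le_right _ _))
  have c3 : σ < q - 2 := lt_of_lt_of_le hσ2 (min_le_right _ _)
  have hσ0 : 0 < σ := lt_trans (by positivity) hσ1
  rw [lt_div_iff₀ a1] at c1
  rw [lt_div_iff₀ a2] at c2
  rw [div_lt_iff₀ hν0] at hσ1
  obtain ⟨C, hC, hb⟩ := borel_bound h hσ0 (by linarith) (by linarith) (by linarith)
  have har := ar_pos (n := 2 * ν + 2) (by omega)
  refine ⟨ar (2 * ν + 2) ^ (q - (2 + σ)) * C, by positivity, fun Γ hΓ hΓ1 => ?_⟩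
  have hT1 : ∀ x, ‖T (fun w => Γ (pv p w)) x‖ₑ ≤ ENNReal.ofReal (ar (2 * ν + 2)) := by
    intro x
    rw [← ofReal_norm]
    apply ENNReal.ofReal_le_ofReal
    rw [← ar_sg]
    exact T_le_sph _ (fun w _ => hΓ1 _) x
  calc ∫⁻ x, ‖T (fun w => Γ (pv p w)) x‖ₑ ^ q
      ≤ ∫⁻ x, ENNReal.ofReal (ar (2 * ν + 2) ^ (q - (2 + σ))) *
          ‖T (fun w => Γ (pv p w)) x‖ₑ ^ (2 + σ) := by
        apply lintegral_mono
        intro x
        beta_reduce
        have e : q = (q - (2 + σ)) + (2 + σ) := by ring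
        nth_rewrite 1 [e]
        rw [ENNReal.rpow_add_of_nonneg _ _ (by linarith) (by linarith),
          ← ENNReal.ofReal_rpow_of_nonneg har.le (by linarith)]
        have h5 : 0 ≤ q - (2 + σ) := by linarith
        have h6 := ENNReal.rpow_le_rpow (hT1 x) h5
        gcongr
    _ = ENNReal.ofReal (ar (2 * ν + 2) ^ (q - (2 + σ))) *
          ∫⁻ x, ‖T (fun w => Γ (pv p w)) x‖ₑ ^ (2 + σ) :=
        lintegral_const_mul' _ _ ENNReal.ofReal_ne_top
    _ ≤ ENNReal.ofReal (ar (2 * ν + 2) ^ (q - (2 + σ))) * ENNReal.ofReal C := by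
        gcongr
        exact hb Γ hΓ hΓ1
    _ = _ := by rw [← ENNReal.ofReal_mul (by positivity)]

end Pool.Agent.H72.Is
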