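import Mathlib
import Pool.Agent.H72.Is.K5
set_option autoImplicit false

/-! From real identities to the polynomial identities. -/

open MeasureTheory Set Metric
open scoped ENNReal RealInnerProductSpace BoundedContinuousFunction

namespace Pool.Agent.H72.Is

open MvPolynomial (pderiv)
open Pool.Agent.H789R2.FR (E sg T sg_finite sg_ae)
open Pool.Agent.W5h55.SH
open Pool.Agent.H72.Co
open Finset (range)

variable {n g : ℕ}

theorem eq_of_ev {p q : MvPolynomial (Fin n) ℂ} (h : ∀ w : E n, ev p w = ev q w) : p = q := by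
  by_contra hne
  obtain ⟨w, hw⟩ := exists_nonzero (sub_ne_zero.2 hne)
  apply hw
  have h1 := h w
  have h2 : p = (p - q) + q := by ring
  rw [h2, ev_add] at h1
  linear_combination h1

theorem ev_pd_cx (i : Fin n) (p : MvPolynomial (Fin n) ℝ) (w : E n) :
    ev (pderiv i (cx p)) w = ((pv (pderiv i p) w : ℝ) : ℂ) := by
  rw [← ev_cx]
  unfold cx
  rw [MvPolynomial.pderiv_map]

theorem ev_pd2_cx (i j : Fin n) (p : MvPolynomial (Fin n) ℝ) (w : E n) :
    ev (pderiv i (pderiv j (cx p))) w = ((pv (pderiv i (pderiv j p)) w : ℝ) : ℂ) := by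
  rw [← ev_cx]
  unfold cx
  rw [MvPolynomial.pderiv_map, MvPolynomial.pderiv_map]

/-- From the equations of Cartan and Münzner to the structure `Iso`. -/
theorem iso_of (a b : ℕ) (P : MvPolynomial (Fin n) ℝ) (hg : 2 ≤ g) (ha : 1 ≤ a) (hb : 1 ≤ b)
    (hP : P.IsHomogeneous g)
    (h1 : ∀ x : E n, ∑ i, pv (pderiv i P) x ^ 2 = (g : ℝ) ^ 2 * ‖x‖ ^ (2 * g - 2))
    (h2 : ∀ x : E n, ∑ i, pv (pderiv i (pderiv i P)) x =
      (g : ℝ) ^ 2 * ((b : ℝ) - a) / 2 * ‖x‖ ^ (g - 2))
    (h3 : g * (a + b) + 4 = 2 * n) :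
    Iso n g (((a : ℝ) + b) / 2) (((b : ℝ) - a) / 2) (cx P) := by
  have ha' : (1 : ℝ) ≤ a := by exact_mod_cast ha
  have hb' : (1 : ℝ) ≤ b := by exact_mod_cast hb
  have hg' : (2 : ℝ) ≤ g := by exact_mod_cast hg
  have hhom : (cx P).IsHomogeneous g := hP.map _
  have hlapv : ∀ x : E n, ev (lap (cx P)) x =
      (((g : ℝ) ^ 2 * ((b : ℝ) - a) / 2 * ‖x‖ ^ (g - 2) : ℝ) : ℂ) := by
    intro x
    unfold lap
    rw [ev_sum, ← h2 x, Complex.ofReal_sum]
    apply Finset.sum_congr rfl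
    intro i _
    rw [ev_pd2_cx]
  have hlaph : (lap (cx P)).IsHomogeneous (g - 2) := by
    obtain ⟨k, rfl⟩ : ∃ k, g = k + 2 := ⟨g - 2, by omega⟩
    exact lap_hom hhom
  have hn : 1 ≤ n := by omega
  have hpar : ((b : ℝ) - a) / 2 = 0 ∨ Even g := by
    rcases Nat.even_or_odd g with he | ho
    · exact Or.inr he
    · left
      obtain ⟨w0, hw0⟩ : ∃ w : E n, ‖w‖ = 1 := by
        obtain ⟨k, rfl⟩ : ∃ k, n = k + 1 := ⟨n - 1, by omega⟩
        exact ⟨EuclideanSpace.single 0 1, by simp⟩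
      have e1 := ev_smul (g - 2) _ hlaph (-1 : ℝ) w0
      rw [hlapv, hlapv, norm_smul, hw0] at e1
      have hodd : Odd (g - 2) := by
        obtain ⟨k, hk⟩ := ho
        exact ⟨k - 1, by omega⟩
      have e2 : (-1 : ℝ) ^ (g - 2) = -1 := hodd.neg_one_pow
      rw [e2] at e1
      simp only [norm_neg, norm_one, mul_one, one_pow] at e1
      push_cast at e1
      have e3 : (((g : ℝ) ^ 2 * ((b : ℝ) - a) / 2 : ℝ) : ℂ) = 0 := by
        push_cast
        linear_combination (1 / 2) * e1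
      rw [Complex.ofReal_eq_zero] at e3
      have e4 : (g : ℝ) ^ 2 ≠ 0 := by positivity
      have e5 : (g : ℝ) ^ 2 * (((b : ℝ) - a) / 2) = 0 := by linarith
      exact (mul_eq_zero.1 e5).resolve_left e4
  refine ⟨hg, ⟨by linarith, ?_⟩, hhom, hpar, ?_, ?_, ?_⟩
  · rw [abs_le]
    constructor <;> linarith
  · apply eq_of_ev
    intro w
    unfold Gr
    rw [ev_sum, ev_mul, ev_pow, ev_rho, cr_apply, ev_C]
    simp only [ev_mul, ev_pd_cx]
    have e1 : (‖w‖ ^ 2) ^ (g - 1) = ‖w‖ ^ (2 * g - 2) := by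
      rw [← pow_mul]
      congr 1
      omega
    rw [← Complex.ofReal_pow, e1, ← Complex.ofReal_mul, ← h1 w, Complex.ofReal_sum]
    apply Finset.sum_congr rfl
    intro i _
    push_cast
    ring
  · rcases hpar with hc | he
    · apply eq_of_ev
      intro w
      have hba : (b : ℝ) - a = 0 := by linarith
      rw [hlapv, hc, hba]
      simp [ev]
    · apply eq_of_ev
      intro w
      rw [hlapv, ev_mul, ev_pow, ev_rho, cr_apply, ev_C, ← Complex.ofReal_pow, ← Complex.ofReal_mul]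
      congr 1
      have e1 : (‖w‖ ^ 2) ^ (g / 2 - 1) = ‖w‖ ^ (g - 2) := by
        rw [← pow_mul]
        congr 1
        obtain ⟨k, hk⟩ := he
        omega
      rw [e1]
      ring
  · have h4 : (g : ℝ) * (a + b) + 4 = 2 * n := by exact_mod_cast h3
    linarith

end Pool.Agent.H72.Is
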