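import Mathlib
import Pool.Agent.H72.Is.K6
set_option autoImplicit false

/-! Factorisation through a continuous function, and the FKM polynomials. -/

open MeasureTheory Set Metric
open scoped ENNReal RealInnerProductSpace BoundedContinuousFunction

namespace Pool.Agent.H72.Is

open MvPolynomial (pderiv)
open Pool.Agent.H789R2.FR (E sg T sg_finite sg_ae)
open Pool.Agent.W5h55.SH
open Pool.Agent.H72.Co
open Finset (range)

/-- a measurable function that is constant on the fibres of a measurable function factors -/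
theorem factor {X : Type*} [MeasurableSpace X] [StandardBorelSpace X] (φ : X → ℝ)
    (hφ : Measurable φ) (hr : MeasurableSet (Set.range φ)) (G : X → ℂ) (hG : Measurable G)
    (h : ∀ x y, φ x = φ y → G x = G y) (M : ℝ) (hM : 0 ≤ M) (hGM : ∀ x, ‖G x‖ ≤ M) :
    ∃ Γ : ℝ → ℂ, Measurable Γ ∧ (∀ t, ‖Γ t‖ ≤ M) ∧ ∀ x, Γ (φ x) = G x := by
  classical
  obtain ⟨Γ, hΓ⟩ : ∃ Γ : ℝ → ℂ, Γ = fun t => if ht : ∃ x, φ x = t then G ht.choose else 0 := ⟨_, rfl⟩
  have h1 : ∀ x, Γ (φ x) = G x := by
    intro x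
    have hx : ∃ y, φ y = φ x := ⟨x, rfl⟩
    rw [hΓ]
    beta_reduce
    rw [dif_pos hx]
    exact h _ _ hx.choose_spec
  have h2 : ∀ t, t ∉ Set.range φ → Γ t = 0 := by
    intro t ht
    rw [hΓ]
    beta_reduce
    rw [dif_neg]
    rintro ⟨x, hx⟩
    exact ht ⟨x, hx⟩
  refine ⟨Γ, ?_, ?_, h1⟩
  · intro A hA
    have e : Γ ⁻¹' A = (Γ ⁻¹' A ∩ Set.range φ) ∪ (Γ ⁻¹' A ∩ (Set.range φ)ᶜ) := by
      rw [← Set.inter_union_distrib_left, Set.union_compl_self, Set.inter_univ]
    rw [e]
    refine MeasurableSet.union ?_ ?_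
    · rw [← hφ.measurableSet_preimage_iff_inter_range hr]
      have : φ ⁻¹' (Γ ⁻¹' A) = G ⁻¹' A := by
        ext x
        simp only [Set.mem_preimage, h1]
      rw [this]
      exact hG hA
    · by_cases h0 : (0 : ℂ) ∈ A
      · have : Γ ⁻¹' A ∩ (Set.range φ)ᶜ = (Set.range φ)ᶜ := by
          apply Set.inter_eq_right.2
          intro t ht
          rw [Set.mem_preimage, h2 t ht]
          exact h0
        rw [this]
        exact hr.compl
      · have : Γ ⁻¹' A ∩ (Set.range φ)ᶜ = ∅ := by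
          apply Set.eq_empty_of_forall_notMem
          rintro t ⟨ht1, ht2⟩
          rw [Set.mem_preimage, h2 t ht2] at ht1
          exact h0 ht1
        rw [this]
        exact MeasurableSet.empty
  · intro t
    by_cases ht : t ∈ Set.range φ
    · obtain ⟨x, rfl⟩ := ht
      rw [h1]
      exact hGM x
    · rw [h2 t ht, norm_zero]
      exact hM

end Pool.Agent.H72.Is
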