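import Mathlib
import Pool.Agent.H72.Is.K7
set_option autoImplicit false

/-! The polynomials of Ferus, Karcher and Münzner. -/

open MeasureTheory Set Metric
open scoped ENNReal RealInnerProductSpace BoundedContinuousFunction

namespace Pool.Agent.H72.Is

open MvPolynomial (pderiv)
open Pool.Agent.H789R2.FR (E sg T sg_finite sg_ae)
open Matrix

variable {n m : ℕ}

/-- the quadratic form of a matrix -/
noncomputable def quad (B : Matrix (Fin n) (Fin n) ℝ) : MvPolynomial (Fin n) ℝ :=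
  ∑ j, ∑ k, MvPolynomial.C (B j k) * (MvPolynomial.X j * MvPolynomial.X k)

/-- the components of the linear map -/
noncomputable def lin (B : Matrix (Fin n) (Fin n) ℝ) (l : Fin n) : MvPolynomial (Fin n) ℝ :=
  ∑ k, MvPolynomial.C (B l k) * MvPolynomial.X k

/-- the square of the norm -/
noncomputable def nsq (n : ℕ) : MvPolynomial (Fin n) ℝ := ∑ i, MvPolynomial.X i ^ 2

/-- the polynomial of Ferus, Karcher and Münzner -/
noncomputable def fkm (A : Fin (m + 1) → Matrix (Fin n) (Fin n) ℝ) : MvPolynomial (Fin n) ℝ :=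
  nsq n ^ 2 - 2 * ∑ i, quad (A i) ^ 2

theorem quad_hom (B : Matrix (Fin n) (Fin n) ℝ) : (quad B).IsHomogeneous 2 := by
  unfold quad
  refine MvPolynomial.IsHomogeneous.sum _ _ _ fun j _ => MvPolynomial.IsHomogeneous.sum _ _ _ fun k _ => ?_
  have := (MvPolynomial.isHomogeneous_C (Fin n) (B j k)).mul
    ((MvPolynomial.isHomogeneous_X ℝ j).mul (MvPolynomial.isHomogeneous_X ℝ k))
  simpa using this

theorem nsq_hom (n : ℕ) : (nsq n).IsHomogeneous 2 := by
  unfold nsq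
  refine MvPolynomial.IsHomogeneous.sum _ _ _ fun j _ => ?_
  exact MvPolynomial.isHomogeneous_X_pow j 2

theorem fkm_hom (A : Fin (m + 1) → Matrix (Fin n) (Fin n) ℝ) : (fkm A).IsHomogeneous 4 := by
  unfold fkm
  refine MvPolynomial.IsHomogeneous.sub ?_ ?_
  · exact (nsq_hom n).pow 2
  · have h1 : (∑ i, quad (A i) ^ 2).IsHomogeneous 4 :=
      MvPolynomial.IsHomogeneous.sum _ _ _ fun i _ => (quad_hom (A i)).pow 2
    have h2 := (MvPolynomial.isHomogeneous_C (Fin n) (2 : ℝ)).mul h1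
    rw [zero_add] at h2
    exact h2

theorem pd_quad (B : Matrix (Fin n) (Fin n) ℝ) (hB : Bᵀ = B) (l : Fin n) :
    pderiv l (quad B) = 2 * lin B l := by
  unfold quad lin
  have h1 : ∀ j k : Fin n, pderiv l (MvPolynomial.C (B j k) * (MvPolynomial.X j * MvPolynomial.X k)) =
      (if k = l then MvPolynomial.C (B j k) * MvPolynomial.X j else 0) +
      (if j = l then MvPolynomial.C (B j k) * MvPolynomial.X k else 0) := by
    intro j k
    rw [MvPolynomial.pderiv_C_mul, Derivation.leibniz, MvPolynomial.pderiv_X, MvPolynomial.pderiv_X,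
      smul_eq_mul, smul_eq_mul, Pi.single_apply, Pi.single_apply]
    by_cases hk : k = l <;> by_cases hj : j = l <;> simp [hk, hj, eq_comm] <;> ring_nf
  simp only [map_sum, h1, Finset.sum_add_distrib]
  have h2 : ∀ k, B k l = B l k := by
    intro k
    have := congrFun (congrFun hB l) k
    rwa [Matrix.transpose_apply] at this
  have e1 : ∑ j, ∑ k, (if k = l then MvPolynomial.C (B j k) * MvPolynomial.X j else 0) =
      ∑ k, (MvPolynomial.C (B l k) * MvPolynomial.X k : MvPolynomial (Fin n) ℝ) := by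
    apply Finset.sum_congr rfl
    intro j _
    rw [Finset.sum_ite_eq' Finset.univ l]
    simp [h2 j]
  have e2 : ∑ j, ∑ k, (if j = l then MvPolynomial.C (B j k) * MvPolynomial.X k else 0) =
      ∑ k, (MvPolynomial.C (B l k) * MvPolynomial.X k : MvPolynomial (Fin n) ℝ) := by
    rw [Finset.sum_comm]
    apply Finset.sum_congr rfl
    intro k _
    rw [Finset.sum_ite_eq' Finset.univ l]
    simp
  rw [e1, e2]
  ring

theorem pd_nsq (l : Fin n) : pderiv l (nsq n) = 2 * MvPolynomial.X l := by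
  unfold nsq
  rw [map_sum, Finset.sum_eq_single l]
  · rw [Derivation.leibniz_pow, MvPolynomial.pderiv_X_self]
    simp
  · intro j _ hj
    rw [Derivation.leibniz_pow, MvPolynomial.pderiv_X_of_ne hj]
    simp
  · simp

theorem pd_lin (B : Matrix (Fin n) (Fin n) ℝ) (l : Fin n) :
    pderiv l (lin B l) = MvPolynomial.C (B l l) := by
  unfold lin
  rw [map_sum, Finset.sum_eq_single l]
  · rw [MvPolynomial.pderiv_C_mul, MvPolynomial.pderiv_X_self, mul_one]
  · intro j _ hj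
    rw [MvPolynomial.pderiv_C_mul, MvPolynomial.pderiv_X_of_ne hj, mul_zero]
  · simp

theorem pd_fkm (A : Fin (m + 1) → Matrix (Fin n) (Fin n) ℝ) (hA : ∀ i, (A i)ᵀ = A i) (l : Fin n) :
    pderiv l (fkm A) = 4 * (nsq n * MvPolynomial.X l) - 8 * ∑ i, quad (A i) * lin (A i) l := by
  unfold fkm
  have h2 : pderiv l (2 * ∑ i, quad (A i) ^ 2) = 2 * pderiv l (∑ i, quad (A i) ^ 2) := by
    have := MvPolynomial.pderiv_C_mul (R := ℝ) (a := 2) (f := ∑ i, quad (A i) ^ 2) (i := l)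
    exact this
  rw [map_sub, h2, map_sum, Derivation.leibniz_pow, pd_nsq]
  have h1 : ∀ i, pderiv l (quad (A i) ^ 2) = 4 * (quad (A i) * lin (A i) l) := by
    intro i
    rw [Derivation.leibniz_pow, pd_quad _ (hA i)]
    simp only [nsmul_eq_mul, smul_eq_mul, Nat.cast_ofNat]
    ring
  rw [Finset.sum_congr rfl fun i _ => h1 i, ← Finset.mul_sum]
  simp only [nsmul_eq_mul, smul_eq_mul, Nat.cast_ofNat]
  ring

theorem pd2_fkm (A : Fin (m + 1) → Matrix (Fin n) (Fin n) ℝ) (hA : ∀ i, (A i)ᵀ = A i) (l : Fin n) :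
    pderiv l (pderiv l (fkm A)) = 8 * MvPolynomial.X l ^ 2 + 4 * nsq n -
      8 * ∑ i, (2 * lin (A i) l ^ 2 + quad (A i) * MvPolynomial.C (A i l l)) := by
  rw [pd_fkm A hA l]
  have h4 : pderiv l (4 * (nsq n * MvPolynomial.X l)) = 4 * pderiv l (nsq n * MvPolynomial.X l) := by
    have := MvPolynomial.pderiv_C_mul (R := ℝ) (a := 4) (f := nsq n * MvPolynomial.X l) (i := l)
    exact this
  have h8 : pderiv l (8 * ∑ i, quad (A i) * lin (A i) l) =
      8 * pderiv l (∑ i, quad (A i) * lin (A i) l) := by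
    have := MvPolynomial.pderiv_C_mul (R := ℝ) (a := 8) (f := ∑ i, quad (A i) * lin (A i) l) (i := l)
    exact this
  rw [map_sub, h4, h8, map_sum, Derivation.leibniz, pd_nsq, MvPolynomial.pderiv_X_self]
  have h1 : ∀ i, pderiv l (quad (A i) * lin (A i) l) =
      2 * lin (A i) l ^ 2 + quad (A i) * MvPolynomial.C (A i l l) := by
    intro i
    rw [Derivation.leibniz, pd_quad _ (hA i), pd_lin]
    simp only [smul_eq_mul]
    ring
  rw [Finset.sum_congr rfl fun i _ => h1 i]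
  simp only [smul_eq_mul]
  ring

section values

theorem pv_quad (B : Matrix (Fin n) (Fin n) ℝ) (x : E n) :
    pv (quad B) x = ∑ j, ∑ k, B j k * (x j * x k) := by
  unfold pv quad
  simp [map_sum]

theorem pv_lin (B : Matrix (Fin n) (Fin n) ℝ) (l : Fin n) (x : E n) :
    pv (lin B l) x = (B *ᵥ x.ofLp) l := by
  unfold pv lin
  simp [map_sum, Matrix.mulVec, dotProduct]

theorem pv_nsq (x : E n) : pv (nsq n) x = ‖x‖ ^ 2 := by
  unfold pv nsq
  rw [EuclideanSpace.real_norm_sq_eq]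
  simp [map_sum]

theorem quad_dot (B : Matrix (Fin n) (Fin n) ℝ) (x : E n) :
    pv (quad B) x = ∑ l, x l * (B *ᵥ x.ofLp) l := by
  rw [pv_quad]
  simp only [Matrix.mulVec, dotProduct, Finset.mul_sum]
  apply Finset.sum_congr rfl
  intro j _
  apply Finset.sum_congr rfl
  intro k _
  ring

end values

/-- symmetric Clifford systems -/
structure Cliff (n m : ℕ) (A : Fin (m + 1) → Matrix (Fin n) (Fin n) ℝ) : Prop where
  symm : ∀ i, (A i)ᵀ = A i
  rel : ∀ i j, A i * A j + A j * A i = if i = j then 2 else 0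

theorem Cliff.dot {A : Fin (m + 1) → Matrix (Fin n) (Fin n) ℝ} (h : Cliff n m A) (x : E n)
    (i j : Fin (m + 1)) : ∑ l, (A i *ᵥ x.ofLp) l * (A j *ᵥ x.ofLp) l = if i = j then ‖x‖ ^ 2 else 0 := by
  have h1 : ∀ i j, ∑ l, (A i *ᵥ x.ofLp) l * (A j *ᵥ x.ofLp) l = x.ofLp ⬝ᵥ ((A i * A j) *ᵥ x.ofLp) := by
    intro i j
    have : ∑ l, (A i *ᵥ x.ofLp) l * (A j *ᵥ x.ofLp) l = (A i *ᵥ x.ofLp) ⬝ᵥ (A j *ᵥ x.ofLp) := rfl
    rw [this, ← Matrix.mulVec_mulVec, Matrix.dotProduct_mulVec x.ofLp (A i), ← Matrix.mulVec_transpose,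
      h.symm i]
  have h2 := h1 i j
  have h3 := h1 j i
  have h4 : ∑ l, (A j *ᵥ x.ofLp) l * (A i *ᵥ x.ofLp) l = ∑ l, (A i *ᵥ x.ofLp) l * (A j *ᵥ x.ofLp) l := by
    apply Finset.sum_congr rfl
    intro l _
    ring
  have h5 : x.ofLp ⬝ᵥ ((A i * A j) *ᵥ x.ofLp) + x.ofLp ⬝ᵥ ((A j * A i) *ᵥ x.ofLp) =
      x.ofLp ⬝ᵥ ((A i * A j + A j * A i) *ᵥ x.ofLp) := by
    rw [Matrix.add_mulVec, dotProduct_add]
  rw [h.rel i j] at h5
  have h6 : x.ofLp ⬝ᵥ x.ofLp = ‖x‖ ^ 2 := by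
    rw [EuclideanSpace.real_norm_sq_eq]
    simp [dotProduct, sq]
  by_cases hij : i = j
  · rw [if_pos hij] at h5 ⊢
    have h7 : (2 : Matrix (Fin n) (Fin n) ℝ) *ᵥ x.ofLp = (2 : ℝ) • x.ofLp := by
      have : (2 : Matrix (Fin n) (Fin n) ℝ) = (2 : ℝ) • (1 : Matrix (Fin n) (Fin n) ℝ) := by
        rw [two_smul, one_add_one_eq_two]
      rw [this, Matrix.smul_mulVec, Matrix.one_mulVec]
    rw [h7, dotProduct_smul, h6, smul_eq_mul] at h5
    linarith
  · rw [if_neg hij] at h5 ⊢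
    rw [Matrix.zero_mulVec, dotProduct_zero] at h5
    linarith

theorem Cliff.trace {A : Fin (m + 1) → Matrix (Fin n) (Fin n) ℝ} (h : Cliff n m A) (hm : 1 ≤ m)
    (i : Fin (m + 1)) : ∑ l, A i l l = 0 := by
  have htr : ∑ l, A i l l = (A i).trace := rfl
  obtain ⟨j, hj⟩ : ∃ j : Fin (m + 1), j ≠ i := by
    by_cases hi : i = 0
    · refine ⟨⟨1, by omega⟩, ?_⟩
      rw [hi]
      intro hc
      have := congrArg Fin.val hc
      simp at this
    · exact ⟨0, fun hc => hi hc.symm⟩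
  have h1 : A j * A j = 1 := by
    have h2 := h.rel j j
    rw [if_pos rfl] at h2
    have h3 : (2 : ℝ) • (A j * A j) = (2 : ℝ) • (1 : Matrix (Fin n) (Fin n) ℝ) := by
      rw [two_smul, two_smul, h2, one_add_one_eq_two]
    exact smul_right_injective _ (two_ne_zero) h3
  have h2 : A j * A i = -(A i * A j) := by
    have := h.rel j i
    rw [if_neg hj] at this
    exact eq_neg_of_add_eq_zero_left this
  have h3 : (A i).trace = -(A i).trace := by
    calc (A i).trace = (A j * (A j * A i)).trace := by rw [← mul_assoc, h1, one_mul]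
      _ = (A j * A i * A j).trace := Matrix.trace_mul_comm _ _
      _ = (-(A i * A j) * A j).trace := by rw [h2]
      _ = _ := by rw [neg_mul, mul_assoc, h1, mul_one, Matrix.trace_neg]
  rw [htr]
  linarith

theorem Cliff.grad {A : Fin (m + 1) → Matrix (Fin n) (Fin n) ℝ} (h : Cliff n m A) (x : E n) :
    ∑ l, pv (pderiv l (fkm A)) x ^ 2 = ((4 : ℕ) : ℝ) ^ 2 * ‖x‖ ^ (2 * 4 - 2) := by
  have h1 : ∀ l, pv (pderiv l (fkm A)) x =
      4 * (‖x‖ ^ 2 * x l) - 8 * ∑ i, pv (quad (A i)) x * (A i *ᵥ x.ofLp) l := by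
    intro l
    rw [pd_fkm A h.symm l, ← pv_nsq]
    have : ∀ i, (A i *ᵥ x.ofLp) l = pv (lin (A i) l) x := fun i => (pv_lin (A i) l x).symm
    simp only [this]
    unfold pv
    simp [map_sum]
  obtain ⟨Q, hQ⟩ : ∃ Q : Fin (m + 1) → ℝ, Q = fun i => pv (quad (A i)) x := ⟨_, rfl⟩
  obtain ⟨V, hV⟩ : ∃ V : Fin (m + 1) → Fin n → ℝ, V = fun i l => (A i *ᵥ x.ofLp) l := ⟨_, rfl⟩
  have hQ' : ∀ i, Q i = ∑ l, x l * V i l := by
    intro i
    rw [hQ, hV]
    exact quad_dot _ _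
  have hVV : ∀ i j, ∑ l, V i l * V j l = if i = j then ‖x‖ ^ 2 else 0 := by
    intro i j
    rw [hV]
    exact h.dot x i j
  have h1' : ∀ l, pv (pderiv l (fkm A)) x = 4 * (‖x‖ ^ 2 * x l) - 8 * ∑ i, Q i * V i l := by
    intro l
    rw [h1, hQ, hV]
  have h2 : ∑ l, x l ^ 2 = ‖x‖ ^ 2 := (EuclideanSpace.real_norm_sq_eq x).symm
  have h3 : ∑ l, x l * ∑ i, Q i * V i l = ∑ i, Q i ^ 2 := by
    simp only [Finset.mul_sum]
    rw [Finset.sum_comm]
    apply Finset.sum_congr rfl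
    intro i _
    have : ∑ l, x l * (Q i * V i l) = Q i * ∑ l, x l * V i l := by
      rw [Finset.mul_sum]
      apply Finset.sum_congr rfl
      intro l _
      ring
    rw [this, ← hQ', sq]
  have h4 : ∑ l, (∑ i, Q i * V i l) ^ 2 = ‖x‖ ^ 2 * ∑ i, Q i ^ 2 := by
    have e1 : ∀ l, (∑ i, Q i * V i l) ^ 2 = ∑ i, ∑ j, Q i * Q j * (V i l * V j l) := by
      intro l
      rw [sq, Finset.sum_mul_sum]
      apply Finset.sum_congr rfl
      intro i _
      apply Finset.sum_congr rfl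
      intro j _
      ring
    simp only [e1]
    rw [Finset.sum_comm, Finset.mul_sum]
    apply Finset.sum_congr rfl
    intro i _
    rw [Finset.sum_comm]
    have e2 : ∀ j, ∑ l, Q i * Q j * (V i l * V j l) = if i = j then ‖x‖ ^ 2 * (Q i * Q j) else 0 := by
      intro j
      rw [← Finset.mul_sum, hVV]
      split_ifs <;> ring
    simp only [e2]
    rw [Finset.sum_ite_eq Finset.univ i]
    simp [sq]
  have h5 : ∀ l, pv (pderiv l (fkm A)) x ^ 2 = 16 * (‖x‖ ^ 2) ^ 2 * x l ^ 2 -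
      64 * ‖x‖ ^ 2 * (x l * ∑ i, Q i * V i l) + 64 * (∑ i, Q i * V i l) ^ 2 := by
    intro l
    rw [h1']
    ring
  simp only [h5]
  rw [Finset.sum_add_distrib, Finset.sum_sub_distrib, ← Finset.mul_sum, ← Finset.mul_sum,
    ← Finset.mul_sum, h2, h3, h4]
  push_cast
  ring

theorem Cliff.lapl {A : Fin (m + 1) → Matrix (Fin n) (Fin n) ℝ} (h : Cliff n m A) (hm : 1 ≤ m)
    (x : E n) : ∑ l, pv (pderiv l (pderiv l (fkm A))) x =
      (4 * (n : ℝ) - 16 * m - 8) * ‖x‖ ^ 2 := by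
  have h1 : ∀ l, pv (pderiv l (pderiv l (fkm A))) x = 8 * x l ^ 2 + 4 * ‖x‖ ^ 2 -
      8 * ∑ i, (2 * ((A i *ᵥ x.ofLp) l * (A i *ᵥ x.ofLp) l) + pv (quad (A i)) x * A i l l) := by
    intro l
    rw [pd2_fkm A h.symm l, ← pv_nsq]
    have : ∀ i, (A i *ᵥ x.ofLp) l = pv (lin (A i) l) x := fun i => (pv_lin (A i) l x).symm
    simp only [this]
    unfold pv
    simp [map_sum, sq]
  have h2 : ∑ l, x l ^ 2 = ‖x‖ ^ 2 := (EuclideanSpace.real_norm_sq_eq x).symm
  simp only [h1]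
  rw [Finset.sum_sub_distrib, Finset.sum_add_distrib, ← Finset.mul_sum, h2, ← Finset.mul_sum,
    ← Finset.mul_sum, Finset.sum_comm]
  have h3 : ∀ i, ∑ l, (2 * ((A i *ᵥ x.ofLp) l * (A i *ᵥ x.ofLp) l) + pv (quad (A i)) x * A i l l) =
      2 * ‖x‖ ^ 2 := by
    intro i
    rw [Finset.sum_add_distrib, ← Finset.mul_sum, ← Finset.mul_sum, h.trace hm, h.dot, if_pos rfl]
    ring
  simp only [h3, Finset.sum_const, Finset.card_univ, Fintype.card_fin, nsmul_eq_mul]
  push_cast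
  ring

end Pool.Agent.H72.Is
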