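import Mathlib
import Pool.Agent.H72.Is.K8
import Pool.Agent.H72.Lib.Sf0cf.H438R2.BR.Fam
set_option autoImplicit false

namespace Pool.Agent.H72.Is

open MeasureTheory Set Metric Complex
open Pool.Agent.H438R2.PD (T_meas')
open Pool.Agent.H789R2.FR (E sg T sg_finite)
open Pool.Agent.H438R2.BR
open scoped ENNReal RealInnerProductSpace

variable {ν g : ℕ} {s c : ℝ}

theorem scale {n : ℕ} (f : E n → ℝ≥0∞) (hf : Measurable f) :
    ∫⁻ ξ : E n, f ((2 * Real.pi) • ξ) =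
      ENNReal.ofReal ((2 * Real.pi) ^ n)⁻¹ * ∫⁻ z, f z := by
  have h2pi : (2 * Real.pi) ≠ 0 := by positivity
  have h3 := Measure.map_addHaar_smul (volume : Measure (E n)) h2pi
  have h4 : ∫⁻ x : E n, f x ∂(Measure.map ((2 * Real.pi) • · : E n → E n) volume) =
      ∫⁻ ξ : E n, f ((2 * Real.pi) • ξ) := lintegral_map hf (measurable_const_smul _)
  rw [← h4, h3, lintegral_smul_measure, smul_eq_mul, finrank_euclideanSpace_fin,
    abs_of_nonneg (by positivity)]

theorem U_eq {n : ℕ} (τ : E n → ℝ) (γ : ℝ → ℂ) (ξ : E n) :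
    Fam.U τ γ ξ = T (fun w => γ (τ w)) ((2 * Real.pi) • ξ) := by
  unfold Fam.U T
  refine integral_congr_ae (Filter.Eventually.of_forall fun w => ?_)
  simp only
  rw [real_inner_smul_left, real_inner_comm]

theorem good_pv {p : MvPolynomial (Fin (2 * ν + 2)) ℝ} (h : Iso (2 * ν + 2) g s c (cx p)) {q : ℝ}
    (hq : 2 * (2 * (ν : ℝ) + 2) / (2 * ν + 1) < q) :
    ∃ C : ℝ, 0 < C ∧ Fam.Good (pv p : E (2 * ν + 2) → ℝ) q C := by
  obtain ⟨C, hC, hT⟩ := full_range h hq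
  have hq0 : 0 < q := lt_of_le_of_lt (by positivity) hq
  refine ⟨C, hC, ?_⟩
  intro γ M hγ hM
  have hM0 : 0 ≤ M := (norm_nonneg _).trans (hM 0)
  set γ' : ℝ → ℂ := fun x => ((M⁻¹ : ℝ) : ℂ) * γ x with hγ'
  have hγ'm : Measurable γ' := hγ.const_mul _
  have hγ'1 : ∀ x, ‖γ' x‖ ≤ 1 := by
    intro x
    rw [hγ']
    simp only
    rw [norm_mul, Complex.norm_real, Real.norm_of_nonneg (inv_nonneg.2 hM0)]
    rcases hM0.eq_or_lt with h0 | h0
    · rw [← h0]; simp
    · rw [inv_mul_le_iff₀ h0, mul_one]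
      exact hM _
  have hγeq : ∀ x, γ x = (M : ℂ) * γ' x := by
    intro x
    rw [hγ']
    simp only
    rcases hM0.eq_or_lt with h0 | h0
    · have h1 := hM x
      rw [← h0] at h1
      rw [norm_le_zero_iff.1 h1]
      simp
    · rw [← mul_assoc, ← Complex.ofReal_mul, mul_inv_cancel₀ h0.ne', Complex.ofReal_one, one_mul]
  have hTm : Measurable (T fun w : E (2 * ν + 2) => γ' (pv p w)) :=
    T_meas' _ (hγ'm.comp (pv_cont p).measurable)
  have hint := hT γ' hγ'm hγ'1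
  have hpt : ∀ ξ, ENNReal.ofReal (‖Fam.U (pv p : E (2 * ν + 2) → ℝ) γ ξ‖ ^ q) =
      ENNReal.ofReal (M ^ q) *
        ‖T (fun w : E (2 * ν + 2) => γ' (pv p w)) ((2 * Real.pi) • ξ)‖ₑ ^ q := by
    intro ξ
    rw [U_eq]
    have e : T (fun w : E (2 * ν + 2) => γ (pv p w)) ((2 * Real.pi) • ξ) =
        (M : ℂ) * T (fun w : E (2 * ν + 2) => γ' (pv p w)) ((2 * Real.pi) • ξ) := by
      unfold T
      rw [← integral_const_mul]
      refine integral_congr_ae (Filter.Eventually.of_forall fun x => ?_)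
      simp only
      rw [hγeq (pv p x)]
      ring
    rw [e, norm_mul, Complex.norm_real, Real.norm_of_nonneg hM0,
      Real.mul_rpow hM0 (norm_nonneg _), ENNReal.ofReal_mul (by positivity),
      ← ENNReal.ofReal_rpow_of_nonneg (norm_nonneg _) hq0.le, ofReal_norm]
  simp_rw [hpt]
  rw [lintegral_const_mul' _ _ ENNReal.ofReal_ne_top,
    scale (fun z => ‖T (fun w : E (2 * ν + 2) => γ' (pv p w)) z‖ₑ ^ q) (hTm.enorm.pow_const q)]
  have h5 : ENNReal.ofReal ((2 * Real.pi) ^ (2 * ν + 2))⁻¹ ≤ 1 := by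
    rw [ENNReal.ofReal_le_one]
    apply inv_le_one_of_one_le₀
    apply one_le_pow₀
    linarith [Real.pi_gt_three]
  calc _ ≤ ENNReal.ofReal (M ^ q) * (1 * ENNReal.ofReal C) := by gcongr
    _ = _ := by
      rw [one_mul, ← ENNReal.ofReal_mul (by positivity), mul_comm]

end Pool.Agent.H72.Is
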